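import Pool.Statements.S01687
import Pool.Agent.Lib.MP_61cf81_al.Decomp

set_option autoImplicit false
open Matrix
open scoped ComplexOrder
open Pool Pool.MP_61cf81_al

namespace Pool.Agent.S01687

open Pool.Agent.Lib.MP_61cf81_al in
lemma sq_eq (A : Matrix (Fin 4) (Fin 4) ℂ) (σ τ : Equiv.Perm (Fin 4)) :
    ∏ t : Fin 4, A (σ t) (τ t) = ∏ j : Fin 4, A ((σ * τ⁻¹) j) j := by
  rw [← Equiv.prod_comp τ (fun j => A ((σ * τ⁻¹) j) j)]
  apply Finset.prod_congr rfl
  intro t _
  simp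

open Pool.Agent.Lib.MP_61cf81_al in
/-- the form of `per - (Schur power)` -/
lemma form_eq (A : Matrix (Fin 4) (Fin 4) ℂ) (x : Equiv.Perm (Fin 4) → ℂ) :
    QK A x (fun g σ τ => (if σ = τ then 1 else 0) - (if σ = g * τ then 1 else 0)) =
      (Matrix.permanent A) * (∑ σ, (starRingEnd ℂ) (x σ) * x σ) -
      ∑ σ, (starRingEnd ℂ) (x σ) * ((Matrix.of (fun (σ : Equiv.Perm (Fin 4))
        (τ : Equiv.Perm (Fin 4)) => ∏ t : Fin 4, A (σ t) (τ t))).mulVec x) σ := by
  have h1 : ∀ g : Equiv.Perm (Fin 4), ∑ σ : Equiv.Perm (Fin 4), ∑ τ : Equiv.Perm (Fin 4),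
      (starRingEnd ℂ) (x σ) * x τ * (((if σ = τ then 1 else 0) -
        (if σ = g * τ then 1 else 0) : ℤ) : ℂ) = (∑ σ, (starRingEnd ℂ) (x σ) * x σ) -
        ∑ τ, (starRingEnd ℂ) (x (g * τ)) * x τ := by
    intro g
    rw [Finset.sum_comm, ← Finset.sum_sub_distrib]
    apply Finset.sum_congr rfl
    intro τ _
    have h2 : ∀ σ : Equiv.Perm (Fin 4), (starRingEnd ℂ) (x σ) * x τ *
        (((if σ = τ then 1 else 0) - (if σ = g * τ then 1 else 0) : ℤ) : ℂ) =
        (if σ = τ then (starRingEnd ℂ) (x σ) * x τ else 0) -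
        (if σ = g * τ then (starRingEnd ℂ) (x σ) * x τ else 0) := by
      intro σ
      push_cast
      split_ifs <;> ring
    rw [Finset.sum_congr rfl (fun σ _ => h2 σ), Finset.sum_sub_distrib, Finset.sum_ite_eq',
      Finset.sum_ite_eq', if_pos (Finset.mem_univ _), if_pos (Finset.mem_univ _)]
  have h3 : ∑ σ, (starRingEnd ℂ) (x σ) * ((Matrix.of (fun (σ : Equiv.Perm (Fin 4))
        (τ : Equiv.Perm (Fin 4)) => ∏ t : Fin 4, A (σ t) (τ t))).mulVec x) σ =
      ∑ g : Equiv.Perm (Fin 4), (∏ j, A (g j) j) *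
        ∑ τ, (starRingEnd ℂ) (x (g * τ)) * x τ := by
    simp only [Matrix.mulVec, dotProduct, Matrix.of_apply, sq_eq, Finset.mul_sum]
    rw [Finset.sum_comm]
    rw [Finset.sum_comm (s := Finset.univ) (t := Finset.univ)
      (f := fun g τ => (∏ j, A (g j) j) * ((starRingEnd ℂ) (x (g * τ)) * x τ))]
    apply Finset.sum_congr rfl
    intro τ _
    rw [← Equiv.sum_comp (Equiv.mulRight τ)]
    apply Finset.sum_congr rfl
    intro g _
    simp only [Equiv.coe_mulRight, mul_inv_cancel_right]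
    ring
  unfold QK
  rw [h3, Finset.sum_congr rfl (fun g _ => by rw [h1 g])]
  rw [Matrix.permanent, Finset.sum_mul, ← Finset.sum_sub_distrib]
  apply Finset.sum_congr rfl
  intro g _
  ring

/-- For every complex 4x4 positive semidefinite A, per A is an eigenvalue of the 24x24 Schur power matrix (all-ones eigenvector), and every eigenvalue of that matrix has real part at most per A. -/
theorem result :
    ∀ A : Matrix (Fin 4) (Fin 4) ℂ, A.PosSemidef →
      ((Matrix.of (fun (σ : Equiv.Perm (Fin 4)) (τ : Equiv.Perm (Fin 4)) =>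
            ∏ t : Fin 4, A (σ t) (τ t))).mulVec (fun _ : Equiv.Perm (Fin 4) => (1 : ℂ))
          = (Matrix.permanent A) • (fun _ : Equiv.Perm (Fin 4) => (1 : ℂ))) ∧
      ∀ (μ : ℂ) (x : Equiv.Perm (Fin 4) → ℂ), x ≠ 0 →
        (Matrix.of (fun (σ : Equiv.Perm (Fin 4)) (τ : Equiv.Perm (Fin 4)) =>
            ∏ t : Fin 4, A (σ t) (τ t))).mulVec x = μ • x →
          μ.re ≤ (Matrix.permanent A).re := by
  intro A hA
  refine ⟨?_, ?_⟩
  · funext σ
    simp only [Matrix.mulVec, dotProduct, Matrix.of_apply, sq_eq, Pi.smul_apply, smul_eq_mul,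
      mul_one]
    rw [Matrix.permanent]
    exact Equiv.sum_comp ((Equiv.inv (Equiv.Perm (Fin 4))).trans (Equiv.mulLeft σ))
      (fun g : Equiv.Perm (Fin 4) => ∏ j, A (g j) j)
  · intro μ x hx hμ
    have h1 := Pool.Agent.Lib.MP_61cf81_al.QK_main hA x
    rw [form_eq, hμ] at h1
    have h2 : ∑ σ, (starRingEnd ℂ) (x σ) * (μ • x) σ =
        μ * ∑ σ, (starRingEnd ℂ) (x σ) * x σ := by
      rw [Finset.mul_sum]
      apply Finset.sum_congr rfl
      intro σ _
      simp only [Pi.smul_apply, smul_eq_mul]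
      ring
    have h3 : ∑ σ, (starRingEnd ℂ) (x σ) * x σ = ((∑ σ, Complex.normSq (x σ) : ℝ) : ℂ) := by
      push_cast
      apply Finset.sum_congr rfl
      intro σ _
      rw [Complex.normSq_eq_conj_mul_self]
    have h4 : 0 < ∑ σ, Complex.normSq (x σ) := by
      obtain ⟨σ, hσ⟩ := Function.ne_iff.1 hx
      exact Finset.sum_pos' (fun τ _ => Complex.normSq_nonneg _)
        ⟨σ, Finset.mem_univ _, Complex.normSq_pos.2 hσ⟩
    rw [h2, h3, ← sub_mul, mul_comm, Complex.re_ofReal_mul, Complex.sub_re] at h1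
    have h5 := (mul_nonneg_iff_of_pos_left h4).1 h1
    linarith

end Pool.Agent.S01687
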