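import Pool.Statements.S00236
import Pool.Agent.Lib.MP_6c4343_ag.Main

set_option autoImplicit false
open Pool Pool.MP_6c4343_ag

namespace Pool.Agent.S00236

/-- The negation of the preceding statement: For every n and every continuous f on ℝⁿ: f agrees pointwise with one of finitely many real polynomials if and only if f is a finite max of finite mins of real polynomials. -/
theorem result :
    ¬ (∀ (n : ℕ) (f : (Fin n → ℝ) → ℝ), Continuous f →
      ((∃ s : Finset (MvPolynomial (Fin n) ℝ),
          ∀ a : Fin n → ℝ, ∃ p ∈ s, f a = MvPolynomial.eval a p) ↔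
       (∃ m k : ℕ, 0 < m ∧ 0 < k ∧
          ∃ q : Fin m → Fin k → MvPolynomial (Fin n) ℝ,
            ∀ a : Fin n → ℝ, f a = ⨆ i : Fin m, ⨅ j : Fin k, MvPolynomial.eval a (q i j)))) :=
  Pool.Agent.PB61.main

end Pool.Agent.S00236
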