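import Pool.Statements.S01044
import Pool.Agent.Lib.MP_2c0439_al.Many
import Pool.Agent.Lib.MP_2c0439_al.Few

set_option autoImplicit false
open Pool Pool.MP_2c0439_al

namespace Pool.Agent.S01044

open Pool.Agent.MP_2c0439_al in
/-- The interval of the construction. -/
theorem set_eq : {F : (n : ℕ) → Set ((Fin (n+1) → Fin 4) → Option (Fin 4)) |
        (∀ (n : ℕ) (i : Fin (n+1)), (fun x : Fin (n+1) → Fin 4 => some (x i)) ∈ F n) ∧
        (∀ (n m : ℕ) (f : (Fin (n+1) → Fin 4) → Option (Fin 4))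
            (g : Fin (n+1) → (Fin (m+1) → Fin 4) → Option (Fin 4))
            (h : (Fin (m+1) → Fin 4) → Option (Fin 4)),
            f ∈ F n → (∀ i, g i ∈ F m) →
            (∀ x b, h x = some b ↔
              ∃ y : Fin (n+1) → Fin 4, (∀ i, g i x = some (y i)) ∧ f y = some b) →
            h ∈ F m) ∧
        (∀ (n : ℕ) (f h : (Fin (n+1) → Fin 4) → Option (Fin 4)),
            f ∈ F n → (∀ x b, h x = some b → f x = some b) → h ∈ F n) ∧
        (∀ (n : ℕ) (f : (Fin (n+1) → Fin 4) → Fin 4),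
            f ∈ C n ↔ (fun x => some (f x)) ∈ F n)} = {F : Fam | IsI F} := by
  ext F
  constructor
  · rintro ⟨h1, h2, h3, h4⟩
    exact ⟨h1, h2, h3, h4⟩
  · rintro ⟨h1, h2, h3, h4⟩
    exact ⟨h1, h2, h3, h4⟩

/-- The negation of the preceding statement: For every finite set of size at least 3 and every clone C on it, the strong partial clones (closed under composition and restriction) whose total part is C form a finite set or a set of continuum size. -/
theorem result :
    ¬ (∀ k : ℕ, 3 ≤ k →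
  ∀ C : (n : ℕ) → Set ((Fin (n+1) → Fin k) → Fin k),
    (∀ (n : ℕ) (i : Fin (n+1)), (fun x : Fin (n+1) → Fin k => x i) ∈ C n) →
    (∀ (n m : ℕ) (f : (Fin (n+1) → Fin k) → Fin k)
        (g : Fin (n+1) → (Fin (m+1) → Fin k) → Fin k),
        f ∈ C n → (∀ i, g i ∈ C m) →
        (fun x : Fin (m+1) → Fin k => f (fun i => g i x)) ∈ C m) →
    (Set.Finite {F : (n : ℕ) → Set ((Fin (n+1) → Fin k) → Option (Fin k)) |
        (∀ (n : ℕ) (i : Fin (n+1)), (fun x : Fin (n+1) → Fin k => some (x i)) ∈ F n) ∧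
        (∀ (n m : ℕ) (f : (Fin (n+1) → Fin k) → Option (Fin k))
            (g : Fin (n+1) → (Fin (m+1) → Fin k) → Option (Fin k))
            (h : (Fin (m+1) → Fin k) → Option (Fin k)),
            f ∈ F n → (∀ i, g i ∈ F m) →
            (∀ x b, h x = some b ↔
              ∃ y : Fin (n+1) → Fin k, (∀ i, g i x = some (y i)) ∧ f y = some b) →
            h ∈ F m) ∧
        (∀ (n : ℕ) (f h : (Fin (n+1) → Fin k) → Option (Fin k)),
            f ∈ F n → (∀ x b, h x = some b → f x = some b) → h ∈ F n) ∧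
        (∀ (n : ℕ) (f : (Fin (n+1) → Fin k) → Fin k),
            f ∈ C n ↔ (fun x => some (f x)) ∈ F n)}
    ∨ Cardinal.mk ↥{F : (n : ℕ) → Set ((Fin (n+1) → Fin k) → Option (Fin k)) |
        (∀ (n : ℕ) (i : Fin (n+1)), (fun x : Fin (n+1) → Fin k => some (x i)) ∈ F n) ∧
        (∀ (n m : ℕ) (f : (Fin (n+1) → Fin k) → Option (Fin k))
            (g : Fin (n+1) → (Fin (m+1) → Fin k) → Option (Fin k))
            (h : (Fin (m+1) → Fin k) → Option (Fin k)),
            f ∈ F n → (∀ i, g i ∈ F m) →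
            (∀ x b, h x = some b ↔
              ∃ y : Fin (n+1) → Fin k, (∀ i, g i x = some (y i)) ∧ f y = some b) →
            h ∈ F m) ∧
        (∀ (n : ℕ) (f h : (Fin (n+1) → Fin k) → Option (Fin k)),
            f ∈ F n → (∀ x b, h x = some b → f x = some b) → h ∈ F n) ∧
        (∀ (n : ℕ) (f : (Fin (n+1) → Fin k) → Fin k),
            f ∈ C n ↔ (fun x => some (f x)) ∈ F n)} = Cardinal.continuum)) := by
  intro hall
  have h := hall 4 (by norm_num) Pool.Agent.MP_2c0439_al.C ?_ ?_
  · rw [set_eq] at h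
    rcases h with h | h
    · exact Set.infinite_of_injective_forall_mem Pool.Agent.MP_2c0439_al.many
        (fun k => Pool.Agent.MP_2c0439_al.isI_pPol_path (N := k + 2) (by omega)) h
    · have h1 : Cardinal.mk ↥{F : Pool.Agent.MP_2c0439_al.Fam | Pool.Agent.MP_2c0439_al.IsI F} ≤
          Cardinal.aleph0 := Cardinal.le_aleph0_iff_set_countable.mpr
            Pool.Agent.MP_2c0439_al.countable_isI
      rw [h] at h1
      exact absurd h1 (not_le.mpr Cardinal.aleph0_lt_continuum)
  · intro n i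
    exact ⟨fun a b hab => hab i, fun a ha => ha i⟩
  · intro n m f g hf hg
    exact ⟨fun a b hab => hf.1 _ _ (fun i => (hg i).1 a b hab),
      fun a ha => hf.2 _ (fun i => (hg i).2 a ha)⟩

end Pool.Agent.S01044
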