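-- Disproof of the frozen statement of MP_58cc81_al.
import Pool.Statements.S01554

set_option autoImplicit false
open Pool Pool.MP_58cc81_al

namespace Pool.Agent.S01554

/-- The discrete elementary abelian 2-group of countable rank. -/
abbrev V : Type := ℕ →₀ ZMod 2

/-- The underlying space: a discrete group times a compact connected torus. -/
@[ext] structure G : Type where
  v : V
  a : ℕ × ℕ → Circle

/-- The sign character. -/
noncomputable abbrev χ : AddChar (ZMod 2) Circle := ZMod.toCircle

/-- The bilinear cocycle. -/
noncomputable def c (v w : V) : ℕ × ℕ → Circle := fun p => χ (v p.1 * w p.2)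

lemma c_add_left (u v w : V) : c (u + v) w = c u w * c v w := by
  funext p
  simp only [c, Finsupp.add_apply, add_mul, Pi.mul_apply]
  exact χ.map_add_eq_mul _ _

lemma c_add_right (u v w : V) : c u (v + w) = c u v * c u w := by
  funext p
  simp only [c, Finsupp.add_apply, mul_add, Pi.mul_apply]
  exact χ.map_add_eq_mul _ _

lemma c_zero_left (w : V) : c 0 w = 1 := by
  funext p
  simp [c]

lemma c_zero_right (w : V) : c w 0 = 1 := by
  funext p
  simp [c]

lemma c_neg_left (v w : V) : c (-v) w = (c v w)⁻¹ := by
  have h := c_add_left (-v) v w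
  rw [neg_add_cancel, c_zero_left] at h
  exact eq_inv_of_mul_eq_one_left h.symm

noncomputable instance : Group G where
  mul x y := ⟨x.v + y.v, x.a * y.a * c x.v y.v⟩
  one := ⟨0, 1⟩
  inv x := ⟨-x.v, x.a⁻¹ * c x.v x.v⟩
  mul_assoc x y z := by
    show (⟨_, _⟩ : G) = ⟨_, _⟩
    refine G.ext (add_assoc _ _ _) ?_
    show x.a * y.a * c x.v y.v * z.a * c (x.v + y.v) z.v
      = x.a * (y.a * z.a * c y.v z.v) * c x.v (y.v + z.v)
    rw [c_add_left, c_add_right]
    simp only [mul_comm, mul_left_comm]
  one_mul x := by
    refine G.ext (zero_add _) ?_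
    show 1 * x.a * c 0 x.v = x.a
    rw [c_zero_left]; simp
  mul_one x := by
    refine G.ext (add_zero _) ?_
    show x.a * 1 * c x.v 0 = x.a
    rw [c_zero_right]; simp
  inv_mul_cancel x := by
    refine G.ext (neg_add_cancel _) ?_
    show x.a⁻¹ * c x.v x.v * x.a * c (-x.v) x.v = 1
    rw [c_neg_left, mul_comm x.a⁻¹, mul_assoc (c x.v x.v), inv_mul_cancel, mul_one,
      mul_inv_cancel]

lemma mul_v (x y : G) : (x * y).v = x.v + y.v := rfl
lemma mul_a (x y : G) : (x * y).a = x.a * y.a * c x.v y.v := rfl
lemma one_v : (1 : G).v = 0 := rfl
lemma one_a : (1 : G).a = 1 := rfl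
lemma inv_v (x : G) : (x⁻¹).v = -x.v := rfl
lemma inv_a (x : G) : (x⁻¹).a = x.a⁻¹ * c x.v x.v := rfl

/-- `V` with the discrete topology. -/
instance : TopologicalSpace V := ⊥
instance : DiscreteTopology V := ⟨rfl⟩

/-- identification with the product -/
def toProd (x : G) : V × (ℕ × ℕ → Circle) := (x.v, x.a)

noncomputable instance : TopologicalSpace G := TopologicalSpace.induced toProd inferInstance

/-- The homeomorphism with the product. -/
noncomputable def homeo : G ≃ₜ V × (ℕ × ℕ → Circle) where
  toFun := toProd
  invFun p := ⟨p.1, p.2⟩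
  left_inv _ := rfl
  right_inv _ := rfl
  continuous_toFun := continuous_induced_dom
  continuous_invFun := by
    rw [continuous_induced_rng]
    exact continuous_id

lemma cont_v : Continuous (fun x : G => x.v) :=
  continuous_fst.comp homeo.continuous

lemma cont_a : Continuous (fun x : G => x.a) :=
  continuous_snd.comp homeo.continuous

lemma cont_mk {X : Type} [TopologicalSpace X] {f : X → V} {g : X → ℕ × ℕ → Circle}
    (hf : Continuous f) (hg : Continuous g) : Continuous (fun x => (⟨f x, g x⟩ : G)) :=
  homeo.symm.continuous.comp (hf.prodMk hg)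

lemma cont_c : Continuous (fun p : V × V => c p.1 p.2) :=
  continuous_of_discreteTopology

lemma cont_mul_a {X : Type} [TopologicalSpace X] {f g : X → ℕ × ℕ → Circle}
    (hf : Continuous f) (hg : Continuous g) : Continuous (fun x => f x * g x) := by
  refine continuous_pi fun p => ?_
  exact ((continuous_apply p).comp hf).mul ((continuous_apply p).comp hg)

lemma cont_inv_a {X : Type} [TopologicalSpace X] {f : X → ℕ × ℕ → Circle}
    (hf : Continuous f) : Continuous (fun x => (f x)⁻¹) := by
  refine continuous_pi fun p => ?_
  exact ((continuous_apply p).comp hf).inv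

lemma cont_pair : Continuous (fun p : G × G => (p.1.v, p.2.v)) :=
  (cont_v.comp continuous_fst).prodMk (cont_v.comp continuous_snd)

lemma cont_cc : Continuous (fun p : G × G => c p.1.v p.2.v) := by
  have h := cont_c.comp cont_pair
  simp only [Function.comp_def] at h
  exact h

lemma cont_c1 : Continuous (fun p : G => c p.v p.v) := by
  have h : Continuous (fun p : V => c p p) := continuous_of_discreteTopology
  exact Continuous.comp (g := fun p : V => c p p) h cont_v

lemma cont_add : Continuous (fun p : G × G => p.1.v + p.2.v) := by
  have h : Continuous (fun p : V × V => p.1 + p.2) := continuous_of_discreteTopology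
  exact Continuous.comp (g := fun p : V × V => p.1 + p.2) h cont_pair

lemma cont_neg : Continuous (fun p : G => -p.v) := by
  have h : Continuous (fun p : V => -p) := continuous_of_discreteTopology
  exact Continuous.comp (g := fun p : V => -p) h cont_v

lemma cont_aa : Continuous (fun p : G × G => p.1.a * p.2.a) :=
  cont_mul_a (f := fun p : G × G => p.1.a) (g := fun p : G × G => p.2.a)
    (cont_a.comp continuous_fst) (cont_a.comp continuous_snd)

lemma cont_aac : Continuous (fun p : G × G => p.1.a * p.2.a * c p.1.v p.2.v) :=
  cont_mul_a (f := fun p : G × G => p.1.a * p.2.a) (g := fun p : G × G => c p.1.v p.2.v)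
    cont_aa cont_cc

lemma cont_ia : Continuous (fun p : G => p.a⁻¹ * c p.v p.v) :=
  cont_mul_a (f := fun p : G => p.a⁻¹) (g := fun p : G => c p.v p.v)
    (cont_inv_a cont_a) cont_c1

instance : IsTopologicalGroup G where
  continuous_mul := cont_mk cont_add cont_aac
  continuous_inv := cont_mk cont_neg cont_ia

instance : T2Space G := homeo.symm.t2Space

instance : LocallyCompactSpace G := homeo.isClosedEmbedding.locallyCompactSpace

/-- The sets with finitely many first coordinates are compact. -/
lemma isCompact_of_finite (F : Set V) (hF : F.Finite) : IsCompact {x : G | x.v ∈ F} := by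
  have h : IsCompact (F ×ˢ (Set.univ : Set (ℕ × ℕ → Circle))) :=
    hF.isCompact.prod isCompact_univ
  have h2 := h.image homeo.symm.continuous
  convert h2 using 1
  ext x
  constructor
  · intro hx
    exact ⟨(x.v, x.a), ⟨hx, Set.mem_univ _⟩, rfl⟩
  · rintro ⟨p, hp, rfl⟩
    exact hp.1

lemma finite_support (S : Finset ℕ) : {v : V | v.support ⊆ S}.Finite := by
  refine Set.Finite.of_injOn (f := fun (v : V) (s : S) => v s) (t := Set.univ)
    (fun _ _ => Set.mem_univ _) ?_ (Set.toFinite _)
  intro v hv w hw hvw
  ext n
  by_cases hn : n ∈ S
  · exact congrFun hvw ⟨n, hn⟩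
  · have h1 : v n = 0 := by
      by_contra h
      exact hn (hv (Finsupp.mem_support_iff.mpr h))
    have h2 : w n = 0 := by
      by_contra h
      exact hn (hw (Finsupp.mem_support_iff.mpr h))
    rw [h1, h2]

lemma zmod2 (x : ZMod 2) : x = 0 ∨ x = 1 := by
  revert x; decide

/-- the negation of the preceding statement -/
theorem result :
    ¬ (∀ (G : Type) [Group G] [TopologicalSpace G] [IsTopologicalGroup G]
      [LocallyCompactSpace G] [T2Space G],
      (∀ U ∈ nhds (1 : G), ∃ V ∈ nhds (1 : G), V ⊆ U ∧
          ∀ g x : G, x ∈ V → g * x * g⁻¹ ∈ V) →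
      (∀ H : Subgroup G, (∀ a ∈ H, ∀ b ∈ H, a * b = b * a) →
          IsCompact (closure (H : Set G))) →
      (∀ K : Set G, IsCompact (closure K) →
          IsCompact (closure ((Subgroup.closure K : Subgroup G) : Set G))) →
      TotallyDisconnectedSpace G ∨ CompactSpace G) := by
  intro hmain
  have key := hmain G ?_ ?_ ?_
  · rcases key with h | h
    · -- not totally disconnected
      have hcont : Continuous (fun t : ℝ => (⟨0, fun _ => Circle.exp t⟩ : G)) :=
        cont_mk continuous_const (continuous_pi fun _ => Circle.exp.continuous)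
      have hsub := (isPreconnected_range hcont).subsingleton
      have h0 := hsub (Set.mem_range_self 0) (Set.mem_range_self Real.pi)
      have h1 := congrFun (congrArg G.a h0) (0, 0)
      have h2 := congrArg (fun z : Circle => (z : ℂ)) h1
      simp only [Circle.coe_exp] at h2
      norm_num at h2
    · -- not compact
      have h1 : IsCompact (Set.range (fun x : G => x.v)) := isCompact_range cont_v
      have h2 : Set.range (fun x : G => x.v) = Set.univ := by
        ext v
        simp only [Set.mem_range, Set.mem_univ, iff_true]
        exact ⟨⟨v, 1⟩, rfl⟩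
      rw [h2] at h1
      have h3 : (Set.univ : Set V).Finite := h1.finite_of_discrete
      exact Set.infinite_univ h3
  · -- small invariant neighbourhoods
    intro U hU
    refine ⟨U ∩ {x : G | x.v = 0}, Filter.inter_mem hU ?_, Set.inter_subset_left, ?_⟩
    · have : IsOpen ((fun x : G => x.v) ⁻¹' {0}) := (isOpen_discrete _).preimage cont_v
      exact this.mem_nhds rfl
    · intro g x hx
      have hx0 : x.v = 0 := hx.2
      have hcomm : g * x = x * g := by
        refine G.ext ?_ ?_
        · rw [mul_v, mul_v, add_comm]
        · rw [mul_a, mul_a, hx0, c_zero_left, c_zero_right, mul_comm g.a]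
      rw [hcomm, mul_inv_cancel_right]
      exact hx
  · -- abelian subgroups
    intro H hH
    have hpar : ∀ x ∈ H, ∀ y ∈ H, ∀ i j, x.v i * y.v j = y.v i * x.v j := by
      intro x hx y hy i j
      have h := congrArg G.a (hH x hx y hy)
      rw [mul_a, mul_a, mul_comm y.a x.a] at h
      have h2 := congrFun (mul_left_cancel h) (i, j)
      simp only [c] at h2
      exact ZMod.injective_toCircle h2
    have hfin : ∃ F : Set V, F.Finite ∧ ∀ y ∈ H, y.v ∈ F := by
      by_cases hz : ∀ y ∈ H, y.v = 0
      · exact ⟨{0}, Set.finite_singleton _, fun y hy => hz y hy⟩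
      · push Not at hz
        obtain ⟨x, hx, hxv⟩ := hz
        refine ⟨{0, x.v}, Set.toFinite _, ?_⟩
        obtain ⟨i, hi⟩ := Finsupp.ne_iff.mp hxv
        have hi1 : x.v i = 1 := (zmod2 _).resolve_left hi
        intro y hy
        have hyv : ∀ j, y.v j = y.v i * x.v j := by
          intro j
          have := hpar x hx y hy i j
          rw [hi1, one_mul] at this
          exact this
        rcases zmod2 (y.v i) with h0 | h1
        · left
          ext j
          rw [hyv j, h0, zero_mul]; rfl
        · right
          ext j
          rw [hyv j, h1, one_mul]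
    obtain ⟨F, hF, hHF⟩ := hfin
    exact (isCompact_of_finite F hF).closure_of_subset hHF
  · -- topologically locally finite
    intro K hK
    have hfin : ((fun x : G => x.v) '' closure K).Finite :=
      (hK.image cont_v).finite_of_discrete
    let S : Finset ℕ := hfin.toFinset.biUnion (fun v => v.support)
    let P : Subgroup G :=
      { carrier := {x : G | x.v.support ⊆ S}
        mul_mem' := by
          intro x y hx hy
          show (x.v + y.v).support ⊆ S
          exact Finsupp.support_add.trans (Finset.union_subset hx hy)
        one_mem' := by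
          show (0 : V).support ⊆ S
          simp
        inv_mem' := by
          intro x hx
          show (-x.v).support ⊆ S
          rw [Finsupp.support_neg]
          exact hx }
    have hKP : K ⊆ P := by
      intro x hx
      show x.v.support ⊆ S
      intro n hn
      refine Finset.mem_biUnion.mpr ⟨x.v, ?_, hn⟩
      rw [Set.Finite.mem_toFinset]
      exact ⟨x, subset_closure hx, rfl⟩
    have hle : Subgroup.closure K ≤ P := (Subgroup.closure_le P).mpr hKP
    exact (isCompact_of_finite _ (finite_support S)).closure_of_subset hle

end Pool.Agent.S01554
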