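import Pool.Statements.S01783
-- import your own Pool.Agent.* helpers here
import Pool.Agent.Lib.MP_699d82_al.Final

set_option autoImplicit false
open Pool Pool.MP_699d82_al

namespace Pool.Agent.S01783

/-- Any nonsingular real square matrix with a simple dominant positive eigenvalue, all power traces nonnegative, and tr(B^n)>0 forcing tr(B^{nk})>0, is similar-up-to-nilpotent-summand to a primitive nonnegative real matrix. -/
theorem result :
  ∀ (k : ℕ) (B : Matrix (Fin k) (Fin k) ℝ),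
    B.det ≠ 0 →
    (∃ r : ℝ, 0 < r ∧
        (B.charpoly.map (algebraMap ℝ ℂ)).roots.count (r : ℂ) = 1 ∧
        ∀ z ∈ (B.charpoly.map (algebraMap ℝ ℂ)).roots, z ≠ (r : ℂ) → ‖z‖ < r) →
    (∀ n : ℕ, 0 < n → 0 ≤ (B ^ n).trace) →
    (∀ n m : ℕ, 0 < n → 0 < m → 0 < (B ^ n).trace → 0 < (B ^ (n * m)).trace) →
    ∃ (p : ℕ) (N : Matrix (Fin p) (Fin p) ℝ)
      (A : Matrix (Fin k ⊕ Fin p) (Fin k ⊕ Fin p) ℝ)
      (P Q : Matrix (Fin k ⊕ Fin p) (Fin k ⊕ Fin p) ℝ),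
      IsNilpotent N ∧ (∀ i j, 0 ≤ A i j) ∧
      (∃ m : ℕ, 0 < m ∧ ∀ i j, 0 < (A ^ m) i j) ∧
      P * Q = 1 ∧ P * A * Q = Matrix.fromBlocks B 0 0 N := by
  intro k B hB hspec htr hmul
  exact Pool.Agent.Lib.MP699d82.main_result B hB hspec htr hmul

end Pool.Agent.S01783
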