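import Pool.Statements.S01968

set_option autoImplicit false
open scoped Pointwise
open Pool Pool.MP_77870d_al

namespace Pool.Agent.S01968

/-- The coset of `k` modulo `m`, as a set of elements of the multiplicative copy of `ℤ`. -/
def coset (m : ℕ) (k : ℤ) : Set (Multiplicative ℤ) :=
  {x | (m : ℤ) ∣ Multiplicative.toAdd x - k}

theorem mem_coset {m : ℕ} {k : ℤ} {x : Multiplicative ℤ} :
    x ∈ coset m k ↔ (m : ℤ) ∣ Multiplicative.toAdd x - k := Iff.rfl

theorem coset_eq {m : ℕ} {k l : ℤ} (h : (m : ℤ) ∣ k - l) : coset m k = coset m l := by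
  ext x
  rw [mem_coset, mem_coset]
  constructor
  · intro hx
    have := dvd_add hx h
    simpa using this
  · intro hx
    have := dvd_sub hx h
    simpa using this

theorem of_coset_eq {m : ℕ} {k l : ℤ} (h : coset m k = coset m l) : (m : ℤ) ∣ k - l := by
  have : Multiplicative.ofAdd k ∈ coset m k := by simp [mem_coset]
  rw [h] at this
  simpa [mem_coset] using this

theorem sing_mul_sing (k l : ℤ) :
    ({Multiplicative.ofAdd k} : Set (Multiplicative ℤ)) * {Multiplicative.ofAdd l}
      = {Multiplicative.ofAdd (k + l)} := by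
  simp

theorem sing_mul_coset (k : ℤ) (m : ℕ) (l : ℤ) :
    ({Multiplicative.ofAdd k} : Set (Multiplicative ℤ)) * coset m l = coset m (k + l) := by
  ext x
  rw [Set.mem_mul]
  constructor
  · rintro ⟨a, ha, b, hb, rfl⟩
    rw [Set.mem_singleton_iff] at ha
    rw [mem_coset] at hb ⊢
    have e : Multiplicative.toAdd (a * b) - (k + l)
        = Multiplicative.toAdd b - l := by
      rw [toAdd_mul, ha, toAdd_ofAdd]
      ring
    rw [e]
    exact hb
  · intro hx
    refine ⟨_, rfl, Multiplicative.ofAdd (Multiplicative.toAdd x - k), ?_, ?_⟩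
    · rw [mem_coset] at hx ⊢
      simpa [sub_sub] using hx
    · rw [← ofAdd_add]
      simp

theorem coset_mul_coset (m n : ℕ) (k l : ℤ) :
    coset m k * coset n l = coset (Nat.gcd m n) (k + l) := by
  ext x
  rw [Set.mem_mul]
  constructor
  · rintro ⟨a, ha, b, hb, rfl⟩
    rw [mem_coset] at ha hb ⊢
    have h1 : ((Nat.gcd m n : ℕ) : ℤ) ∣ Multiplicative.toAdd a - k :=
      (Int.natCast_dvd_natCast.2 (Nat.gcd_dvd_left m n)).trans ha
    have h2 : ((Nat.gcd m n : ℕ) : ℤ) ∣ Multiplicative.toAdd b - l :=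
      (Int.natCast_dvd_natCast.2 (Nat.gcd_dvd_right m n)).trans hb
    have := dvd_add h1 h2
    rw [toAdd_mul]
    have e : Multiplicative.toAdd a + Multiplicative.toAdd b - (k + l)
      = (Multiplicative.toAdd a - k) + (Multiplicative.toAdd b - l) := by ring
    rw [e]
    exact this
  · intro hx
    rw [mem_coset] at hx
    obtain ⟨c, hc⟩ := hx
    have hb := Nat.gcd_eq_gcd_ab m n
    refine ⟨Multiplicative.ofAdd (k + m * (Nat.gcdA m n) * c), ?_,
      Multiplicative.ofAdd (l + n * (Nat.gcdB m n) * c), ?_, ?_⟩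
    · rw [mem_coset]
      simp only [toAdd_ofAdd, add_sub_cancel_left]
      exact ⟨Nat.gcdA m n * c, by ring⟩
    · rw [mem_coset]
      simp only [toAdd_ofAdd, add_sub_cancel_left]
      exact ⟨Nat.gcdB m n * c, by ring⟩
    · rw [← ofAdd_add]
      have : Multiplicative.toAdd x = k + m * (Nat.gcdA m n) * c + (l + n * (Nat.gcdB m n) * c) := by
        rw [hb] at hc
        linear_combination hc
      rw [← this]
      simp

/-- The property defining the semigroup, with all moduli dividing `L` (no condition if `L = 0`). -/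
def Q (L : ℕ) (X : Set (Multiplicative ℤ)) : Prop :=
  (∃ k : ℕ, 1 ≤ k ∧ X = {Multiplicative.ofAdd (k : ℤ)}) ∨
    ∃ m : ℕ, 1 ≤ m ∧ m ∣ L ∧ ∃ k : ℤ, X = coset m k

theorem Q_mul {L : ℕ} {X Y : Set (Multiplicative ℤ)} (hX : Q L X) (hY : Q L Y) : Q L (X * Y) := by
  rcases hX with ⟨k, hk, rfl⟩ | ⟨m, hm, hmL, k, rfl⟩
  · rcases hY with ⟨l, hl, rfl⟩ | ⟨n, hn, hnL, l, rfl⟩
    · left
      refine ⟨k + l, by omega, ?_⟩
      rw [sing_mul_sing]
      push_cast
      rfl
    · right
      exact ⟨n, hn, hnL, k + l, sing_mul_coset _ _ _⟩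
  · rcases hY with ⟨l, hl, rfl⟩ | ⟨n, hn, hnL, l, rfl⟩
    · right
      refine ⟨m, hm, hmL, l + k, ?_⟩
      rw [mul_comm]
      exact sing_mul_coset _ _ _
    · right
      refine ⟨Nat.gcd m n, Nat.gcd_pos_of_pos_left _ hm, (Nat.gcd_dvd_left m n).trans hmL, k + l, ?_⟩
      exact coset_mul_coset _ _ _ _

theorem Q_mono {L L' : ℕ} (h : L ∣ L') {X : Set (Multiplicative ℤ)} (hX : Q L X) : Q L' X := by
  rcases hX with hX | ⟨m, hm, hmL, k, rfl⟩
  · exact Or.inl hX
  · exact Or.inr ⟨m, hm, hmL.trans h, k, rfl⟩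

/-- The counterexample semigroup: the sets `{k}` with `k ≥ 1` and `k + mℤ` with `m ≥ 1`. -/
def SS : Subsemigroup (Set (Multiplicative ℤ)) where
  carrier := {X | Q 0 X}
  mul_mem' := fun hX hY => Q_mul hX hY

theorem exists_L (F : Finset SS) : ∃ L : ℕ, 1 ≤ L ∧ ∀ X ∈ F, Q L (X : Set (Multiplicative ℤ)) := by
  classical
  induction F using Finset.induction_on with
  | empty => exact ⟨1, le_refl _, by simp⟩
  | insert X F hX ih =>
    obtain ⟨L, hL, h⟩ := ih
    have hQ : Q 0 (X : Set (Multiplicative ℤ)) := X.2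
    rcases hQ with hQ | ⟨m, hm, -, k, hk⟩
    · refine ⟨L, hL, ?_⟩
      intro Y hY
      rw [Finset.mem_insert] at hY
      rcases hY with rfl | hY
      · exact Or.inl hQ
      · exact h Y hY
    · refine ⟨m * L, Nat.mul_pos hm hL, ?_⟩
      intro Y hY
      rw [Finset.mem_insert] at hY
      rcases hY with rfl | hY
      · exact Or.inr ⟨m, hm, Dvd.intro _ rfl, k, hk⟩
      · exact Q_mono (Dvd.intro_left _ rfl) (h Y hY)

/-- second factor of the target group -/
abbrev G2 : Type := Multiplicative (ℕ →₀ ZMod 2)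

/-- the number of nonzero coordinates -/
def wt (v : G2) : ℕ := (Multiplicative.toAdd v).support.card

theorem wt_mul (v w : G2) : wt (v * w) ≤ wt v + wt w := by
  unfold wt
  rw [toAdd_mul]
  exact (Finset.card_le_card Finsupp.support_add).trans (Finset.card_union_le _ _)

theorem wt_one : wt (1 : G2) = 0 := by
  simp [wt]

theorem exists_wt (k : ℕ) : ∃ v : G2, wt v = k := by
  refine ⟨Multiplicative.ofAdd (Finsupp.indicator (Finset.range k) (fun _ _ => (1 : ZMod 2))), ?_⟩
  unfold wt
  rw [toAdd_ofAdd]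
  have : (Finsupp.indicator (Finset.range k) (fun _ _ => (1 : ZMod 2))).support = Finset.range k := by
    ext i
    rw [Finsupp.mem_support_iff, Finsupp.indicator_apply]
    by_cases hi : i ∈ Finset.range k
    · simp [hi]
    · simp [hi]
  rw [this, Finset.card_range]

theorem split_wt (v : G2) (j k : ℕ) (h : wt v ≤ j + k) :
    ∃ a b : G2, wt a ≤ j ∧ wt b ≤ k ∧ a * b = v := by
  classical
  obtain ⟨v, rfl⟩ := Multiplicative.ofAdd.surjective v
  unfold wt at h
  rw [toAdd_ofAdd] at h
  by_cases hj : v.support.card ≤ j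
  · refine ⟨Multiplicative.ofAdd v, 1, ?_, ?_, mul_one _⟩
    · unfold wt
      rw [toAdd_ofAdd]
      exact hj
    · rw [wt_one]
      exact Nat.zero_le _
  · have hj := not_le.1 hj
    obtain ⟨s, hs, hsj⟩ := Finset.exists_subset_card_eq hj.le
    refine ⟨Multiplicative.ofAdd (v.filter (· ∈ s)), Multiplicative.ofAdd (v.filter (fun i => ¬ (i ∈ s))),
      ?_, ?_, ?_⟩
    · unfold wt
      rw [toAdd_ofAdd, Finsupp.support_filter]
      calc (v.support.filter (· ∈ s)).card ≤ s.card := by
            apply Finset.card_le_card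
            intro i hi
            exact (Finset.mem_filter.1 hi).2
        _ ≤ j := hsj.le
    · unfold wt
      rw [toAdd_ofAdd, Finsupp.support_filter]
      have : v.support.filter (fun i => ¬ (i ∈ s)) = v.support \ s := by
        ext i
        simp [Finset.mem_filter, Finset.mem_sdiff]
      rw [this, Finset.card_sdiff_of_subset hs, hsj]
      omega
    · rw [← ofAdd_add, Finsupp.filter_add_filter_not]

/-- second component of the embedding -/
def h2 (X : Set (Multiplicative ℤ)) : Set G2 :=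
  {v | ∃ x ∈ X, (wt v : ℤ) ≤ Multiplicative.toAdd x}

theorem h2_sing (k : ℕ) : h2 {Multiplicative.ofAdd (k : ℤ)} = {v | wt v ≤ k} := by
  ext v
  simp [h2]

theorem h2_coset {m : ℕ} (hm : 1 ≤ m) (k : ℤ) : h2 (coset m k) = Set.univ := by
  ext v
  simp only [Set.mem_univ, iff_true]
  show ∃ x ∈ coset m k, (wt v : ℤ) ≤ Multiplicative.toAdd x
  refine ⟨Multiplicative.ofAdd (k + m * (|k| + wt v)), ?_, ?_⟩
  · rw [mem_coset]
    simp
  · rw [toAdd_ofAdd]
    have h1 : (1 : ℤ) ≤ m := by exact_mod_cast hm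
    have h2 : (0 : ℤ) ≤ |k| + wt v := by positivity
    have h3 : -|k| ≤ k := neg_abs_le k
    nlinarith

theorem h2_nonempty {L : ℕ} {X : Set (Multiplicative ℤ)} (hX : Q L X) : (h2 X).Nonempty := by
  rcases hX with ⟨k, hk, rfl⟩ | ⟨m, hm, hmL, k, rfl⟩
  · rw [h2_sing]
    exact ⟨1, by simp [wt_one]⟩
  · rw [h2_coset hm]
    exact Set.univ_nonempty

theorem univ_mul_of {A : Set G2} (hA : A.Nonempty) : (Set.univ : Set G2) * A = Set.univ := by
  obtain ⟨a, ha⟩ := hA
  ext v
  simp only [Set.mem_univ, iff_true]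
  exact ⟨v * a⁻¹, Set.mem_univ _, a, ha, by simp⟩

theorem h2_mul {L : ℕ} {X Y : Set (Multiplicative ℤ)} (hX : Q L X) (hY : Q L Y) :
    h2 (X * Y) = h2 X * h2 Y := by
  have hX' := hX
  have hY' := hY
  rcases hX with ⟨k, hk, rfl⟩ | ⟨m, hm, hmL, k, rfl⟩
  · rcases hY with ⟨l, hl, rfl⟩ | ⟨n, hn, hnL, l, rfl⟩
    · rw [sing_mul_sing]
      have : ((k : ℤ) + (l : ℤ)) = ((k + l : ℕ) : ℤ) := by push_cast; rfl
      rw [this, h2_sing, h2_sing, h2_sing]
      ext v
      rw [Set.mem_mul]
      constructor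
      · intro hv
        obtain ⟨a, b, ha, hb, hab⟩ := split_wt v k l hv
        exact ⟨a, ha, b, hb, hab⟩
      · rintro ⟨a, ha, b, hb, rfl⟩
        exact (wt_mul a b).trans (add_le_add ha hb)
    · rw [sing_mul_coset, h2_coset hn, h2_coset hn, mul_comm, univ_mul_of (h2_nonempty hX')]
  · rcases hY with ⟨l, hl, rfl⟩ | ⟨n, hn, hnL, l, rfl⟩
    · rw [mul_comm (coset m k), sing_mul_coset, h2_coset hm, h2_coset hm,
        univ_mul_of (h2_nonempty hY')]
    · rw [coset_mul_coset, h2_coset (Nat.gcd_pos_of_pos_left _ hm), h2_coset hm,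
        univ_mul_of (h2_nonempty hY')]

/-- reduction modulo `L` -/
def red (L : ℕ) : Multiplicative ℤ →* Multiplicative (ZMod L) :=
  AddMonoidHom.toMultiplicative (Int.castAddHom (ZMod L))

theorem red_eq {L : ℕ} {x y : Multiplicative ℤ} (h : red L x = red L y) :
    (L : ℤ) ∣ Multiplicative.toAdd x - Multiplicative.toAdd y := by
  have : ((Multiplicative.toAdd x : ℤ) : ZMod L) = ((Multiplicative.toAdd y : ℤ) : ZMod L) := by
    have := congrArg Multiplicative.toAdd h
    simpa [red] using this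
  rw [← sub_eq_zero, ← Int.cast_sub, ZMod.intCast_zmod_eq_zero_iff_dvd] at this
  exact this

/-- the embedding on sets -/
def emb (L : ℕ) (X : Set (Multiplicative ℤ)) : Set (Multiplicative (ZMod L) × G2) :=
  (red L '' X) ×ˢ h2 X

theorem emb_mul {L : ℕ} {X Y : Set (Multiplicative ℤ)} (hX : Q L X) (hY : Q L Y) :
    emb L (X * Y) = emb L X * emb L Y := by
  unfold emb
  rw [Set.prod_mul_prod_comm, h2_mul hX hY, Set.image_mul]

theorem Q_nonempty {L : ℕ} {X : Set (Multiplicative ℤ)} (hX : Q L X) : X.Nonempty := by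
  rcases hX with ⟨k, hk, rfl⟩ | ⟨m, hm, hmL, k, rfl⟩
  · exact Set.singleton_nonempty _
  · exact ⟨Multiplicative.ofAdd k, by simp [mem_coset]⟩

theorem emb_inj {L : ℕ} {X Y : Set (Multiplicative ℤ)} (hX : Q L X) (hY : Q L Y)
    (h : emb L X = emb L Y) : X = Y := by
  unfold emb at h
  have hne1 : (red L '' X).Nonempty := (Q_nonempty hX).image _
  have hne2 : (h2 X).Nonempty := h2_nonempty hX
  have hh := (Set.prod_eq_prod_iff_of_nonempty (hne1.prod hne2)).1 h
  obtain ⟨e1, e2⟩ := hh
  rcases hX with ⟨k, hk, rfl⟩ | ⟨m, hm, hmL, k, rfl⟩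
  · rcases hY with ⟨l, hl, rfl⟩ | ⟨n, hn, hnL, l, rfl⟩
    · rw [h2_sing, h2_sing] at e2
      obtain ⟨v, hv⟩ := exists_wt k
      obtain ⟨w, hw⟩ := exists_wt l
      have h1 : v ∈ {v | wt v ≤ l} := by
        rw [← e2]
        exact hv.le
      have h2 : w ∈ {v | wt v ≤ k} := by
        rw [e2]
        exact hw.le
      have h1' : k ≤ l := by
        have : wt v ≤ l := h1
        omega
      have h2' : l ≤ k := by
        have : wt w ≤ k := h2
        omega
      have : k = l := le_antisymm h1' h2'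
      rw [this]
    · exfalso
      rw [h2_sing, h2_coset hn] at e2
      obtain ⟨v, hv⟩ := exists_wt (k + 1)
      have : v ∈ {v | wt v ≤ k} := by
        rw [e2]
        exact Set.mem_univ _
      have : wt v ≤ k := this
      omega
  · rcases hY with ⟨l, hl, rfl⟩ | ⟨n, hn, hnL, l, rfl⟩
    · exfalso
      rw [h2_sing, h2_coset hm] at e2
      obtain ⟨v, hv⟩ := exists_wt (l + 1)
      have : v ∈ {v | wt v ≤ l} := by
        rw [← e2]
        exact Set.mem_univ _
      have : wt v ≤ l := this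
      omega
    · have key : ∀ (m n : ℕ) (k l : ℤ), n ∣ L → red L '' coset m k = red L '' coset n l →
          coset m k ⊆ coset n l := by
        intro m n k l hnL e x hx
        have : red L x ∈ red L '' coset n l := by
          rw [← e]
          exact ⟨x, hx, rfl⟩
        obtain ⟨y, hy, hyx⟩ := this
        have h1 := red_eq hyx
        have h2 : (n : ℤ) ∣ Multiplicative.toAdd y - Multiplicative.toAdd x :=
          (Int.natCast_dvd_natCast.2 hnL).trans h1
        rw [mem_coset] at hy ⊢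
        have := dvd_sub hy h2
        have e3 : Multiplicative.toAdd y - l - (Multiplicative.toAdd y - Multiplicative.toAdd x)
          = Multiplicative.toAdd x - l := by ring
        rw [e3] at this
        exact this
      exact Set.Subset.antisymm (key m n k l hnL e1) (key n m l k hmL e1.symm)

theorem tors (L : ℕ) (hL : 1 ≤ L) : Monoid.IsTorsion (Multiplicative (ZMod L) × G2) := by
  rintro ⟨a, v⟩
  rw [isOfFinOrder_iff_pow_eq_one]
  refine ⟨L * 2, by omega, ?_⟩
  rw [Prod.pow_mk]
  have h1 : a ^ (L * 2) = 1 := by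
    obtain ⟨a, rfl⟩ := Multiplicative.ofAdd.surjective a
    rw [← ofAdd_nsmul]
    have : (L * 2) • a = 0 := by
      rw [nsmul_eq_mul]
      push_cast
      rw [ZMod.natCast_self]
      ring
    rw [this]
    rfl
  have h2 : v ^ (L * 2) = 1 := by
    obtain ⟨v, rfl⟩ := Multiplicative.ofAdd.surjective v
    rw [← ofAdd_nsmul]
    have : (L * 2) • v = 0 := by
      ext i
      rw [Finsupp.smul_apply, nsmul_eq_mul]
      push_cast
      have : (2 : ZMod 2) = 0 := by decide
      rw [this]
      simp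
    rw [this]
    rfl
  rw [h1, h2]
  rfl

/-- The negation of the preceding statement: For every semigroup S: if each finitely generated subsemigroup of S embeds into the semigroup of all subsets of some torsion group, then S itself embeds into the semigroup of all subsets of some torsion group. -/
theorem result :
    ¬ (∀ (S : Type) [Semigroup S],
      (∀ T : Subsemigroup S, (∃ F : Finset S, Subsemigroup.closure (F : Set S) = T) →
        ∃ (G : Type) (_ : Group G), Monoid.IsTorsion G ∧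
          ∃ f : T →ₙ* Set G, Function.Injective f) →
      ∃ (G : Type) (_ : Group G), Monoid.IsTorsion G ∧
        ∃ f : S →ₙ* Set G, Function.Injective f) := by
  intro H
  obtain ⟨G, hG, htors, f, hf⟩ := H SS (by
    rintro T ⟨F, rfl⟩
    obtain ⟨L, hL, hF⟩ := exists_L F
    have hT : ∀ X ∈ Subsemigroup.closure (F : Set SS), Q L (X : Set (Multiplicative ℤ)) := by
      intro X hX
      induction hX using Subsemigroup.closure_induction with
      | mem x hx => exact hF x hx
      | mul x y hx hy ihx ihy => exact Q_mul ihx ihy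
    refine ⟨Multiplicative (ZMod L) × G2, inferInstance, tors L hL, ?_⟩
    refine ⟨⟨fun X => emb L ((X : SS) : Set (Multiplicative ℤ)), ?_⟩, ?_⟩
    · intro X Y
      exact emb_mul (hT X.1 X.2) (hT Y.1 Y.2)
    · intro X Y h
      apply Subtype.ext
      apply Subtype.ext
      exact emb_inj (hT X.1 X.2) (hT Y.1 Y.2) h)
  -- the elements `{n}`
  let pt : ℕ → SS := fun n => ⟨{Multiplicative.ofAdd ((n + 1 : ℕ) : ℤ)}, Or.inl ⟨n + 1, by omega, rfl⟩⟩
  have hpt : ∀ n, pt n * pt 0 = pt (n + 1) := by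
    intro n
    apply Subtype.ext
    show ({Multiplicative.ofAdd ((n + 1 : ℕ) : ℤ)} : Set (Multiplicative ℤ))
      * {Multiplicative.ofAdd ((0 + 1 : ℕ) : ℤ)} = {Multiplicative.ofAdd ((n + 1 + 1 : ℕ) : ℤ)}
    rw [sing_mul_sing]
    push_cast
    norm_num
  have hne : (f (pt 0)).Nonempty := by
    by_contra hcon
    rw [Set.not_nonempty_iff_eq_empty] at hcon
    have h1 : f (pt 1) = ∅ := by
      rw [← hpt 0, map_mul, hcon, Set.empty_mul]
    have h2 : pt 1 = pt 0 := hf (h1.trans hcon.symm)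
    have h3 := congrArg Subtype.val h2
    have h4 : ({Multiplicative.ofAdd ((1 + 1 : ℕ) : ℤ)} : Set (Multiplicative ℤ))
      = {Multiplicative.ofAdd ((0 + 1 : ℕ) : ℤ)} := h3
    rw [Set.singleton_eq_singleton_iff] at h4
    have h5 := Multiplicative.ofAdd.injective h4
    norm_num at h5
  obtain ⟨g, hg⟩ := hne
  have hpow : ∀ n, g ^ (n + 1) ∈ f (pt n) := by
    intro n
    induction n with
    | zero => simpa using hg
    | succ n ih =>
      rw [← hpt n, map_mul, pow_succ]
      exact Set.mul_mem_mul ih hg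
  obtain ⟨n, hn0, hn⟩ := (isOfFinOrder_iff_pow_eq_one.1 (htors g))
  obtain ⟨n, rfl⟩ : ∃ k, n = k + 1 := ⟨n - 1, by omega⟩
  have h1 : (1 : G) ∈ f (pt n) := by
    rw [← hn]
    exact hpow n
  -- the cosets modulo `n + 2`
  let C : ℤ → SS := fun k => ⟨coset (n + 2) k, Or.inr ⟨n + 2, by omega, dvd_zero _, k, rfl⟩⟩
  have hC : ∀ k, f (C k) ⊆ f (C ((n + 1 : ℕ) + k)) := by
    intro k x hx
    have e : pt n * C k = C ((n + 1 : ℕ) + k) := by
      apply Subtype.ext
      exact sing_mul_coset _ _ _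
    rw [← e, map_mul]
    exact ⟨1, h1, x, hx, one_mul x⟩
  have hC' : ∀ (t : ℕ) (k : ℤ), f (C k) ⊆ f (C (t * (n + 1 : ℕ) + k)) := by
    intro t
    induction t with
    | zero => intro k; simp
    | succ t ih =>
      intro k
      refine (ih k).trans ((hC _).trans ?_)
      have e : ((n + 1 : ℕ) : ℤ) + ((t : ℤ) * ((n + 1 : ℕ) : ℤ) + k)
        = ((t + 1 : ℕ) : ℤ) * ((n + 1 : ℕ) : ℤ) + k := by
        push_cast
        ring
      rw [e]
  have hsub : f (C ((n + 1 : ℕ) + 0)) ⊆ f (C 0) := by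
    have := hC' (n + 1) ((n + 1 : ℕ) + 0)
    have e : C (((n + 1 : ℕ) : ℤ) * ((n + 1 : ℕ) : ℤ) + (((n + 1 : ℕ) : ℤ) + 0)) = C 0 := by
      apply Subtype.ext
      apply coset_eq
      refine ⟨((n + 1 : ℕ) : ℤ), ?_⟩
      push_cast
      ring
    rw [e] at this
    exact this
  have heq : f (C 0) = f (C ((n + 1 : ℕ) + 0)) := Set.Subset.antisymm (hC 0) hsub
  have h3 : C 0 = C ((n + 1 : ℕ) + 0) := hf heq
  have h4 : coset (n + 2) 0 = coset (n + 2) ((n + 1 : ℕ) + 0) := congrArg Subtype.val h3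
  have h5 := of_coset_eq h4
  have h6 : ((n + 2 : ℕ) : ℤ) ∣ ((n + 1 : ℕ) : ℤ) := by
    have := (dvd_neg).2 h5
    simpa using this
  have h7 : (n + 2) ∣ (n + 1) := Int.natCast_dvd_natCast.1 h6
  have := Nat.le_of_dvd (by omega) h7
  omega

end Pool.Agent.S01968
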