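import Pool.Statements.S02748
import Pool.Agent.H34.HigmanAlg

set_option autoImplicit false
open Pool Pool.MP_b22f0d_al

namespace Pool.Agent.S02748

/-- The negation of the preceding statement: For every prime p>2, every Z/p-graded Lie ring with zero degree-0 part has all left-normed commutators of weight (p^2-1)/4+1 zero, and some such Lie ring has a nonzero one of weight (p^2-1)/4; i.e. h(p)=(p^2-1)/4. -/
theorem result :
    ¬ (∀ p : ℕ, p.Prime → 2 < p →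
    (∀ (L : Type) [LieRing L] (Lg : ZMod p → AddSubgroup L),
      DirectSum.IsInternal Lg → Lg 0 = ⊥ →
      (∀ i j : ZMod p, ∀ x ∈ Lg i, ∀ y ∈ Lg j, ⁅x, y⁆ ∈ Lg (i + j)) →
      ∀ x : Fin ((p ^ 2 - 1) / 4 + 1) → L,
        List.foldl (fun a b => ⁅a, b⁆) (x 0)
          (List.ofFn (fun k : Fin ((p ^ 2 - 1) / 4) => x k.succ)) = 0) ∧
    (∃ (L : Type) (_ : LieRing L) (Lg : ZMod p → AddSubgroup L),
      DirectSum.IsInternal Lg ∧ Lg 0 = ⊥ ∧
      (∀ i j : ZMod p, ∀ x ∈ Lg i, ∀ y ∈ Lg j, ⁅x, y⁆ ∈ Lg (i + j)) ∧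
      ∃ x : Fin ((p ^ 2 - 1) / 4 - 1 + 1) → L,
        List.foldl (fun a b => ⁅a, b⁆) (x 0)
          (List.ofFn (fun k : Fin ((p ^ 2 - 1) / 4 - 1) => x k.succ)) ≠ 0)) := by
  intro H
  have h := (H 11 (by norm_num) (by norm_num)).1 Pool.Agent.H34.A Pool.Agent.H34.gr
    Pool.Agent.H34.gr_internal Pool.Agent.H34.gr_zero Pool.Agent.H34.gr_mul
    (fun i => Pool.Agent.H34.ent i.val)
  exact Pool.Agent.H34.long_ne h

end Pool.Agent.S02748
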