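import Pool.Statements.S02970
import Pool.Agent.S2T.Tower

set_option autoImplicit false
open Pool Pool.MP_c1ff13_al

namespace Pool.Agent.S02970

open S2T in
theorem main_neg :
    ¬ (∀ (Ω : Type) [Nontrivial Ω] (G : Subgroup (Equiv.Perm Ω)),
      (∀ a b c d : Ω, a ≠ b → c ≠ d →
        ∃! g : Equiv.Perm Ω, g ∈ G ∧ g a = c ∧ g b = d) →
      (∃ ω : Ω, ∀ s : Finset (Equiv.Perm Ω), (∀ g ∈ s, g ∈ G ∧ g ω = ω) →
        ((Subgroup.closure (s : Set (Equiv.Perm Ω)) : Subgroup (Equiv.Perm Ω)) :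
          Set (Equiv.Perm Ω)).Finite) →
      ∃ N : Subgroup (Equiv.Perm Ω), N ≤ G ∧
        (∀ g ∈ G, ∀ n ∈ N, g * n * g⁻¹ ∈ N) ∧
        ∀ a b : Ω, ∃! n : Equiv.Perm Ω, n ∈ N ∧ n a = b) := by
  obtain ⟨L, gL, H, i, hii, hiH, hmal, hdc, hodd, hlf, c, hc⟩ := exists_final
  intro hall
  have smk : ∀ g x : L, g • ((x : L) : L ⧸ H) = ((g * x : L) : L ⧸ H) := fun _ _ => rfl
  have mke : ∀ x y : L, ((x : L) : L ⧸ H) = ((y : L) : L ⧸ H) ↔ x⁻¹ * y ∈ H := fun x y =>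
    QuotientGroup.eq
  -- an element fixing two points is trivial
  have two : ∀ (w : L) (a b : L ⧸ H), a ≠ b → w • a = a → w • b = b → w = 1 := by
    intro w a b hab ha hb
    obtain ⟨x, rfl⟩ := QuotientGroup.mk_surjective a
    obtain ⟨y, rfl⟩ := QuotientGroup.mk_surjective b
    rw [smk, mke] at ha hb
    have hxy : x⁻¹ * y ∉ H := fun h => hab ((mke x y).2 h)
    have g1 : x⁻¹ * w * x ∈ H := by
      have := inv_mem ha
      have e : ((w * x)⁻¹ * x)⁻¹ = x⁻¹ * w * x := by group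
      rwa [e] at this
    have g2 : (x⁻¹ * y)⁻¹ * (x⁻¹ * w * x) * (x⁻¹ * y) ∈ H := by
      have := inv_mem hb
      have e : ((w * y)⁻¹ * y)⁻¹ = (x⁻¹ * y)⁻¹ * (x⁻¹ * w * x) * (x⁻¹ * y) := by group
      rwa [e] at this
    have g3 := hmal _ hxy _ g1 g2
    have e : w = x * (x⁻¹ * w * x) * x⁻¹ := by group
    rw [e, g3]; group
  let o : L ⧸ H := ((1 : L) : L ⧸ H)
  have hio : i • o ≠ o := by
    intro h
    have h' : ((i * 1 : L) : L ⧸ H) = ((1 : L) : L ⧸ H) := h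
    rw [mke, mul_one, mul_one, inv_mem_iff] at h'
    exact hiH h'
  have fixo : ∀ x : L, x • o = o ↔ x ∈ H := by
    intro x
    have e : x • o = ((x * 1 : L) : L ⧸ H) := rfl
    have e2 : o = ((1 : L) : L ⧸ H) := rfl
    rw [e, e2, mke, mul_one, mul_one, inv_mem_iff]
  have : Nontrivial (L ⧸ H) := ⟨⟨i • o, o, hio⟩⟩
  -- transitivity on pairs
  have tr : ∀ a b : L ⧸ H, a ≠ b → ∃ x : L, x • o = a ∧ x • (i • o) = b := by
    intro a b hab
    obtain ⟨x, rfl⟩ := QuotientGroup.mk_surjective a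
    obtain ⟨y, rfl⟩ := QuotientGroup.mk_surjective b
    have hxy : x⁻¹ * y ∉ H := fun h => hab ((mke x y).2 h)
    rcases hdc (x⁻¹ * y) with h | ⟨h₁, hh₁, h₂, hh₂, e⟩
    · exact absurd h hxy
    · refine ⟨x * h₁, ?_, ?_⟩
      · have e1 : (x * h₁) • o = ((x * h₁ * 1 : L) : L ⧸ H) := rfl
        rw [e1, mke]
        have e2 : (x * h₁ * 1)⁻¹ * x = h₁⁻¹ := by group
        rw [e2]; exact inv_mem hh₁
      · have e1 : (x * h₁) • (i • o) = ((x * h₁ * (i * 1) : L) : L ⧸ H) := rfl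
        rw [e1, mke]
        have e2 : (x * h₁ * (i * 1))⁻¹ * y = (h₁ * i)⁻¹ * (x⁻¹ * y) := by group
        rw [e2, e]
        have e3 : (h₁ * i)⁻¹ * (h₁ * i * h₂) = h₂ := by group
        rw [e3]; exact hh₂
  let ρ : L →* Equiv.Perm (L ⧸ H) := MulAction.toPermHom L (L ⧸ H)
  have hρ : ∀ (x : L) (a : L ⧸ H), ρ x a = x • a := fun _ _ => rfl
  have hinj : Function.Injective ρ := by
    rw [injective_iff_map_eq_one]
    intro x hx
    apply two x _ _ hio
    · rw [← hρ, hx]; rfl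
    · rw [← hρ, hx]; rfl
  -- sharply 2-transitive
  have hsharp : ∀ a b c d : L ⧸ H, a ≠ b → c ≠ d →
      ∃! g : Equiv.Perm (L ⧸ H), g ∈ ρ.range ∧ g a = c ∧ g b = d := by
    intro a b c d hab hcd
    obtain ⟨x, hx1, hx2⟩ := tr a b hab
    obtain ⟨y, hy1, hy2⟩ := tr c d hcd
    refine ⟨ρ (y * x⁻¹), ⟨⟨_, rfl⟩, ?_, ?_⟩, ?_⟩
    · rw [hρ, mul_smul, ← hx1, inv_smul_smul, hy1]
    · rw [hρ, mul_smul, ← hx2, inv_smul_smul, hy2]
    · rintro _ ⟨⟨z, rfl⟩, hz1, hz2⟩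
      rw [hρ] at hz1 hz2
      have h1 : (y * x⁻¹) • a = c := by rw [mul_smul, ← hx1, inv_smul_smul, hy1]
      have h2 : (y * x⁻¹) • b = d := by rw [mul_smul, ← hx2, inv_smul_smul, hy2]
      have h3 : (y * x⁻¹)⁻¹ * z = 1 := by
        apply two _ a b hab
        · rw [mul_smul, hz1, ← h1, inv_smul_smul]
        · rw [mul_smul, hz2, ← h2, inv_smul_smul]
      have h4 : z = y * x⁻¹ := (inv_mul_eq_one.1 h3).symm
      rw [h4]
  -- locally finite stabiliser
  have hlocf : ∃ ω : L ⧸ H, ∀ s : Finset (Equiv.Perm (L ⧸ H)), (∀ g ∈ s, g ∈ ρ.range ∧ g ω = ω) →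
      ((Subgroup.closure (s : Set (Equiv.Perm (L ⧸ H))) : Subgroup (Equiv.Perm (L ⧸ H))) :
          Set (Equiv.Perm (L ⧸ H))).Finite := by
    refine ⟨o, fun s hs => ?_⟩
    classical
    -- pull back
    have hpre : ∀ g ∈ s, ∃ x : L, x ∈ H ∧ ρ x = g := by
      intro g hg
      obtain ⟨⟨x, rfl⟩, h2⟩ := hs g hg
      exact ⟨x, (fixo x).1 h2, rfl⟩
    let s' : Finset L := s.preimage ρ hinj.injOn
    obtain ⟨K, hK, hsK⟩ := hlf s' (by
      intro y hy
      rw [Finset.mem_preimage] at hy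
      obtain ⟨x, hx, e⟩ := hpre _ hy
      rw [← hinj e]; exact hx)
    have hle : Subgroup.closure (s : Set (Equiv.Perm (L ⧸ H))) ≤ K.map ρ := by
      rw [Subgroup.closure_le]
      intro g hg
      obtain ⟨x, hx, rfl⟩ := hpre g hg
      exact ⟨x, hsK x (by rw [Finset.mem_preimage]; exact hg), rfl⟩
    refine Set.Finite.subset ?_ hle
    have : ((K.map ρ : Subgroup (Equiv.Perm (L ⧸ H))) : Set (Equiv.Perm (L ⧸ H))) =
        ρ '' (K : Set L) := rfl
    rw [this]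
    exact Set.Finite.image _ (Set.toFinite _)
  obtain ⟨N, hN1, hN2, hN3⟩ := hall (L ⧸ H) ρ.range hsharp hlocf
  · -- no regular normal subgroup
    have conj : ∀ x y : L, ρ x ∈ N → ρ (y * x * y⁻¹) ∈ N := by
      intro x y hx
      have := hN2 (ρ y) ⟨y, rfl⟩ (ρ x) hx
      rwa [← map_inv, ← map_mul, ← map_mul] at this
    have reg1 : ∀ x : L, ρ x ∈ N → x • o = o → x = 1 := by
      intro x hx hxo
      obtain ⟨n, _, hn⟩ := hN3 o o
      have h1 := hn (ρ x) ⟨hx, hxo⟩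
      have h2 := hn 1 ⟨one_mem _, rfl⟩
      exact hinj (by rw [h1, ← h2, map_one])
    have reg2 : ∀ x y : L, ρ x ∈ N → ρ y ∈ N → x • o = y • o → x = y := by
      intro x y hx hy hxy
      obtain ⟨n, _, hn⟩ := hN3 o (y • o)
      have h1 := hn (ρ x) ⟨hx, hxy⟩
      have h2 := hn (ρ y) ⟨hy, rfl⟩
      exact hinj (by rw [h1, h2])
    have hi' : i⁻¹ = i := inv_eq_of_mul_eq_one_left hii
    have hiN : ρ i ∈ N := by
      obtain ⟨n, ⟨hn1, hn2⟩, _⟩ := hN3 o (i • o)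
      obtain ⟨x, rfl⟩ := hN1 hn1
      have hx : x • o = i • o := hn2
      have ha : x⁻¹ * i ∈ H := by
        rw [← fixo, mul_smul, ← hx, inv_smul_smul]
      set a := x⁻¹ * i with ha'
      have hxa : x = i * a⁻¹ := by rw [ha']; group
      have h1 := conj x i hn1
      have h2 : ρ ((i * x * i⁻¹) * x) ∈ N := by rw [map_mul]; exact mul_mem h1 hn1
      have h3 : (i * x * i⁻¹) * x = a⁻¹ * a⁻¹ := by
        rw [hxa, hi']
        calc i * (i * a⁻¹) * i * (i * a⁻¹) = (i * i) * a⁻¹ * (i * i) * a⁻¹ := by group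
          _ = a⁻¹ * a⁻¹ := by rw [hii]; group
      rw [h3] at h2
      have h4 := reg1 _ h2 ((fixo _).2 (mul_mem (inv_mem ha) (inv_mem ha)))
      have h5 := hodd a⁻¹ (inv_mem ha) h4
      have h6 : x = i := by rw [hxa, h5, mul_one]
      rw [← h6]; exact hn1
    have invol : ∀ n : L, ρ n ∈ N → n * n = 1 := by
      intro n hn
      rcases hdc n with h | ⟨h₁, hh₁, h₂, hh₂, e⟩
      · have := reg1 n hn ((fixo n).2 h)
        rw [this, mul_one]
      · have h3 : h₁⁻¹ * n * h₁ = i := by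
          apply reg2
          · have := conj n h₁⁻¹ hn
            rwa [inv_inv] at this
          · exact hiN
          · have e2 : h₁⁻¹ * n * h₁ = i * (h₂ * h₁) := by rw [e]; group
            rw [e2, mul_smul, (fixo _).2 (mul_mem hh₂ hh₁)]
        have h4 : n = h₁ * i * h₁⁻¹ := by rw [← h3]; group
        rw [h4]
        calc h₁ * i * h₁⁻¹ * (h₁ * i * h₁⁻¹) = h₁ * (i * i) * h₁⁻¹ := by group
          _ = 1 := by rw [hii]; group
    apply hc
    apply invol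
    rw [map_mul]
    exact mul_mem hiN (conj i c hiN)

/-- The negation of the preceding statement: Every sharply 2-transitive permutation group on a set of at least two points whose point stabilizer is locally finite contains a subgroup, normal in it, acting regularly (exactly one element maps any point to any point). -/
theorem result :
    ¬ (∀ (Ω : Type) [Nontrivial Ω] (G : Subgroup (Equiv.Perm Ω)),
      (∀ a b c d : Ω, a ≠ b → c ≠ d →
        ∃! g : Equiv.Perm Ω, g ∈ G ∧ g a = c ∧ g b = d) →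
      (∃ ω : Ω, ∀ s : Finset (Equiv.Perm Ω), (∀ g ∈ s, g ∈ G ∧ g ω = ω) →
        ((Subgroup.closure (s : Set (Equiv.Perm Ω)) : Subgroup (Equiv.Perm Ω)) :
          Set (Equiv.Perm Ω)).Finite) →
      ∃ N : Subgroup (Equiv.Perm Ω), N ≤ G ∧
        (∀ g ∈ G, ∀ n ∈ N, g * n * g⁻¹ ∈ N) ∧
        ∀ a b : Ω, ∃! n : Equiv.Perm Ω, n ∈ N ∧ n a = b) := by
  exact main_neg

end Pool.Agent.S02970
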