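import Pool.Statements.S03448
import Pool.Agent.Lib.MP_eac726_al.RG
import Pool.Agent.Lib.MP_eac726_al.GR

set_option autoImplicit false
open Pool Pool.MP_eac726_al

namespace Pool.Agent.S03448

/-- The negation of the preceding statement: For every prime p, every infinite p-group in which any two elements generate a finite subgroup is not a simple group. -/
theorem result :
    ¬ (∀ (p : ℕ), p.Prime →
      ∀ (G : Type) [Group G], Infinite G → IsPGroup p G →
        (∀ a b : G, ((Subgroup.closure ({a, b} : Set G)) : Set G).Finite) →
          ¬ IsSimpleGroup G) := by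
  intro h
  obtain ⟨B, _, hp, A, x, hxA, hx0, n, a, c, b, hx, hnil⟩ :=
    EAC.exists_ring 2 Nat.prime_two 18 (by norm_num)
  obtain ⟨G, _, hinf, hP, hfin, hs⟩ :=
    EAC.exists_group 2 Nat.prime_two B hp A x hxA hx0 n a c b hx hnil
  exact h 2 Nat.prime_two G hinf hP hfin hs

end Pool.Agent.S03448
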