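import Pool.Statements.S03617
import Pool.Agent.Lib.MP_fc2f40_al.Final

set_option autoImplicit false
open Pool Pool.MP_fc2f40_al

namespace Pool.Agent.S03617

/-- For every field K and Lie algebra L over K satisfying a nonzero identity of the free Lie algebra, the universal enveloping algebra of L satisfies the left and right Ore conditions with respect to its regular elements. -/
theorem result :
    ∀ (K : Type) [Field K] (L : Type) [LieRing L] [LieAlgebra K L],
      (∃ f : FreeLieAlgebra K ℕ, f ≠ 0 ∧ ∀ φ : ℕ → L, FreeLieAlgebra.lift K φ f = 0) →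
        ((∀ a s : UniversalEnvelopingAlgebra K L,
            s ∈ nonZeroDivisors (UniversalEnvelopingAlgebra K L) →
              ∃ b t : UniversalEnvelopingAlgebra K L,
                t ∈ nonZeroDivisors (UniversalEnvelopingAlgebra K L) ∧ t * a = b * s) ∧
          (∀ a s : UniversalEnvelopingAlgebra K L,
            s ∈ nonZeroDivisors (UniversalEnvelopingAlgebra K L) →
              ∃ b t : UniversalEnvelopingAlgebra K L,
                t ∈ nonZeroDivisors (UniversalEnvelopingAlgebra K L) ∧ a * t = s * b)) := by
  intro K _ L _ _ hPI
  obtain ⟨f, hf, h⟩ := hPI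
  exact ⟨fun a s hs => Pool.Agent.Lib.MP_fc2f40_al.Final.left_ore K L f hf h a s hs,
    fun a s hs => Pool.Agent.Lib.MP_fc2f40_al.Final.right_ore K L f hf h a s hs⟩

end Pool.Agent.S03617
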