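import Pool.Statements.S03668
import Pool.Agent.Lib.MP_0162a5_an.Main

set_option autoImplicit false
open Pool Pool.MP_0162a5_an

namespace Pool.Agent.S03668

/-- The negation of the preceding statement: For a complex commutative unital Banach algebra whose character space is connected, a finite CW complex, and has trivial H^1, every separable split polynomial over A deforms continuously through separable split polynomials over A to one with scalar coefficients. -/
theorem result :
    ¬ (∀ (A : Type) [NormedCommRing A] [NormedAlgebra ℂ A] [CompleteSpace A],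
      ConnectedSpace (WeakDual.characterSpace ℂ A) →
      (∃ hC : Topology.CWComplex (Set.univ : Set (WeakDual.characterSpace ℂ A)),
          Topology.RelCWComplex.Finite (Set.univ : Set (WeakDual.characterSpace ℂ A))) →
      (∀ f : C(WeakDual.characterSpace ℂ A, ℂ), (∀ x, f x ≠ 0) →
          ∃ g : C(WeakDual.characterSpace ℂ A, ℂ), ∀ x, f x = Complex.exp (g x)) →
      ∀ (n : ℕ) (b : Fin n → A),
        (∏ i : Fin n, (Polynomial.X - Polynomial.C (b i) : Polynomial A)).Separable →
        ∃ γ : unitInterval → Polynomial A,
          (∀ k : ℕ, Continuous (fun t => (γ t).coeff k)) ∧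
          γ 0 = ∏ i : Fin n, (Polynomial.X - Polynomial.C (b i) : Polynomial A) ∧
          (∀ t, (γ t).Separable ∧
              ∃ c : Fin n → A, γ t = ∏ i : Fin n, (Polynomial.X - Polynomial.C (c i) : Polynomial A)) ∧
          (∀ k : ℕ, ∃ z : ℂ, (γ 1).coeff k = algebraMap ℂ A z)) :=
  Pool.Agent.T05.not_Q1

end Pool.Agent.S03668
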