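import Pool.Statements.S03720
import Pool.Agent.Lib.MP_05ecc1_an.Tetra

set_option autoImplicit false
open Pool Pool.MP_05ecc1_an

namespace Pool.Agent.S03720

open Pool.Agent.Lib.MP_05ecc1_an

/-- The negation of the preceding statement: For n ≥ 3 and N nonzero real charges at distinct points of R^n, every finite set of isolated critical points of the potential sum q_i/∣x−a_i∣^(n−2) has at most (N−1)^2 elements. -/
theorem result :
    ¬ (∀ (n N : ℕ), 3 ≤ n → 1 ≤ N →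
  ∀ (a : Fin N → EuclideanSpace ℝ (Fin n)) (q : Fin N → ℝ),
    Function.Injective a → (∀ i, q i ≠ 0) →
    ∀ S : Finset (EuclideanSpace ℝ (Fin n)),
      (∀ x ∈ S, (∀ i, x ≠ a i) ∧
        fderiv ℝ (fun z : EuclideanSpace ℝ (Fin n) => ∑ i, q i / ‖z - a i‖ ^ (n - 2)) x = 0 ∧
        ∃ ε > (0 : ℝ), ∀ y : EuclideanSpace ℝ (Fin n), dist y x < ε → y ≠ x → (∀ i, y ≠ a i) →
          fderiv ℝ (fun z : EuclideanSpace ℝ (Fin n) => ∑ i, q i / ‖z - a i‖ ^ (n - 2)) y ≠ 0) →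
      S.card ≤ (N - 1) ^ 2) := by
  intro H
  obtain ⟨t, ht, ht0⟩ := exists_t
  obtain ⟨s, hs, hs1, hs2⟩ := exists_s
  have h := H 4 4 (by norm_num) (by norm_num) pa (fun _ => 1) pa_inj (fun _ => one_ne_zero)
    (Finset.univ.map ⟨pt t s, pt_inj t s ht0 (by linarith)⟩) ?_
  · simp at h
  · intro x hx
    rw [Finset.mem_map] at hx
    obtain ⟨i, -, rfl⟩ := hx
    obtain ⟨g1, g2, g3⟩ := pt_good t s ht hs hs1 hs2 i
    exact ⟨g1, (crit_iff pa _ g1).mpr g2, isol pa _ g1 g3⟩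

end Pool.Agent.S03720
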