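import Pool.Statements.S03836
import Pool.Agent.Lib.MP_0febd9_an.Upper5
import Pool.Agent.Lib.MP_0febd9_an.Repr

set_option autoImplicit false
open Matrix
open Pool Pool.MP_0febd9_an

namespace Pool.Agent.S03836

/-- The negation of the preceding statement: For every m and all two-well quadratic energies on 2×m matrices (self-adjoint positive definite moduli), the infimum of the cell average of W(F+∇u) over smooth periodic u equals the sup of g(F) over rank-one convex g below W. -/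
theorem result :
    ¬ (∀ (m : ℕ) (L₁ L₂ : Matrix (Fin 2) (Fin m) ℝ →ₗ[ℝ] Matrix (Fin 2) (Fin m) ℝ)
      (F₁ F₂ : Matrix (Fin 2) (Fin m) ℝ) (k₁ k₂ : ℝ),
      (∀ A B : Matrix (Fin 2) (Fin m) ℝ,
          Matrix.trace (A * (L₁ B)ᵀ) = Matrix.trace (L₁ A * Bᵀ)) →
      (∀ A B : Matrix (Fin 2) (Fin m) ℝ,
          Matrix.trace (A * (L₂ B)ᵀ) = Matrix.trace (L₂ A * Bᵀ)) →
      (∀ A : Matrix (Fin 2) (Fin m) ℝ, A ≠ 0 → 0 < Matrix.trace (A * (L₁ A)ᵀ)) →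
      (∀ A : Matrix (Fin 2) (Fin m) ℝ, A ≠ 0 → 0 < Matrix.trace (A * (L₂ A)ᵀ)) →
      ∀ F : Matrix (Fin 2) (Fin m) ℝ,
        sInf { q : ℝ | ∃ u : (Fin 2 → ℝ) → (Fin m → ℝ),
            ContDiff ℝ ((⊤ : ℕ∞) : WithTop ℕ∞) u ∧
            (∀ (x : Fin 2 → ℝ) (z : Fin 2 → ℤ), u (x + fun i => (z i : ℝ)) = u x) ∧
            q = ∫ x in Set.univ.pi (fun _ : Fin 2 => Set.Icc (0 : ℝ) 1),
                (fun H : Matrix (Fin 2) (Fin m) ℝ =>
                    min (Matrix.trace ((H - F₁) * (L₁ (H - F₁))ᵀ) + k₁)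
                        (Matrix.trace ((H - F₂) * (L₂ (H - F₂))ᵀ) + k₂))
                  (F + Matrix.of (fun (i : Fin 2) (α : Fin m) =>
                      fderiv ℝ u x (Pi.single i (1 : ℝ)) α)) }
        =
        sSup { r : ℝ | ∃ g : Matrix (Fin 2) (Fin m) ℝ → ℝ,
            (∀ (A : Matrix (Fin 2) (Fin m) ℝ) (a : Fin 2 → ℝ) (b : Fin m → ℝ),
                ConvexOn ℝ Set.univ (fun t : ℝ => g (A + t • Matrix.vecMulVec a b))) ∧
            (∀ H : Matrix (Fin 2) (Fin m) ℝ,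
                g H ≤ min (Matrix.trace ((H - F₁) * (L₁ (H - F₁))ᵀ) + k₁)
                          (Matrix.trace ((H - F₂) * (L₂ (H - F₂))ᵀ) + k₂)) ∧
            r = g F }) := by
  intro hall
  obtain ⟨p, hp1, hp2, u, hu, hper, hint⟩ := Lib.MP0febd9.upper_bound
  obtain ⟨F₁, k₁, h₁⟩ := Lib.MP0febd9.exists_repr 1
  obtain ⟨F₂, k₂, h₂⟩ := Lib.MP0febd9.exists_repr (-1)
  have hsymm : ∀ (σ : ℝ) (A B : Matrix (Fin 2) (Fin 10) ℝ),
      Matrix.trace (A * (Lib.MP0febd9.LL σ B)ᵀ) = Matrix.trace (Lib.MP0febd9.LL σ A * Bᵀ) := by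
    intro σ A B
    have e : Matrix.trace (Lib.MP0febd9.LL σ A * Bᵀ) = Matrix.trace (B * (Lib.MP0febd9.LL σ A)ᵀ) := by
      rw [← Matrix.trace_transpose, Matrix.transpose_mul, Matrix.transpose_transpose]
    rw [e, Lib.MP0febd9.trace_LL, Lib.MP0febd9.trace_LL, Lib.MP0febd9.Bf_comm]
  have hpos : ∀ (σ : ℝ) (A : Matrix (Fin 2) (Fin 10) ℝ), A ≠ 0 →
      0 < Matrix.trace (A * (Lib.MP0febd9.LL σ A)ᵀ) := by
    intro σ A hA
    rw [Lib.MP0febd9.trace_LL]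
    exact Lib.MP0febd9.Bf_pos σ A hA
  have hE := hall 10 (Lib.MP0febd9.LL 1) (Lib.MP0febd9.LL (-1)) F₁ F₂ k₁ k₂ (hsymm 1)
    (hsymm (-1)) (hpos 1) (hpos (-1)) (Lib.MP0febd9.F0 p)
  simp only [h₁, h₂] at hE
  -- the left side is less than 27/2000
  have hleft : sInf { q : ℝ | ∃ u : (Fin 2 → ℝ) → (Fin 10 → ℝ),
            ContDiff ℝ ((⊤ : ℕ∞) : WithTop ℕ∞) u ∧
            (∀ (x : Fin 2 → ℝ) (z : Fin 2 → ℤ), u (x + fun i => (z i : ℝ)) = u x) ∧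
            q = ∫ x in Set.univ.pi (fun _ : Fin 2 => Set.Icc (0 : ℝ) 1),
                min (Lib.MP0febd9.Wq 1 (Lib.MP0febd9.F0 p + Matrix.of (fun (i : Fin 2) (α : Fin 10) =>
                      fderiv ℝ u x (Pi.single i (1 : ℝ)) α)))
                    (Lib.MP0febd9.Wq (-1) (Lib.MP0febd9.F0 p + Matrix.of (fun (i : Fin 2) (α : Fin 10) =>
                      fderiv ℝ u x (Pi.single i (1 : ℝ)) α))) } < 27 / 2000 := by
    refine lt_of_le_of_lt (csInf_le ?_ ⟨u, hu, hper, rfl⟩) hint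
    refine ⟨0, ?_⟩
    rintro q ⟨v, -, -, rfl⟩
    apply MeasureTheory.integral_nonneg
    intro x
    exact le_min (Lib.MP0febd9.Wq_nonneg _ _) (Lib.MP0febd9.Wq_nonneg _ _)
  have hright : 27 / 2000 ≤ sSup { r : ℝ | ∃ g : Matrix (Fin 2) (Fin 10) ℝ → ℝ,
            (∀ (A : Matrix (Fin 2) (Fin 10) ℝ) (a : Fin 2 → ℝ) (b : Fin 10 → ℝ),
                ConvexOn ℝ Set.univ (fun t : ℝ => g (A + t • Matrix.vecMulVec a b))) ∧
            (∀ H : Matrix (Fin 2) (Fin 10) ℝ,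
                g H ≤ min (Lib.MP0febd9.Wq 1 H) (Lib.MP0febd9.Wq (-1) H)) ∧
            r = g (Lib.MP0febd9.F0 p) } := by
    refine le_trans (Lib.MP0febd9.G_F0_ge hp1 hp2) (le_csSup ?_ ?_)
    · refine ⟨min (Lib.MP0febd9.Wq 1 (Lib.MP0febd9.F0 p)) (Lib.MP0febd9.Wq (-1) (Lib.MP0febd9.F0 p)), ?_⟩
      rintro r ⟨g, -, hg, rfl⟩
      exact hg _
    · exact ⟨Lib.MP0febd9.G, Lib.MP0febd9.G_rankOne, fun H =>
        le_min (Lib.MP0febd9.G_le_Wq H (Or.inl rfl)) (Lib.MP0febd9.G_le_Wq H (Or.inr rfl)), rfl⟩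
  linarith [hE ▸ hleft]

end Pool.Agent.S03836
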