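import Pool.Statements.S03935
import Pool.Agent.Lib.MP_17a4eb_an.Basic

set_option autoImplicit false
open Pool Pool.MP_17a4eb_an

namespace Pool.Agent.S03935

/-- For every complex unital Banach algebra A, every left invertible a with left invertibility radius 1, and every compact K in the open unit disc, some g holomorphic on an open set containing K satisfies g(λ)(a−λ)=1 and the resolvent identity on K. -/
theorem result :
    ∀ (A : Type) [NormedRing A] [NormedAlgebra ℂ A] [CompleteSpace A] (a : A),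
      (∃ b : A, b * a = 1) →
      (∀ z : ℂ, ‖z‖ < 1 → ∃ b : A, b * (a - algebraMap ℂ A z) = 1) →
      (∀ α : ℝ, 1 < α → ∃ z : ℂ, ‖z‖ < α ∧ ∀ b : A, b * (a - algebraMap ℂ A z) ≠ 1) →
      ∀ K : Set ℂ, IsCompact K → K ⊆ Metric.ball (0 : ℂ) 1 →
        ∃ U : Set ℂ, IsOpen U ∧ K ⊆ U ∧
          ∃ g : ℂ → A, DifferentiableOn ℂ g U ∧
            (∀ z ∈ K, g z * (a - algebraMap ℂ A z) = 1) ∧
            (∀ z ∈ K, ∀ w ∈ K, g z - g w = (z - w) • (g z * g w)) := by
  intro A _ _ _ a _ hleft _ K hK hK1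
  -- choose a radius `r < 1` with `K` inside the open disc of radius `r`
  obtain ⟨r, hr0, hr1, hKr⟩ : ∃ r : ℝ, 0 ≤ r ∧ r < 1 ∧ K ⊆ Metric.ball (0 : ℂ) r := by
    rcases K.eq_empty_or_nonempty with rfl | hne
    · exact ⟨0, le_refl _, one_pos, Set.empty_subset _⟩
    · obtain ⟨z, hz, hmax⟩ := hK.exists_isMaxOn hne continuous_norm.continuousOn
      have hz1 : ‖z‖ < 1 := by simpa using hK1 hz
      refine ⟨(‖z‖ + 1) / 2, by positivity, by linarith, ?_⟩
      intro w hw
      have h1 : ‖w‖ ≤ ‖z‖ := hmax hw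
      rw [mem_ball_zero_iff]
      linarith
  obtain ⟨b, hba, hb⟩ := Pool.Agent.Lib.MP17a4eb.exists_good_left_inverse (r := r) hr0 a
    (fun l hl => hleft l (lt_of_le_of_lt hl hr1))
  refine ⟨Metric.ball 0 r, Metric.isOpen_ball, hKr, fun z => Ring.inverse (1 - algebraMap ℂ A z * b) * b,
    ?_, ?_, ?_⟩
  · intro z hz
    have hz' : ‖z‖ ≤ r := by rw [mem_ball_zero_iff] at hz; exact hz.le
    have h1 : DifferentiableAt ℂ (fun z : ℂ => 1 - algebraMap ℂ A z * b) z := by
      have h2 : DifferentiableAt ℂ (fun z : ℂ => algebraMap ℂ A z) z :=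
        (algebraMapCLM ℂ A).differentiableAt
      exact (differentiableAt_const _).sub (h2.mul_const b)
    have h3 : DifferentiableAt ℂ (fun z : ℂ => Ring.inverse (1 - algebraMap ℂ A z * b)) z :=
      DifferentiableAt.comp (g := Ring.inverse) z (differentiableAt_inverse (𝕜 := ℂ) (hb z hz')) h1
    exact (h3.mul_const b).differentiableWithinAt
  · intro z hz
    have hz' : ‖z‖ ≤ r := by
      have := hKr hz
      rw [mem_ball_zero_iff] at this; exact this.le
    have h1 : b * (a - algebraMap ℂ A z) = 1 - algebraMap ℂ A z * b := by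
      rw [mul_sub, hba, Algebra.commutes z b]
    show Ring.inverse (1 - algebraMap ℂ A z * b) * b * (a - algebraMap ℂ A z) = 1
    rw [mul_assoc, h1]
    exact Ring.inverse_mul_cancel _ (hb z hz')
  · intro z hz w hw
    have hz' : ‖z‖ ≤ r := by
      have := hKr hz
      rw [mem_ball_zero_iff] at this; exact this.le
    have hw' : ‖w‖ ≤ r := by
      have := hKr hw
      rw [mem_ball_zero_iff] at this; exact this.le
    show Ring.inverse (1 - algebraMap ℂ A z * b) * b - Ring.inverse (1 - algebraMap ℂ A w * b) * b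
      = (z - w) • (Ring.inverse (1 - algebraMap ℂ A z * b) * b * (Ring.inverse (1 - algebraMap ℂ A w * b) * b))
    obtain ⟨u, hu⟩ := hb z hz'
    obtain ⟨v, hv⟩ := hb w hw'
    rw [← hu, ← hv, Ring.inverse_unit, Ring.inverse_unit]
    -- v and b commute
    have hvb : (v : A) * b = b * v := by
      rw [hv, sub_mul, mul_sub, one_mul, mul_one, ← mul_assoc b, ← Algebra.commutes w b]
    have hvb' : ((v⁻¹ : Aˣ) : A) * b = b * ((v⁻¹ : Aˣ) : A) := by
      calc ((v⁻¹ : Aˣ) : A) * b = ((v⁻¹ : Aˣ) : A) * (b * v) * ((v⁻¹ : Aˣ) : A) := by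
            rw [mul_assoc, mul_assoc, Units.mul_inv, mul_one]
        _ = b * ((v⁻¹ : Aˣ) : A) := by
            rw [← hvb, ← mul_assoc, Units.inv_mul, one_mul]
    have hub : (z - w) • b = (v : A) - u := by
      rw [hu, hv, Algebra.smul_def, map_sub, sub_mul]; abel
    calc ((u⁻¹ : Aˣ) : A) * b - ((v⁻¹ : Aˣ) : A) * b
        = ((u⁻¹ : Aˣ) : A) * ((v : A) - u) * ((v⁻¹ : Aˣ) : A) * b := by
          rw [mul_sub, sub_mul, Units.inv_mul, one_mul, mul_assoc ((u⁻¹ : Aˣ) : A), Units.mul_inv,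
            mul_one, sub_mul]
      _ = ((u⁻¹ : Aˣ) : A) * ((z - w) • b) * (((v⁻¹ : Aˣ) : A) * b) := by
          rw [hub, mul_assoc]
      _ = (z - w) • (((u⁻¹ : Aˣ) : A) * b * (((v⁻¹ : Aˣ) : A) * b)) := by
          rw [mul_smul_comm, smul_mul_assoc]

end Pool.Agent.S03935
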