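import Pool.Statements.S04211
import Pool.Agent.Had83.Final

set_option autoImplicit false
open Pool Pool.MP_2df86a_an

namespace Pool.Agent.S04211

/-- Let f(z)=∑a_k z^{n_k} converge in the unit disc with n_{k+1} ≥ q·n_k, q>1, and T(r,f)→∞ as r→1. Then for every finite w, liminf over r→1 of m(r,w)/T(r,f) is 0, i.e. the Nevanlinna deficiency δ(w,f) vanishes. -/
theorem result :
    ∀ (a : ℕ → ℂ) (n : ℕ → ℕ) (q : ℝ), 1 < q → StrictMono n →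
      (∀ k, q * (n k : ℝ) ≤ (n (k + 1) : ℝ)) →
      (∀ z : ℂ, ‖z‖ < 1 → Summable (fun k => a k * z ^ (n k))) →
      Filter.Tendsto
        (fun r : ℝ => (2 * Real.pi)⁻¹ * ∫ θ in (0:ℝ)..(2 * Real.pi),
          max 0 (Real.log ‖∑' k, a k * (circleMap 0 r θ) ^ (n k)‖))
        (nhdsWithin 1 (Set.Iio 1)) Filter.atTop →
      ∀ w : ℂ, ∀ ε : ℝ, 0 < ε → ∀ r₀ : ℝ, r₀ < 1 →
        ∃ r : ℝ, r₀ < r ∧ r < 1 ∧
          (2 * Real.pi)⁻¹ * ∫ θ in (0:ℝ)..(2 * Real.pi),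
              max 0 (Real.log (‖(∑' k, a k * (circleMap 0 r θ) ^ (n k)) - w‖⁻¹))
            ≤ ε * ((2 * Real.pi)⁻¹ * ∫ θ in (0:ℝ)..(2 * Real.pi),
              max 0 (Real.log ‖∑' k, a k * (circleMap 0 r θ) ^ (n k)‖)) := by
  intro a n q hq hn hr hs hT w ε hε r₀ hr₀
  exact Pool.Agent.Had83.main a n q hq hn hr hs hT w ε hε r₀ hr₀

end Pool.Agent.S04211
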