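import Pool.Statements.S04213
import Pool.Agent.Lib.MP_2e175a_an.Main

set_option autoImplicit false
open Pool Pool.MP_2e175a_an

namespace Pool.Agent.S04213

/-- For every real Banach space with a bounded non-dentable set (i.e. failing RNP) and every ε>0, there is an equivalent norm such that every slice of its closed unit ball contains two points at new-norm distance greater than 2−ε. -/
theorem result :
  ∀ (X : Type) [NormedAddCommGroup X] [NormedSpace ℝ X] [CompleteSpace X],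
    (∃ D : Set X, D.Nonempty ∧ Bornology.IsBounded D ∧ ∃ δ : ℝ, 0 < δ ∧
        ∀ f : X →L[ℝ] ℝ, ∀ α : ℝ, 0 < α →
          ∃ x ∈ D, ∃ y ∈ D, sSup (f '' D) - α < f x ∧ sSup (f '' D) - α < f y ∧
            δ ≤ ‖x - y‖) →
    ∀ ε : ℝ, 0 < ε →
      ∃ N : Seminorm ℝ X,
        (∃ c : ℝ, 0 < c ∧ ∃ C : ℝ, 0 < C ∧ ∀ x : X, c * ‖x‖ ≤ N x ∧ N x ≤ C * ‖x‖) ∧
        ∀ f : X →L[ℝ] ℝ, ∀ α : ℝ, 0 < α →
          ∃ x y : X, N x ≤ 1 ∧ N y ≤ 1 ∧
            sSup (f '' {z : X | N z ≤ 1}) - α < f x ∧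
            sSup (f '' {z : X | N z ≤ 1}) - α < f y ∧
            2 - ε < N (x - y) := by
  intro X _ _ _ hX ε hε
  exact Pool.Agent.MP2e175a.main hX ε hε

end Pool.Agent.S04213
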