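import Pool.Statements.S04478
import Pool.Agent.Lib.MP_420470_an.Flat
import Pool.Agent.Lib.MP_420470_an.Domain

set_option autoImplicit false
open scoped ContDiff
open Pool Pool.MP_420470_an

namespace Pool.Agent.S04478

open Pool.Agent.Lib.MP_420470_an

lemma nat_le_infty (m : ℕ) : ((m : ℕ) : WithTop ℕ∞) ≤ ∞ := by exact_mod_cast le_top

/-- There is a small multiple of `H` whose squared modulus has small values and derivatives. -/
lemma exists_scale : ∃ s : ℝ, 0 < s ∧ (∀ u : ℂ, ‖(s : ℂ) * H u‖ ^ 2 ≤ 1) ∧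
    (∀ u : ℂ, ‖fderiv ℝ (fderiv ℝ (fun u => ‖(s : ℂ) * H u‖ ^ 2)) u‖ ≤ 1 / 2) := by
  obtain ⟨C0, hC0, h0⟩ := iter_H_bound 0
  obtain ⟨C1, hC1, h1⟩ := iter_H_bound 1
  obtain ⟨C2, hC2, h2⟩ := iter_H_bound 2
  let M : ℝ := C0 ^ 2 + 2 * (C0 * C2 + 2 * C1 * C1 + C2 * C0) + 1
  have hM : 0 < M := by positivity
  have hM1 : 1 ≤ M := by
    have : 0 ≤ C0 ^ 2 + 2 * (C0 * C2 + 2 * C1 * C1 + C2 * C0) := by positivity
    simp only [M]; linarith
  have hK : ∀ u : ℂ, ‖iteratedFDeriv ℝ 2 (fun u => ‖H u‖ ^ 2) u‖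
      ≤ C0 * C2 + 2 * C1 * C1 + C2 * C0 := by
    intro u
    have e1 : (fun u => ‖H u‖ ^ 2) = (fun u => (innerSL ℝ (H u)) (H u)) := by
      funext u
      simp
    rw [e1]
    have e2 := (innerSL ℝ (E := ℂ)).norm_iteratedFDeriv_le_of_bilinear H_contDiff H_contDiff u
      (n := 2) (nat_le_infty 2)
    refine e2.trans ?_
    have e3 : ‖(innerSL ℝ (E := ℂ))‖ ≤ 1 := by
      refine ContinuousLinearMap.opNorm_le_bound _ zero_le_one (fun x => ?_)
      rw [innerSL_apply_norm, one_mul]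
    simp only [Finset.sum_range_succ, Finset.sum_range_zero, Nat.choose_zero_right, Nat.cast_one,
      one_mul, zero_add, Nat.choose_one_right, Nat.cast_ofNat, Nat.choose_self, Nat.sub_zero]
    have p0 := norm_nonneg (iteratedFDeriv ℝ 0 H u)
    have p1 := norm_nonneg (iteratedFDeriv ℝ 1 H u)
    have p2 := norm_nonneg (iteratedFDeriv ℝ 2 H u)
    have q0 := h0 u
    have q1 := h1 u
    have q2 := h2 u
    have e4 : (‖iteratedFDeriv ℝ 0 H u‖ * ‖iteratedFDeriv ℝ 2 H u‖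
        + 2 * ‖iteratedFDeriv ℝ 1 H u‖ * ‖iteratedFDeriv ℝ (2 - 1) H u‖
        + ‖iteratedFDeriv ℝ 2 H u‖ * ‖iteratedFDeriv ℝ 0 H u‖)
        ≤ C0 * C2 + 2 * C1 * C1 + C2 * C0 := by
      have : (2 - 1 : ℕ) = 1 := rfl
      rw [this]
      gcongr
    refine (mul_le_mul e3 e4 (by positivity) zero_le_one).trans ?_
    rw [one_mul]
  let s : ℝ := 1 / (2 * M)
  have hs : 0 < s := by positivity
  have hs1 : s ≤ 1 / 2 := by
    simp only [s]
    rw [div_le_div_iff₀ (by positivity) (by norm_num)]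
    linarith
  have hs2 : s ^ 2 * M ≤ 1 / 2 := by
    have : s * M = 1 / 2 := by simp only [s]; field_simp
    calc s ^ 2 * M = s * (s * M) := by ring
      _ = s * (1 / 2) := by rw [this]
      _ ≤ 1 / 2 := by linarith
  have hfun : (fun u => ‖(s : ℂ) * H u‖ ^ 2) = (s ^ 2) • (fun u => ‖H u‖ ^ 2) := by
    funext u
    simp [mul_pow, abs_of_pos hs]
  refine ⟨s, hs, fun u => ?_, fun u => ?_⟩
  · have e1 := congrFun hfun u
    simp only [Pi.smul_apply, smul_eq_mul] at e1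
    rw [e1]
    have e2 : ‖H u‖ ≤ C0 := by simpa using h0 u
    have e3 : ‖H u‖ ^ 2 ≤ M := by
      have : ‖H u‖ ^ 2 ≤ C0 ^ 2 := by gcongr
      have h5 : 0 ≤ 2 * (C0 * C2 + 2 * C1 * C1 + C2 * C0) := by positivity
      simp only [M]; linarith
    have : s ^ 2 * ‖H u‖ ^ 2 ≤ s ^ 2 * M := by gcongr
    linarith
  · rw [← norm_iteratedFDeriv_one (𝕜 := ℝ) (fderiv ℝ _), norm_iteratedFDeriv_fderiv, hfun]
    have hcd : ContDiff ℝ ∞ (fun u => ‖H u‖ ^ 2) := H_contDiff.norm_sq ℝ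
    rw [iteratedFDeriv_const_smul_apply (hcd.contDiffAt.of_le (nat_le_infty (1 + 1))), norm_smul]
    have e1 : ‖s ^ 2‖ = s ^ 2 := by rw [Real.norm_of_nonneg (by positivity)]
    rw [e1]
    have e2 := hK u
    have e3 : ‖iteratedFDeriv ℝ (1 + 1) (fun u => ‖H u‖ ^ 2) u‖ ≤ M := by
      refine e2.trans ?_
      have h5 : 0 ≤ C0 ^ 2 := by positivity
      have h6 : 0 ≤ (C0 * C2 + 2 * C1 * C1 + C2 * C0) := by positivity
      simp only [M]; linarith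
    calc _ ≤ s ^ 2 * M := by gcongr
      _ ≤ 1 / 2 := hs2

/-- The maps into complex three-space. -/
noncomputable def FF (s : ℝ) (z : Fin 2 → ℂ) : Fin 3 → ℂ := ![z 0, z 1, (s : ℂ) * H (z 0)]

lemma FF_contDiff (s : ℝ) : ContDiff ℝ ∞ (FF s) := by
  unfold FF
  rw [contDiff_pi]
  intro i
  fin_cases i
  · exact contDiff_apply ℝ ℂ (0 : Fin 2)
  · exact contDiff_apply ℝ ℂ (1 : Fin 2)
  · exact contDiff_const.mul (H_contDiff.comp (contDiff_apply ℝ ℂ (0 : Fin 2)))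

lemma FF_holo (s : ℝ) : DifferentiableOn ℂ (FF s) {z | 0 < (z 0).re} := by
  unfold FF
  rw [differentiableOn_pi]
  intro i
  have e0 : DifferentiableOn ℂ (fun z : Fin 2 → ℂ => z 0) {z | 0 < (z 0).re} :=
    (differentiable_apply (𝕜 := ℂ) (0 : Fin 2)).differentiableOn
  fin_cases i
  · exact e0
  · exact (differentiable_apply (𝕜 := ℂ) (1 : Fin 2)).differentiableOn
  · exact (H_differentiableOn.comp e0 (fun z hz => hz)).const_mul _

/-- centre of the source ball -/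
def c2 : Fin 2 → ℂ := ![1, 0]
/-- centre of the target domain -/
def c3 : Fin 3 → ℂ := ![1, 0, 0]

lemma PP_FF (s t : ℝ) (hst : s ^ 2 = t ^ 2) (z : Fin 2 → ℂ) :
    PP c3 0 (fun u => ‖(s : ℂ) * H u‖ ^ 2) (FF t z) = PP c2 0 (fun _ => 0) z := by
  unfold PP SS FF c2 c3
  simp [Fin.sum_univ_succ, mul_pow, sq_abs, hst]
  ring

lemma re_pos_of_mem {z : Fin 2 → ℂ} (hz : PP c2 0 (fun _ => 0) z < 0) : 0 < (z 0).re := by
  unfold PP at hz
  have h1 := sq_le_SS (z - c2) 0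
  have h2 : ‖z 0 - 1‖ ^ 2 < 1 := by
    have : (z - c2) 0 = z 0 - 1 := by simp [c2]
    rw [this] at h1
    linarith
  have h3 : |(z 0 - 1).re| ≤ ‖z 0 - 1‖ := Complex.abs_re_le_norm _
  have h4 : ‖z 0 - 1‖ < 1 := by
    have := norm_nonneg (z 0 - 1)
    nlinarith
  have h5 := (abs_le.mp h3).1
  simp at h5
  linarith

theorem result :
    ¬ (∀ (n N : ℕ), 2 ≤ n → 1 ≤ N →
  ∀ (Ω : Set (Fin n → ℂ)) (Ω' : Set (Fin N → ℂ)),
  (IsOpen Ω ∧ IsConnected Ω ∧ Bornology.IsBounded Ω ∧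
    ∃ ρ : (Fin n → ℂ) → ℝ, ContDiff ℝ ∞ ρ ∧ Ω = {z | ρ z < 0} ∧
      ∀ z ∈ frontier Ω, fderiv ℝ ρ z ≠ 0 ∧
        ∀ v : Fin n → ℂ, v ≠ 0 → fderiv ℝ ρ z v = 0 →
          fderiv ℝ ρ z (Complex.I • v) = 0 →
          0 < fderiv ℝ (fderiv ℝ ρ) z v v
              + fderiv ℝ (fderiv ℝ ρ) z (Complex.I • v) (Complex.I • v)) →
  (IsOpen Ω' ∧ IsConnected Ω' ∧ Bornology.IsBounded Ω' ∧
    ∃ ρ : (Fin N → ℂ) → ℝ, ContDiff ℝ ∞ ρ ∧ Ω' = {z | ρ z < 0} ∧
      ∀ z ∈ frontier Ω', fderiv ℝ ρ z ≠ 0 ∧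
        ∀ v : Fin N → ℂ, v ≠ 0 → fderiv ℝ ρ z v = 0 →
          fderiv ℝ ρ z (Complex.I • v) = 0 →
          0 < fderiv ℝ (fderiv ℝ ρ) z v v
              + fderiv ℝ (fderiv ℝ ρ) z (Complex.I • v) (Complex.I • v)) →
  ∀ f : (Fin n → ℂ) → (Fin N → ℂ), ContDiff ℝ ∞ f → DifferentiableOn ℂ f Ω →
    Set.MapsTo f Ω Ω' →
    (∀ K : Set (Fin N → ℂ), IsCompact K → K ⊆ Ω' → IsCompact (Ω ∩ f ⁻¹' K)) →
  ∀ p ∈ closure Ω, ∃ k : ℕ,
    ∀ g : (Fin n → ℂ) → (Fin N → ℂ), ContDiff ℝ ∞ g → DifferentiableOn ℂ g Ω →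
      Set.MapsTo g Ω Ω' →
      (∀ K : Set (Fin N → ℂ), IsCompact K → K ⊆ Ω' → IsCompact (Ω ∩ g ⁻¹' K)) →
      (∀ m : ℕ, m ≤ k → iteratedFDeriv ℝ m g p = iteratedFDeriv ℝ m f p) →
      Set.EqOn g f Ω) := by
  intro hmain
  obtain ⟨s, hs, hs1, hs2⟩ := exists_scale
  set κ : ℂ → ℝ := fun u => ‖(s : ℂ) * H u‖ ^ 2 with hκdef
  have hκ : ContDiff ℝ ∞ κ := (contDiff_const.mul H_contDiff).norm_sq ℝ
  have hΩ : SPC {z : Fin 2 → ℂ | PP c2 0 (fun _ => 0) z < 0} := by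
    refine spc_PP c2 0 (fun _ => 0) contDiff_const (fun _ => le_rfl) (fun _ => by norm_num) ?_
    intro u
    have e0 : fderiv ℝ (fun _ : ℂ => (0:ℝ)) = fun _ => 0 := by
      funext x
      exact fderiv_const_apply 0
    rw [e0]
    have e1 : fderiv ℝ (fun _ : ℂ => (0 : ℂ →L[ℝ] ℝ)) u = 0 := fderiv_const_apply 0
    rw [e1]
    exact (norm_zero (E := ℂ →L[ℝ] ℂ →L[ℝ] ℝ)).le.trans (by norm_num)
  have hΩ' : SPC {z : Fin 3 → ℂ | PP c3 0 κ z < 0} :=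
    spc_PP c3 0 κ hκ (fun u => by positivity) hs1 hs2
  set Ω : Set (Fin 2 → ℂ) := {z : Fin 2 → ℂ | PP c2 0 (fun _ => 0) z < 0} with hΩdef
  set Ω' : Set (Fin 3 → ℂ) := {z : Fin 3 → ℂ | PP c3 0 κ z < 0} with hΩ'def
  have hbdd : Bornology.IsBounded Ω := hΩ.2.2.1
  -- facts valid for both maps
  have hmaps : ∀ t : ℝ, s ^ 2 = t ^ 2 → ∀ z, FF t z ∈ Ω' ↔ z ∈ Ω := by
    intro t ht z
    simp only [hΩdef, hΩ'def, Set.mem_ofPred, hκdef]
    rw [PP_FF s t ht]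
  have hproper : ∀ t : ℝ, s ^ 2 = t ^ 2 →
      ∀ K : Set (Fin 3 → ℂ), IsCompact K → K ⊆ Ω' → IsCompact (Ω ∩ FF t ⁻¹' K) := by
    intro t ht K hK hKΩ
    have e1 : Ω ∩ FF t ⁻¹' K = FF t ⁻¹' K := by
      apply Set.inter_eq_right.mpr
      intro z hz
      exact (hmaps t ht z).mp (hKΩ hz)
    rw [e1]
    refine Metric.isCompact_of_isClosed_isBounded (hK.isClosed.preimage (FF_contDiff t).continuous) ?_
    refine hbdd.subset ?_
    intro z hz
    exact (hmaps t ht z).mp (hKΩ hz)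
  have hholo : ∀ t : ℝ, DifferentiableOn ℂ (FF t) Ω := fun t =>
    (FF_holo t).mono (fun z hz => re_pos_of_mem hz)
  have hp : (0 : Fin 2 → ℂ) ∈ closure Ω := by
    have hcont : Filter.Tendsto (fun x : ℝ => ((x : ℂ) • c2)) (nhdsWithin 0 (Set.Ioi 0))
        (nhds (0 : Fin 2 → ℂ)) := by
      have h1 : Continuous (fun x : ℝ => ((x : ℂ) • c2)) :=
        Complex.continuous_ofReal.smul continuous_const
      have h2 := h1.tendsto 0
      simp only [Complex.ofReal_zero, zero_smul] at h2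
      exact h2.mono_left nhdsWithin_le_nhds
    refine mem_closure_of_tendsto hcont ?_
    have : Set.Ioo (0:ℝ) 1 ∈ nhdsWithin (0:ℝ) (Set.Ioi 0) := Ioo_mem_nhdsGT one_pos
    filter_upwards [this] with x hx
    change PP c2 0 (fun _ => 0) _ < 0
    unfold PP SS c2
    have e1 : ‖(x : ℂ) - 1‖ ^ 2 = (1 - x) ^ 2 := by
      have : (x : ℂ) - 1 = ((x - 1 : ℝ) : ℂ) := by push_cast; ring
      rw [this, Complex.norm_real, Real.norm_eq_abs, sq_abs]
      ring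
    simp only [Fin.sum_univ_two, Pi.sub_apply, Pi.smul_apply, Matrix.cons_val_zero,
      Matrix.cons_val_one, smul_eq_mul, mul_one, mul_zero, sub_zero, norm_zero]
    rw [e1]
    nlinarith [hx.1, hx.2]
  obtain ⟨k, hk⟩ := hmain 2 3 le_rfl (by norm_num) Ω Ω' hΩ hΩ' (FF s) (FF_contDiff s) (hholo s)
    (fun z hz => (hmaps s rfl z).mpr hz) (hproper s rfl) 0 hp
  have hneg : s ^ 2 = (-s) ^ 2 := by ring
  have hEq := hk (FF (-s)) (FF_contDiff (-s)) (hholo (-s))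
    (fun z hz => (hmaps (-s) hneg z).mpr hz) (hproper (-s) hneg) ?_
  · have hc : c2 ∈ Ω := by
      change PP c2 0 (fun _ => 0) c2 < 0
      exact PP_center c2 0 (fun _ => 0) (fun _ => le_rfl)
    have h1 := congrFun (hEq hc) 2
    have h2 : FF (-s) c2 2 = -((s : ℂ) * H 1) := by simp [FF, c2]
    have h3 : FF s c2 2 = (s : ℂ) * H 1 := by simp [FF, c2]
    rw [h2, h3] at h1
    have h4 : (s : ℂ) * H 1 = 0 := by
      have : (2:ℂ) * ((s : ℂ) * H 1) = 0 := by linear_combination (-1:ℂ) * h1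
      simpa using this
    rcases mul_eq_zero.mp h4 with h | h
    · exact hs.ne' (by exact_mod_cast h)
    · exact H_one_ne_zero h
  · intro m _
    -- the difference of the two maps is flat
    let L : ℂ →L[ℝ] (Fin 3 → ℂ) :=
      ContinuousLinearMap.pi ![0, 0, (-(2 * s)) • ContinuousLinearMap.id ℝ ℂ]
    have hfun : FF (-s) = FF s + (fun z : Fin 2 → ℂ => L (H (z 0))) := by
      funext z i
      fin_cases i
      · simp [FF, L]
      · simp [FF, L]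
      · simp [FF, L]; ring
    have hg : ContDiff ℝ ∞ (fun z : Fin 2 → ℂ => L (H (z 0))) :=
      L.contDiff.comp (H_contDiff.comp (contDiff_apply ℝ ℂ (0 : Fin 2)))
    have hm : ((m : ℕ∞) : WithTop ℕ∞) ≤ ∞ := by exact_mod_cast le_top
    rw [hfun, iteratedFDeriv_add_apply ((FF_contDiff s).contDiffAt.of_le hm) (hg.contDiffAt.of_le hm)]
    have hz : iteratedFDeriv ℝ m (fun z : Fin 2 → ℂ => L (H (z 0))) 0 = 0 := by
      have h1 : (fun z : Fin 2 → ℂ => L (H (z 0)))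
          = (L ∘ H) ∘ (ContinuousLinearMap.proj (R := ℝ) (φ := fun _ : Fin 2 => ℂ) 0) := rfl
      rw [h1, ContinuousLinearMap.iteratedFDeriv_comp_right _ (L.contDiff.comp H_contDiff) _ hm]
      have h2 := L.iteratedFDeriv_comp_left (f := H) (x := (0:ℂ)) (i := m) H_contDiff.contDiffAt hm
      have h3 : (ContinuousLinearMap.proj (R := ℝ) (φ := fun _ : Fin 2 => ℂ) 0) (0 : Fin 2 → ℂ) = 0 := rfl
      rw [h3, h2, iter_H_zero]
      ext v
      simp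
    rw [hz, add_zero]

end Pool.Agent.S04478
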