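import Pool.Statements.S04624

set_option autoImplicit false
open MeasureTheory
open Pool Pool.MP_4d58d7_an

namespace Pool.Agent.S04624

/-- The three-column sketching matrix `[I | s (1, σ)]`. -/
noncomputable def Mk (s σ : ℝ) : Fin 2 → Fin 3 → ℝ := ![![1, 0, s], ![0, 1, σ * s]]

/-- The random sketch: `Mk s 1`, `Mk s (-1)` with probability `99/200` each and `0` with
probability `1/100`. -/
noncomputable def mu (s : ℝ) : Measure (Fin 2 → Fin 3 → ℝ) :=
  ENNReal.ofReal (99 / 200) • Measure.dirac (Mk s 1) +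
    (ENNReal.ofReal (99 / 200) • Measure.dirac (Mk s (-1)) +
      ENNReal.ofReal (1 / 100) • Measure.dirac 0)

instance (s : ℝ) : IsProbabilityMeasure (mu s) := by
  constructor
  simp only [mu, Measure.coe_add, Measure.coe_smul, Pi.add_apply, Pi.smul_apply, measure_univ,
    smul_eq_mul, mul_one]
  rw [← ENNReal.ofReal_add (by norm_num) (by norm_num),
    ← ENNReal.ofReal_add (by norm_num) (by norm_num)]
  norm_num

lemma mu_zero_of (s : ℝ) (S : Set (Fin 2 → Fin 3 → ℝ)) (h1 : Mk s 1 ∉ S) (h2 : Mk s (-1) ∉ S)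
    (h3 : (0 : Fin 2 → Fin 3 → ℝ) ∉ S) : mu s S = 0 := by
  simp [mu, h1, h2, h3]

lemma integral_mu (s : ℝ) (f : (Fin 2 → Fin 3 → ℝ) → ℝ) :
    ∫ ω, f ω ∂(mu s) = 99 / 200 * f (Mk s 1) + (99 / 200 * f (Mk s (-1)) + 1 / 100 * f 0) := by
  have hi : ∀ (a : Fin 2 → Fin 3 → ℝ) (c : ℝ),
      Integrable f (ENNReal.ofReal c • Measure.dirac a) := by
    intro a c
    exact (integrable_dirac (by simp)).smul_measure (by simp)
  rw [mu, integral_add_measure (hi _ _) ((hi _ _).add_measure (hi _ _)),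
    integral_add_measure (hi _ _) (hi _ _), integral_smul_measure, integral_smul_measure,
    integral_smul_measure, integral_dirac, integral_dirac, integral_dirac]
  simp only [smul_eq_mul]
  rw [ENNReal.toReal_ofReal (by norm_num), ENNReal.toReal_ofReal (by norm_num)]

lemma notMem_aux (C ε s σ : ℝ) (hCε : C * ε ≤ 1 / 100000) (hs : s ^ 2 = 1 / 99)
    (hσ : σ ^ 2 = 1)
    (hmem : ∀ G : Matrix (Fin 1) (Fin 3) ℝ,
          (Matrix.transpose (Matrix.of (Mk s σ)) * !![(1 : ℝ); 0]) * G *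
            (Matrix.transpose (Matrix.of (Mk s σ)) * !![(1 : ℝ); 0])
              = Matrix.transpose (Matrix.of (Mk s σ)) * !![(1 : ℝ); 0] →
          G * (Matrix.transpose (Matrix.of (Mk s σ)) * !![(1 : ℝ); 0]) * G = G →
          Matrix.transpose ((Matrix.transpose (Matrix.of (Mk s σ)) * !![(1 : ℝ); 0]) * G)
              = (Matrix.transpose (Matrix.of (Mk s σ)) * !![(1 : ℝ); 0]) * G →
          Matrix.transpose (G * (Matrix.transpose (Matrix.of (Mk s σ)) * !![(1 : ℝ); 0]))
              = G * (Matrix.transpose (Matrix.of (Mk s σ)) * !![(1 : ℝ); 0]) →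
          ∀ X : Matrix (Fin 1) (Fin 1) ℝ,
            Real.sqrt (∑ i, ∑ j, ((!![(1 : ℝ); 0] *
              (G * Matrix.transpose (Matrix.of (Mk s σ)) * !![(1 : ℝ); 1]) -
                !![(1 : ℝ); 1]) i j) ^ 2) ≤
              (1 + C * ε) * Real.sqrt (∑ i, ∑ j, ((!![(1 : ℝ); 0] * X - !![(1 : ℝ); 1]) i j) ^ 2)) :
    False := by
  have hM : Matrix.transpose (Matrix.of (Mk s σ)) * !![(1 : ℝ); 0] = !![1; 0; s] := by
    ext i j
    fin_cases i <;> fin_cases j <;>
      simp [Mk, Matrix.mul_apply, Fin.sum_univ_succ]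
  have hG := hmem (!![99 / 100, 0, 99 / 100 * s])
  rw [hM] at hG
  have h1 : !![(99 : ℝ) / 100, 0, 99 / 100 * s] * !![1; 0; s] = 1 := by
    ext i j
    fin_cases i; fin_cases j
    simp [Matrix.mul_apply, Fin.sum_univ_succ]
    linear_combination (99 / 100) * hs
  have h := hG (by rw [Matrix.mul_assoc, h1, Matrix.mul_one]) (by rw [h1, Matrix.one_mul])
    (by
      ext i j
      fin_cases i <;> fin_cases j <;>
        simp [Matrix.mul_apply] <;> ring) (by rw [h1, Matrix.transpose_one]) !![1]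
  have hP : !![(99 : ℝ) / 100, 0, 99 / 100 * s] * Matrix.transpose (Matrix.of (Mk s σ)) *
      !![(1 : ℝ); 1] = !![1 + σ / 100] := by
    have hQ : Matrix.transpose (Matrix.of (Mk s σ)) * !![(1 : ℝ); 1] = !![1; 1; s + σ * s] := by
      ext i j
      fin_cases i <;> fin_cases j <;>
        simp [Mk, Matrix.mul_apply, Fin.sum_univ_succ]
    rw [Matrix.mul_assoc, hQ]
    ext i j
    fin_cases i; fin_cases j
    simp [Matrix.mul_apply, Fin.sum_univ_succ]
    linear_combination (99 / 100 * (1 + σ)) * hs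
  rw [hP] at h
  simp only [Fin.sum_univ_two, Finset.univ_unique, Fin.default_eq_zero,
        Finset.sum_singleton, Matrix.sub_apply, Matrix.mul_apply] at h
  simp at h
  have h1 : Real.sqrt (1 + 1 / 10000) > 1 + 1 / 100000 := by
    apply Real.lt_sqrt_of_sq_lt
    norm_num
  have h2 : Real.sqrt (1 + 1 / 10000) ≤ 1 + C * ε := by
    convert h using 2
    linear_combination (-1 / 10000) * hσ
  linarith

lemma rank_aux : (!![(1 : ℝ); 0] : Matrix (Fin 2) (Fin 1) ℝ).rank = 1 := by
  rw [Matrix.rank_eq_finrank_span_cols]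
  have hli : LinearIndependent ℝ (!![(1 : ℝ); 0] : Matrix (Fin 2) (Fin 1) ℝ).col := by
    rw [linearIndependent_unique_iff]
    intro h
    have := congrFun h 0
    simp [Matrix.col] at this
  rw [finrank_span_eq_card hli]
  simp

/-- The negation of the preceding statement: There are constants C and c₀>0 such that, for any isotropic n×k random matrix Ω that is a dimension-d OSI with injectivity 1−ε and failure 0.01, sketch-and-solve has error at most (1+Cε)·OPT with probability at least c₀. -/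
theorem result :
    ¬ (∃ C : ℝ, ∃ c₀ : ℝ, 0 < c₀ ∧
    ∀ (n d p k : ℕ), 0 < n → 0 < d → 0 < p → 0 < k →
    ∀ ε : ℝ, 0 < ε → ε < 1 →
    ∀ (A : Matrix (Fin n) (Fin d) ℝ), A.rank = d →
    ∀ (B : Matrix (Fin n) (Fin p) ℝ),
    ∀ (μ : Measure (Fin n → Fin k → ℝ)) [IsProbabilityMeasure μ],
      (∀ x : Fin n → ℝ, ∫ ω, (∑ j, (∑ i, ω i j * x i) ^ 2) ∂μ = ∑ i, x i ^ 2) →
      (∀ V : Submodule ℝ (Fin n → ℝ), Module.finrank ℝ V = d →
         ENNReal.ofReal (99 / 100) ≤
           μ {ω | ∀ x ∈ V, (1 - ε) * ∑ i, x i ^ 2 ≤ ∑ j, (∑ i, ω i j * x i) ^ 2}) →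
      ENNReal.ofReal c₀ ≤ μ {ω | ∀ G : Matrix (Fin d) (Fin k) ℝ,
          (Matrix.transpose (Matrix.of ω) * A) * G * (Matrix.transpose (Matrix.of ω) * A)
              = Matrix.transpose (Matrix.of ω) * A →
          G * (Matrix.transpose (Matrix.of ω) * A) * G = G →
          Matrix.transpose ((Matrix.transpose (Matrix.of ω) * A) * G)
              = (Matrix.transpose (Matrix.of ω) * A) * G →
          Matrix.transpose (G * (Matrix.transpose (Matrix.of ω) * A))
              = G * (Matrix.transpose (Matrix.of ω) * A) →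
          ∀ X : Matrix (Fin d) (Fin p) ℝ,
            Real.sqrt (∑ i, ∑ j, ((A * (G * Matrix.transpose (Matrix.of ω) * B) - B) i j) ^ 2) ≤
              (1 + C * ε) * Real.sqrt (∑ i, ∑ j, ((A * X - B) i j) ^ 2)}) := by
  rintro ⟨C, c₀, hc₀, H⟩
  obtain ⟨ε, hε0, hε1, hCε⟩ : ∃ ε : ℝ, 0 < ε ∧ ε < 1 ∧ C * ε ≤ 1 / 100000 := by
    have hpos : 0 < 100000 * (|C| + 2) := by positivity
    refine ⟨1 / (100000 * (|C| + 2)), by positivity, ?_, ?_⟩
    · rw [div_lt_one hpos]
      nlinarith [abs_nonneg C]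
    · rw [mul_one_div, div_le_div_iff₀ hpos (by norm_num)]
      nlinarith [abs_nonneg C, le_abs_self C]
  obtain ⟨s, hs⟩ : ∃ s : ℝ, s ^ 2 = 1 / 99 :=
    ⟨Real.sqrt (1 / 99), Real.sq_sqrt (by norm_num)⟩
  have key := H 2 1 1 3 (by norm_num) (by norm_num) (by norm_num) (by norm_num) ε hε0 hε1
    !![1; 0] ?_ !![1; 1] (mu s) ?_ ?_
  · rw [mu_zero_of] at key
    · have := ENNReal.ofReal_pos.2 hc₀
      exact absurd key (not_le.2 this)
    · exact fun hmem => notMem_aux C ε s 1 hCε hs (by norm_num) hmem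
    · exact fun hmem => notMem_aux C ε s (-1) hCε hs (by norm_num) hmem
    · intro hmem
      have h := hmem 0 (by simp) (by simp) (by simp) (by simp) !![1]
      simp only [Matrix.of_zero, Matrix.transpose_zero, Matrix.mul_zero, Matrix.zero_mul,
        Matrix.mul_zero, zero_sub, Fin.sum_univ_two, Finset.univ_unique, Fin.default_eq_zero,
        Finset.sum_singleton, Matrix.neg_apply] at h
      simp [Matrix.mul_apply] at h
      have h1 : Real.sqrt 2 > 1 + 1 / 100000 := by
        apply Real.lt_sqrt_of_sq_lt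
        norm_num
      have h2 : Real.sqrt 2 ≤ 1 + C * ε := by
        convert h using 2
        norm_num
      linarith
  · -- rank
    rw [rank_aux]
  · intro x
    rw [integral_mu]
    simp only [Mk, Fin.sum_univ_succ, Finset.univ_unique, Fin.default_eq_zero, Finset.sum_const,
      Finset.card_singleton, one_smul, Matrix.cons_val_zero, Matrix.cons_val_succ, Fin.isValue,
      Matrix.cons_val_fin_one, Fin.succ_zero_eq_one, Finset.univ_eq_empty, Finset.sum_empty,
      Pi.zero_apply]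
    simp
    linear_combination (99 / 100 * (x 0 ^ 2 + x 1 ^ 2)) * hs
  · intro V hV
    have hsub : ({Mk s 1, Mk s (-1)} : Set (Fin 2 → Fin 3 → ℝ)) ⊆
        {ω | ∀ x ∈ V, (1 - ε) * ∑ i, x i ^ 2 ≤ ∑ j, (∑ i, ω i j * x i) ^ 2} := by
      rintro ω (rfl | rfl) x hx
      · simp [Mk, Fin.sum_univ_succ]
        nlinarith [sq_nonneg (x 0), sq_nonneg (x 1), sq_nonneg (s * x 0 + s * x 1),
          mul_nonneg hε0.le (sq_nonneg (x 0)), mul_nonneg hε0.le (sq_nonneg (x 1))]
      · simp [Mk, Fin.sum_univ_succ]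
        nlinarith [sq_nonneg (x 0), sq_nonneg (x 1), sq_nonneg (s * x 0 + -(s * x 1)),
          mul_nonneg hε0.le (sq_nonneg (x 0)), mul_nonneg hε0.le (sq_nonneg (x 1))]
    refine le_trans ?_ (measure_mono hsub)
    simp only [mu, Measure.coe_add, Measure.coe_smul, Pi.add_apply, Pi.smul_apply, smul_eq_mul,
      Measure.dirac_apply]
    rw [Set.indicator_of_mem (by simp), Set.indicator_of_mem (by simp)]
    simp only [Pi.one_apply, mul_one]
    rw [← add_assoc, ← ENNReal.ofReal_add (by norm_num) (by norm_num)]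
    refine le_trans ?_ le_self_add
    norm_num

end Pool.Agent.S04624
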