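import Pool.Statements.S04702
import Pool.Agent.Lib.MP_54c5a6_an.NoSigma
import Pool.Agent.Lib.MP_54c5a6_an.Hyp

set_option autoImplicit false
open Pool Pool.MP_54c5a6_an

namespace Pool.Agent.S04702

/-- An index type of cardinality `ℵ₂`. -/
theorem exists_index : ∃ Γ : Type, Cardinal.aleph 2 ≤ Cardinal.mk Γ :=
  ⟨Quotient.out (Cardinal.aleph 2 : Cardinal.{0}), (Cardinal.mk_out _).ge⟩

/-- The negation of the preceding statement: For every complex Banach space, if the weak* dual unit ball has a dense Σ-subset that is convex and symmetric, then it has a dense Σ-subset closed under complex combinations with coefficient moduli summing to at most 1. -/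
theorem result :
    ¬ (∀ (X : Type) [NormedAddCommGroup X] [NormedSpace ℂ X] [CompleteSpace X],
      (∃ A : Set (WeakDual ℂ X),
          ({φ : WeakDual ℂ X | ∀ x : X, ‖φ x‖ ≤ ‖x‖} ⊆ closure A) ∧
          (∃ (Γ : Type) (h : WeakDual ℂ X → (Γ → ℝ)),
              ContinuousOn h {φ : WeakDual ℂ X | ∀ x : X, ‖φ x‖ ≤ ‖x‖} ∧
              Set.InjOn h {φ : WeakDual ℂ X | ∀ x : X, ‖φ x‖ ≤ ‖x‖} ∧
              A = {φ : WeakDual ℂ X | ∀ x : X, ‖φ x‖ ≤ ‖x‖} ∩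
                    h ⁻¹' {y : Γ → ℝ | Set.Countable {γ : Γ | y γ ≠ 0}}) ∧
          (∀ a ∈ A, ∀ b ∈ A, ∀ t : ℝ, 0 ≤ t → t ≤ 1 →
              ((t : ℂ) • a + ((1 : ℂ) - (t : ℂ)) • b) ∈ A) ∧
          (∀ a ∈ A, ((-1 : ℂ) • a) ∈ A)) →
      (∃ A : Set (WeakDual ℂ X),
          ({φ : WeakDual ℂ X | ∀ x : X, ‖φ x‖ ≤ ‖x‖} ⊆ closure A) ∧
          (∃ (Γ : Type) (h : WeakDual ℂ X → (Γ → ℝ)),
              ContinuousOn h {φ : WeakDual ℂ X | ∀ x : X, ‖φ x‖ ≤ ‖x‖} ∧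
              Set.InjOn h {φ : WeakDual ℂ X | ∀ x : X, ‖φ x‖ ≤ ‖x‖} ∧
              A = {φ : WeakDual ℂ X | ∀ x : X, ‖φ x‖ ≤ ‖x‖} ∩
                    h ⁻¹' {y : Γ → ℝ | Set.Countable {γ : Γ | y γ ≠ 0}}) ∧
          (∀ a ∈ A, ∀ b ∈ A, ∀ s t : ℂ, ‖s‖ + ‖t‖ ≤ 1 → (s • a + t • b) ∈ A))) := by
  classical
  intro hall
  obtain ⟨Γ, hΓ⟩ := exists_index
  have hinf : Infinite Γ := by
    rw [Cardinal.infinite_iff]
    exact (Cardinal.aleph0_le_aleph 2).trans hΓ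
  have hnt : Nontrivial Γ := inferInstance
  obtain ⟨A, hdense, ⟨Γ', h, hc, hinj, hA⟩, habs⟩ :=
    hall ↥(Pool.Agent.Lib.MP_54c5a6_an.Xs Γ) (Pool.Agent.Lib.MP_54c5a6_an.hyp Γ)
  -- transport to the compact set `B`
  have hAball : ∀ φ ∈ A, φ ∈ Pool.Agent.Lib.MP_54c5a6_an.ball Γ := by
    intro φ hφ
    rw [hA] at hφ
    exact hφ.1
  have hAc : ∀ φ ∈ A, {γ | h φ γ ≠ 0}.Countable := by
    intro φ hφ
    rw [hA] at hφ
    exact hφ.2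
  refine Pool.Agent.Lib.MP_54c5a6_an.no_sigma hΓ
    (fun F => if hF : F ∈ Pool.Agent.Lib.MP_54c5a6_an.B Γ then
      h (Pool.Agent.Lib.MP_54c5a6_an.ev ⟨F, hF⟩) else 0) ?_ ?_
    {F | ∃ hF : F ∈ Pool.Agent.Lib.MP_54c5a6_an.B Γ,
      Pool.Agent.Lib.MP_54c5a6_an.ev ⟨F, hF⟩ ∈ A} ?_ ?_ ?_ ?_
  · rw [continuousOn_iff_continuous_domRestrict]
    have h1 : (Pool.Agent.Lib.MP_54c5a6_an.B Γ).domRestrict
        (fun F => if hF : F ∈ Pool.Agent.Lib.MP_54c5a6_an.B Γ then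
          h (Pool.Agent.Lib.MP_54c5a6_an.ev ⟨F, hF⟩) else 0) =
        h ∘ Pool.Agent.Lib.MP_54c5a6_an.ev := by
      funext F
      exact dif_pos F.2
    rw [h1]
    exact hc.comp_continuous Pool.Agent.Lib.MP_54c5a6_an.continuous_ev
      Pool.Agent.Lib.MP_54c5a6_an.ev_mem_ball
  · intro F hF G hG hFG
    simp only [hF, hG, dif_pos] at hFG
    have h1 := hinj (Pool.Agent.Lib.MP_54c5a6_an.ev_mem_ball ⟨F, hF⟩)
      (Pool.Agent.Lib.MP_54c5a6_an.ev_mem_ball ⟨G, hG⟩) hFG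
    have h2 := congrArg Pool.Agent.Lib.MP_54c5a6_an.co h1
    rwa [Pool.Agent.Lib.MP_54c5a6_an.co_ev, Pool.Agent.Lib.MP_54c5a6_an.co_ev] at h2
  · rintro F ⟨hF, -⟩
    exact hF
  · rintro F ⟨hF, hFA⟩
    simp only [hF, dif_pos]
    exact hAc _ hFA
  · intro F hF
    have h1 := hdense (Pool.Agent.Lib.MP_54c5a6_an.ev_mem_ball ⟨F, hF⟩)
    have h2 : Pool.Agent.Lib.MP_54c5a6_an.co (Pool.Agent.Lib.MP_54c5a6_an.ev ⟨F, hF⟩) ∈
        closure {F | ∃ hF : F ∈ Pool.Agent.Lib.MP_54c5a6_an.B Γ,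
          Pool.Agent.Lib.MP_54c5a6_an.ev ⟨F, hF⟩ ∈ A} := by
      refine map_mem_closure Pool.Agent.Lib.MP_54c5a6_an.continuous_co h1 ?_
      intro φ hφ
      refine ⟨Pool.Agent.Lib.MP_54c5a6_an.co_mem_B (hAball φ hφ), ?_⟩
      rw [Pool.Agent.Lib.MP_54c5a6_an.ev_co (hAball φ hφ)]
      exact hφ
    rwa [Pool.Agent.Lib.MP_54c5a6_an.co_ev] at h2
  · rintro s t hst F ⟨hF, hFA⟩ G ⟨hG, hGA⟩
    refine ⟨Pool.Agent.Lib.MP_54c5a6_an.abs_B hst hF hG, ?_⟩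
    have := Pool.Agent.Lib.MP_54c5a6_an.ev_comb hst ⟨F, hF⟩ ⟨G, hG⟩
    rw [this]
    exact habs _ hFA _ hGA s t hst

end Pool.Agent.S04702
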