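import Pool.Statements.S04707

set_option autoImplicit false
open Pool Pool.MP_555292_an

namespace Pool.Agent.S04707

/-- The fast convergent sequence: `18, 3, 2, 1/3, 2/9, 1/27, ...`. -/
noncomputable def xs (n : ℕ) : ℝ := (if n % 2 = 0 then 18 else 3) * (1 / 9 : ℝ) ^ (n / 2)

/-- The multigeometric sequence with generators `7, 6, 5, 3` and ratio `1/9`. -/
noncomputable def ys (n : ℕ) : ℝ :=
  (if n % 4 = 0 then 7 else if n % 4 = 1 then 6 else if n % 4 = 2 then 5 else 3) *
    (1 / 9 : ℝ) ^ (n / 4)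

lemma xs_zero : xs 0 = 18 := by norm_num [xs]
lemma xs_one : xs 1 = 3 := by norm_num [xs]
lemma xs_add (n : ℕ) : xs (n + 2) = 1 / 9 * xs n := by
  have h1 : (n + 2) % 2 = n % 2 := by omega
  have h2 : (n + 2) / 2 = n / 2 + 1 := by omega
  unfold xs
  rw [h1, h2, pow_succ]; ring

lemma ys_zero : ys 0 = 7 := by norm_num [ys]
lemma ys_one : ys 1 = 6 := by norm_num [ys]
lemma ys_two : ys 2 = 5 := by norm_num [ys]
lemma ys_three : ys 3 = 3 := by norm_num [ys]
lemma ys_add (n : ℕ) : ys (n + 4) = 1 / 9 * ys n := by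
  have h1 : (n + 4) % 4 = n % 4 := by omega
  have h2 : (n + 4) / 4 = n / 4 + 1 := by omega
  unfold ys
  rw [h1, h2, pow_succ]; ring

lemma xs_pos (n : ℕ) : 0 < xs n := by
  unfold xs; split_ifs <;> positivity

lemma ys_pos (n : ℕ) : 0 < ys n := by
  unfold ys; split_ifs <;> positivity

lemma xs_le (n : ℕ) : xs n ≤ 18 * (3 / 5 : ℝ) ^ n := by
  induction n using Nat.strong_induction_on with
  | _ n ih =>
    match n, ih with
    | 0, _ => norm_num [xs_zero]
    | 1, _ => norm_num [xs_one]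
    | (m + 2), ih =>
      have h := ih m (by omega)
      rw [xs_add, pow_add]
      have hp : (0 : ℝ) < (3 / 5 : ℝ) ^ m := by positivity
      nlinarith

lemma ys_le (n : ℕ) : ys n ≤ 40 * (3 / 5 : ℝ) ^ n := by
  induction n using Nat.strong_induction_on with
  | _ n ih =>
    match n, ih with
    | 0, _ => norm_num [ys_zero]
    | 1, _ => norm_num [ys_one]
    | 2, _ => norm_num [ys_two]
    | 3, _ => norm_num [ys_three]
    | (m + 4), ih =>
      have h := ih m (by omega)
      rw [ys_add, pow_add]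
      have hp : (0 : ℝ) < (3 / 5 : ℝ) ^ m := by positivity
      nlinarith

lemma xs_summable : Summable xs :=
  Summable.of_nonneg_of_le (fun n => (xs_pos n).le) xs_le
    ((summable_geometric_of_lt_one (by norm_num) (by norm_num)).mul_left _)

lemma ys_summable : Summable ys :=
  Summable.of_nonneg_of_le (fun n => (ys_pos n).le) ys_le
    ((summable_geometric_of_lt_one (by norm_num) (by norm_num)).mul_left _)

/-- The set of all subsums of a sequence. -/
def E (z : ℕ → ℝ) : Set ℝ := {s : ℝ | ∃ A : Set ℕ, s = ∑' n, A.indicator z n}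

lemma block_tsum {z : ℕ → ℝ} {K : ℕ} {q : ℝ} (hz : Summable z)
    (hq : ∀ n, z (n + K) = q * z n) (A : Set ℕ) :
    ∑' n, A.indicator z n =
      (∑ n ∈ Finset.range K, A.indicator z n) + q * ∑' n, {n | n + K ∈ A}.indicator z n := by
  rw [← (hz.indicator A).sum_add_tsum_nat_add K]
  congr 1
  rw [← tsum_mul_left]
  congr 1
  ext n
  by_cases h : n + K ∈ A
  · rw [Set.indicator_of_mem h, Set.indicator_of_mem (show n ∈ {n | n + K ∈ A} from h), hq]
  · rw [Set.indicator_of_notMem h, Set.indicator_of_notMem (show n ∉ {n | n + K ∈ A} from h),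
      mul_zero]

lemma tsum_indicator_nonneg {z : ℕ → ℝ} (h0 : ∀ n, 0 ≤ z n) (A : Set ℕ) :
    0 ≤ ∑' n, A.indicator z n :=
  tsum_nonneg (fun n => Set.indicator_nonneg (fun n _ => h0 n) n)

lemma tsum_indicator_le {z : ℕ → ℝ} (hz : Summable z) (h0 : ∀ n, 0 ≤ z n) (A : Set ℕ) :
    ∑' n, A.indicator z n ≤ ∑' n, z n :=
  (hz.indicator A).tsum_le_tsum (fun n => Set.indicator_le_self' (fun n _ => h0 n) n) hz

/-- If every point of a bounded set `C` has a first digit leading back into `C`,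
then `C` consists of subsums. -/
lemma subset_E {z : ℕ → ℝ} {K : ℕ} (hK : 0 < K) (hz : Summable z) (h0 : ∀ n, 0 ≤ z n)
    (hq : ∀ n, z (n + K) = 1 / 9 * z n) (C : Set ℝ) (B : ℝ) (hB : ∀ c ∈ C, |c| ≤ B)
    (hC : ∀ c ∈ C, ∃ P : Finset ℕ, P ⊆ Finset.range K ∧ ∃ c' ∈ C,
      c = (∑ i ∈ P, z i) + 1 / 9 * c') : C ⊆ E z := by
  classical
  intro c hc
  -- choose the digits and the remainders
  let step : C → C := fun c => ⟨(hC c.1 c.2).choose_spec.2.choose,
    (hC c.1 c.2).choose_spec.2.choose_spec.1⟩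
  let dig : C → Finset ℕ := fun c => (hC c.1 c.2).choose
  have hdig : ∀ c : C, dig c ⊆ Finset.range K := fun c => (hC c.1 c.2).choose_spec.1
  have hstep : ∀ c : C, (c : ℝ) = (∑ i ∈ dig c, z i) + 1 / 9 * (step c : ℝ) :=
    fun c => (hC c.1 c.2).choose_spec.2.choose_spec.2
  let cs : ℕ → C := fun n => step^[n] ⟨c, hc⟩
  have hcs : ∀ n, cs (n + 1) = step (cs n) := fun n => Function.iterate_succ_apply' _ _ _
  let A : ℕ → Set ℕ := fun j => {n | n % K ∈ dig (cs (j + n / K))}
  let s : ℕ → ℝ := fun j => ∑' n, (A j).indicator z n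
  have hs : ∀ j, s j = (∑ i ∈ dig (cs j), z i) + 1 / 9 * s (j + 1) := by
    intro j
    have h1 := block_tsum hz hq (A j)
    have h2 : {n | n + K ∈ A j} = A (j + 1) := by
      ext n
      simp only [A, Set.mem_ofPred_eq]
      have e1 : (n + K) % K = n % K := Nat.add_mod_right n K
      have e2 : (n + K) / K = n / K + 1 := Nat.add_div_right n hK
      rw [e1, e2]
      have e3 : j + (n / K + 1) = j + 1 + n / K := by ring
      rw [e3]
    have h3 : ∑ n ∈ Finset.range K, (A j).indicator z n = ∑ i ∈ dig (cs j), z i := by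
      rw [← Finset.sum_subset (hdig (cs j))]
      · apply Finset.sum_congr rfl
        intro i hi
        have hiK := Finset.mem_range.mp (hdig _ hi)
        rw [Set.indicator_of_mem]
        simp only [A, Set.mem_ofPred_eq]
        rw [Nat.mod_eq_of_lt hiK, Nat.div_eq_of_lt hiK]
        simpa using hi
      · intro i hiK hi
        have hiK := Finset.mem_range.mp hiK
        rw [Set.indicator_of_notMem]
        simp only [A, Set.mem_ofPred_eq]
        rw [Nat.mod_eq_of_lt hiK, Nat.div_eq_of_lt hiK]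
        simpa using hi
    rw [h2, h3] at h1
    exact h1
  have hrec : ∀ j, s j - cs j = 1 / 9 * (s (j + 1) - cs (j + 1)) := by
    intro j
    have h1 := hs j
    have h2 := hstep (cs j)
    rw [hcs j]
    linarith
  have hall : ∀ n, s 0 - cs 0 = (1 / 9 : ℝ) ^ n * (s n - cs n) := by
    intro n
    induction n with
    | zero => simp
    | succ n ih => rw [ih, hrec n, pow_succ]; ring
  have hbd : ∀ n, |s n - cs n| ≤ (∑' n, z n) + B := by
    intro n
    have h1 : 0 ≤ s n := tsum_indicator_nonneg h0 _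
    have h2 : s n ≤ ∑' n, z n := tsum_indicator_le hz h0 _
    have h3 := hB _ (cs n).2
    have h4 := abs_le.mp h3
    rw [abs_le]
    constructor <;> linarith [h4.1, h4.2]
  have hzero : s 0 - cs 0 = 0 := by
    have hlim : Filter.Tendsto (fun n : ℕ => (1 / 9 : ℝ) ^ n * ((∑' n, z n) + B)) Filter.atTop
        (nhds (0 * ((∑' n, z n) + B))) :=
      (tendsto_pow_atTop_nhds_zero_of_lt_one (by norm_num) (by norm_num)).mul_const _
    rw [zero_mul] at hlim
    have hle : |s 0 - cs 0| ≤ 0 := by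
      apply ge_of_tendsto' hlim
      intro n
      rw [hall n, abs_mul, abs_of_nonneg (by positivity : (0 : ℝ) ≤ (1 / 9) ^ n)]
      exact mul_le_mul_of_nonneg_left (hbd n) (by positivity)
    exact abs_eq_zero.mp (le_antisymm hle (abs_nonneg _))
  refine ⟨A 0, ?_⟩
  have : ((cs 0 : C) : ℝ) = c := rfl
  have h := sub_eq_zero.mp hzero
  rw [← this]
  exact h.symm

/-- One-step decomposition of a subsum. -/
lemma E_decomp {z : ℕ → ℝ} {K : ℕ} (hz : Summable z)
    (hq : ∀ n, z (n + K) = 1 / 9 * z n) {s : ℝ} (hs : s ∈ E z) :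
    ∃ P : Finset ℕ, P ⊆ Finset.range K ∧ ∃ s' ∈ E z, s = (∑ i ∈ P, z i) + 1 / 9 * s' := by
  classical
  obtain ⟨A, rfl⟩ := hs
  refine ⟨(Finset.range K).filter (· ∈ A), Finset.filter_subset _ _, _,
    ⟨{n | n + K ∈ A}, rfl⟩, ?_⟩
  rw [block_tsum hz hq A, Finset.sum_filter]
  congr 1

/-- Prepending a digit. -/
lemma E_cons {z : ℕ → ℝ} {K : ℕ} (hz : Summable z)
    (hq : ∀ n, z (n + K) = 1 / 9 * z n) {s : ℝ} (hs : s ∈ E z) (P : Finset ℕ)
    (hP : P ⊆ Finset.range K) : (∑ i ∈ P, z i) + 1 / 9 * s ∈ E z := by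
  classical
  obtain ⟨A, rfl⟩ := hs
  refine ⟨{n | n ∈ P ∨ ∃ m ∈ A, n = m + K}, ?_⟩
  rw [block_tsum hz hq {n | n ∈ P ∨ ∃ m ∈ A, n = m + K}]
  have h1 : {n | n + K ∈ {n | n ∈ P ∨ ∃ m ∈ A, n = m + K}} = A := by
    ext n
    simp only [Set.mem_ofPred_eq]
    constructor
    · rintro (h | ⟨m, hm, h⟩)
      · have := Finset.mem_range.mp (hP h); omega
      · have : n = m := by omega
        rw [this]; exact hm
    · intro h
      exact Or.inr ⟨n, h, rfl⟩
  rw [h1]
  congr 1
  rw [← Finset.sum_subset hP]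
  · apply Finset.sum_congr rfl
    intro i hi
    rw [Set.indicator_of_mem]
    exact Or.inl hi
  · intro i hiK hi
    have hiK := Finset.mem_range.mp hiK
    rw [Set.indicator_of_notMem]
    rintro (h | ⟨m, hm, h⟩)
    · exact hi h
    · omega

/-- Tail sums. -/
noncomputable def T (n : ℕ) : ℝ := ∑' k, xs (n + 1 + k)

lemma tsum_xs : ∑' n, xs n = 189 / 8 := by
  have h := xs_summable.sum_add_tsum_nat_add 2
  have h2 : ∑' n, xs (n + 2) = 1 / 9 * ∑' n, xs n := by
    rw [← tsum_mul_left]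
    congr 1
    ext n
    exact xs_add n
  rw [h2] at h
  rw [Finset.sum_range_succ, Finset.sum_range_one, xs_zero, xs_one] at h
  linarith

lemma T_zero : T 0 = 45 / 8 := by
  have h := xs_summable.sum_add_tsum_nat_add 1
  rw [Finset.sum_range_one, xs_zero, tsum_xs] at h
  have : T 0 = ∑' n, xs (n + 1) := by
    unfold T
    congr 1; ext n; congr 1; ring
  linarith

lemma T_one : T 1 = 21 / 8 := by
  have h := xs_summable.sum_add_tsum_nat_add 2
  rw [Finset.sum_range_succ, Finset.sum_range_one, xs_zero, xs_one, tsum_xs] at h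
  have : T 1 = ∑' n, xs (n + 2) := by
    unfold T
    congr 1; ext n; congr 1; ring
  linarith

lemma T_add (n : ℕ) : T (n + 2) = 1 / 9 * T n := by
  unfold T
  rw [← tsum_mul_left]
  congr 1
  ext k
  rw [← xs_add]
  congr 1
  ring

lemma T_lt (n : ℕ) : T n < xs n := by
  induction n using Nat.strong_induction_on with
  | _ n ih =>
    match n, ih with
    | 0, _ => rw [T_zero, xs_zero]; norm_num
    | 1, _ => rw [T_one, xs_one]; norm_num
    | (m + 2), ih =>
      have h := ih m (by omega)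
      rw [xs_add, T_add]
      linarith

/-- The union of the gaps filled in. -/
def G : Set ℝ := {t : ℝ | ∃ n : ℕ, Even n ∧ ∃ F : Finset ℕ, F ⊆ Finset.range n ∧
              (∑ i ∈ F, xs i) + (∑' k, xs (n + 1 + k)) < t ∧
              t < (∑ i ∈ F, xs i) + xs n}

lemma G_zero {t : ℝ} (h1 : 45 / 8 < t) (h2 : t < 18) : t ∈ G := by
  refine ⟨0, Even.zero, ∅, Finset.Subset.refl _, ?_, ?_⟩
  · have := T_zero
    unfold T at this
    rw [this]
    simpa using h1
  · rw [xs_zero]; simpa using h2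

lemma G_cons {t : ℝ} (ht : t ∈ G) (P : Finset ℕ) (hP : P ⊆ Finset.range 2) :
    (∑ i ∈ P, xs i) + 1 / 9 * t ∈ G := by
  classical
  obtain ⟨n, hn, F, hF, h1, h2⟩ := ht
  have hdisj : Disjoint P (F.map (addRightEmbedding 2)) := by
    rw [Finset.disjoint_left]
    intro i hi hi'
    rw [Finset.mem_map] at hi'
    obtain ⟨j, _, hj⟩ := hi'
    have := Finset.mem_range.mp (hP hi)
    simp only [addRightEmbedding_apply] at hj
    omega
  have hsum : ∑ i ∈ P ∪ F.map (addRightEmbedding 2), xs i =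
      (∑ i ∈ P, xs i) + 1 / 9 * ∑ i ∈ F, xs i := by
    rw [Finset.sum_union hdisj, Finset.sum_map, Finset.mul_sum]
    congr 1
    apply Finset.sum_congr rfl
    intro i _
    exact xs_add i
  refine ⟨n + 2, hn.add (by decide), P ∪ F.map (addRightEmbedding 2), ?_, ?_, ?_⟩
  · intro i hi
    rw [Finset.mem_union, Finset.mem_map] at hi
    rw [Finset.mem_range]
    rcases hi with hi | ⟨j, hj, hj'⟩
    · have := Finset.mem_range.mp (hP hi)
      omega
    · have := Finset.mem_range.mp (hF hj)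
      simp only [addRightEmbedding_apply] at hj'
      omega
  · have hT := T_add n
    have hT' : T n = ∑' k, xs (n + 1 + k) := rfl
    have hT'' : T (n + 2) = ∑' k, xs (n + 2 + 1 + k) := rfl
    rw [← hT''] 
    rw [← hT'] at h1
    rw [hsum, hT]
    linarith
  · rw [hsum, xs_add]
    linarith

lemma G_decomp {t : ℝ} (ht : t ∈ G) :
    (45 / 8 < t ∧ t < 18) ∨ ∃ P : Finset ℕ, P ⊆ Finset.range 2 ∧ ∃ t' ∈ G,
      t = (∑ i ∈ P, xs i) + 1 / 9 * t' := by
  classical
  obtain ⟨n, hn, F, hF, h1, h2⟩ := ht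
  match n, hn, hF, h1, h2 with
  | 0, _, hF, h1, h2 =>
    left
    have hF0 : F = ∅ := by simpa using hF
    subst hF0
    have := T_zero
    unfold T at this
    rw [this] at h1
    rw [xs_zero] at h2
    simp only [Finset.sum_empty, zero_add] at h1 h2
    exact ⟨h1, h2⟩
  | 1, hn, _, _, _ => exact absurd hn (by decide)
  | (m + 2), hn, hF, h1, h2 =>
    right
    set P : Finset ℕ := F.filter (· < 2) with hPdef
    set F' : Finset ℕ := (Finset.range m).filter (fun i => i + 2 ∈ F) with hF'def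
    have hFeq : F = P ∪ F'.map (addRightEmbedding 2) := by
      ext i
      rw [Finset.mem_union, Finset.mem_map, hPdef, Finset.mem_filter]
      constructor
      · intro hi
        by_cases h : i < 2
        · exact Or.inl ⟨hi, h⟩
        · right
          refine ⟨i - 2, ?_, ?_⟩
          · rw [hF'def, Finset.mem_filter, Finset.mem_range]
            have := Finset.mem_range.mp (hF hi)
            refine ⟨by omega, ?_⟩
            have e : i - 2 + 2 = i := by omega
            rw [e]; exact hi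
          · simp only [addRightEmbedding_apply]; omega
      · rintro (⟨hi, _⟩ | ⟨j, hj, hj'⟩)
        · exact hi
        · rw [hF'def, Finset.mem_filter] at hj
          simp only [addRightEmbedding_apply] at hj'
          rw [← hj']; exact hj.2
    have hdisj : Disjoint P (F'.map (addRightEmbedding 2)) := by
      rw [Finset.disjoint_left]
      intro i hi hi'
      rw [Finset.mem_map] at hi'
      obtain ⟨j, _, hj⟩ := hi'
      have := (Finset.mem_filter.mp hi).2
      simp only [addRightEmbedding_apply] at hj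
      omega
    have hsum : ∑ i ∈ F, xs i =
        (∑ i ∈ P, xs i) + 1 / 9 * ∑ i ∈ F', xs i := by
      rw [hFeq, Finset.sum_union hdisj, Finset.sum_map, Finset.mul_sum]
      congr 1
      apply Finset.sum_congr rfl
      intro i _
      exact xs_add i
    have hn' : Even m := by
      rcases hn with ⟨k, hk⟩
      exact ⟨k - 1, by omega⟩
    refine ⟨P, ?_, 9 * (t - ∑ i ∈ P, xs i), ⟨m, hn', F', Finset.filter_subset _ _, ?_, ?_⟩, by ring⟩
    · intro i hi
      exact Finset.mem_range.mpr (Finset.mem_filter.mp hi).2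
    · have hT := T_add m
      have hT' : T m = ∑' k, xs (m + 1 + k) := rfl
      have hT'' : T (m + 2) = ∑' k, xs (m + 2 + 1 + k) := rfl
      rw [← hT'']  at h1
      rw [← hT']
      rw [hsum, hT] at h1
      linarith
    · rw [hsum, xs_add] at h2
      linarith

/-- The adjoint Cantorval. -/
def X : Set ℝ := E xs ∪ G

lemma E_xs_bound {s : ℝ} (hs : s ∈ E xs) : 0 ≤ s ∧ s ≤ 189 / 8 := by
  obtain ⟨A, rfl⟩ := hs
  refine ⟨tsum_indicator_nonneg (fun n => (xs_pos n).le) A, ?_⟩
  have := tsum_indicator_le xs_summable (fun n => (xs_pos n).le) A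
  rwa [tsum_xs] at this

lemma fin_sum_le {n : ℕ} (F : Finset ℕ) (hF : F ⊆ Finset.range n) :
    (∑ i ∈ F, xs i) + xs n ≤ 189 / 8 := by
  classical
  rw [← tsum_xs]
  have hn : n ∉ F := by
    intro h
    have := Finset.mem_range.mp (hF h)
    omega
  have := xs_summable.sum_le_tsum (insert n F) (fun i _ => (xs_pos i).le)
  rw [Finset.sum_insert hn] at this
  linarith

lemma T_nonneg (n : ℕ) : 0 ≤ T n := tsum_nonneg (fun _ => (xs_pos _).le)

lemma G_bound {t : ℝ} (ht : t ∈ G) : 0 ≤ t ∧ t ≤ 189 / 8 := by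
  obtain ⟨n, hn, F, hF, h1, h2⟩ := ht
  have h3 := fin_sum_le F hF
  have h4 : 0 ≤ ∑ i ∈ F, xs i := Finset.sum_nonneg (fun i _ => (xs_pos i).le)
  have h5 := T_nonneg n
  unfold T at h5
  constructor <;> linarith

lemma X_bound {t : ℝ} (ht : t ∈ X) : 0 ≤ t ∧ t ≤ 189 / 8 := by
  rcases ht with h | h
  · exact E_xs_bound h
  · exact G_bound h

lemma zero_mem_E (z : ℕ → ℝ) : (0 : ℝ) ∈ E z := ⟨∅, by simp⟩

lemma total_mem_E : (189 / 8 : ℝ) ∈ E xs := ⟨Set.univ, by simp [tsum_xs]⟩

/-- digits -/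
lemma P_cases {P : Finset ℕ} (hP : P ⊆ Finset.range 2) :
    (∑ i ∈ P, xs i) = 0 ∨ (∑ i ∈ P, xs i) = 3 ∨ (∑ i ∈ P, xs i) = 18 ∨ (∑ i ∈ P, xs i) = 21 := by
  have : P ∈ (Finset.range 2).powerset := Finset.mem_powerset.mpr hP
  have h2 : (Finset.range 2).powerset = {∅, {0}, {1}, {0, 1}} := by decide
  rw [h2] at this
  simp only [Finset.mem_insert, Finset.mem_singleton] at this
  rcases this with rfl | rfl | rfl | rfl
  · left; simp
  · right; right; left; simp [xs_zero]
  · right; left; simp [xs_one]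
  · right; right; right
    rw [Finset.sum_pair (by decide), xs_zero, xs_one]; norm_num

lemma X_cons_P {t : ℝ} (ht : t ∈ X) (P : Finset ℕ) (hP : P ⊆ Finset.range 2) :
    (∑ i ∈ P, xs i) + 1 / 9 * t ∈ X := by
  rcases ht with h | h
  · exact Or.inl (E_cons xs_summable xs_add h P hP)
  · exact Or.inr (G_cons h P hP)

lemma X_cons0 {t : ℝ} (ht : t ∈ X) : 1 / 9 * t ∈ X := by
  have := X_cons_P ht ∅ (by decide)
  simpa using this

lemma X_cons3 {t : ℝ} (ht : t ∈ X) : 3 + 1 / 9 * t ∈ X := by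
  have := X_cons_P ht {1} (by decide)
  simpa [xs_one] using this

lemma X_cons18 {t : ℝ} (ht : t ∈ X) : 18 + 1 / 9 * t ∈ X := by
  have := X_cons_P ht {0} (by decide)
  simpa [xs_zero] using this

lemma X_cons21 {t : ℝ} (ht : t ∈ X) : 21 + 1 / 9 * t ∈ X := by
  have := X_cons_P ht {0, 1} (by decide)
  rw [Finset.sum_pair (by decide), xs_zero, xs_one] at this
  have e : (18 : ℝ) + 3 = 21 := by norm_num
  rwa [e] at this

lemma Icc_sub {t : ℝ} (h1 : 45 / 8 ≤ t) (h2 : t ≤ 18) : t ∈ X := by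
  rcases eq_or_lt_of_le h1 with h | h
  · -- 45/8 = 3 + 1/9 * 189/8
    left
    have := E_cons xs_summable xs_add total_mem_E {1} (by decide)
    rw [Finset.sum_singleton, xs_one] at this
    rw [← h]
    have e : (3 : ℝ) + 1 / 9 * (189 / 8) = 45 / 8 := by norm_num
    rwa [e] at this
  · rcases eq_or_lt_of_le h2 with h' | h'
    · left
      have := E_cons xs_summable xs_add (zero_mem_E xs) {0} (by decide)
      rw [Finset.sum_singleton, xs_zero, mul_zero, add_zero] at this
      rw [h']; exact this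
    · right; exact G_zero h h'

lemma X_decomp_P {t : ℝ} (ht : t ∈ X) :
    (45 / 8 ≤ t ∧ t ≤ 18) ∨ ∃ P : Finset ℕ, P ⊆ Finset.range 2 ∧ ∃ t' ∈ X,
      t = (∑ i ∈ P, xs i) + 1 / 9 * t' := by
  rcases ht with h | h
  · right
    obtain ⟨P, hP, s', hs', e⟩ := E_decomp xs_summable xs_add h
    exact ⟨P, hP, s', Or.inl hs', e⟩
  · rcases G_decomp h with h | ⟨P, hP, t', ht', e⟩
    · left; exact ⟨h.1.le, h.2.le⟩
    · right; exact ⟨P, hP, t', Or.inr ht', e⟩

lemma X_decomp {t : ℝ} (ht : t ∈ X) :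
    (45 / 8 ≤ t ∧ t ≤ 18) ∨ ∃ d : ℝ, (d = 0 ∨ d = 3 ∨ d = 18 ∨ d = 21) ∧ ∃ t' ∈ X,
      t = d + 1 / 9 * t' := by
  rcases X_decomp_P ht with h | ⟨P, hP, t', ht', e⟩
  · exact Or.inl h
  · exact Or.inr ⟨_, P_cases hP, t', ht', e⟩

/-- `X` is closed. -/
lemma X_closed : IsClosed X := by
  have hsub : closure X ⊆ Set.Icc 0 (189 / 8) :=
    closure_minimal (fun t ht => X_bound ht) isClosed_Icc
  -- the closure satisfies the same decomposition
  have hdec : ∀ t ∈ closure X, (45 / 8 ≤ t ∧ t ≤ 18) ∨ ∃ P : Finset ℕ, P ⊆ Finset.range 2 ∧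
      ∃ t' ∈ closure X, t = (∑ i ∈ P, xs i) + 1 / 9 * t' := by
    have hZ : IsClosed (Set.Icc (45 / 8 : ℝ) 18 ∪
        ⋃ P ∈ (Finset.range 2).powerset, (fun t => (∑ i ∈ P, xs i) + 1 / 9 * t) '' closure X) := by
      apply isClosed_Icc.union
      apply Set.Finite.isClosed_biUnion (Finset.finite_toSet _)
      intro P _
      have hcomp : IsCompact (closure X) := isCompact_Icc.of_isClosed_subset isClosed_closure hsub
      exact (hcomp.image (by fun_prop)).isClosed
    have hXZ : X ⊆ (Set.Icc (45 / 8 : ℝ) 18 ∪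
        ⋃ P ∈ (Finset.range 2).powerset, (fun t => (∑ i ∈ P, xs i) + 1 / 9 * t) '' closure X) := by
      intro t ht
      rcases X_decomp_P ht with h | ⟨P, hP, t', ht', e⟩
      · exact Or.inl h
      · right
        rw [Set.mem_iUnion₂]
        exact ⟨P, Finset.mem_powerset.mpr hP, t', subset_closure ht', e.symm⟩
    intro t ht
    rcases closure_minimal hXZ hZ ht with h | h
    · exact Or.inl h
    · right
      rw [Set.mem_iUnion₂] at h
      obtain ⟨P, hP, t', ht', e⟩ := h
      exact ⟨P, Finset.mem_powerset.mp hP, t', ht', e.symm⟩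
  have hC : closure X \ X ⊆ E xs := by
    apply subset_E (K := 2) (by norm_num) xs_summable (fun n => (xs_pos n).le) xs_add _ (189 / 8)
    · rintro c ⟨hc, _⟩
      have := hsub hc
      rw [abs_of_nonneg this.1]
      exact this.2
    · rintro c ⟨hc, hcX⟩
      rcases hdec c hc with h | ⟨P, hP, c', hc', e⟩
      · exact absurd (Icc_sub h.1 h.2) hcX
      · refine ⟨P, hP, c', ⟨hc', ?_⟩, e⟩
        intro h
        apply hcX
        rw [e]
        exact X_cons_P h P hP
  rw [← closure_subset_iff_isClosed]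
  intro t ht
  by_contra hX
  exact hX (Or.inl (hC ⟨ht, hX⟩))

/-- subset sums of the generators `7, 6, 5, 3` -/
lemma Y_cases {P : Finset ℕ} (hP : P ⊆ Finset.range 4) :
    (∑ i ∈ P, ys i) = 0 ∨ (∑ i ∈ P, ys i) = 3 ∨ (∑ i ∈ P, ys i) = 5 ∨
      (6 ≤ (∑ i ∈ P, ys i) ∧ (∑ i ∈ P, ys i) ≤ 15) ∨ (∑ i ∈ P, ys i) = 16 ∨
      (∑ i ∈ P, ys i) = 18 ∨ (∑ i ∈ P, ys i) = 21 := by
  classical
  have hform : ∑ i ∈ P, ys i = (if 0 ∈ P then 7 else 0) + (if 1 ∈ P then 6 else 0) +
      (if 2 ∈ P then 5 else 0) + (if 3 ∈ P then 3 else 0) := by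
    have h1 : ∑ i ∈ P, ys i = ∑ i ∈ Finset.range 4, if i ∈ P then ys i else 0 := by
      rw [← Finset.sum_filter]
      congr 1
      ext i
      rw [Finset.mem_filter]
      exact ⟨fun h => ⟨hP h, h⟩, fun h => h.2⟩
    rw [h1, Finset.sum_range_succ, Finset.sum_range_succ, Finset.sum_range_succ,
      Finset.sum_range_one, ys_zero, ys_one, ys_two, ys_three]
  rw [hform]
  by_cases h0 : 0 ∈ P <;> by_cases h1 : 1 ∈ P <;> by_cases h2 : 2 ∈ P <;> by_cases h3 : 3 ∈ P <;>
    simp only [h0, h1, h2, h3, if_true, if_false] <;> norm_num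

/-- `F + X/9 ⊆ X`. -/
lemma cons_Y {t : ℝ} (ht : t ∈ X) {P : Finset ℕ} (hP : P ⊆ Finset.range 4) :
    (∑ i ∈ P, ys i) + 1 / 9 * t ∈ X := by
  have hb := X_bound ht
  rcases Y_cases hP with h | h | h | h | h | h | h
  · rw [h, zero_add]; exact X_cons0 ht
  · rw [h]; exact X_cons3 ht
  · -- 5 + t/9
    rw [h]
    rcases X_decomp ht with h' | ⟨d, hd, t', ht', e⟩
    · apply Icc_sub <;> linarith [h'.1, h'.2]
    · have hb' := X_bound ht'
      rcases hd with rfl | rfl | rfl | rfl
      · have := X_cons3 (X_cons18 ht')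
        have e2 : (5 : ℝ) + 1 / 9 * t = 3 + 1 / 9 * (18 + 1 / 9 * t') := by rw [e]; ring
        rw [e2]; exact this
      · have := X_cons3 (X_cons21 ht')
        have e2 : (5 : ℝ) + 1 / 9 * t = 3 + 1 / 9 * (21 + 1 / 9 * t') := by rw [e]; ring
        rw [e2]; exact this
      · apply Icc_sub <;> linarith [hb'.1, hb'.2]
      · apply Icc_sub <;> linarith [hb'.1, hb'.2]
  · apply Icc_sub <;> linarith [hb.1, hb.2, h.1, h.2]
  · rw [h]
    rcases X_decomp ht with h' | ⟨d, hd, t', ht', e⟩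
    · apply Icc_sub <;> linarith [h'.1, h'.2]
    · have hb' := X_bound ht'
      rcases hd with rfl | rfl | rfl | rfl
      · apply Icc_sub <;> linarith [hb'.1, hb'.2]
      · apply Icc_sub <;> linarith [hb'.1, hb'.2]
      · have := X_cons18 (X_cons0 ht')
        have e2 : (16 : ℝ) + 1 / 9 * t = 18 + 1 / 9 * (1 / 9 * t') := by rw [e]; ring
        rw [e2]; exact this
      · have := X_cons18 (X_cons3 ht')
        have e2 : (16 : ℝ) + 1 / 9 * t = 18 + 1 / 9 * (3 + 1 / 9 * t') := by rw [e]; ring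
        rw [e2]; exact this
  · rw [h]; exact X_cons18 ht
  · rw [h]; exact X_cons21 ht

/-- every integer digit needed is a subset sum -/
lemma digit (f : ℕ) (hf : 5 ≤ f) (hf' : f ≤ 16) :
    ∃ P : Finset ℕ, P ⊆ Finset.range 4 ∧ ∑ i ∈ P, ys i = f := by
  interval_cases f
  · exact ⟨{2}, by decide, by simp [ys_two]⟩
  · exact ⟨{1}, by decide, by simp [ys_one]⟩
  · exact ⟨{0}, by decide, by simp [ys_zero]⟩
  · exact ⟨{2, 3}, by decide, by rw [Finset.sum_pair (by decide), ys_two, ys_three]; norm_num⟩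
  · exact ⟨{1, 3}, by decide, by rw [Finset.sum_pair (by decide), ys_one, ys_three]; norm_num⟩
  · exact ⟨{0, 3}, by decide, by rw [Finset.sum_pair (by decide), ys_zero, ys_three]; norm_num⟩
  · exact ⟨{1, 2}, by decide, by rw [Finset.sum_pair (by decide), ys_one, ys_two]; norm_num⟩
  · exact ⟨{0, 2}, by decide, by rw [Finset.sum_pair (by decide), ys_zero, ys_two]; norm_num⟩
  · exact ⟨{0, 1}, by decide, by rw [Finset.sum_pair (by decide), ys_zero, ys_one]; norm_num⟩
  · refine ⟨{1, 2, 3}, by decide, ?_⟩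
    rw [Finset.sum_insert (by decide), Finset.sum_pair (by decide), ys_one, ys_two, ys_three]
    norm_num
  · refine ⟨{0, 2, 3}, by decide, ?_⟩
    rw [Finset.sum_insert (by decide), Finset.sum_pair (by decide), ys_zero, ys_two, ys_three]
    norm_num
  · refine ⟨{0, 1, 3}, by decide, ?_⟩
    rw [Finset.sum_insert (by decide), Finset.sum_pair (by decide), ys_zero, ys_one, ys_three]
    norm_num

lemma X_sub_E : X ⊆ E ys := by
  apply subset_E (K := 4) (by norm_num) ys_summable (fun n => (ys_pos n).le) ys_add _ (189 / 8)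
  · intro c hc
    have := X_bound hc
    rw [abs_of_nonneg this.1]
    exact this.2
  · intro c hc
    rcases X_decomp hc with h | ⟨d, hd, c', hc', e⟩
    · -- choose an integer digit `f` with `f + 5/8 ≤ c ≤ f + 2`
      have : ∃ f : ℕ, 5 ≤ f ∧ f ≤ 16 ∧ (f : ℝ) + 5 / 8 ≤ c ∧ c ≤ f + 2 := by
        by_cases hc17 : 17 ≤ c
        · exact ⟨16, by norm_num, le_refl _, by push_cast; linarith, by push_cast; linarith [h.2]⟩
        · push Not at hc17
          refine ⟨⌊c - 5 / 8⌋₊, ?_, ?_, ?_, ?_⟩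
          · apply Nat.le_floor; push_cast; linarith [h.1]
          · have h1 : ⌊c - 5 / 8⌋₊ < 17 := by
              rw [Nat.floor_lt (by linarith [h.1])]; push_cast; linarith
            omega
          · have := Nat.floor_le (show (0 : ℝ) ≤ c - 5 / 8 by linarith [h.1])
            linarith
          · have := Nat.lt_floor_add_one (c - 5 / 8)
            linarith
      obtain ⟨f, hf1, hf2, hf3, hf4⟩ := this
      obtain ⟨P, hP, hPs⟩ := digit f hf1 hf2
      refine ⟨P, hP, 9 * (c - f), Icc_sub (by linarith) (by linarith), ?_⟩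
      rw [hPs]; ring
    · rcases hd with rfl | rfl | rfl | rfl
      · exact ⟨∅, by decide, c', hc', by rw [e]; simp⟩
      · exact ⟨{3}, by decide, c', hc', by rw [e]; simp [ys_three]⟩
      · refine ⟨{0, 1, 2}, by decide, c', hc', ?_⟩
        rw [e, Finset.sum_insert (by decide), Finset.sum_pair (by decide), ys_zero, ys_one, ys_two]
        norm_num
      · refine ⟨{0, 1, 2, 3}, by decide, c', hc', ?_⟩
        rw [e, Finset.sum_insert (by decide), Finset.sum_insert (by decide),
          Finset.sum_pair (by decide), ys_zero, ys_one, ys_two, ys_three]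
        norm_num

lemma tsum_ys_nonneg : 0 ≤ ∑' n, ys n := tsum_nonneg (fun n => (ys_pos n).le)

lemma approx (n : ℕ) : ∀ s ∈ E ys, ∃ u ∈ X, |s - u| ≤ (∑' n, ys n) * (1 / 9 : ℝ) ^ n := by
  induction n with
  | zero =>
    intro s hs
    refine ⟨0, Or.inl (zero_mem_E xs), ?_⟩
    obtain ⟨A, rfl⟩ := hs
    have h1 := tsum_indicator_nonneg (fun n => (ys_pos n).le) A
    have h2 := tsum_indicator_le ys_summable (fun n => (ys_pos n).le) A
    rw [sub_zero, abs_of_nonneg h1, pow_zero, mul_one]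
    exact h2
  | succ n ih =>
    intro s hs
    obtain ⟨P, hP, s', hs', e⟩ := E_decomp ys_summable ys_add hs
    obtain ⟨u', hu', h⟩ := ih s' hs'
    refine ⟨_, cons_Y hu' hP, ?_⟩
    have e2 : s - ((∑ i ∈ P, ys i) + 1 / 9 * u') = 1 / 9 * (s' - u') := by rw [e]; ring
    rw [e2, abs_mul, abs_of_pos (by norm_num : (0 : ℝ) < 1 / 9), pow_succ]
    linarith

lemma E_sub_X : E ys ⊆ X := by
  intro s hs
  rw [← X_closed.closure_eq, Metric.mem_closure_iff]
  intro ε hε
  have hlim : Filter.Tendsto (fun n : ℕ => (∑' n, ys n) * (1 / 9 : ℝ) ^ n) Filter.atTop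
      (nhds ((∑' n, ys n) * 0)) :=
    (tendsto_pow_atTop_nhds_zero_of_lt_one (by norm_num) (by norm_num)).const_mul _
  rw [mul_zero] at hlim
  obtain ⟨n, hn⟩ := ((hlim.eventually (gt_mem_nhds hε)).exists)
  obtain ⟨u, hu, h⟩ := approx n s hs
  exact ⟨u, hu, by rw [Real.dist_eq]; exact lt_of_le_of_lt h hn⟩

/-- There is a positive summable x with each term exceeding its tail sum, such that the set of all its subsums together with the gaps removed at odd construction steps equals the set of all subsums of some positive summable sequence. -/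
theorem result :
    ∃ x : ℕ → ℝ, (∀ n, 0 < x n) ∧ Summable x ∧
      (∀ n, ∑' k, x (n + 1 + k) < x n) ∧
      ∃ y : ℕ → ℝ, (∀ n, 0 < y n) ∧ Summable y ∧
        {s : ℝ | ∃ A : Set ℕ, s = ∑' n, A.indicator y n} =
          {s : ℝ | ∃ A : Set ℕ, s = ∑' n, A.indicator x n} ∪
          {t : ℝ | ∃ n : ℕ, Even n ∧ ∃ F : Finset ℕ, F ⊆ Finset.range n ∧
              (∑ i ∈ F, x i) + (∑' k, x (n + 1 + k)) < t ∧
              t < (∑ i ∈ F, x i) + x n} := by
  refine ⟨xs, xs_pos, xs_summable, T_lt, ys, ys_pos, ys_summable, ?_⟩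
  exact Set.Subset.antisymm E_sub_X X_sub_E

end Pool.Agent.S04707
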