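import Pool.Statements.S04738

set_option autoImplicit false
open scoped Topology
open Pool Pool.MP_5915c0_an

namespace Pool.Agent.S04738

/-- `Q = s + i t^2`, with `s = w 0`, `t = w 1`. -/
noncomputable def Qf (w : Fin 2 → ℂ) : ℂ := w 0 + Complex.I * (w 1) ^ 2
/-- The common denominator `D`. -/
noncomputable def Df (w : Fin 2 → ℂ) : ℂ := (Complex.I + w 0) * Qf w - (w 1) ^ 4
/-- The first numerator. -/
noncomputable def Nf (w : Fin 2 → ℂ) : ℂ := (Complex.I - w 0) * Qf w + (w 1) ^ 4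
/-- The second numerator. -/
noncomputable def Tf (w : Fin 2 → ℂ) : ℂ := 2 * Complex.I * (w 1) ^ 3
/-- The numerator as a vector. -/
noncomputable def pf (w : Fin 2 → ℂ) : EuclideanSpace ℂ (Fin 2) := WithLp.toLp 2 ![Nf w, Tf w]
/-- The map. -/
noncomputable def gf (w : Fin 2 → ℂ) : EuclideanSpace ℂ (Fin 2) := (Df w)⁻¹ • pf w

/-- imaginary part vector -/
def rho (w : Fin 2 → ℂ) : Fin 2 → ℝ := fun i => (w i).im

/-- `rho` as a continuous linear map. -/
noncomputable def rhoL : (Fin 2 → ℂ) →L[ℝ] (Fin 2 → ℝ) :=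
  ContinuousLinearMap.pi fun i => Complex.imCLM.comp (ContinuousLinearMap.proj i)

lemma rho_eq : rho = fun w => rhoL w := by
  funext w
  ext i
  simp [rho, rhoL]

lemma norm_sq_pf (w : Fin 2 → ℂ) : ‖pf w‖ ^ 2 = Complex.normSq (Nf w) + Complex.normSq (Tf w) := by
  rw [EuclideanSpace.norm_sq_eq]
  simp [pf, Complex.normSq_eq_norm_sq]

/-- the real quantity E -/
def EE (x σ u τ : ℝ) : ℝ :=
  σ * ((x - 2 * u * τ) ^ 2 + (σ + u ^ 2 - τ ^ 2) ^ 2) - 4 * u * τ * (u ^ 2 - τ ^ 2) * (x - 2 * u * τ)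
    + (u ^ 2 + τ ^ 2) ^ 2 * (σ - 2 * τ ^ 2) - 8 * u ^ 2 * τ ^ 2 * (σ + u ^ 2 - τ ^ 2)

lemma key_identity (w : Fin 2 → ℂ) :
    Complex.normSq (Df w) - (Complex.normSq (Nf w) + Complex.normSq (Tf w)) =
      4 * EE (w 0).re (w 0).im (w 1).re (w 1).im := by
  simp only [Complex.normSq_apply, Df, Nf, Tf, Qf, Complex.add_re, Complex.add_im, Complex.sub_re,
    Complex.sub_im, pow_succ, pow_zero, one_mul, Complex.mul_re, Complex.mul_im, Complex.I_re,
    Complex.I_im, EE, Complex.re_ofNat, Complex.im_ofNat]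
  ring

lemma normSq_Q (w : Fin 2 → ℂ) :
    Complex.normSq (Qf w) = ((w 0).re - 2 * (w 1).re * (w 1).im) ^ 2
      + ((w 0).im + (w 1).re ^ 2 - (w 1).im ^ 2) ^ 2 := by
  simp only [Complex.normSq_apply, Qf, Complex.add_re, Complex.add_im, 
    pow_succ, pow_zero, one_mul, Complex.mul_re, Complex.mul_im, Complex.I_re,
    Complex.I_im]
  ring

lemma EE_bounds (x σ u τ : ℝ) (hσ : 0 < σ) (hσ' : σ < 1 / 32) (hu : |u| < 1 / 32) (hτ : |τ| < σ) :
    0 < EE x σ u τ ∧ 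
    EE x σ u τ ≤ 3 * σ * ((x - 2 * u * τ) ^ 2 + (σ + u ^ 2 - τ ^ 2) ^ 2) := by
  have hτ2 : τ ^ 2 ≤ σ ^ 2 := by
    rw [← sq_abs τ]; exact pow_le_pow_left₀ (abs_nonneg _) hτ.le 2
  have hτ3 : τ ^ 2 ≤ σ / 32 := by nlinarith
  set X := x - 2 * u * τ with hX
  set Y := σ + u ^ 2 - τ ^ 2 with hY
  have hYu : u ^ 2 + σ / 2 ≤ Y := by rw [hY]; nlinarith
  have hYt : u ^ 2 + τ ^ 2 ≤ Y := by nlinarith
  have hY0 : 0 < Y := by nlinarith [sq_nonneg u]
  have hu2 : u ^ 2 ≤ Y := by nlinarith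
  -- term 1
  have h1 : |4 * u * τ * (u ^ 2 - τ ^ 2) * X| ≤ σ * (X ^ 2 + Y ^ 2) / 4 := by
    have e1 : |u ^ 2 - τ ^ 2| ≤ Y := by
      rw [abs_le]; constructor <;> nlinarith [sq_nonneg u, sq_nonneg τ]
    have e2 : |4 * u * τ * (u ^ 2 - τ ^ 2) * X| = 4 * |u| * |τ| * |u ^ 2 - τ ^ 2| * |X| := by
      rw [abs_mul, abs_mul, abs_mul, abs_mul]; norm_num
    rw [e2]
    have e3 : 4 * |u| * |τ| ≤ σ / 8 := by
      have := abs_nonneg u
      have := abs_nonneg τ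
      nlinarith
    have e4 : 4 * |u| * |τ| * |u ^ 2 - τ ^ 2| * |X| ≤ σ / 8 * Y * |X| := by
      gcongr
    have e5 : 2 * (Y * |X|) ≤ X ^ 2 + Y ^ 2 := by
      nlinarith [sq_nonneg (Y - |X|), sq_abs X]
    nlinarith
  have h2 : 8 * u ^ 2 * τ ^ 2 * Y ≤ σ * (X ^ 2 + Y ^ 2) / 4 := by
    have e1 : 8 * u ^ 2 * τ ^ 2 * Y ≤ 8 * Y * (σ / 32) * Y := by gcongr
    nlinarith [mul_nonneg hσ.le (sq_nonneg X)]
  have h2' : 0 ≤ 8 * u ^ 2 * τ ^ 2 * Y := by positivity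
  have h3 : 0 ≤ (u ^ 2 + τ ^ 2) ^ 2 * (σ - 2 * τ ^ 2) := by
    apply mul_nonneg (sq_nonneg _); linarith
  have h4 : (u ^ 2 + τ ^ 2) ^ 2 * (σ - 2 * τ ^ 2) ≤ σ * (X ^ 2 + Y ^ 2) := by
    have e1 : (u ^ 2 + τ ^ 2) ^ 2 ≤ Y ^ 2 := pow_le_pow_left₀ (by positivity) hYt 2
    have e2 : σ - 2 * τ ^ 2 ≤ σ := by nlinarith [sq_nonneg τ]
    have e3 : 0 ≤ σ - 2 * τ ^ 2 := by linarith
    calc (u ^ 2 + τ ^ 2) ^ 2 * (σ - 2 * τ ^ 2) ≤ Y ^ 2 * σ := by gcongr
      _ ≤ _ := by nlinarith [mul_nonneg hσ.le (sq_nonneg X)]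
  have h5 : 0 < σ * (X ^ 2 + Y ^ 2) := by positivity
  rw [abs_le] at h1
  unfold EE
  rw [← hX, ← hY]
  constructor <;> nlinarith [h1.1, h1.2]

lemma norm_coord_lt {w : Fin 2 → ℂ} (hw : w ∈ Metric.ball (0 : Fin 2 → ℂ) (1 / 32)) (i : Fin 2) :
    ‖w i‖ < 1 / 32 := by
  rw [mem_ball_zero_iff] at hw
  exact (norm_le_pi_norm w i).trans_lt hw

lemma main_bounds {w : Fin 2 → ℂ} (hw : w ∈ Metric.ball (0 : Fin 2 → ℂ) (1 / 32))
    (hΓ : |(w 1).im| < (w 0).im) :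
    Df w ≠ 0 ∧ ‖gf w‖ < 1 ∧ 1 - 48 * (w 0).im ≤ ‖gf w‖ := by
  have h0 := norm_coord_lt hw 0
  have h1 := norm_coord_lt hw 1
  have hσ : 0 < (w 0).im := lt_of_le_of_lt (abs_nonneg _) hΓ
  have hσ' : (w 0).im < 1 / 32 := lt_of_le_of_lt ((le_abs_self _).trans (Complex.abs_im_le_norm _)) h0
  have hu : |(w 1).re| < 1 / 32 := lt_of_le_of_lt (Complex.abs_re_le_norm _) h1
  obtain ⟨hE0, hE1⟩ := EE_bounds (w 0).re (w 0).im (w 1).re (w 1).im hσ hσ' hu hΓ
  rw [← normSq_Q] at hE1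
  have hid := key_identity w
  rw [← norm_sq_pf] at hid
  have hDpos : 0 < Complex.normSq (Df w) := by
    have := sq_nonneg ‖pf w‖
    nlinarith
  have hD0 : Df w ≠ 0 := Complex.normSq_pos.mp hDpos
  -- |D| ≥ |Q|/2
  have hQ : ‖w 1‖ ^ 2 ≤ ‖Qf w‖ := by
    have a1 : ‖w 1‖ ^ 2 = (w 1).re ^ 2 + (w 1).im ^ 2 := by
      rw [← Complex.normSq_eq_norm_sq, Complex.normSq_apply]; ring
    have a2 : (Qf w).im ≤ ‖Qf w‖ := (le_abs_self _).trans (Complex.abs_im_le_norm _)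
    have a3 : (Qf w).im = (w 0).im + (w 1).re ^ 2 - (w 1).im ^ 2 := by
      simp only [Qf, Complex.add_im, pow_succ, pow_zero, one_mul, Complex.mul_re, Complex.mul_im,
        Complex.I_re, Complex.I_im]
      ring
    have a4 : (w 1).im ^ 2 ≤ (w 0).im ^ 2 := by
      rw [← sq_abs (w 1).im]; exact pow_le_pow_left₀ (abs_nonneg _) hΓ.le 2
    nlinarith
  have hDQ : ‖Qf w‖ / 2 ≤ ‖Df w‖ := by
    have b1 : ‖(Complex.I + w 0) * Qf w‖ - ‖(w 1) ^ 4‖ ≤ ‖Df w‖ := norm_sub_norm_le _ _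
    have b2 : 1 - ‖w 0‖ ≤ ‖Complex.I + w 0‖ := by
      have := norm_sub_le_norm_add Complex.I (w 0)
      simpa using this
    have b3 : ‖(w 1) ^ 4‖ ≤ 1 / 4 * ‖Qf w‖ := by
      rw [norm_pow]
      have : ‖w 1‖ ^ 4 = ‖w 1‖ ^ 2 * ‖w 1‖ ^ 2 := by ring
      rw [this]
      have c1 : ‖w 1‖ ^ 2 ≤ 1 / 4 := by nlinarith [norm_nonneg (w 1)]
      gcongr
    rw [norm_mul] at b1
    have b4 : (3 / 4 : ℝ) * ‖Qf w‖ ≤ ‖Complex.I + w 0‖ * ‖Qf w‖ := by
      gcongr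
      linarith
    linarith
  have hDQ2 : Complex.normSq (Qf w) ≤ 4 * Complex.normSq (Df w) := by
    rw [Complex.normSq_eq_norm_sq, Complex.normSq_eq_norm_sq]
    have : ‖Qf w‖ ≤ 2 * ‖Df w‖ := by linarith
    nlinarith [norm_nonneg (Qf w), norm_nonneg (Df w)]
  have hDn : 0 < ‖Df w‖ := norm_pos_iff.mpr hD0
  have hgn : ‖gf w‖ * ‖Df w‖ = ‖pf w‖ := by
    rw [gf, norm_smul, norm_inv]
    field_simp
  have hgn2 : ‖gf w‖ ^ 2 * Complex.normSq (Df w) = ‖pf w‖ ^ 2 := by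
    rw [← hgn, Complex.normSq_eq_norm_sq]; ring
  have hlt2 : ‖gf w‖ ^ 2 < 1 := by
    by_contra hcon
    push Not at hcon
    nlinarith
  have hlt : ‖gf w‖ < 1 := by
    nlinarith [norm_nonneg (gf w)]
  refine ⟨hD0, hlt, ?_⟩
  have hge2 : 1 - 48 * (w 0).im ≤ ‖gf w‖ ^ 2 := by
    have c1 : (1 - ‖gf w‖ ^ 2) * Complex.normSq (Df w) ≤ 48 * (w 0).im * Complex.normSq (Df w) := by
      have : 3 * (w 0).im * Complex.normSq (Qf w) ≤ 12 * (w 0).im * Complex.normSq (Df w) := by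
        nlinarith
      nlinarith
    have := le_of_mul_le_mul_right c1 hDpos
    linarith
  nlinarith [norm_nonneg (gf w)]

lemma analytic_coord (i : Fin 2) : AnalyticOnNhd ℂ (fun w : Fin 2 → ℂ => w i) Set.univ := by
  intro w _
  exact (ContinuousLinearMap.proj (R := ℂ) (φ := fun _ : Fin 2 => ℂ) i).analyticAt w

lemma analytic_Q : AnalyticOnNhd ℂ Qf Set.univ :=
  (analytic_coord 0).add (analyticOnNhd_const.mul ((analytic_coord 1).pow 2))

lemma analytic_D : AnalyticOnNhd ℂ Df Set.univ :=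
  ((analyticOnNhd_const.add (analytic_coord 0)).mul analytic_Q).sub ((analytic_coord 1).pow 4)

lemma analytic_N : AnalyticOnNhd ℂ Nf Set.univ :=
  ((analyticOnNhd_const.sub (analytic_coord 0)).mul analytic_Q).add ((analytic_coord 1).pow 4)

lemma analytic_T : AnalyticOnNhd ℂ Tf Set.univ :=
  analyticOnNhd_const.mul ((analytic_coord 1).pow 3)

lemma analytic_p : AnalyticOnNhd ℂ pf Set.univ := by
  have h : AnalyticOnNhd ℂ (fun w => (![Nf w, Tf w] : Fin 2 → ℂ)) Set.univ := by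
    intro w hw
    rw [analyticAt_pi_iff]
    intro i
    fin_cases i
    · exact analytic_N w hw
    · exact analytic_T w hw
  intro w hw
  exact ((PiLp.continuousLinearEquiv 2 ℂ (fun _ : Fin 2 => ℂ)).symm.toContinuousLinearMap.analyticAt
    (![Nf w, Tf w])).comp (f := fun w => (![Nf w, Tf w] : Fin 2 → ℂ)) (h w hw)

/-- The negation of the preceding statement: M near z is a real-analytic generic submanifold cut out by ρ, and W = {ρ ∈ Γ} a wedge on M. If p/q is holomorphic on W with norm below 1 tending to 1 at M, it extends holomorphically to a neighbourhood of z. -/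
theorem result :
    ¬ (∀ (n d N : ℕ) (z : Fin n → ℂ) (U : Set (Fin n → ℂ)) (ρ : (Fin n → ℂ) → (Fin d → ℝ))
    (Γ : Set (Fin d → ℝ)) (p : (Fin n → ℂ) → EuclideanSpace ℂ (Fin N)) (q : (Fin n → ℂ) → ℂ)
    (g : (Fin n → ℂ) → EuclideanSpace ℂ (Fin N)),
    IsOpen U → z ∈ U → AnalyticOnNhd ℝ ρ U → ρ z = 0 →
    Function.Surjective (fderiv ℝ ρ z) →
    (∀ v : Fin n → ℂ, ∃ a b : Fin n → ℂ,
      fderiv ℝ ρ z a = 0 ∧ fderiv ℝ ρ z b = 0 ∧ v = a + Complex.I • b) →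
    IsOpen Γ → Convex ℝ Γ → Γ.Nonempty → (0 : Fin d → ℝ) ∉ Γ →
    (∀ x ∈ Γ, ∀ t : ℝ, 0 < t → t • x ∈ Γ) →
    AnalyticOnNhd ℂ p U → AnalyticOnNhd ℂ q U → ¬ (∀ᶠ w in 𝓝 z, q w = 0) →
    AnalyticOnNhd ℂ g {w | w ∈ U ∧ ρ w ∈ Γ} →
    (∀ w ∈ U, ρ w ∈ Γ → q w • g w = p w) →
    (∀ w ∈ U, ρ w ∈ Γ → ‖g w‖ < 1) →
    (∀ m ∈ U, ρ m = 0 →
      Filter.Tendsto (fun w => ‖g w‖) (𝓝[{w | w ∈ U ∧ ρ w ∈ Γ}] m) (𝓝 1)) →
    ∃ V ∈ 𝓝 z, ∃ F : (Fin n → ℂ) → EuclideanSpace ℂ (Fin N),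
      AnalyticOnNhd ℂ F V ∧ ∀ w ∈ V, w ∈ U → ρ w ∈ Γ → F w = g w) := by
  intro H
  have hfd : fderiv ℝ rho (0 : Fin 2 → ℂ) = rhoL := by
    rw [rho_eq]; exact rhoL.fderiv
  obtain ⟨V, hV, F, hF, hFg⟩ := H 2 2 2 0 (Metric.ball 0 (1 / 32)) rho {x | |x 1| < x 0} pf Df gf
    Metric.isOpen_ball (by simp) (by
      rw [rho_eq]
      intro w _
      exact rhoL.analyticAt w) (by ext i; simp [rho]) (by
      rw [hfd]
      intro y
      refine ⟨fun i => (y i : ℂ) * Complex.I, ?_⟩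
      ext i
      simp [rhoL]) (by
      rw [hfd]
      intro v
      refine ⟨fun i => ((v i).re : ℂ), fun i => ((v i).im : ℂ), ?_, ?_, ?_⟩
      · ext i; simp [rhoL]
      · ext i; simp [rhoL]
      · ext i
        simp only [Pi.add_apply, Pi.smul_apply, smul_eq_mul]
        rw [mul_comm]
        exact (Complex.re_add_im _).symm)
    (isOpen_lt (by fun_prop) (by fun_prop))
    (by
      intro x hx y hy a b ha hb hab
      simp only [Set.mem_ofPred_eq, Pi.add_apply, Pi.smul_apply, smul_eq_mul] at *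
      rcases eq_or_lt_of_le ha with ha | ha
      · subst ha
        have : b = 1 := by linarith
        subst this
        simpa using hy
      · have h1 : |a * x 1| = a * |x 1| := by rw [abs_mul, abs_of_pos ha]
        have h2 : |b * y 1| = b * |y 1| := by rw [abs_mul, abs_of_nonneg hb]
        calc |a * x 1 + b * y 1| ≤ |a * x 1| + |b * y 1| := abs_add_le _ _
          _ = a * |x 1| + b * |y 1| := by rw [h1, h2]
          _ < a * x 0 + b * y 0 := by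
            have := mul_lt_mul_of_pos_left hx ha
            have := mul_le_mul_of_nonneg_left hy.le hb
            linarith)
    ⟨![1, 0], by simp⟩ (by simp)
    (by
      intro x hx t ht
      simp only [Set.mem_ofPred_eq, Pi.smul_apply, smul_eq_mul] at *
      rw [abs_mul, abs_of_pos ht]
      exact mul_lt_mul_of_pos_left hx ht)
    (fun w _ => analytic_p w (Set.mem_univ _)) (fun w _ => analytic_D w (Set.mem_univ _))
    (by
      intro hcon
      -- D(s,0) = (i+s)s is nonzero for small s ≠ 0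
      have hcont : Filter.Tendsto (fun r : ℝ => (![(r : ℂ), 0] : Fin 2 → ℂ)) (𝓝 0) (𝓝 0) := by
        have : Continuous (fun r : ℝ => (![(r : ℂ), 0] : Fin 2 → ℂ)) := by
          refine continuous_pi fun i => ?_
          fin_cases i
          · simpa using Complex.continuous_ofReal
          · simpa using continuous_const
        have h2 := this.tendsto 0
        convert h2 using 2
        ext i
        fin_cases i <;> simp
      have h3 := hcont.eventually hcon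
      rw [Metric.eventually_nhds_iff] at h3
      obtain ⟨ε, hε, h4⟩ := h3
      have h5 := h4 (y := ε / 2) (by rw [Real.dist_eq, sub_zero, abs_of_pos (by linarith)]; linarith)
      have h6 : Df ![((ε / 2 : ℝ) : ℂ), 0] = (Complex.I + (ε / 2 : ℝ)) * (ε / 2 : ℝ) := by
        simp [Df, Qf]
      rw [h6] at h5
      rcases mul_eq_zero.mp h5 with h7 | h7
      · have := congrArg Complex.im h7
        simp at this
      · rw [Complex.ofReal_eq_zero] at h7
        linarith)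
    (by
      rintro w ⟨hw, hΓ⟩
      have hb := main_bounds hw hΓ
      have : AnalyticAt ℂ (fun w => (Df w)⁻¹) w := (analytic_D w (Set.mem_univ _)).inv hb.1
      exact this.smul (analytic_p w (Set.mem_univ _)))
    (by
      intro w hw hΓ
      have hb := main_bounds hw hΓ
      rw [gf, smul_smul, mul_inv_cancel₀ hb.1, one_smul])
    (by
      intro w hw hΓ
      exact (main_bounds hw hΓ).2.1)
    (by
      intro m hm hm0
      have hm1 : (m 0).im = 0 := congrFun hm0 0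
      have hlim : Filter.Tendsto (fun w : Fin 2 → ℂ => 1 - 48 * (w 0).im)
          (𝓝[{w | w ∈ Metric.ball (0 : Fin 2 → ℂ) (1 / 32) ∧ rho w ∈ {x : Fin 2 → ℝ | |x 1| < x 0}}] m) (𝓝 1) := by
        have hc : Continuous (fun w : Fin 2 → ℂ => 1 - 48 * (w 0).im) := by fun_prop
        have := hc.tendsto m
        rw [hm1] at this
        simp only [mul_zero, sub_zero] at this
        exact this.mono_left nhdsWithin_le_nhds
      refine tendsto_of_tendsto_of_tendsto_of_le_of_le' hlim tendsto_const_nhds ?_ ?_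
      · filter_upwards [self_mem_nhdsWithin] with w hw
        exact (main_bounds hw.1 hw.2).2.2
      · filter_upwards [self_mem_nhdsWithin] with w hw
        exact (main_bounds hw.1 hw.2).2.1.le)
  -- now derive a contradiction
  obtain ⟨r, hr, hrV⟩ := Metric.mem_nhds_iff.mp hV
  have hF1 : AnalyticOnNhd ℂ (fun w => (F w) 1) V := by
    intro w hw
    exact ((EuclideanSpace.proj (𝕜 := ℂ) (1 : Fin 2)).analyticAt (F w)).comp (f := F) (hF w hw)
  have hΦ : AnalyticOnNhd ℂ (fun w => Df w * (F w) 1 - Tf w) (Metric.ball 0 r) := by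
    intro w hw
    exact ((analytic_D w (Set.mem_univ _)).mul (hF1 w (hrV hw))).sub (analytic_T w (Set.mem_univ _))
  have hz : ∀ w ∈ V, w ∈ Metric.ball (0 : Fin 2 → ℂ) (1 / 32) → |(w 1).im| < (w 0).im →
      Df w * (F w) 1 - Tf w = 0 := by
    intro w hwV hwU hwΓ
    have hb := main_bounds hwU hwΓ
    rw [hFg w hwV hwU hwΓ]
    have : (gf w) 1 = (Df w)⁻¹ * Tf w := by simp [gf, pf]
    rw [this, ← mul_assoc, mul_inv_cancel₀ hb.1]
    ring
  obtain ⟨c, hc0, hcr, hc32⟩ : ∃ c : ℝ, 0 < c ∧ c < r ∧ c < 1 / 32 :=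
    ⟨min r (1 / 32) / 2, by positivity, by have := min_le_left r (1 / 32); linarith,
      by have := min_le_right r (1 / 32); linarith⟩
  set z₀ : Fin 2 → ℂ := ![(c : ℂ) * Complex.I, 0] with hz₀
  have hz₀n : ‖z₀‖ ≤ c := by
    rw [pi_norm_le_iff_of_nonneg hc0.le]
    intro i
    fin_cases i
    · simp [hz₀, abs_of_pos hc0]
    · simp [hz₀, hc0.le]
  have hz₀r : z₀ ∈ Metric.ball (0 : Fin 2 → ℂ) r := by
    rw [mem_ball_zero_iff]; linarith
  have hev : (fun w => Df w * (F w) 1 - Tf w) =ᶠ[𝓝 z₀] 0 := by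
    have e1 : ∀ᶠ w in 𝓝 z₀, w ∈ Metric.ball (0 : Fin 2 → ℂ) r := Metric.isOpen_ball.mem_nhds hz₀r
    have e2 : ∀ᶠ w in 𝓝 z₀, w ∈ Metric.ball (0 : Fin 2 → ℂ) (1 / 32) :=
      Metric.isOpen_ball.mem_nhds (by rw [mem_ball_zero_iff]; linarith)
    have e3 : ∀ᶠ w in 𝓝 z₀, |(w 1).im| < (w 0).im := by
      apply (isOpen_lt (f := fun w : Fin 2 → ℂ => |(w 1).im|) (g := fun w : Fin 2 → ℂ => (w 0).im)
        (by fun_prop) (by fun_prop)).mem_nhds
      simp [hz₀, hc0]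
    filter_upwards [e1, e2, e3] with w h1 h2 h3
    exact hz w (hrV h1) h2 h3
  have hzero := hΦ.eqOn_zero_of_preconnected_of_eventuallyEq_zero
    (convex_ball (0 : Fin 2 → ℂ) r).isPreconnected hz₀r hev
  -- the curve
  have hγ : Continuous (fun x : ℝ => (![-Complex.I * (x : ℂ) ^ 2, (x : ℂ)] : Fin 2 → ℂ)) := by
    refine continuous_pi fun i => ?_
    fin_cases i
    · simp only [Fin.zero_eta, Matrix.cons_val_zero]
      fun_prop
    · simp only [Fin.mk_one, Matrix.cons_val_one, Matrix.cons_val_fin_one]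
      fun_prop
  have hγ0 : (![-Complex.I * ((0 : ℝ) : ℂ) ^ 2, ((0 : ℝ) : ℂ)] : Fin 2 → ℂ) = 0 := by
    ext i
    fin_cases i <;> simp
  have hF1c : ContinuousAt (fun w => (F w) 1) (0 : Fin 2 → ℂ) :=
    (hF1 0 (mem_of_mem_nhds hV)).continuousAt
  have hcomp : Filter.Tendsto (fun x : ℝ => (x : ℂ) * (F ![-Complex.I * (x : ℂ) ^ 2, (x : ℂ)]) 1)
      (𝓝 0) (𝓝 (((0 : ℝ) : ℂ) * (F 0) 1)) := by
    apply Filter.Tendsto.mul
    · exact Complex.continuous_ofReal.tendsto 0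
    · have := hγ.tendsto 0
      rw [hγ0] at this
      exact hF1c.tendsto.comp this
  have hconst : (fun x : ℝ => (x : ℂ) * (F ![-Complex.I * (x : ℂ) ^ 2, (x : ℂ)]) 1)
      =ᶠ[𝓝[≠] 0] fun _ => -2 * Complex.I := by
    have e1 : ∀ᶠ x : ℝ in 𝓝[≠] 0, (![-Complex.I * (x : ℂ) ^ 2, (x : ℂ)] : Fin 2 → ℂ) ∈
        Metric.ball (0 : Fin 2 → ℂ) r := by
      have := hγ.tendsto 0
      rw [hγ0] at this
      exact (this.eventually (Metric.isOpen_ball.mem_nhds (Metric.mem_ball_self hr))).filter_mono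
        nhdsWithin_le_nhds
    filter_upwards [e1, self_mem_nhdsWithin] with x hx hx0
    have h1 := hzero hx
    simp only [Pi.zero_apply] at h1
    have hD : Df ![-Complex.I * (x : ℂ) ^ 2, (x : ℂ)] = -(x : ℂ) ^ 4 := by
      simp only [Df, Qf, Matrix.cons_val_zero, Matrix.cons_val_one, Matrix.cons_val_fin_one]
      ring
    have hT : Tf ![-Complex.I * (x : ℂ) ^ 2, (x : ℂ)] = 2 * Complex.I * (x : ℂ) ^ 3 := by
      simp only [Tf, Matrix.cons_val_one, Matrix.cons_val_fin_one]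
    rw [hD, hT] at h1
    have hx3 : (x : ℂ) ^ 3 ≠ 0 := pow_ne_zero _ (Complex.ofReal_ne_zero.mpr hx0)
    apply mul_left_cancel₀ hx3
    linear_combination -h1
  have hl1 : Filter.Tendsto (fun _ : ℝ => -2 * Complex.I) (𝓝[≠] 0) (𝓝 (((0 : ℝ) : ℂ) * (F 0) 1)) :=
    (hcomp.mono_left nhdsWithin_le_nhds).congr' hconst
  have hl2 := tendsto_nhds_unique hl1 tendsto_const_nhds
  simp at hl2

end Pool.Agent.S04738
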