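import Pool.Statements.S04759
-- import your own Pool.Agent.* helpers here

set_option autoImplicit false
open Set
open Pool Pool.MP_5b6163_an

/-!
An injunctive subshift over the integers that is not surjunctive (frozen statement S04759).

The subshift consists of monotone sequences with values in 0..4.  A monotone sequence is given by
its four thresholds (the place where it first reaches 1, 2, 3, 4), each an integer or plus/minus
infinity.  The subshift has the one condition: if thresholds 2 and 3 are both finite then for some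
naturals n, j the four thresholds are t, t+n, t+2n+2^j, t+3n+2^j+(j mod 2).
Moving threshold c by c-1 to the right is an injective endomorphism that is not surjective.
For a surjective endomorphism: the tails are preserved; the points with tails (0,2) and (2,4) are
the limits of the full points, and the relation between them forces the endomorphism to be a power
of the shift on all non-full points; so after composing with a shift it is the identity on all but
finitely many orbits, and then a surjection is an injection.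
-/

namespace Pool.Agent.S04759


/-- shift by c -/
def sh (c : ℤ) (x : ℤ → Fin 5) : ℤ → Fin 5 := fun k => x (k + c)

/-- value at position jumps across level c at s -/
def Lo (x : ℤ → Fin 5) (c : ℕ) (s : ℤ) : Prop := (x (s-1)).val < c ∧ c ≤ (x s).val

def XX : Set (ℤ → Fin 5) := {x | (∀ k, (x k).val ≤ (x (k+1)).val) ∧
  ∀ s t : ℤ, Lo x 2 s → Lo x 3 t →
    ∃ n j : ℕ, t = s + n + 2^j ∧ Lo x 1 (s - n) ∧ Lo x 4 (t + n + (j%2 : ℕ))}

theorem sh_apply (c : ℤ) (x : ℤ → Fin 5) (k : ℤ) : sh c x k = x (k + c) := rfl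

theorem sh_sh (a b : ℤ) (x : ℤ → Fin 5) : sh a (sh b x) = sh (a + b) x := by
  funext k; simp [sh, add_assoc]

theorem sh_zero (x : ℤ → Fin 5) : sh 0 x = x := by
  funext k; simp [sh]

theorem Lo_sh (x : ℤ → Fin 5) (c : ℕ) (s a : ℤ) : Lo (sh a x) c s ↔ Lo x c (s + a) := by
  unfold Lo sh
  have : s - 1 + a = s + a - 1 := by ring
  rw [this]

theorem XX_sh {x : ℤ → Fin 5} (hx : x ∈ XX) (a : ℤ) : sh a x ∈ XX := by
  refine ⟨fun k => ?_, fun s t hs ht => ?_⟩
  · have := hx.1 (k + a)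
    simp only [sh_apply]
    have e : k + 1 + a = k + a + 1 := by ring
    rw [e]; exact this
  · rw [Lo_sh] at hs ht
    obtain ⟨n, j, h1, h2, h3⟩ := hx.2 _ _ hs ht
    refine ⟨n, j, by linarith, ?_, ?_⟩
    · rw [Lo_sh]; convert h2 using 1; ring
    · rw [Lo_sh]; convert h3 using 1; ring

theorem XX_sh_iff {x : ℤ → Fin 5} (a : ℤ) : sh a x ∈ XX ↔ x ∈ XX := by
  refine ⟨fun h => ?_, fun h => XX_sh h a⟩
  have := XX_sh h (-a)
  rw [sh_sh] at this
  simpa [sh_zero] using this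

theorem mono_of {x : ℤ → Fin 5} (h : ∀ k, (x k).val ≤ (x (k+1)).val) {a b : ℤ} (hab : a ≤ b) :
    (x a).val ≤ (x b).val := by
  have : Monotone (fun k => (x k).val) := monotone_int_of_le_succ h
  exact this hab

/-- trichotomy for thresholds -/
theorem tri {x : ℤ → Fin 5} (h : ∀ k, (x k).val ≤ (x (k+1)).val) (c : ℕ) :
    (∀ k, (x k).val < c) ∨ (∀ k, c ≤ (x k).val) ∨ ∃ s, ∀ k, c ≤ (x k).val ↔ s ≤ k := by
  by_cases h1 : ∀ k, (x k).val < c
  · exact Or.inl h1
  by_cases h2 : ∀ k, c ≤ (x k).val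
  · exact Or.inr (Or.inl h2)
  right; right
  push Not at h1 h2
  obtain ⟨b, hb⟩ := h1
  obtain ⟨a, ha⟩ := h2
  obtain ⟨s, hs1, hs2⟩ := Int.exists_least_of_bdd (P := fun k => c ≤ (x k).val)
    ⟨a, fun z hz => by
      by_contra hlt
      push Not at hlt
      have := mono_of h hlt.le
      omega⟩ ⟨b, hb⟩
  refine ⟨s, fun k => ⟨fun hk => hs2 k hk, fun hk => ?_⟩⟩
  have := mono_of h hk
  omega

theorem th_of_Lo {x : ℤ → Fin 5} (h : ∀ k, (x k).val ≤ (x (k+1)).val) {c : ℕ} {s : ℤ}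
    (hs : Lo x c s) : ∀ k, c ≤ (x k).val ↔ s ≤ k := by
  intro k
  constructor
  · intro hk
    by_contra hlt
    push Not at hlt
    have := mono_of h (show k ≤ s - 1 by omega)
    have := hs.1
    omega
  · intro hk
    have := mono_of h hk
    have := hs.2
    omega

theorem Lo_of_th {x : ℤ → Fin 5} {c : ℕ} {s : ℤ} (h : ∀ k, c ≤ (x k).val ↔ s ≤ k) : Lo x c s := by
  constructor
  · by_contra hlt
    push Not at hlt
    have := (h (s-1)).1 hlt
    omega
  · exact (h s).2 le_rfl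

theorem Lo_unique {x : ℤ → Fin 5} (h : ∀ k, (x k).val ≤ (x (k+1)).val) {c : ℕ} {s t : ℤ}
    (hs : Lo x c s) (ht : Lo x c t) : s = t := by
  have h1 := th_of_Lo h hs
  have h2 := th_of_Lo h ht
  have := (h1 t).1 ((h2 t).2 le_rfl)
  have := (h2 s).1 ((h1 s).2 le_rfl)
  omega

/-- full points -/
def Full (n j : ℕ) (t : ℤ) : ℤ → Fin 5 := fun k =>
  if k < t then 0 else if k < t + n then 1 else if k < t + 2 * n + 2^j then 2 else
    if k < t + 3 * n + 2^j + (j%2 : ℕ) then 3 else 4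

def Z1 (n : ℕ) (t : ℤ) : ℤ → Fin 5 := fun k =>
  if k < t then 0 else if k < t + n then 1 else 2

def Z2 (n : ℕ) (t : ℤ) : ℤ → Fin 5 := fun k =>
  if k < t then 2 else if k < t + n then 3 else 4

def Wl (i : Fin 4) (t : ℤ) : ℤ → Fin 5 := fun k => if k < t then i.castSucc else i.succ

def Cn (i : Fin 5) : ℤ → Fin 5 := fun _ => i

/-- full points by thresholds -/
theorem eq_of_th {x y : ℤ → Fin 5} (h : ∀ c : ℕ, 1 ≤ c → c ≤ 4 → ∀ k, c ≤ (x k).val ↔ c ≤ (y k).val) :
    x = y := by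
  funext k
  apply Fin.ext
  have h1 := h 1 (by norm_num) (by norm_num) k
  have h2 := h 2 (by norm_num) (by norm_num) k
  have h3 := h 3 (by norm_num) (by norm_num) k
  have h4 := h 4 (by norm_num) (by norm_num) k
  have := (x k).isLt
  have := (y k).isLt
  omega

theorem Full_th1 (n j : ℕ) (t : ℤ) (k : ℤ) : 1 ≤ (Full n j t k).val ↔ t ≤ k := by
  unfold Full
  have : (0:ℤ) < 2^j := by positivity
  split_ifs <;> simp <;> omega

theorem Full_th2 (n j : ℕ) (t : ℤ) (k : ℤ) : 2 ≤ (Full n j t k).val ↔ t + n ≤ k := by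
  unfold Full
  have : (0:ℤ) < 2^j := by positivity
  split_ifs <;> simp <;> omega

theorem Full_th3 (n j : ℕ) (t : ℤ) (k : ℤ) : 3 ≤ (Full n j t k).val ↔ t + 2 * n + 2^j ≤ k := by
  unfold Full
  have : (0:ℤ) < 2^j := by positivity
  split_ifs <;> simp <;> omega

theorem Full_th4 (n j : ℕ) (t : ℤ) (k : ℤ) :
    4 ≤ (Full n j t k).val ↔ t + 3 * n + 2^j + (j%2 : ℕ) ≤ k := by
  unfold Full
  have : (0:ℤ) < 2^j := by positivity
  split_ifs <;> simp <;> omega

theorem Z1_th1 (n : ℕ) (t : ℤ) (k : ℤ) : 1 ≤ (Z1 n t k).val ↔ t ≤ k := by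
  unfold Z1; split_ifs <;> simp <;> omega
theorem Z1_th2 (n : ℕ) (t : ℤ) (k : ℤ) : 2 ≤ (Z1 n t k).val ↔ t + n ≤ k := by
  unfold Z1; split_ifs <;> simp <;> omega
theorem Z1_lt (n : ℕ) (t : ℤ) (k : ℤ) : (Z1 n t k).val < 3 := by
  unfold Z1; split_ifs <;> simp
theorem Z2_th3 (n : ℕ) (t : ℤ) (k : ℤ) : 3 ≤ (Z2 n t k).val ↔ t ≤ k := by
  unfold Z2; split_ifs <;> simp <;> omega
theorem Z2_th4 (n : ℕ) (t : ℤ) (k : ℤ) : 4 ≤ (Z2 n t k).val ↔ t + n ≤ k := by
  unfold Z2; split_ifs <;> simp <;> omega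
theorem Z2_ge (n : ℕ) (t : ℤ) (k : ℤ) : 2 ≤ (Z2 n t k).val := by
  unfold Z2; split_ifs <;> simp

theorem Full_mem (n j : ℕ) (t : ℤ) : Full n j t ∈ XX := by
  have hm : ∀ k, (Full n j t k).val ≤ (Full n j t (k+1)).val := by
    intro k
    have a1 := Full_th1 n j t k
    have a2 := Full_th2 n j t k
    have a3 := Full_th3 n j t k
    have a4 := Full_th4 n j t k
    have b1 := Full_th1 n j t (k+1)
    have b2 := Full_th2 n j t (k+1)
    have b3 := Full_th3 n j t (k+1)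
    have b4 := Full_th4 n j t (k+1)
    have := (Full n j t k).isLt
    have := (Full n j t (k+1)).isLt
    generalize (2:ℤ)^j = P at *
    omega
  refine ⟨hm, fun s u hs hu => ?_⟩
  have e2 : s = t + n := Lo_unique hm hs (Lo_of_th (Full_th2 n j t))
  have e3 : u = t + 2 * n + 2^j := Lo_unique hm hu (Lo_of_th (Full_th3 n j t))
  refine ⟨n, j, by rw [e2, e3]; ring, ?_, ?_⟩
  · have := Lo_of_th (Full_th1 n j t)
    convert this using 1; rw [e2]; ring
  · have := Lo_of_th (Full_th4 n j t)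
    convert this using 1; rw [e3]; ring

theorem Z1_mem (n : ℕ) (t : ℤ) : Z1 n t ∈ XX := by
  refine ⟨fun k => ?_, fun s u hs hu => ?_⟩
  · unfold Z1; split_ifs <;> simp <;> omega
  · have := Z1_lt n t u
    have := hu.2
    omega

theorem Z2_mem (n : ℕ) (t : ℤ) : Z2 n t ∈ XX := by
  refine ⟨fun k => ?_, fun s u hs hu => ?_⟩
  · unfold Z2; split_ifs <;> simp <;> omega
  · have := Z2_ge n t (s-1)
    have := hs.1
    omega

theorem Cn_mem (i : Fin 5) : Cn i ∈ XX := by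
  refine ⟨fun k => le_rfl, fun s u hs hu => ?_⟩
  have h1 := hs.1
  have h2 := hs.2
  simp only [Cn] at h1 h2
  omega

theorem Wl_mem (i : Fin 4) (t : ℤ) : Wl i t ∈ XX := by
  refine ⟨fun k => ?_, fun s u hs hu => ?_⟩
  · unfold Wl; split_ifs <;> simp <;> omega
  · have h1 := hs.1
    have h2 := hs.2
    have h3 := hu.1
    have h4 := hu.2
    simp only [Wl] at h1 h2 h3 h4
    split_ifs at h1 h2 h3 h4 <;> simp at h1 h2 h3 h4 <;> omega

theorem full_of {x : ℤ → Fin 5} (hx : x ∈ XX) {s u : ℤ} (hs : Lo x 2 s) (hu : Lo x 3 u) :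
    ∃ (n j : ℕ) (t : ℤ), x = Full n j t := by
  obtain ⟨n, j, h1, h2, h3⟩ := hx.2 s u hs hu
  refine ⟨n, j, s - n, ?_⟩
  apply eq_of_th
  intro c hc1 hc4 k
  have t1 := th_of_Lo hx.1 h2 k
  have t2 := th_of_Lo hx.1 hs k
  have t3 := th_of_Lo hx.1 hu k
  have t4 := th_of_Lo hx.1 h3 k
  have a1 := Full_th1 n j (s-n) k
  have a2 := Full_th2 n j (s-n) k
  have a3 := Full_th3 n j (s-n) k
  have a4 := Full_th4 n j (s-n) k
  generalize (2:ℤ)^j = P at *
  interval_cases c <;> omega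

theorem classify {x : ℤ → Fin 5} (hx : x ∈ XX) :
    (∃ (n j : ℕ) (t : ℤ), x = Full n j t) ∨ (∃ (n : ℕ) (t : ℤ), x = Z1 n t) ∨
    (∃ (n : ℕ) (t : ℤ), x = Z2 n t) ∨ (∃ i t, x = Wl i t) ∨ (∃ i, x = Cn i) := by
  have hm := hx.1
  rcases tri hm 2 with A | B | ⟨s2, C⟩
  · right; right; right
    rcases tri hm 1 with a | b | ⟨s, c⟩
    · right; refine ⟨0, ?_⟩; funext k; apply Fin.ext; have := a k; simp [Cn]; omega
    · right; refine ⟨1, ?_⟩; funext k; apply Fin.ext; have := b k; have := A k; simp [Cn]; omega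
    · left; refine ⟨0, s, ?_⟩; funext k; apply Fin.ext
      have := c k; have := A k; unfold Wl; split_ifs <;> simp <;> omega
  · rcases tri hm 3 with a | b | ⟨s, c⟩
    · right; right; right; right; refine ⟨2, ?_⟩; funext k; apply Fin.ext
      have := a k; have := B k; simp [Cn]; omega
    · rcases tri hm 4 with a' | b' | ⟨s', c'⟩
      · right; right; right; right; refine ⟨3, ?_⟩; funext k; apply Fin.ext
        have := a' k; have := b k; simp [Cn]; omega
      · right; right; right; right; refine ⟨4, ?_⟩; funext k; apply Fin.ext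
        have := b' k; have := (x k).isLt; simp [Cn]; omega
      · right; right; right; left; refine ⟨3, s', ?_⟩; funext k; apply Fin.ext
        have := c' k; have := b k; have := (x k).isLt; unfold Wl; split_ifs <;> simp <;> omega
    · rcases tri hm 4 with a' | b' | ⟨s', c'⟩
      · right; right; right; left; refine ⟨2, s, ?_⟩; funext k; apply Fin.ext
        have := c k; have := a' k; have := B k; unfold Wl; split_ifs <;> simp <;> omega
      · exfalso
        have := b' (s-1)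
        have := c (s-1)
        omega
      · right; right; left
        have hss : s ≤ s' := by
          have h1 := (c' s').2 le_rfl
          exact (c s').1 (by omega)
        refine ⟨(s' - s).toNat, s, ?_⟩; funext k; apply Fin.ext
        have := c k; have := c' k; have := B k; have := (x k).isLt
        have : ((s' - s).toNat : ℤ) = s' - s := Int.toNat_of_nonneg (by omega)
        unfold Z2; split_ifs <;> simp <;> omega
  · rcases tri hm 3 with a | b | ⟨s, c⟩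
    · rcases tri hm 1 with a' | b' | ⟨s', c'⟩
      · exfalso
        have := a' s2
        have := C s2
        omega
      · right; right; right; left; refine ⟨1, s2, ?_⟩; funext k; apply Fin.ext
        have := C k; have := a k; have := b' k; unfold Wl; split_ifs <;> simp <;> omega
      · right; left
        have hss : s' ≤ s2 := by
          have h1 := (C s2).2 le_rfl
          exact (c' s2).1 (by omega)
        refine ⟨(s2 - s').toNat, s', ?_⟩; funext k; apply Fin.ext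
        have := C k; have := c' k; have := a k
        have : ((s2 - s').toNat : ℤ) = s2 - s' := Int.toNat_of_nonneg (by omega)
        unfold Z1; split_ifs <;> simp <;> omega
    · exfalso
      have := b (s2 - 1)
      have := C (s2 - 1)
      omega
    · left
      exact full_of hx (Lo_of_th C) (Lo_of_th c)

/-- left tail -/
def LT (x : ℤ → Fin 5) (i : Fin 5) : Prop := ∃ K : ℤ, ∀ k ≤ K, x k = i
/-- right tail -/
def RT (x : ℤ → Fin 5) (i : Fin 5) : Prop := ∃ K : ℤ, ∀ k, K ≤ k → x k = i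

theorem LT_unique {x : ℤ → Fin 5} {i j : Fin 5} (h1 : LT x i) (h2 : LT x j) : i = j := by
  obtain ⟨K, hK⟩ := h1
  obtain ⟨K', hK'⟩ := h2
  rw [← hK (min K K') (min_le_left _ _), ← hK' (min K K') (min_le_right _ _)]

theorem RT_unique {x : ℤ → Fin 5} {i j : Fin 5} (h1 : RT x i) (h2 : RT x j) : i = j := by
  obtain ⟨K, hK⟩ := h1
  obtain ⟨K', hK'⟩ := h2
  rw [← hK (max K K') (le_max_left _ _), ← hK' (max K K') (le_max_right _ _)]

theorem LT_le_RT {x : ℤ → Fin 5} (hx : x ∈ XX) {i j : Fin 5} (h1 : LT x i) (h2 : RT x j) : i ≤ j := by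
  obtain ⟨K, hK⟩ := h1
  obtain ⟨K', hK'⟩ := h2
  rw [← hK (min K K') (min_le_left _ _), ← hK' (max K K') (le_max_right _ _)]
  exact mono_of hx.1 min_le_max

theorem LT_Full (n j : ℕ) (t : ℤ) : LT (Full n j t) 0 :=
  ⟨t - 1, fun k hk => by unfold Full; rw [if_pos (by omega)]⟩
theorem RT_Full (n j : ℕ) (t : ℤ) : RT (Full n j t) 4 := by
  refine ⟨t + 3 * n + 2^j + (j%2 : ℕ), fun k hk => ?_⟩
  have := (Full_th4 n j t k).2 hk
  apply Fin.ext
  have := (Full n j t k).isLt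
  simp; omega
theorem LT_Z1 (n : ℕ) (t : ℤ) : LT (Z1 n t) 0 :=
  ⟨t - 1, fun k hk => by unfold Z1; rw [if_pos (by omega)]⟩
theorem RT_Z1 (n : ℕ) (t : ℤ) : RT (Z1 n t) 2 :=
  ⟨t + n, fun k hk => by unfold Z1; rw [if_neg (by omega), if_neg (by omega)]⟩
theorem LT_Z2 (n : ℕ) (t : ℤ) : LT (Z2 n t) 2 :=
  ⟨t - 1, fun k hk => by unfold Z2; rw [if_pos (by omega)]⟩
theorem RT_Z2 (n : ℕ) (t : ℤ) : RT (Z2 n t) 4 :=
  ⟨t + n, fun k hk => by unfold Z2; rw [if_neg (by omega), if_neg (by omega)]⟩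
theorem LT_Wl (i : Fin 4) (t : ℤ) : LT (Wl i t) i.castSucc :=
  ⟨t - 1, fun k hk => by unfold Wl; rw [if_pos (by omega)]⟩
theorem RT_Wl (i : Fin 4) (t : ℤ) : RT (Wl i t) i.succ :=
  ⟨t, fun k hk => by unfold Wl; rw [if_neg (by omega)]⟩
theorem LT_Cn (i : Fin 5) : LT (Cn i) i := ⟨0, fun _ _ => rfl⟩
theorem RT_Cn (i : Fin 5) : RT (Cn i) i := ⟨0, fun _ _ => rfl⟩

theorem exists_LT {x : ℤ → Fin 5} (hx : x ∈ XX) : ∃ i, LT x i := by
  rcases classify hx with ⟨n, j, t, rfl⟩ | ⟨n, t, rfl⟩ | ⟨n, t, rfl⟩ | ⟨i, t, rfl⟩ | ⟨i, rfl⟩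
  exacts [⟨_, LT_Full _ _ _⟩, ⟨_, LT_Z1 _ _⟩, ⟨_, LT_Z2 _ _⟩, ⟨_, LT_Wl _ _⟩, ⟨_, LT_Cn _⟩]

theorem exists_RT {x : ℤ → Fin 5} (hx : x ∈ XX) : ∃ i, RT x i := by
  rcases classify hx with ⟨n, j, t, rfl⟩ | ⟨n, t, rfl⟩ | ⟨n, t, rfl⟩ | ⟨i, t, rfl⟩ | ⟨i, rfl⟩
  exacts [⟨_, RT_Full _ _ _⟩, ⟨_, RT_Z1 _ _⟩, ⟨_, RT_Z2 _ _⟩, ⟨_, RT_Wl _ _⟩, ⟨_, RT_Cn _⟩]

theorem eq_Z1_of {x : ℤ → Fin 5} (hx : x ∈ XX) (h0 : LT x 0) (h2 : RT x 2) :
    ∃ (n : ℕ) (t : ℤ), x = Z1 n t := by
  rcases classify hx with ⟨n, j, t, rfl⟩ | ⟨n, t, rfl⟩ | ⟨n, t, rfl⟩ | ⟨i, t, rfl⟩ | ⟨i, rfl⟩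
  · have := RT_unique h2 (RT_Full _ _ _); simp at this
  · exact ⟨n, t, rfl⟩
  · have := RT_unique h2 (RT_Z2 _ _); simp at this
  · have h3 := LT_unique h0 (LT_Wl _ _)
    have h4 := RT_unique h2 (RT_Wl _ _)
    exfalso
    revert h3 h4
    fin_cases i <;> decide
  · have h3 := LT_unique h0 (LT_Cn _)
    have h4 := RT_unique h2 (RT_Cn _)
    rw [← h3] at h4
    simp at h4

theorem eq_Z2_of {x : ℤ → Fin 5} (hx : x ∈ XX) (h0 : LT x 2) (h2 : RT x 4) :
    ∃ (n : ℕ) (t : ℤ), x = Z2 n t := by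
  rcases classify hx with ⟨n, j, t, rfl⟩ | ⟨n, t, rfl⟩ | ⟨n, t, rfl⟩ | ⟨i, t, rfl⟩ | ⟨i, rfl⟩
  · have := LT_unique h0 (LT_Full _ _ _); simp at this
  · have := LT_unique h0 (LT_Z1 _ _); simp at this
  · exact ⟨n, t, rfl⟩
  · have h3 := LT_unique h0 (LT_Wl _ _)
    have h4 := RT_unique h2 (RT_Wl _ _)
    exfalso
    revert h3 h4
    fin_cases i <;> decide
  · have h3 := LT_unique h0 (LT_Cn _)
    have h4 := RT_unique h2 (RT_Cn _)
    rw [← h3] at h4
    simp at h4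

theorem eq_Full_of {x : ℤ → Fin 5} (hx : x ∈ XX) (h0 : LT x 0) (h2 : RT x 4) :
    ∃ (n j : ℕ) (t : ℤ), x = Full n j t := by
  rcases classify hx with ⟨n, j, t, rfl⟩ | ⟨n, t, rfl⟩ | ⟨n, t, rfl⟩ | ⟨i, t, rfl⟩ | ⟨i, rfl⟩
  · exact ⟨n, j, t, rfl⟩
  · have := RT_unique h2 (RT_Z1 _ _); simp at this
  · have := LT_unique h0 (LT_Z2 _ _); simp at this
  · have h3 := LT_unique h0 (LT_Wl _ _)
    have h4 := RT_unique h2 (RT_Wl _ _)
    exfalso
    revert h3 h4
    fin_cases i <;> decide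
  · have h3 := LT_unique h0 (LT_Cn _)
    have h4 := RT_unique h2 (RT_Cn _)
    rw [← h3] at h4
    simp at h4


structure Endo (f : (ℤ → Fin 5) → (ℤ → Fin 5)) : Prop where
  maps : MapsTo f XX XX
  cont : ContinuousOn f XX
  comm : ∀ x ∈ XX, f (fun i => x (i + 1)) = fun i => f x (i + 1)

theorem Endo.comm_sh {f} (hf : Endo f) {x : ℤ → Fin 5} (hx : x ∈ XX) (a : ℤ) :
    f (sh a x) = sh a (f x) := by
  have step : ∀ y ∈ XX, f (sh 1 y) = sh 1 (f y) := fun y hy => hf.comm y hy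
  induction a using Int.induction_on with
  | zero => rw [sh_zero, sh_zero]
  | succ a ih =>
    have e : sh ((a:ℤ)+1) x = sh 1 (sh a x) := by rw [sh_sh]; congr 1; ring
    rw [e, step _ (XX_sh hx _), ih, sh_sh]; congr 1; ring
  | pred a ih =>
    have e : sh (-(a:ℤ)) x = sh 1 (sh (-(a:ℤ)-1) x) := by rw [sh_sh]; congr 1; ring
    have h2 := step _ (XX_sh hx (-(a:ℤ)-1))
    rw [← e, ih] at h2
    have h3 := congrArg (sh (-1)) h2
    rw [sh_sh, sh_sh] at h3
    simp only [neg_add_cancel, sh_zero] at h3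
    rw [← h3]; congr 1; ring

theorem Endo.loc {f} (hf : Endo f) {y : ℤ → Fin 5} (hy : y ∈ XX) (k : ℤ) :
    ∃ R : ℕ, ∀ x ∈ XX, (∀ m : ℤ, |m| ≤ R → x m = y m) → f x k = f y k := by
  have h1 : ContinuousWithinAt f XX y := hf.cont y hy
  have hopen : IsOpen {u : ℤ → Fin 5 | u k = f y k} := by
    have h0 : IsOpen ((fun u : ℤ → Fin 5 => u k) ⁻¹' {f y k}) :=
      (isOpen_discrete _).preimage (continuous_apply k)
    exact h0
  have h2 := h1.preimage_mem_nhdsWithin (hopen.mem_nhds (by simp))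
  rw [mem_nhdsWithin] at h2
  obtain ⟨V, hVo, hyV, hV⟩ := h2
  obtain ⟨I, u, hu, hI⟩ := isOpen_pi_iff.1 hVo y hyV
  refine ⟨I.sup (fun i => i.natAbs), fun x hx hxy => ?_⟩
  have hxV : x ∈ V := by
    apply hI
    intro i hi
    have hi' : i ∈ I := hi
    have : x i = y i := by
      apply hxy
      have := Finset.le_sup (f := fun i : ℤ => i.natAbs) hi'
      have h3 : |i| = (i.natAbs : ℤ) := Int.abs_eq_natAbs i
      rw [h3]
      exact_mod_cast this
    rw [this]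
    exact (hu i hi').2
  exact hV ⟨hxV, hx⟩

theorem Endo.loc_fin {f} (hf : Endo f) {y : ℤ → Fin 5} (hy : y ∈ XX) (F : Finset ℤ) :
    ∃ R : ℕ, ∀ x ∈ XX, (∀ m : ℤ, |m| ≤ R → x m = y m) → ∀ k ∈ F, f x k = f y k := by
  choose R hR using fun k => hf.loc hy k
  refine ⟨F.sup R, fun x hx hxy k hk => hR k x hx fun m hm => hxy m ?_⟩
  have := Finset.le_sup (f := R) hk
  have h2 : (R k : ℤ) ≤ (F.sup R : ℕ) := by exact_mod_cast this
  omega

theorem Endo.const_img {f} (hf : Endo f) (i : Fin 5) : ∃ j, f (Cn i) = Cn j := by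
  refine ⟨f (Cn i) 0, ?_⟩
  have key : ∀ k, f (Cn i) k = f (Cn i) 0 := by
    intro k
    have h := hf.comm_sh (Cn_mem i) k
    have h2 : sh k (Cn i) = Cn i := rfl
    rw [h2] at h
    have h3 := congrFun h 0
    rw [sh_apply, zero_add] at h3
    exact h3.symm
  funext k
  exact key k

theorem Endo.tailL {f} (hf : Endo f) {i j : Fin 5} (hp : f (Cn i) = Cn j) {x : ℤ → Fin 5}
    (hx : x ∈ XX) (h : LT x i) : LT (f x) j := by
  obtain ⟨K, hK⟩ := h
  obtain ⟨R, hR⟩ := hf.loc (Cn_mem i) 0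
  refine ⟨K - R, fun k hk => ?_⟩
  have h1 := hR (sh k x) (XX_sh hx k) (fun m hm => by
    rw [sh_apply]
    have := abs_le.1 hm
    exact hK _ (by omega))
  rw [hf.comm_sh hx, sh_apply, zero_add, hp] at h1
  exact h1

theorem Endo.tailR {f} (hf : Endo f) {i j : Fin 5} (hp : f (Cn i) = Cn j) {x : ℤ → Fin 5}
    (hx : x ∈ XX) (h : RT x i) : RT (f x) j := by
  obtain ⟨K, hK⟩ := h
  obtain ⟨R, hR⟩ := hf.loc (Cn_mem i) 0
  refine ⟨K + R, fun k hk => ?_⟩
  have h1 := hR (sh k x) (XX_sh hx k) (fun m hm => by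
    rw [sh_apply]
    have := abs_le.1 hm
    exact hK _ (by omega))
  rw [hf.comm_sh hx, sh_apply, zero_add, hp] at h1
  exact h1

theorem Endo.const_fix {f} (hf : Endo f) (hs : SurjOn f XX XX) (i : Fin 5) : f (Cn i) = Cn i := by
  choose p hp using hf.const_img
  have hle : ∀ i : Fin 4, p i.castSucc ≤ p i.succ := by
    intro i
    have h1 := hf.tailL (hp i.castSucc) (Wl_mem i 0) (LT_Wl i 0)
    have h2 := hf.tailR (hp i.succ) (Wl_mem i 0) (RT_Wl i 0)
    exact LT_le_RT (hf.maps (Wl_mem i 0)) h1 h2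
  have hsur : ∀ j, ∃ i, p i = j := by
    intro j
    obtain ⟨x, hx, hxj⟩ := hs (Cn_mem j)
    obtain ⟨i, hi⟩ := exists_LT hx
    have h1 := hf.tailL (hp i) hx hi
    rw [hxj] at h1
    exact ⟨i, LT_unique h1 (LT_Cn j)⟩
  have hid : ∀ i, p i = i := by
    have h0 := hle 0
    have h1 := hle 1
    have h2 := hle 2
    have h3 := hle 3
    simp only [Fin.le_def] at h0 h1 h2 h3
    have e0 : p (Fin.castSucc (0 : Fin 4)) = p 0 := rfl
    have e1 : p (Fin.succ (0 : Fin 4)) = p 1 := rfl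
    have e2 : p (Fin.castSucc (1 : Fin 4)) = p 1 := rfl
    have e3 : p (Fin.succ (1 : Fin 4)) = p 2 := rfl
    have e4 : p (Fin.castSucc (2 : Fin 4)) = p 2 := rfl
    have e5 : p (Fin.succ (2 : Fin 4)) = p 3 := rfl
    have e6 : p (Fin.castSucc (3 : Fin 4)) = p 3 := rfl
    have e7 : p (Fin.succ (3 : Fin 4)) = p 4 := rfl
    rw [e0, e1] at h0
    rw [e2, e3] at h1
    rw [e4, e5] at h2
    rw [e6, e7] at h3
    have hs' : ∀ j : ℕ, j < 5 → (p 0).val = j ∨ (p 1).val = j ∨ (p 2).val = j ∨ (p 3).val = j ∨ (p 4).val = j := by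
      intro j hj
      obtain ⟨i, hi⟩ := hsur ⟨j, hj⟩
      have hi' : (p i).val = j := by rw [hi]
      fin_cases i
      · left; exact hi'
      · right; left; exact hi'
      · right; right; left; exact hi'
      · right; right; right; left; exact hi'
      · right; right; right; right; exact hi'
    have q0 := hs' 0 (by norm_num)
    have q1 := hs' 1 (by norm_num)
    have q2 := hs' 2 (by norm_num)
    have q3 := hs' 3 (by norm_num)
    have q4 := hs' 4 (by norm_num)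
    have l0 := (p 0).isLt
    have l1 := (p 1).isLt
    have l2 := (p 2).isLt
    have l3 := (p 3).isLt
    have l4 := (p 4).isLt
    intro i
    apply Fin.ext
    fin_cases i
    · show (p 0).val = 0; omega
    · show (p 1).val = 1; omega
    · show (p 2).val = 2; omega
    · show (p 3).val = 3; omega
    · show (p 4).val = 4; omega
  rw [hp, hid]


theorem pow_lac {i j : ℕ} {c : ℤ} (h : (2:ℤ)^j - 2^i = c) (hc : 2 * |c| < 2^j) : i = j ∧ c = 0 := by
  rcases lt_trichotomy i j with hij | hij | hij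
  · exfalso
    have h1 : (2:ℤ)^i ≤ 2^(j-1) := pow_le_pow_right₀ (by norm_num) (by omega)
    have h2 : (2:ℤ)^j = 2 * 2^(j-1) := by
      rw [← pow_succ']; congr 1; omega
    have := abs_le.1 (le_refl |c|)
    have h3 := this.2
    omega
  · subst hij; simp at h; exact ⟨rfl, h.symm⟩
  · exfalso
    have h1 : (2:ℤ)^(j+1) ≤ 2^i := pow_le_pow_right₀ (by norm_num) (by omega)
    have h2 : (2:ℤ)^(j+1) = 2 * 2^j := pow_succ' _ _
    have := neg_le_abs c
    have : (0:ℤ) < 2^j := by positivity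
    omega

theorem sh_Full (n j : ℕ) (t a : ℤ) : sh a (Full n j t) = Full n j (t - a) := by
  apply eq_of_th
  intro c hc1 hc4 k
  rw [sh_apply]
  have a1 := Full_th1 n j t (k+a)
  have a2 := Full_th2 n j t (k+a)
  have a3 := Full_th3 n j t (k+a)
  have a4 := Full_th4 n j t (k+a)
  have b1 := Full_th1 n j (t-a) k
  have b2 := Full_th2 n j (t-a) k
  have b3 := Full_th3 n j (t-a) k
  have b4 := Full_th4 n j (t-a) k
  generalize (2:ℤ)^j = P at *
  interval_cases c <;> omega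

theorem sh_Z1 (n : ℕ) (t a : ℤ) : sh a (Z1 n t) = Z1 n (t - a) := by
  funext k
  rw [sh_apply]
  unfold Z1
  have e1 : (k + a < t) ↔ (k < t - a) := by omega
  have e2 : (k + a < t + n) ↔ (k < t - a + n) := by omega
  simp only [e1, e2]

theorem sh_Z2 (n : ℕ) (t a : ℤ) : sh a (Z2 n t) = Z2 n (t - a) := by
  funext k
  rw [sh_apply]
  unfold Z2
  have e1 : (k + a < t) ↔ (k < t - a) := by omega
  have e2 : (k + a < t + n) ↔ (k < t - a + n) := by omega
  simp only [e1, e2]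

theorem Z1_inj {n m : ℕ} {s t : ℤ} (h : Z1 n s = Z1 m t) : n = m ∧ s = t := by
  have h1 := fun k => Z1_th1 n s k
  have h2 := fun k => Z1_th2 n s k
  rw [h] at h1 h2
  have g1 := fun k => Z1_th1 m t k
  have g2 := fun k => Z1_th2 m t k
  have a1 := (h1 s).2 le_rfl
  rw [g1] at a1
  have a2 := (g1 t).2 le_rfl
  rw [h1] at a2
  have a3 := (h2 (s+n)).2 le_rfl
  rw [g2] at a3
  have a4 := (g2 (t+m)).2 le_rfl
  rw [h2] at a4
  omega

theorem Full_inj {n m i j : ℕ} {s t : ℤ} (h : Full n i s = Full m j t) : n = m ∧ i = j ∧ s = t := by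
  have h1 := fun k => Full_th1 n i s k
  have h2 := fun k => Full_th2 n i s k
  have h3 := fun k => Full_th3 n i s k
  rw [h] at h1 h2 h3
  have g1 := fun k => Full_th1 m j t k
  have g2 := fun k => Full_th2 m j t k
  have g3 := fun k => Full_th3 m j t k
  have a1 := (h1 s).2 le_rfl
  rw [g1] at a1
  have a2 := (g1 t).2 le_rfl
  rw [h1] at a2
  have a3 := (h2 (s+n)).2 le_rfl
  rw [g2] at a3
  have a4 := (g2 (t+m)).2 le_rfl
  rw [h2] at a4
  have a5 := (h3 _).2 le_rfl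
  rw [g3] at a5
  have a6 := (g3 _).2 le_rfl
  rw [h3] at a6
  have e1 : s = t := by omega
  have e2 : n = m := by omega
  subst e1 e2
  have e3 : (2:ℤ)^i = 2^j := by omega
  have e4 : (2:ℕ)^i = 2^j := by exact_mod_cast e3
  exact ⟨rfl, Nat.pow_right_injective le_rfl e4, rfl⟩

theorem Endo.img_Z1 {f} (hf : Endo f) (hs : SurjOn f XX XX) (n : ℕ) :
    ∃ (m : ℕ) (α : ℤ), f (Z1 n 0) = Z1 m α :=
  eq_Z1_of (hf.maps (Z1_mem n 0)) (hf.tailL (hf.const_fix hs 0) (Z1_mem n 0) (LT_Z1 n 0))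
    (hf.tailR (hf.const_fix hs 2) (Z1_mem n 0) (RT_Z1 n 0))

theorem Endo.img_Z2 {f} (hf : Endo f) (hs : SurjOn f XX XX) (n : ℕ) :
    ∃ (m : ℕ) (α : ℤ), f (Z2 n 0) = Z2 m α :=
  eq_Z2_of (hf.maps (Z2_mem n 0)) (hf.tailL (hf.const_fix hs 2) (Z2_mem n 0) (LT_Z2 n 0))
    (hf.tailR (hf.const_fix hs 4) (Z2_mem n 0) (RT_Z2 n 0))

theorem Endo.rel {f} (hf : Endo f) (n ε : ℕ) (hε : ε < 2) {m m' : ℕ} {α γ : ℤ}
    (h1 : f (Z1 n 0) = Z1 m α) (h2 : f (Z2 (n+ε) 0) = Z2 m' γ) :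
    m' = m + ε ∧ α + 2 * m = γ + 2 * n := by
  obtain ⟨R1, hR1⟩ := hf.loc_fin (Z1_mem n 0) {α-1, α, α+m-1, α+m}
  obtain ⟨R2, hR2⟩ := hf.loc_fin (Z2_mem (n+ε) 0) {γ-1, γ, γ+m'-1, γ+m'}
  obtain ⟨c, hc⟩ : ∃ c : ℤ, c = α + 2 * m - γ - 2 * n := ⟨_, rfl⟩
  obtain ⟨j, hj⟩ : ∃ j : ℕ, j = 2 * (R1 + R2 + c.natAbs + 1) + ε := ⟨_, rfl⟩
  have hjp : (j:ℤ) < 2^j := by exact_mod_cast Nat.lt_two_pow_self
  have hjm : j % 2 = ε := by omega
  have hca : |c| = (c.natAbs : ℤ) := Int.abs_eq_natAbs c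
  have hbig : 2 * (R1:ℤ) + 2 * R2 + 2 * |c| + 2 < 2^j := by
    rw [hca]; omega
  have hcnn := abs_nonneg c
  have hF := Full_mem n j 0
  have hy := hf.maps hF
  obtain ⟨y, hyd⟩ : ∃ y, y = f (Full n j 0) := ⟨_, rfl⟩
  rw [← hyd] at hy
  have A := hR1 _ hF (fun k hk => by
    have := abs_le.1 hk
    unfold Full Z1
    by_cases c1 : k < 0
    · rw [if_pos c1, if_pos c1]
    by_cases c2 : k < 0 + n
    · rw [if_neg c1, if_pos c2, if_neg c1, if_pos c2]
    · rw [if_neg c1, if_neg c2, if_neg c1, if_neg c2, if_pos (by omega)])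
  have B := hR2 _ (XX_sh hF (2*n+2^j)) (fun k hk => by
    have := abs_le.1 hk
    rw [sh_apply]
    unfold Full Z2
    rw [if_neg (by omega), if_neg (by omega)]
    by_cases c1 : k < 0
    · rw [if_pos (by omega), if_pos c1]
    by_cases c2 : k < 0 + (n + ε : ℕ)
    · rw [if_neg (by omega), if_pos (by rw [hjm]; push_cast at c2; omega), if_neg c1, if_pos c2]
    · rw [if_neg (by omega), if_neg (by rw [hjm]; push_cast at c2; omega), if_neg c1, if_neg c2])
  rw [hf.comm_sh hF] at B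
  rw [← hyd, h1] at A
  rw [← hyd, h2] at B
  have A1 : Lo y 1 α := by
    refine ⟨?_, ?_⟩
    · rw [A (α-1) (by simp)]
      have := Z1_th1 m α (α-1)
      omega
    · rw [A α (by simp)]
      exact (Z1_th1 m α α).2 le_rfl
  have A2 : Lo y 2 (α+m) := by
    refine ⟨?_, ?_⟩
    · rw [A (α+m-1) (by simp)]
      have := Z1_th2 m α (α+m-1)
      omega
    · rw [A (α+m) (by simp)]
      exact (Z1_th2 m α _).2 le_rfl
  have B3 : Lo (sh (2*n+2^j) y) 3 γ := by
    refine ⟨?_, ?_⟩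
    · rw [B (γ-1) (by simp)]
      have := Z2_th3 m' γ (γ-1)
      omega
    · rw [B γ (by simp)]
      exact (Z2_th3 m' γ γ).2 le_rfl
  have B4 : Lo (sh (2*n+2^j) y) 4 (γ+m') := by
    refine ⟨?_, ?_⟩
    · rw [B (γ+m'-1) (by simp)]
      have := Z2_th4 m' γ (γ+m'-1)
      omega
    · rw [B (γ+m') (by simp)]
      exact (Z2_th4 m' γ _).2 le_rfl
  rw [Lo_sh] at B3 B4
  obtain ⟨n', j', e1, e2, e3⟩ := hy.2 _ _ A2 B3
  have u1 := Lo_unique hy.1 e2 A1
  have u2 := Lo_unique hy.1 e3 B4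
  have hn : n' = m := by omega
  subst hn
  have hcc : (2:ℤ)^j - 2^j' = c := by rw [hc]; linarith
  obtain ⟨hjj, hc0⟩ := pow_lac hcc (by linarith)
  subst hjj
  rw [hjm] at u2
  constructor
  · have : (m':ℤ) = n' + ε := by linarith
    exact_mod_cast this
  · linarith

/-- main rigidity: a surjective endomorphism is a power of the shift on the Z-points -/
theorem Endo.rigid {f} (hf : Endo f) (hs : SurjOn f XX XX) :
    ∃ c : ℤ, (∀ n, f (Z1 n 0) = Z1 n c) ∧ (∀ n, f (Z2 n 0) = Z2 n c) := by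
  choose m α hα using hf.img_Z1 hs
  choose m' γ hγ using hf.img_Z2 hs
  have r0 := fun n => hf.rel n 0 (by norm_num) (hα n) (hγ (n+0))
  have r1 := fun n => hf.rel n 1 (by norm_num) (hα n) (hγ (n+1))
  simp only [add_zero] at r0
  have hm : ∀ n, m (n+1) = m n + 1 := fun n => by rw [← (r0 (n+1)).1, (r1 n).1]
  have hm2 : ∀ n, m n = m 0 + n := by
    intro n
    induction n with
    | zero => rfl
    | succ n ih => rw [hm, ih]; ring
  have hm0 : m 0 = 0 := by
    obtain ⟨x, hx, hxz⟩ := hs (Z1_mem 0 0)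
    obtain ⟨i, hi⟩ := exists_LT hx
    obtain ⟨k, hk⟩ := exists_RT hx
    have t1 := hf.tailL (hf.const_fix hs i) hx hi
    have t2 := hf.tailR (hf.const_fix hs k) hx hk
    rw [hxz] at t1 t2
    rw [LT_unique t1 (LT_Z1 0 0)] at hi
    rw [RT_unique t2 (RT_Z1 0 0)] at hk
    obtain ⟨n, t, rfl⟩ := eq_Z1_of hx hi hk
    have e : Z1 n t = sh (-t) (Z1 n 0) := by rw [sh_Z1]; congr 1; ring
    rw [e, hf.comm_sh (Z1_mem n 0), hα, sh_Z1] at hxz
    have := (Z1_inj hxz).1
    rw [hm2] at this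
    omega
  have hmn : ∀ n, m n = n := fun n => by rw [hm2, hm0, zero_add]
  have hmn' : ∀ n, m' n = n := fun n => by rw [(r0 n).1, hmn]
  have hag : ∀ n, α n = γ n := fun n => by
    have := (r0 n).2
    rw [hmn] at this
    linarith
  have hag' : ∀ n, α n = γ (n+1) := fun n => by
    have := (r1 n).2
    rw [hmn] at this
    linarith
  have hαc : ∀ n, α n = α 0 := by
    intro n
    induction n with
    | zero => rfl
    | succ n ih => rw [← ih, hag (n+1), hag' n]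
  refine ⟨α 0, fun n => ?_, fun n => ?_⟩
  · rw [hα, hmn, hαc]
  · rw [hγ, hmn', ← hag, hαc]


theorem clopen_coord (P : Fin 5 → Prop) (k : ℤ) : IsClopen {x : ℤ → Fin 5 | P (x k)} := by
  have h : IsClopen ((fun x : ℤ → Fin 5 => x k) ⁻¹' {v | P v}) :=
    (isClopen_discrete _).preimage (continuous_apply k)
  exact h

theorem clopen_Lo (c : ℕ) (s : ℤ) : IsClopen {x : ℤ → Fin 5 | Lo x c s} := by
  have h1 := clopen_coord (fun v => v.val < c) (s-1)
  have h2 := clopen_coord (fun v => c ≤ v.val) s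
  exact h1.inter h2

theorem closed_XX : IsClosed XX := by
  have e : XX = (⋂ k : ℤ, {x | (x k).val ≤ (x (k+1)).val}) ∩
      ⋂ s : ℤ, ⋂ t : ℤ, ({x | Lo x 2 s}ᶜ ∪ {x | Lo x 3 t}ᶜ ∪
        ⋃ p ∈ {p : ℕ × ℕ | t = s + p.1 + 2^p.2},
          ({x | Lo x 1 (s - p.1)} ∩ {x | Lo x 4 (t + p.1 + (p.2%2 : ℕ))})) := by
    ext x
    simp only [XX, mem_ofPred_eq, mem_inter_iff, mem_iInter, mem_union, mem_compl_iff, mem_iUnion,
      Prod.exists, exists_prop]
    constructor
    · rintro ⟨h1, h2⟩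
      refine ⟨h1, fun s t => ?_⟩
      by_cases hs : Lo x 2 s
      · by_cases ht : Lo x 3 t
        · obtain ⟨n, j, e1, e2, e3⟩ := h2 s t hs ht
          exact Or.inr ⟨n, j, e1, e2, e3⟩
        · exact Or.inl (Or.inr ht)
      · exact Or.inl (Or.inl hs)
    · rintro ⟨h1, h2⟩
      refine ⟨h1, fun s t hs ht => ?_⟩
      rcases h2 s t with (h | h) | ⟨n, j, e1, e2, e3⟩
      · exact absurd hs h
      · exact absurd ht h
      · exact ⟨n, j, e1, e2, e3⟩
  rw [e]
  refine IsClosed.inter (isClosed_iInter fun k => ?_) (isClosed_iInter fun s => isClosed_iInter fun t => ?_)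
  · have hc : Continuous (fun x : ℤ → Fin 5 => (x k, x (k+1))) :=
      (continuous_apply k).prodMk (continuous_apply (k+1))
    have h0 : IsClosed ((fun x : ℤ → Fin 5 => (x k, x (k+1))) ⁻¹' {p | p.1.val ≤ p.2.val}) :=
      (isClosed_discrete _).preimage hc
    exact h0
  · refine IsClosed.union (IsClosed.union (clopen_Lo 2 s).compl.isClosed (clopen_Lo 3 t).compl.isClosed) ?_
    refine Set.Finite.isClosed_biUnion ?_ fun p _ => (clopen_Lo _ _).isClosed.inter (clopen_Lo _ _).isClosed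
    apply Set.Finite.subset ((Finset.range ((t-s).toNat+1) ×ˢ Finset.range ((t-s).toNat+1)).finite_toSet)
    rintro ⟨n, j⟩ hp
    simp only [mem_ofPred_eq] at hp
    have h1 : (j:ℤ) < 2^j := by exact_mod_cast Nat.lt_two_pow_self
    have h2 : (0:ℤ) < 2^j := by positivity
    simp only [Finset.coe_product, Finset.coe_range, mem_prod, mem_Iio]
    omega

theorem compact_XX : IsCompact XX := closed_XX.isCompact

theorem sh_cont (c : ℤ) : Continuous (sh c) :=
  continuous_pi fun k => continuous_apply (k + c)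

theorem Endo.sh_comp {f} (hf : Endo f) (c : ℤ) : Endo (fun x => sh c (f x)) where
  maps := fun x hx => XX_sh (hf.maps hx) c
  cont := (sh_cont c).comp_continuousOn hf.cont
  comm := fun x hx => by
    have h := hf.comm x hx
    show sh c (f (fun i => x (i+1))) = _
    rw [h]
    funext k
    simp only [sh]
    congr 1
    ring

theorem Endo.fix_of_approx {g} (hg : Endo g) {y : ℤ → Fin 5} (hy : y ∈ XX)
    (h : ∀ R : ℕ, ∃ x ∈ XX, g x = x ∧ ∀ m : ℤ, |m| ≤ R → x m = y m) : g y = y := by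
  funext k
  obtain ⟨R, hR⟩ := hg.loc hy k
  obtain ⟨x, hx, hgx, hxy⟩ := h (max R k.natAbs)
  have h1 := hR x hx (fun m hm => hxy m (by push_cast; exact le_trans hm (le_max_left _ _)))
  rw [← h1, hgx]
  apply hxy
  rw [Int.abs_eq_natAbs]
  push_cast
  exact le_max_right _ _

theorem Endo.fix_nonfull {g} (hg : Endo g) (hs : SurjOn g XX XX)
    (h1 : ∀ n, g (Z1 n 0) = Z1 n 0) (h2 : ∀ n, g (Z2 n 0) = Z2 n 0) {x : ℤ → Fin 5} (hx : x ∈ XX)
    (hnf : ¬ ∃ (n j : ℕ) (t : ℤ), x = Full n j t) : g x = x := by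
  have h1' : ∀ n t, g (Z1 n t) = Z1 n t := fun n t => by
    have e : Z1 n t = sh (-t) (Z1 n 0) := by rw [sh_Z1]; congr 1; ring
    rw [e, hg.comm_sh (Z1_mem n 0), h1]
  have h2' : ∀ n t, g (Z2 n t) = Z2 n t := fun n t => by
    have e : Z2 n t = sh (-t) (Z2 n 0) := by rw [sh_Z2]; congr 1; ring
    rw [e, hg.comm_sh (Z2_mem n 0), h2]
  rcases classify hx with ⟨n, j, t, rfl⟩ | ⟨n, t, rfl⟩ | ⟨n, t, rfl⟩ | ⟨i, t, rfl⟩ | ⟨i, rfl⟩
  · exact absurd ⟨n, j, t, rfl⟩ hnf
  · exact h1' n t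
  · exact h2' n t
  · apply hg.fix_of_approx hx
    intro R
    obtain ⟨N, hN⟩ : ∃ N : ℕ, N = R + t.natAbs + 1 := ⟨_, rfl⟩
    fin_cases i
    · refine ⟨Z1 N t, Z1_mem _ _, h1' _ _, fun m hm => ?_⟩
      have := abs_le.1 hm
      unfold Z1 Wl
      by_cases c1 : m < t
      · rw [if_pos c1, if_pos c1]; rfl
      · rw [if_neg c1, if_neg c1, if_pos (by omega)]; rfl
    · refine ⟨Z1 N (t-N), Z1_mem _ _, h1' _ _, fun m hm => ?_⟩
      have := abs_le.1 hm
      unfold Z1 Wl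
      rw [if_neg (by omega)]
      by_cases c1 : m < t
      · rw [if_pos (by omega), if_pos c1]; rfl
      · rw [if_neg (by omega), if_neg c1]; rfl
    · refine ⟨Z2 N t, Z2_mem _ _, h2' _ _, fun m hm => ?_⟩
      have := abs_le.1 hm
      unfold Z2 Wl
      by_cases c1 : m < t
      · rw [if_pos c1, if_pos c1]; rfl
      · rw [if_neg c1, if_neg c1, if_pos (by omega)]; rfl
    · refine ⟨Z2 N (t-N), Z2_mem _ _, h2' _ _, fun m hm => ?_⟩
      have := abs_le.1 hm
      unfold Z2 Wl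
      rw [if_neg (by omega)]
      by_cases c1 : m < t
      · rw [if_pos (by omega), if_pos c1]; rfl
      · rw [if_neg (by omega), if_neg c1]; rfl
  · exact hg.const_fix hs i

theorem isolated (n j : ℕ) (t : ℤ) : ∃ U : Set (ℤ → Fin 5), IsOpen U ∧ Full n j t ∈ U ∧
    ∀ x ∈ XX, x ∈ U → x = Full n j t := by
  refine ⟨{x | Lo x 1 t} ∩ {x | Lo x 2 (t+n)} ∩ {x | Lo x 3 (t + 2 * n + 2^j)} ∩
    {x | Lo x 4 (t + 3 * n + 2^j + (j%2 : ℕ))},
    (((clopen_Lo _ _).isOpen.inter (clopen_Lo _ _).isOpen).inter (clopen_Lo _ _).isOpen).inter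
      (clopen_Lo _ _).isOpen, ⟨⟨⟨?_, ?_⟩, ?_⟩, ?_⟩, ?_⟩
  · exact Lo_of_th (Full_th1 n j t)
  · exact Lo_of_th (Full_th2 n j t)
  · exact Lo_of_th (Full_th3 n j t)
  · exact Lo_of_th (Full_th4 n j t)
  · rintro x hx ⟨⟨⟨h1, h2⟩, h3⟩, h4⟩
    apply eq_of_th
    intro c hc1 hc4 k
    have t1 := th_of_Lo hx.1 h1 k
    have t2 := th_of_Lo hx.1 h2 k
    have t3 := th_of_Lo hx.1 h3 k
    have t4 := th_of_Lo hx.1 h4 k
    have a1 := Full_th1 n j t k
    have a2 := Full_th2 n j t k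
    have a3 := Full_th3 n j t k
    have a4 := Full_th4 n j t k
    generalize (2:ℤ)^j = P at *
    interval_cases c <;> omega

theorem Endo.fin_exc {g} (hg : Endo g) (hs : SurjOn g XX XX)
    (h1 : ∀ n, g (Z1 n 0) = Z1 n 0) (h2 : ∀ n, g (Z2 n 0) = Z2 n 0) :
    {x | x ∈ XX ∧ g x 0 ≠ x 0}.Finite := by
  obtain ⟨K, hK⟩ : ∃ K : Set (ℤ → Fin 5), K = {x | x ∈ XX ∧ g x 0 ≠ x 0} := ⟨_, rfl⟩
  rw [← hK]
  have hKc : IsCompact K := by
    have hcont : ContinuousOn (fun x => (g x 0, x 0)) XX :=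
      ((continuous_apply (0:ℤ)).comp_continuousOn hg.cont).prodMk (continuous_apply (0:ℤ)).continuousOn
    have hcl : IsClosed (XX ∩ (fun x => (g x 0, x 0)) ⁻¹' {p : Fin 5 × Fin 5 | p.1 ≠ p.2}) :=
      hcont.preimage_isClosed_of_isClosed closed_XX (isClosed_discrete _)
    have e : K = XX ∩ (fun x => (g x 0, x 0)) ⁻¹' {p : Fin 5 × Fin 5 | p.1 ≠ p.2} := by
      rw [hK]; rfl
    rw [e]
    exact hcl.isCompact
  have hiso : ∀ x ∈ K, ∃ U : Set (ℤ → Fin 5), IsOpen U ∧ x ∈ U ∧ ∀ y ∈ XX, y ∈ U → y = x := by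
    intro x hx
    rw [hK] at hx
    by_cases hf : ∃ (n j : ℕ) (t : ℤ), x = Full n j t
    · obtain ⟨n, j, t, rfl⟩ := hf
      exact isolated n j t
    · exact absurd (congrFun (hg.fix_nonfull hs h1 h2 hx.1 hf) 0) hx.2
  choose! U hU1 hU2 hU3 using hiso
  obtain ⟨T, hT1, hT2⟩ := hKc.elim_nhds_subcover U (fun x hx => (hU1 x hx).mem_nhds (hU2 x hx))
  apply T.finite_toSet.subset
  intro y hy
  have := hT2 hy
  simp only [mem_iUnion, exists_prop] at this
  obtain ⟨x, hxT, hyx⟩ := this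
  have hyX : y ∈ XX := by rw [hK] at hy; exact hy.1
  rw [hU3 x (hT1 x hxT) y hyX hyx]
  exact hxT

theorem inj_of_surj_of_fin {α : Type*} (φ : α → α) (hs : Function.Surjective φ)
    (hF : {a | φ a ≠ a}.Finite) : Function.Injective φ := by
  obtain ⟨F, hFd⟩ : ∃ F : Set α, F = {a | φ a ≠ a} := ⟨_, rfl⟩
  rw [← hFd] at hF
  have hsF : F ⊆ φ '' F := by
    intro a ha
    obtain ⟨b, hb⟩ := hs a
    refine ⟨b, ?_, hb⟩
    rw [hFd]
    intro hbb
    rw [hFd] at ha
    apply ha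
    have hab : a = b := hb.symm.trans hbb
    rw [hab]; exact hbb
  have hcard : φ '' F = F := by
    symm
    apply Set.eq_of_subset_of_ncard_le hsF (Set.ncard_image_le hF) (hF.image φ)
  have hinj : Set.InjOn φ F := by
    apply Set.injOn_of_ncard_image_eq _ hF
    rw [hcard]
  intro a b hab
  by_cases ha : a ∈ F
  · by_cases hb : b ∈ F
    · exact hinj ha hb hab
    · have hb' : φ b = b := by
        by_contra h; exact hb (by rw [hFd]; exact h)
      rw [hb'] at hab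
      have : b ∈ φ '' F := ⟨a, ha, hab⟩
      rw [hcard] at this
      exact absurd this hb
  · have ha' : φ a = a := by
      by_contra h; exact ha (by rw [hFd]; exact h)
    by_cases hb : b ∈ F
    · rw [ha'] at hab
      have : a ∈ φ '' F := ⟨b, hb, hab.symm⟩
      rw [hcard] at this
      exact absurd this ha
    · have hb' : φ b = b := by
        by_contra h; exact hb (by rw [hFd]; exact h)
      rw [ha', hb'] at hab
      exact hab

theorem Endo.inj_core {g} (hg : Endo g) (hs : SurjOn g XX XX)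
    (h1 : ∀ n, g (Z1 n 0) = Z1 n 0) (h2 : ∀ n, g (Z2 n 0) = Z2 n 0) : InjOn g XX := by
  have hfin := hg.fin_exc hs h1 h2
  have hc : ∀ i, g (Cn i) = Cn i := hg.const_fix hs
  have himg : ∀ p : ℕ × ℕ, ∃ (q : ℕ × ℕ) (t : ℤ), g (Full p.1 p.2 0) = Full q.1 q.2 t := by
    intro p
    obtain ⟨n, j, t, h⟩ := eq_Full_of (hg.maps (Full_mem p.1 p.2 0))
      (hg.tailL (hc 0) (Full_mem _ _ _) (LT_Full _ _ _)) (hg.tailR (hc 4) (Full_mem _ _ _) (RT_Full _ _ _))
    exact ⟨(n, j), t, h⟩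
  choose φ θ hφ using himg
  have hφ' : ∀ n j t, g (Full n j t) = Full (φ (n,j)).1 (φ (n,j)).2 (θ (n,j) + t) := by
    intro n j t
    have e : Full n j t = sh (-t) (Full n j 0) := by rw [sh_Full]; congr 1; ring
    rw [e, hg.comm_sh (Full_mem _ _ _), hφ (n, j), sh_Full]; congr 1; ring
  have hsur : Function.Surjective φ := by
    rintro ⟨n, j⟩
    obtain ⟨x, hx, hxz⟩ := hs (Full_mem n j 0)
    obtain ⟨i, hi⟩ := exists_LT hx
    obtain ⟨k, hk⟩ := exists_RT hx
    have t1 := hg.tailL (hc i) hx hi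
    have t2 := hg.tailR (hc k) hx hk
    rw [hxz] at t1 t2
    rw [LT_unique t1 (LT_Full _ _ _)] at hi
    rw [RT_unique t2 (RT_Full _ _ _)] at hk
    obtain ⟨n', j', t', rfl⟩ := eq_Full_of hx hi hk
    rw [hφ'] at hxz
    obtain ⟨e1, e2, _⟩ := Full_inj hxz
    exact ⟨(n', j'), Prod.ext e1 e2⟩
  have hexc : {p | φ p ≠ p}.Finite := by
    have hk : ∀ p ∈ {p | φ p ≠ p}, ∃ k : ℤ, Full p.1 p.2 (-k) ∈ {x | x ∈ XX ∧ g x 0 ≠ x 0} := by
      intro p hp
      have hne : g (Full p.1 p.2 0) ≠ Full p.1 p.2 0 := by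
        intro h
        rw [hφ p] at h
        obtain ⟨e1, e2, _⟩ := Full_inj h
        exact hp (Prod.ext e1 e2)
      obtain ⟨k, hk⟩ := Function.ne_iff.1 hne
      refine ⟨k, Full_mem _ _ _, ?_⟩
      have e : Full p.1 p.2 (-k) = sh k (Full p.1 p.2 0) := by rw [sh_Full]; congr 1; ring
      rw [e, hg.comm_sh (Full_mem _ _ _), sh_apply, sh_apply, zero_add]
      exact hk
    choose! κ hκ using hk
    apply Set.Finite.of_injOn (f := fun p => Full p.1 p.2 (-κ p)) hκ ?_ hfin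
    intro p _ q _ hpq
    obtain ⟨e1, e2, _⟩ := Full_inj hpq
    exact Prod.ext e1 e2
  have hinj := inj_of_surj_of_fin φ hsur hexc
  intro x hx y hy hxy
  by_cases fx : ∃ (n j : ℕ) (t : ℤ), x = Full n j t
  · obtain ⟨n, j, t, rfl⟩ := fx
    by_cases fy : ∃ (n j : ℕ) (t : ℤ), y = Full n j t
    · obtain ⟨n', j', t', rfl⟩ := fy
      rw [hφ', hφ'] at hxy
      obtain ⟨e1, e2, e3⟩ := Full_inj hxy
      have e4 := hinj (Prod.ext e1 e2)
      have e5 := congrArg Prod.fst e4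
      have e6 := congrArg Prod.snd e4
      simp only at e5 e6
      subst e5 e6
      congr 1
      linarith
    · exfalso
      rw [hg.fix_nonfull hs h1 h2 hy fy, hφ'] at hxy
      exact fy ⟨_, _, _, hxy.symm⟩
  · by_cases fy : ∃ (n j : ℕ) (t : ℤ), y = Full n j t
    · exfalso
      obtain ⟨n, j, t, rfl⟩ := fy
      rw [hg.fix_nonfull hs h1 h2 hx fx, hφ'] at hxy
      exact fx ⟨_, _, _, hxy⟩
    · rwa [hg.fix_nonfull hs h1 h2 hx fx, hg.fix_nonfull hs h1 h2 hy fy] at hxy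

theorem Endo.inj {f} (hf : Endo f) (hs : SurjOn f XX XX) : InjOn f XX := by
  obtain ⟨c, hc1, hc2⟩ := hf.rigid hs
  have hg := hf.sh_comp c
  have hgs : SurjOn (fun x => sh c (f x)) XX XX := by
    intro y hy
    obtain ⟨x, hx, hxy⟩ := hs (XX_sh hy (-c))
    refine ⟨x, hx, ?_⟩
    show sh c (f x) = y
    rw [hxy, sh_sh]; simp [sh_zero]
  have h := hg.inj_core hgs (fun n => by show sh c (f (Z1 n 0)) = _; rw [hc1, sh_Z1]; simp)
    (fun n => by show sh c (f (Z2 n 0)) = _; rw [hc2, sh_Z2]; simp)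
  intro x hx y hy hxy
  exact h hx hy (by show sh c (f x) = sh c (f y); rw [hxy])

/-- the injective non-surjective endomorphism -/
def TT (x : ℤ → Fin 5) : ℤ → Fin 5 := fun k =>
  if 4 ≤ (x (k-3)).val then 4 else if 3 ≤ (x (k-2)).val then 3 else
    if 2 ≤ (x (k-1)).val then 2 else if 1 ≤ (x k).val then 1 else 0

theorem TT_cont : Continuous TT := by
  refine continuous_pi fun k => ?_
  have hc : Continuous (fun x : ℤ → Fin 5 => (x (k-3), x (k-2), x (k-1), x k)) := by fun_prop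
  have hd : Continuous (fun p : Fin 5 × Fin 5 × Fin 5 × Fin 5 =>
    (if 4 ≤ p.1.val then 4 else if 3 ≤ p.2.1.val then 3 else
    if 2 ≤ p.2.2.1.val then 2 else if 1 ≤ p.2.2.2.val then 1 else 0 : Fin 5)) :=
    continuous_of_discreteTopology
  exact hd.comp hc

theorem TT_th {x : ℤ → Fin 5} (h : ∀ k, (x k).val ≤ (x (k+1)).val) {c : ℕ} (h1 : 1 ≤ c) (h4 : c ≤ 4)
    (k : ℤ) : c ≤ (TT x k).val ↔ c ≤ (x (k - c + 1)).val := by
  have a1 := h (k-3)
  have a2 := h (k-2)
  have a3 := h (k-1)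
  have e1 : k - 3 + 1 = k - 2 := by ring
  have e2 : k - 2 + 1 = k - 1 := by ring
  have e3 : k - 1 + 1 = k := by ring
  rw [e1] at a1
  rw [e2] at a2
  rw [e3] at a3
  have b1 := (x k).isLt
  interval_cases c
  · have e : k - ((1:ℕ):ℤ) + 1 = k := by push_cast; ring
    rw [e]; unfold TT; split_ifs <;> simp <;> omega
  · have e : k - ((2:ℕ):ℤ) + 1 = k - 1 := by push_cast; ring
    rw [e]; unfold TT; split_ifs <;> simp <;> omega
  · have e : k - ((3:ℕ):ℤ) + 1 = k - 2 := by push_cast; ring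
    rw [e]; unfold TT; split_ifs <;> simp <;> omega
  · have e : k - ((4:ℕ):ℤ) + 1 = k - 3 := by push_cast; ring
    rw [e]; unfold TT; split_ifs <;> simp <;> omega

theorem TT_maps : MapsTo TT XX XX := by
  intro x hx
  have hT := fun {c : ℕ} (h1 : 1 ≤ c) (h4 : c ≤ 4) (k : ℤ) => TT_th hx.1 h1 h4 k
  have hmono : ∀ k, (TT x k).val ≤ (TT x (k+1)).val := by
    intro k
    have lt := (TT x k).isLt
    by_contra hlt
    push Not at hlt
    have := (hT (c := (TT x k).val) (by omega) (by omega) k).1 le_rfl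
    have h2 := (hT (c := (TT x k).val) (by omega) (by omega) (k+1)).2
      (le_trans this (mono_of hx.1 (by omega)))
    omega
  have hLo : ∀ {c : ℕ}, 1 ≤ c → c ≤ 4 → ∀ s : ℤ, Lo (TT x) c s ↔ Lo x c (s - c + 1) := by
    intro c h1 h4 s
    unfold Lo
    have a := hT h1 h4 (s-1)
    have b := hT h1 h4 s
    have e : s - 1 - (c:ℤ) + 1 = s - c + 1 - 1 := by ring
    rw [e] at a
    constructor
    · rintro ⟨u, v⟩
      exact ⟨by by_contra hh; push Not at hh; have := a.2 hh; omega, b.1 v⟩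
    · rintro ⟨u, v⟩
      exact ⟨by by_contra hh; push Not at hh; have := a.1 hh; omega, b.2 v⟩
  refine ⟨hmono, fun s t hs ht => ?_⟩
  rw [hLo (by norm_num) (by norm_num)] at hs ht
  obtain ⟨n, j, e1, e2, e3⟩ := hx.2 _ _ hs ht
  refine ⟨n + 1, j, by push_cast at e1 ⊢; linarith, ?_, ?_⟩
  · rw [hLo (by norm_num) (by norm_num)]
    convert e2 using 1; push_cast; ring
  · rw [hLo (by norm_num) (by norm_num)]
    convert e3 using 1; push_cast; ring

theorem TT_inj : InjOn TT XX := by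
  intro x hx y hy hxy
  apply eq_of_th
  intro c h1 h4 k
  have a := TT_th hx.1 h1 h4 (k + c - 1)
  have b := TT_th hy.1 h1 h4 (k + c - 1)
  have e : k + (c:ℤ) - 1 - c + 1 = k := by ring
  rw [e] at a b
  rw [← a, ← b, hxy]

theorem TT_not_surj : ¬ SurjOn TT XX XX := by
  intro h
  obtain ⟨x, hx, hxz⟩ := h (Z1_mem 0 0)
  have a := TT_th hx.1 (c := 1) le_rfl (by norm_num) (-1)
  have b := TT_th hx.1 (c := 2) (by norm_num) (by norm_num) 0
  rw [hxz] at a b
  rw [Z1_th1] at a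
  rw [Z1_th2] at b
  have b' := b.1 (by simp)
  have e : (0:ℤ) - (2:ℕ) + 1 = -1 := by norm_num
  rw [e] at b'
  have e' : (-1:ℤ) - (1:ℕ) + 1 = -1 := by norm_num
  rw [e'] at a
  have := a.2 (by omega)
  omega


/-- There is a finite alphabet and a closed shift-invariant set X of bi-infinite sequences on which every surjective continuous shift-commuting self-map is injective, yet some injective such self-map is not surjective. -/
theorem result :
    ∃ n : ℕ, ∃ X : Set (ℤ → Fin n),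
      IsClosed X ∧
      (∀ x : ℤ → Fin n, x ∈ X ↔ (fun i => x (i + 1)) ∈ X) ∧
      (∀ f : (ℤ → Fin n) → (ℤ → Fin n),
        MapsTo f X X → ContinuousOn f X →
        (∀ x ∈ X, f (fun i => x (i + 1)) = fun i => f x (i + 1)) →
        SurjOn f X X → InjOn f X) ∧
      ¬ (∀ f : (ℤ → Fin n) → (ℤ → Fin n),
        MapsTo f X X → ContinuousOn f X →
        (∀ x ∈ X, f (fun i => x (i + 1)) = fun i => f x (i + 1)) →
        InjOn f X → SurjOn f X X) := by
  refine ⟨5, XX, closed_XX, fun x => (XX_sh_iff 1).symm, ?_, ?_⟩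
  · intro f h1 h2 h3 h4
    exact Endo.inj ⟨h1, h2, h3⟩ h4
  · intro h
    refine TT_not_surj (h TT TT_maps TT_cont.continuousOn (fun x _ => ?_) TT_inj)
    funext k
    have e1 : k - 3 + 1 = k + 1 - 3 := by ring
    have e2 : k - 2 + 1 = k + 1 - 2 := by ring
    have e3 : k - 1 + 1 = k + 1 - 1 := by ring
    simp only [TT, e1, e2, e3]

end Pool.Agent.S04759
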