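import Pool.Statements.S05040
import Pool.Agent.Lib.MP_721eb4_an.UB.Total

set_option autoImplicit false
open Pool Pool.MP_721eb4_an

namespace Pool.Agent.S05040

/-- The negation of the preceding statement: The complex Grothendieck constant (least K bounding the complex bilinear form of any matrix on Hilbert-space unit vectors, given it is at most 1 on complex unit scalars) equals the reciprocal of the integral of cos²θ/√(1+sin²θ) over [0,π/2]. -/
theorem result :
    ¬ (sInf {K : ℝ | ∀ (n m : ℕ) (a : Matrix (Fin n) (Fin n) ℂ),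
      (∀ s t : Fin n → ℂ, (∀ i, ‖s i‖ ≤ 1) → (∀ j, ‖t j‖ ≤ 1) →
        ‖∑ i, ∑ j, a i j * s i * t j‖ ≤ 1) →
      ∀ x y : Fin n → EuclideanSpace ℂ (Fin m), (∀ i, ‖x i‖ ≤ 1) → (∀ j, ‖y j‖ ≤ 1) →
        ‖∑ i, ∑ j, a i j * inner ℂ (x i) (y j)‖ ≤ K}
    = (∫ θ in (0:ℝ)..(Real.pi / 2),
        Real.cos θ ^ 2 / Real.sqrt (1 + Real.sin θ ^ 2))⁻¹) := by
  exact GUB.main

end Pool.Agent.S05040
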