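import Pool.Statements.S05168
import Pool.Agent.Lib.MP_7dd24e_an.Final

set_option autoImplicit false
open MeasureTheory
open Pool Pool.MP_7dd24e_an

namespace Pool.Agent.S05168

open Pool.Agent.HollowShell in
/-- The boundary of the truncated ball contains a nondegenerate segment with its midpoint. -/
lemma flat_points (s : ℝ) (hs : |s| ≤ 1 / 10) :
    (WithLp.toLp 2 ![9 / 10, s, 0] : EuclideanSpace ℝ (Fin 3)) ∈ frontier U0 := by
  rw [U0_open.frontier_eq]
  have hsq : s ^ 2 ≤ 1 / 100 := by
    have := sq_abs s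
    nlinarith [abs_nonneg s]
  refine ⟨?_, ?_⟩
  · rw [Metric.mem_closure_iff]
    intro ε hε
    set δ : ℝ := min (ε / 2) (1 / 10) with hδ
    have hδ0 : 0 < δ := lt_min (by linarith) (by norm_num)
    have hδ1 : δ ≤ 1 / 10 := min_le_right _ _
    have hδ2 : δ ≤ ε / 2 := min_le_left _ _
    refine ⟨WithLp.toLp 2 ![9 / 10 - δ, s, 0], ⟨?_, ?_⟩, ?_⟩
    · rw [EuclideanSpace.norm_eq, Real.sqrt_lt' one_pos]
      simp [Fin.sum_univ_three]
      nlinarith
    · simp only [Matrix.cons_val_zero]
      rw [abs_of_pos (by linarith)]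
      linarith
    · rw [EuclideanSpace.dist_eq, Real.sqrt_lt' hε]
      simp [Fin.sum_univ_three, Real.dist_eq]
      nlinarith
  · rintro ⟨_, h⟩
    simp only [Matrix.cons_val_zero] at h
    rw [abs_of_pos (by norm_num)] at h
    linarith

open Pool.Agent.HollowShell in
/-- The negation of the preceding statement: If two nested topological spheres in R^3 bound a shell whose Newtonian potential is constant in the inner cavity, then the two surfaces are the images of concentric spheres of radii 1 and k<1 under one invertible affine map. -/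
theorem result :
    ¬ (∀ (S S₁ U T₁ : Set (EuclideanSpace ℝ (Fin 3))),
    Nonempty (S ≃ₜ Metric.sphere (0 : EuclideanSpace ℝ (Fin 3)) 1) →
    Nonempty (S₁ ≃ₜ Metric.sphere (0 : EuclideanSpace ℝ (Fin 3)) 1) →
    IsOpen U → IsConnected U → Bornology.IsBounded U → frontier U = S →
    IsOpen T₁ → IsConnected T₁ → Bornology.IsBounded T₁ → frontier T₁ = S₁ →
    closure T₁ ⊆ U →
    (∃ c : ℝ, ∀ P ∈ T₁, ∫ M in U \ closure T₁, (dist P M)⁻¹ = c) →
    ∃ (f : EuclideanSpace ℝ (Fin 3) ≃ᵃ[ℝ] EuclideanSpace ℝ (Fin 3)) (k : ℝ),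
      0 < k ∧ k < 1 ∧
      S = f '' Metric.sphere (0 : EuclideanSpace ℝ (Fin 3)) 1 ∧
      S₁ = f '' Metric.sphere (0 : EuclideanSpace ℝ (Fin 3)) k) := by
  intro H
  obtain ⟨T, hTo, h0T, hTU, hstar, hpot⟩ := shell_exists
  have hUb : Bornology.IsBounded U0 := Metric.isBounded_ball.subset U0_sub
  have hTb : Bornology.IsBounded T := hUb.subset (subset_closure.trans hTU)
  have hTc : IsConnected T := by
    have h : StarConvex ℝ (0 : E) T := by
      rw [starConvex_zero_iff]
      intro x hx a ha ha1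
      rcases ha1.lt_or_eq with h | h
      · exact hstar x (subset_closure hx) a ha h
      · rw [h, one_smul]; exact hx
    exact (h.isPathConnected h0T).isConnected
  obtain ⟨f, k, _, _, hS, _⟩ := H (frontier U0) (frontier T) U0 T
    (star_homeo U0_open U0_zero hUb U0_star) (star_homeo hTo h0T hTb hstar)
    U0_open U0_connected hUb rfl hTo hTc hTb rfl hTU hpot
  have h1 := flat_points (1 / 10) (by rw [abs_of_pos] <;> norm_num)
  have h2 := flat_points (-(1 / 10)) (by rw [abs_neg, abs_of_pos] <;> norm_num)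
  have h3 := flat_points 0 (by simp)
  rw [hS] at h1 h2 h3
  obtain ⟨a, ha, hfa⟩ := h1
  obtain ⟨b, hb, hfb⟩ := h2
  obtain ⟨m, hm, hfm⟩ := h3
  rw [mem_sphere_zero_iff_norm] at ha hb hm
  have hmid : m = (2⁻¹ : ℝ) • (a + b) := by
    apply f.injective
    rw [hfm]
    have e1 : (2⁻¹ : ℝ) • (a + b) = AffineMap.lineMap a b (2⁻¹ : ℝ) := by
      rw [AffineMap.lineMap_apply_module, smul_add]
      norm_num
    rw [e1, AffineEquiv.apply_lineMap, hfa, hfb, AffineMap.lineMap_apply_module]
    ext j
    fin_cases j <;> simp <;> norm_num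
  have hne : a ≠ b := by
    rintro rfl
    rw [hfa] at hfb
    have := congrArg (fun v : E => v 1) hfb
    norm_num at this
  have h4 := parallelogram_law_with_norm ℝ a b
  have h5 : ‖a + b‖ = 2 := by
    have : ‖m‖ = 2⁻¹ * ‖a + b‖ := by
      rw [hmid, norm_smul]; norm_num
    rw [hm] at this
    linarith
  have h6 : 0 < ‖a - b‖ := norm_pos_iff.2 (sub_ne_zero.2 hne)
  rw [h5, ha, hb] at h4
  nlinarith

end Pool.Agent.S05168
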