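import Pool.Statements.S05368
import Pool.Agent.Lib.MP_8ebc20_an.R.RealW

set_option autoImplicit false
open Pool Pool.MP_8ebc20_an

namespace Pool.Agent.S05368

/-- The negation of the preceding statement: Take a hyperbolic complex polynomial of degree ≥2 with connected Julia set. Its group of homeomorphisms of J that extend to orientation-preserving plane homeomorphisms has a finitely generated subgroup that is uniformly dense in that group. -/
theorem result :
    ¬ (∀ (f : Polynomial ℂ) (J : Set ℂ),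
      2 ≤ f.natDegree →
      J = frontier {z : ℂ | Bornology.IsBounded
            (Set.range fun n : ℕ => (fun w : ℂ => f.eval w)^[n] z)} →
      IsConnected J →
      Disjoint (closure {w : ℂ | ∃ c : ℂ, ∃ n : ℕ, 1 ≤ n ∧ f.derivative.eval c = 0 ∧
            (fun x : ℂ => f.eval x)^[n] c = w}) J →
      ∃ S : Set (J ≃ₜ J), S.Finite ∧
        (∀ g ∈ S, ∃ Φ : ℂ ≃ₜ ℂ, (∀ z : J, Φ (z : ℂ) = (g z : ℂ)) ∧
          ∃ H : unitInterval → (ℂ ≃ₜ ℂ),
            Continuous (fun p : unitInterval × ℂ => H p.1 p.2) ∧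
            H 0 = Homeomorph.refl ℂ ∧ H 1 = Φ) ∧
        ∀ h : J ≃ₜ J,
          (∃ Φ : ℂ ≃ₜ ℂ, (∀ z : J, Φ (z : ℂ) = (h z : ℂ)) ∧
            ∃ H : unitInterval → (ℂ ≃ₜ ℂ),
              Continuous (fun p : unitInterval × ℂ => H p.1 p.2) ∧
              H 0 = Homeomorph.refl ℂ ∧ H 1 = Φ) →
          ∀ ε : ℝ, 0 < ε →
            ∃ g ∈ Subgroup.closure S, ∀ z : J, dist (g z : ℂ) (h z : ℂ) < ε) := by
  obtain ⟨ψ, ψi, γ, h⟩ := Pool.Agent.JH.exists_real7w
  exact h.not_main

end Pool.Agent.S05368
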