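import Pool.Statements.S05424
-- import your own Pool.Agent.* helpers here
import Pool.Agent.Lib.MP_9323ee_an.Core

set_option autoImplicit false
open scoped ENNReal
open Pool Pool.MP_9323ee_an

namespace Pool.Agent.S05424

open Pool.Agent.Lib.MP_9323ee_an

/-- the point of `ℓ_∞` attached to a list of monotone functions -/
noncomputable def pt (l : List X) : lp (fun _ : ℕ => ℝ) ∞ :=
  ⟨fun m => (cnt l m.unpair.1 m.unpair.2 : ℝ), by
    apply memℓp_infty
    refine ⟨l.length, ?_⟩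
    rintro _ ⟨m, rfl⟩
    simp only [Real.norm_natCast]
    exact_mod_cast cnt_le l _ _⟩

theorem pt_apply (l : List X) (m : ℕ) : (pt l : ℕ → ℝ) m = (cnt l m.unpair.1 m.unpair.2 : ℝ) := rfl

theorem dist_pt_le {l l' : List X} (h : Close l l') : dist (pt l) (pt l') ≤ 1 := by
  rw [dist_eq_norm]
  apply lp.norm_le_of_forall_le zero_le_one
  intro m
  rw [lp.coeFn_sub, Pi.sub_apply, pt_apply, pt_apply, Real.norm_eq_abs, abs_sub_le_iff]
  obtain ⟨h1, h2⟩ := h m.unpair.1 m.unpair.2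
  have h1' : (cnt l m.unpair.1 m.unpair.2 : ℝ) ≤ cnt l' m.unpair.1 m.unpair.2 + 1 := by
    exact_mod_cast h1
  have h2' : (cnt l' m.unpair.1 m.unpair.2 : ℝ) ≤ cnt l m.unpair.1 m.unpair.2 + 1 := by
    exact_mod_cast h2
  constructor <;> linarith

theorem le_dist_pt (l l' : List X) (k i : ℕ) :
    |(cnt l k i : ℝ) - cnt l' k i| ≤ dist (pt l) (pt l') := by
  rw [dist_eq_norm]
  have h := lp.norm_apply_le_norm (by simp : (∞ : ENNReal) ≠ 0) (pt l - pt l') (Nat.pair k i)
  rw [lp.coeFn_sub, Pi.sub_apply, pt_apply, pt_apply, Real.norm_eq_abs, Nat.unpair_pair] at h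
  exact h

/-- The negation of the preceding statement: There is a bi-Lipschitz map from real ℓ_∞ into the bounded real functions on ℝ whose image lies in c_0(ℝ), meaning each image has only finitely many coordinates of size at least ε, for every ε > 0. -/
theorem result :
    ¬ (∃ f : lp (fun _ : ℕ => ℝ) ∞ → lp (fun _ : ℝ => ℝ) ∞,
      (∃ K : NNReal, LipschitzWith K f) ∧
      (∃ K : NNReal, AntilipschitzWith K f) ∧
      ∀ x : lp (fun _ : ℕ => ℝ) ∞, ∀ ε : ℝ, 0 < ε →
        Set.Finite {γ : ℝ | ε ≤ |f x γ|}) := by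
  classical
  rintro ⟨F, ⟨K₁, hK₁⟩, ⟨K₂, hK₂⟩, hfin⟩
  -- discretisation
  have hfin' : ∀ l : List X, (Function.support
      (fun γ : ℝ => if 1 ≤ |F (pt l) γ| then ⌊F (pt l) γ⌋ else 0)).Finite := by
    intro l
    refine (hfin (pt l) 1 one_pos).subset ?_
    intro γ hγ
    rw [Function.mem_support] at hγ
    by_contra hne
    exact hγ (if_neg hne)
  let v : List X → (ℝ →₀ ℤ) := fun l => Finsupp.ofSupportFinite _ (hfin' l)
  have hv : ∀ l γ, |(v l γ : ℝ) - F (pt l) γ| ≤ 1 := by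
    intro l γ
    have h1 : v l γ = if 1 ≤ |F (pt l) γ| then ⌊F (pt l) γ⌋ else 0 := rfl
    rw [h1]
    split_ifs with h
    · rw [abs_sub_le_iff]
      have h2 := Int.floor_le (F (pt l) γ)
      have h3 := Int.lt_floor_add_one (F (pt l) γ)
      constructor <;> linarith
    · push Not at h
      rw [Int.cast_zero, zero_sub, abs_neg]
      exact h.le
  obtain ⟨L0, hL0⟩ := exists_nat_ge (K₁ : ℝ)
  obtain ⟨n, hn⟩ := exists_nat_gt ((K₂ : ℝ) * (2 * (L0 + 2) + 2))
  obtain ⟨S', -, hS', r, -, hr, -⟩ := core (Γ := ℝ) ((L0 : ℤ) + 2) n v Set.univ (largeN_univ n) (by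
    intro l _ l' _ hc γ
    have h1 : dist (F (pt l)) (F (pt l')) ≤ K₁ * 1 :=
      le_trans (hK₁.dist_le_mul _ _) (mul_le_mul_of_nonneg_left (dist_pt_le hc) K₁.2)
    have h2 : |F (pt l) γ - F (pt l') γ| ≤ dist (F (pt l)) (F (pt l')) := by
      rw [dist_eq_norm]
      have h := lp.norm_apply_le_norm (by simp : (∞ : ENNReal) ≠ 0) (F (pt l) - F (pt l')) γ
      rwa [lp.coeFn_sub, Pi.sub_apply, Real.norm_eq_abs] at h
    have h3 := hv l γ
    have h4 := hv l' γ
    rw [abs_sub_le_iff] at h2 h3 h4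
    have h5 : |(v l γ : ℝ) - v l' γ| ≤ (L0 : ℝ) + 2 := by
      rw [abs_sub_le_iff]
      constructor <;> linarith [h2.1, h2.2, h3.1, h3.2, h4.1, h4.2]
    exact_mod_cast h5)
  obtain ⟨l, hl, hlen, -⟩ := hS'.exists_dom (fun _ => 0)
  obtain ⟨l', hl', hlen', N, hN⟩ := hS'.exists_dom (fun k => (l.map (fun f => f.1 k)).sum + 1)
  set i : ℕ := (l.map (fun f => f.1 N)).sum with hi
  have hcl : cnt l N i = n := by
    rw [← hlen]
    unfold cnt
    rw [List.countP_eq_length]
    intro f hf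
    simp only [decide_eq_true_eq]
    exact List.single_le_sum (fun _ _ => Nat.zero_le _) _ (List.mem_map_of_mem hf)
  have hcl' : cnt l' N i = 0 := by
    unfold cnt
    rw [List.countP_eq_zero]
    intro f hf
    simp only [decide_eq_true_eq, not_le]
    have := hN N le_rfl f hf
    omega
  have h1 : (n : ℝ) ≤ dist (pt l) (pt l') := by
    have := le_dist_pt l l' N i
    rw [hcl, hcl'] at this
    simpa using this
  have h2 : dist (pt l) (pt l') ≤ K₂ * dist (F (pt l)) (F (pt l')) := hK₂.le_mul_dist _ _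
  have h3 : dist (F (pt l)) (F (pt l')) ≤ 2 * (L0 + 2) + 2 := by
    rw [dist_eq_norm]
    apply lp.norm_le_of_forall_le (by positivity)
    intro γ
    rw [lp.coeFn_sub, Pi.sub_apply, Real.norm_eq_abs]
    have e1 := hr l hl γ
    have e2 := hr l' hl' γ
    have e1' : |(v l γ : ℝ) - r γ| ≤ (L0 : ℝ) + 2 := by exact_mod_cast e1
    have e2' : |(v l' γ : ℝ) - r γ| ≤ (L0 : ℝ) + 2 := by exact_mod_cast e2
    have e3 := hv l γ
    have e4 := hv l' γ
    rw [abs_sub_le_iff] at e1' e2' e3 e4 ⊢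
    constructor <;> linarith [e1'.1, e1'.2, e2'.1, e2'.2, e3.1, e3.2, e4.1, e4.2]
  have h4 : (K₂ : ℝ) * dist (F (pt l)) (F (pt l')) ≤ K₂ * (2 * (L0 + 2) + 2) :=
    mul_le_mul_of_nonneg_left h3 K₂.2
  linarith

end Pool.Agent.S05424
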