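import Pool.Statements.S06213
import Pool.Agent.Lib.MP_cf5e8f_an.State
import Pool.Agent.Lib.MP_cf5e8f_an.Assemble

set_option autoImplicit false
open Pool Pool.MP_cf5e8f_an

namespace Pool.Agent.S06213

open Pool.Agent.Lib.MP_cf5e8f_an

/-- There is a power series with absolutely summable coefficients, a0=0, a1=1, injective on the open unit disk, whose values on the unit circle form a set of positive planar Lebesgue measure. -/
theorem result :
    ∃ a : ℕ → ℂ, Summable (fun n => ‖a n‖) ∧ a 0 = 0 ∧ a 1 = 1 ∧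
      Set.InjOn (fun z : ℂ => ∑' n, a n * z ^ n) (Metric.ball (0 : ℂ) 1) ∧
      0 < MeasureTheory.volume
        ((fun z : ℂ => ∑' n, a n * z ^ n) '' Metric.sphere (0 : ℂ) 1) := by
  refine assemble (fun j => (SQ j).F) DQ (fun j => 2 * cc ^ j) (fun j => 4 * (1 / 2) ^ j)
    (fun j => (SQ j).K) (fun j => (SQ_rel j).sm) (fun j => (SQ_rel j).le) ?_ ?_
    (fun j => (SQ_rel j).hs) (fun j => F_diff (SQ j)) (fun j => F_inj (SQ j))
    (fun j => (SQ_rel j).d0) (fun j => (SQ_rel j).d1)
    (fun j => K_compact (SQ j)) (fun j => (SQ_rel j).sub) (fun j => K_volume (SQ j))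
    (fun j x hx => K_close (SQ j) hx) ?_
  · exact (summable_geometric_of_lt_one cc_pos.le cc_lt_one).mul_left 2
  · intro z
    rfl
  · have h := (tendsto_pow_atTop_nhds_zero_of_lt_one (show (0 : ℝ) ≤ 1 / 2 by norm_num)
      (show (1 : ℝ) / 2 < 1 by norm_num)).const_mul 4
    rw [mul_zero] at h
    exact h

end Pool.Agent.S06213
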