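import Pool.Statements.S06302

set_option autoImplicit false
open Pool Pool.MP_d610ab_an

namespace Pool.Agent.S06302

open Complex Filter Topology

/-- `T w = - log (1 - 1 / w)`. -/
noncomputable def T (w : ℂ) : ℂ := -Complex.log (1 - 1 / w)

/-- The derivative of `T`. -/
noncomputable def V (w : ℂ) : ℂ := -1 / (w * (w - 1))

theorem ne_zero_of {w : ℂ} (hw : 1 < ‖w‖) : w ≠ 0 := by
  rintro rfl; simp at hw; linarith

theorem ne_one_of {w : ℂ} (hw : 1 < ‖w‖) : w - 1 ≠ 0 := by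
  intro h
  have : w = 1 := by linear_combination h
  rw [this] at hw; simp at hw

theorem norm_inv_lt {w : ℂ} (hw : 1 < ‖w‖) : ‖1 / w‖ < 1 := by
  rw [norm_div, norm_one, div_lt_one (by linarith)]; exact hw

theorem re_pos {w : ℂ} (hw : 1 < ‖w‖) : 0 < (1 - 1 / w).re := by
  have h1 := norm_inv_lt hw
  have h2 := Complex.abs_re_le_norm (1 / w)
  have h3 := le_abs_self (1 / w).re
  have : (1 - 1 / w).re = 1 - (1 / w).re := by simp
  rw [this]; linarith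

theorem mem_slit {w : ℂ} (hw : 1 < ‖w‖) : (1 - 1 / w) ∈ Complex.slitPlane :=
  Or.inl (re_pos hw)

theorem sub_ne_zero' {w : ℂ} (hw : 1 < ‖w‖) : 1 - 1 / w ≠ 0 :=
  Complex.slitPlane_ne_zero (mem_slit hw)

theorem exp_neg_T {w : ℂ} (hw : 1 < ‖w‖) : Complex.exp (-T w) = 1 - 1 / w := by
  rw [T, neg_neg, Complex.exp_log (sub_ne_zero' hw)]

theorem T_inj {w z : ℂ} (hw : 1 < ‖w‖) (hz : 1 < ‖z‖) (h : T w = T z) : w = z := by
  have h1 := exp_neg_T hw
  rw [h, exp_neg_T hz] at h1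
  have hw0 := ne_zero_of hw
  have hz0 := ne_zero_of hz
  field_simp at h1
  linear_combination -h1

theorem T_ne_zero {w : ℂ} (hw : 1 < ‖w‖) : T w ≠ 0 := by
  intro h
  have h1 := exp_neg_T hw
  rw [h] at h1
  have h2 : 1 / w = 0 := by
    have h3 : (1 : ℂ) = 1 - 1 / w := by simpa using h1
    linear_combination h3
  exact (one_div_ne_zero (ne_zero_of hw)) h2

theorem abs_im_T {w : ℂ} (hw : 1 < ‖w‖) : |(T w).im| < Real.pi / 2 := by
  have : (T w).im = -(1 - 1 / w).arg := by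
    rw [T, Complex.neg_im, Complex.log_im]
  rw [this, abs_neg]
  rw [Complex.abs_arg_lt_pi_div_two_iff]
  exact Or.inl (re_pos hw)

theorem hasDerivAt_T {w : ℂ} (hw : 1 < ‖w‖) : HasDerivAt T (V w) w := by
  have hw0 := ne_zero_of hw
  have hw1 := ne_one_of hw
  have h1 : HasDerivAt (fun w : ℂ => 1 - 1 / w) (1 / w ^ 2) w := by
    have := (hasDerivAt_inv hw0).const_sub 1
    simp only [one_div]
    refine this.congr_deriv ?_
    field_simp
  have h2 := (h1.clog (mem_slit hw)).neg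
  refine h2.congr_deriv ?_
  unfold V
  have : 1 - 1 / w ≠ 0 := sub_ne_zero' hw
  have h3 : (1 - 1 / w) = (w - 1) / w := by field_simp
  rw [h3]
  field_simp

theorem V_ne_zero {w : ℂ} (hw : 1 < ‖w‖) : V w ≠ 0 := by
  have hw0 := ne_zero_of hw
  have hw1 := ne_one_of hw
  unfold V
  exact div_ne_zero (by norm_num) (mul_ne_zero hw0 hw1)

theorem hasDerivAt_V {w : ℂ} (hw : 1 < ‖w‖) :
    HasDerivAt V ((2 * w - 1) * V w ^ 2) w := by
  have hw0 := ne_zero_of hw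
  have hw1 := ne_one_of hw
  have h1 : HasDerivAt (fun w : ℂ => w * (w - 1)) (2 * w - 1) w := by
    have := (hasDerivAt_id w).mul ((hasDerivAt_id w).sub_const 1)
    refine this.congr_deriv ?_
    simp; ring
  have h2 := (h1.inv (mul_ne_zero hw0 hw1)).const_mul (-1)
  have h3 : V = fun w : ℂ => -1 * (w * (w - 1))⁻¹ := by
    funext x; unfold V; rw [div_eq_mul_inv]
  rw [h3]
  refine h2.congr_deriv ?_
  field_simp

/-- `(|w|^2 - 1) |V w| ≤ 2`. -/
theorem weight_V {w : ℂ} (hw : 1 < ‖w‖) : (‖w‖ ^ 2 - 1) * ‖V w‖ ≤ 2 := by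
  have hw1 := ne_one_of hw
  have h1 : ‖w‖ - 1 ≤ ‖w - 1‖ := by
    have := norm_sub_norm_le w 1
    simpa using this
  have h2 : ‖V w‖ = 1 / (‖w‖ * ‖w - 1‖) := by
    unfold V; rw [norm_div, norm_mul]; simp
  rw [h2]
  have h3 : 0 < ‖w - 1‖ := norm_pos_iff.mpr hw1
  have h4 : 0 < ‖w‖ := by linarith
  rw [mul_one_div, div_le_iff₀ (by positivity)]
  nlinarith [mul_nonneg (sub_nonneg.mpr h1) h4.le, mul_nonneg (sub_nonneg.mpr h1) (sub_nonneg.mpr hw.le)]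

/-! ### Pre-Schwarzian and Schwarzian from explicit derivatives -/

theorem isOpen_ext : IsOpen {z : ℂ | 1 < ‖z‖} := isOpen_lt continuous_const continuous_norm

theorem pre_eq {g g1 P : ℂ → ℂ} (h1 : ∀ w, 1 < ‖w‖ → HasDerivAt g (g1 w) w)
    (h2 : ∀ w, 1 < ‖w‖ → HasDerivAt g1 (g1 w * P w) w) (h0 : ∀ w, 1 < ‖w‖ → g1 w ≠ 0)
    {w : ℂ} (hw : 1 < ‖w‖) : deriv (deriv g) w / deriv g w = P w := by
  have he : deriv g =ᶠ[𝓝 w] g1 := by
    filter_upwards [isOpen_ext.mem_nhds hw] with z hz using (h1 z hz).deriv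
  rw [he.deriv_eq, (h2 w hw).deriv, (h1 w hw).deriv, mul_div_cancel_left₀ _ (h0 w hw)]

theorem pre_deriv_eq {g g1 P P1 : ℂ → ℂ} (h1 : ∀ w, 1 < ‖w‖ → HasDerivAt g (g1 w) w)
    (h2 : ∀ w, 1 < ‖w‖ → HasDerivAt g1 (g1 w * P w) w) (h0 : ∀ w, 1 < ‖w‖ → g1 w ≠ 0)
    (h3 : ∀ w, 1 < ‖w‖ → HasDerivAt P (P1 w) w)
    {w : ℂ} (hw : 1 < ‖w‖) : deriv (fun z => deriv (deriv g) z / deriv g z) w = P1 w := by
  have he : (fun z => deriv (deriv g) z / deriv g z) =ᶠ[𝓝 w] P := by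
    filter_upwards [isOpen_ext.mem_nhds hw] with z hz using pre_eq h1 h2 h0 hz
  rw [he.deriv_eq, (h3 w hw).deriv]

/-! ### The function `f = 1 / T` -/

theorem hasDerivAt_f {w : ℂ} (hw : 1 < ‖w‖) :
    HasDerivAt (fun w => 1 / T w) (-V w / T w ^ 2) w := by
  simp only [one_div]
  exact (hasDerivAt_T hw).inv (T_ne_zero hw)

theorem hasDerivAt_f1 {w : ℂ} (hw : 1 < ‖w‖) :
    HasDerivAt (fun w => -V w / T w ^ 2)
      ((-V w / T w ^ 2) * ((2 * w - 1) * V w - 2 * V w / T w)) w := by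
  have hT := T_ne_zero hw
  have h := (hasDerivAt_V hw).neg.div ((hasDerivAt_T hw).pow 2) (pow_ne_zero 2 hT)
  refine h.congr_deriv ?_
  simp only [Pi.neg_apply, Pi.pow_apply]
  field_simp
  ring

theorem hasDerivAt_Pf {w : ℂ} (hw : 1 < ‖w‖) :
    HasDerivAt (fun w => (2 * w - 1) * V w - 2 * V w / T w)
      (2 * V w + (2 * w - 1) ^ 2 * V w ^ 2 - 2 * (2 * w - 1) * V w ^ 2 / T w
        + 2 * V w ^ 2 / T w ^ 2) w := by
  have hT := T_ne_zero hw
  have h1 : HasDerivAt (fun w : ℂ => 2 * w - 1) 2 w := by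
    have := ((hasDerivAt_id w).const_mul 2).sub_const 1
    simpa using this
  have h := (h1.mul (hasDerivAt_V hw)).sub
    (((hasDerivAt_V hw).const_mul 2).div (hasDerivAt_T hw) hT)
  refine h.congr_deriv ?_
  field_simp
  ring

/-! ### The functions `g = μ / (exp (μ T) - 1)` -/

theorem hasDerivAt_E {μ w : ℂ} (hw : 1 < ‖w‖) :
    HasDerivAt (fun w => Complex.exp (μ * T w)) (Complex.exp (μ * T w) * (μ * V w)) w :=
  ((hasDerivAt_T hw).const_mul μ).cexp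

theorem hasDerivAt_g {μ w : ℂ} (hw : 1 < ‖w‖) (hE : Complex.exp (μ * T w) - 1 ≠ 0) :
    HasDerivAt (fun w => μ / (Complex.exp (μ * T w) - 1))
      (-(μ ^ 2 * V w * Complex.exp (μ * T w)) / (Complex.exp (μ * T w) - 1) ^ 2) w := by
  have h := (((hasDerivAt_E (μ := μ) hw).sub_const 1).inv hE).const_mul μ
  simp only [div_eq_mul_inv μ]
  refine h.congr_deriv ?_
  field_simp

theorem hasDerivAt_g1 {μ w : ℂ} (hw : 1 < ‖w‖) (hE : Complex.exp (μ * T w) - 1 ≠ 0) :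
    HasDerivAt (fun w => -(μ ^ 2 * V w * Complex.exp (μ * T w)) /
        (Complex.exp (μ * T w) - 1) ^ 2)
      (-(μ ^ 2 * V w * Complex.exp (μ * T w)) / (Complex.exp (μ * T w) - 1) ^ 2 *
        ((2 * w - 1) * V w - V w * (μ * (Complex.exp (μ * T w) + 1) /
          (Complex.exp (μ * T w) - 1)))) w := by
  have hE' := hasDerivAt_E (μ := μ) hw
  have h := (((hasDerivAt_V hw).const_mul (μ ^ 2)).mul hE').neg.div
    ((hE'.sub_const 1).pow 2) (pow_ne_zero 2 hE)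
  refine h.congr_deriv ?_
  simp only [Pi.neg_apply, Pi.pow_apply, Pi.mul_apply]
  field_simp
  ring

theorem hasDerivAt_Pg {μ w : ℂ} (hw : 1 < ‖w‖) (hE : Complex.exp (μ * T w) - 1 ≠ 0) :
    HasDerivAt (fun w => (2 * w - 1) * V w - V w * (μ * (Complex.exp (μ * T w) + 1) /
          (Complex.exp (μ * T w) - 1)))
      (2 * V w + (2 * w - 1) ^ 2 * V w ^ 2 - (2 * w - 1) * V w ^ 2 *
        (μ * (Complex.exp (μ * T w) + 1) / (Complex.exp (μ * T w) - 1))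
        + 2 * μ ^ 2 * V w ^ 2 * Complex.exp (μ * T w) / (Complex.exp (μ * T w) - 1) ^ 2) w := by
  have hE' := hasDerivAt_E (μ := μ) hw
  have h1 : HasDerivAt (fun w : ℂ => 2 * w - 1) 2 w := by
    have := ((hasDerivAt_id w).const_mul 2).sub_const 1
    simpa using this
  have h := (h1.mul (hasDerivAt_V hw)).sub
    ((hasDerivAt_V hw).mul (((hE'.add_const 1).const_mul μ).div (hE'.sub_const 1) hE))
  refine h.congr_deriv ?_
  simp only [Pi.div_apply]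
  field_simp
  ring

/-! ### The parameters `μ_n` -/

/-- `1 / μ_n`. -/
noncomputable def nu (n : ℕ) : ℂ := 1 / 2 - ((n : ℂ) + 10) * I

noncomputable def mu (n : ℕ) : ℂ := 1 / nu n

theorem nu_re (n : ℕ) : (nu n).re = 1 / 2 := by
  simp [nu]

theorem nu_im (n : ℕ) : (nu n).im = -((n : ℝ) + 10) := by
  simp [nu]

theorem nu_norm (n : ℕ) : (n : ℝ) + 10 ≤ ‖nu n‖ := by
  have := Complex.abs_im_le_norm (nu n)
  rw [nu_im, abs_neg, abs_of_nonneg (by positivity)] at this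
  exact this

theorem nu_ne (n : ℕ) : nu n ≠ 0 := by
  intro h
  have := nu_norm n
  rw [h, norm_zero] at this
  have : (0 : ℝ) ≤ n := Nat.cast_nonneg n
  linarith

theorem mu_ne (n : ℕ) : mu n ≠ 0 := one_div_ne_zero (nu_ne n)

theorem mu_norm (n : ℕ) : ‖mu n‖ ≤ 1 / ((n : ℝ) + 10) := by
  rw [mu, norm_div, norm_one]
  exact one_div_le_one_div_of_le (by positivity) (nu_norm n)

theorem mu_norm' (n : ℕ) : ‖mu n‖ ≤ 1 / 10 := by
  refine (mu_norm n).trans ?_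
  apply one_div_le_one_div_of_le (by norm_num)
  have : (0 : ℝ) ≤ n := Nat.cast_nonneg n
  linarith

/-- Injectivity of `s ↦ exp (μ_n s)` on differences with imaginary part less than `π`. -/
theorem exp_mu_eq {n : ℕ} {s t : ℂ} (h : Complex.exp (mu n * s) = Complex.exp (mu n * t))
    (hst : |(s - t).im| < Real.pi) : s = t := by
  rw [Complex.exp_eq_exp_iff_exists_int] at h
  obtain ⟨k, hk⟩ := h
  have h1 : s - t = k * (2 * Real.pi * I) * nu n := by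
    have h2 : mu n * (s - t) = k * (2 * Real.pi * I) := by linear_combination hk
    have h3 : nu n * mu n = 1 := by rw [mu]; field_simp [nu_ne n]
    calc s - t = (nu n * mu n) * (s - t) := by rw [h3, one_mul]
      _ = nu n * (mu n * (s - t)) := by ring
      _ = _ := by rw [h2]; ring
  have h4 : (s - t).im = k * Real.pi := by
    rw [h1]
    simp only [nu, Complex.mul_im, Complex.mul_re, Complex.intCast_re, Complex.intCast_im,
      Complex.sub_re, Complex.sub_im, Complex.I_re, Complex.I_im, Complex.ofReal_re,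
      Complex.ofReal_im, Complex.add_re, Complex.add_im, Complex.natCast_re, Complex.natCast_im]
    norm_num
    ring
  have hk0 : k = 0 := by
    rw [h4, abs_mul, abs_of_pos Real.pi_pos] at hst
    have h5 : |(k : ℝ)| < 1 := by
      by_contra hcon
      rw [not_lt] at hcon
      nlinarith [Real.pi_pos]
    have h6 : |k| < 1 := by exact_mod_cast h5
    exact Int.abs_lt_one_iff.mp h6
  rw [hk0] at h1
  have : s - t = 0 := by rw [h1]; simp
  linear_combination this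

theorem exp_sub_one_ne {n : ℕ} {w : ℂ} (hw : 1 < ‖w‖) :
    Complex.exp (mu n * T w) - 1 ≠ 0 := by
  intro h
  have h1 : Complex.exp (mu n * T w) = Complex.exp (mu n * 0) := by
    rw [mul_zero, Complex.exp_zero]; linear_combination h
  have h2 : T w = 0 := by
    apply exp_mu_eq h1
    rw [sub_zero]
    have := abs_im_T hw
    linarith [Real.pi_pos]
  exact T_ne_zero hw h2

/-- The counterexample sequence. -/
noncomputable def G (n : ℕ) (w : ℂ) : ℂ := mu n / (Complex.exp (mu n * T w) - 1)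

/-- The limit function. -/
noncomputable def F0 (w : ℂ) : ℂ := 1 / T w

theorem G_inj (n : ℕ) : Set.InjOn (G n) {z : ℂ | 1 < ‖z‖} := by
  intro w hw z hz h
  have hw' : 1 < ‖w‖ := hw
  have hz' : 1 < ‖z‖ := hz
  have h1 := exp_sub_one_ne (n := n) hw'
  have h2 := exp_sub_one_ne (n := n) hz'
  have h3 : Complex.exp (mu n * T w) = Complex.exp (mu n * T z) := by
    unfold G at h
    rw [div_eq_div_iff h1 h2] at h
    have := mul_left_cancel₀ (mu_ne n) h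
    linear_combination -this
  have h4 : T w = T z := by
    apply exp_mu_eq h3
    have ha := abs_lt.mp (abs_im_T hw')
    have hb := abs_lt.mp (abs_im_T hz')
    rw [Complex.sub_im, abs_lt]
    constructor <;> linarith [ha.1, ha.2, hb.1, hb.2]
  exact T_inj hw' hz' h4

theorem F0_inj : Set.InjOn F0 {z : ℂ | 1 < ‖z‖} := by
  intro w hw z hz h
  have hw' : 1 < ‖w‖ := hw
  have hz' : 1 < ‖z‖ := hz
  apply T_inj hw' hz'
  unfold F0 at h
  rw [div_eq_div_iff (T_ne_zero hw') (T_ne_zero hz')] at h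
  linear_combination -h

theorem T_near {w : ℂ} (hw : 2 < ‖w‖) : ‖T w - 1 / w‖ ≤ ‖1 / w‖ ^ 2 := by
  have h1 : ‖-(1 / w)‖ < 1 := by
    rw [norm_neg]; exact norm_inv_lt (by linarith)
  have h2 := Complex.norm_log_one_add_sub_self_le h1
  have h3 : T w - 1 / w = -(Complex.log (1 + -(1 / w)) - -(1 / w)) := by
    unfold T; ring_nf
  rw [h3, norm_neg]
  refine h2.trans ?_
  rw [norm_neg]
  have h4 : ‖1 / w‖ ≤ 1 / 2 := by
    rw [norm_div, norm_one]
    exact one_div_le_one_div_of_le (by norm_num) hw.le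
  have h5 : (1 - ‖1 / w‖)⁻¹ ≤ 2 := by
    rw [inv_le_comm₀ (by linarith) (by norm_num)]
    linarith
  have h6 : 0 ≤ ‖1 / w‖ ^ 2 := by positivity
  nlinarith

theorem T_lower {w : ℂ} (hw : 2 < ‖w‖) : ‖1 / w‖ / 2 ≤ ‖T w‖ := by
  have h1 := T_near hw
  have h4 : ‖1 / w‖ ≤ 1 / 2 := by
    rw [norm_div, norm_one]
    exact one_div_le_one_div_of_le (by norm_num) hw.le
  have h5 : ‖1 / w‖ - ‖T w‖ ≤ ‖T w - 1 / w‖ := by
    rw [← norm_neg (T w - 1 / w)]
    have := norm_sub_norm_le (1 / w) (T w)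
    rw [neg_sub]
    exact this
  have h6 : 0 ≤ ‖1 / w‖ := norm_nonneg _
  nlinarith

theorem T_upper {w : ℂ} (hw : 2 < ‖w‖) : ‖T w‖ ≤ 1 := by
  have h1 := T_near hw
  have h4 : ‖1 / w‖ ≤ 1 / 2 := by
    rw [norm_div, norm_one]
    exact one_div_le_one_div_of_le (by norm_num) hw.le
  have h5 : ‖T w‖ ≤ ‖T w - 1 / w‖ + ‖1 / w‖ := by
    have := norm_add_le (T w - 1 / w) (1 / w)
    simpa using this
  have h6 : 0 ≤ ‖1 / w‖ := norm_nonneg _
  nlinarith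

theorem F0_near {w : ℂ} (hw : 2 < ‖w‖) : ‖F0 w - w‖ ≤ 2 := by
  have hw1 : 1 < ‖w‖ := by linarith
  have hT := T_ne_zero hw1
  have hw0 := ne_zero_of hw1
  have h1 : F0 w - w = -((T w - 1 / w) * w / T w) := by
    unfold F0; field_simp; ring
  have hTp : 0 < ‖T w‖ := norm_pos_iff.mpr hT
  rw [h1, norm_neg, norm_div, norm_mul, div_le_iff₀ hTp]
  have h2 := T_near hw
  have h3 := T_lower hw
  have h4 : ‖1 / w‖ * ‖w‖ = 1 := by
    rw [norm_div, norm_one]; field_simp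
  have h5 : 0 ≤ ‖w‖ := norm_nonneg _
  calc ‖T w - 1 / w‖ * ‖w‖ ≤ ‖1 / w‖ ^ 2 * ‖w‖ := by gcongr
    _ = ‖1 / w‖ * (‖1 / w‖ * ‖w‖) := by ring
    _ = ‖1 / w‖ := by rw [h4, mul_one]
    _ ≤ 2 * ‖T w‖ := by linarith

theorem G_near (n : ℕ) {w : ℂ} (hw : 2 < ‖w‖) : ‖G n w - F0 w‖ ≤ 1 := by
  have hw1 : 1 < ‖w‖ := by linarith
  have hT := T_ne_zero hw1
  have hE := exp_sub_one_ne (n := n) hw1
  set z := mu n * T w with hz
  have hTp : 0 < ‖T w‖ := norm_pos_iff.mpr hT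
  have hz0 : ‖z‖ = ‖mu n‖ * ‖T w‖ := norm_mul _ _
  have hz1 : ‖z‖ ≤ 1 / 10 := by
    rw [hz0]
    have := mu_norm' n
    have := T_upper hw
    nlinarith [norm_nonneg (mu n), norm_nonneg (T w)]
  have hb : ‖Complex.exp z - 1 - z‖ ≤ ‖z‖ ^ 2 :=
    Complex.norm_exp_sub_one_sub_id_le (by linarith)
  have hl : ‖z‖ * (9 / 10) ≤ ‖Complex.exp z - 1‖ := by
    have h5 : ‖z‖ - ‖Complex.exp z - 1‖ ≤ ‖Complex.exp z - 1 - z‖ := by
      have := norm_sub_norm_le z (Complex.exp z - 1)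
      rw [← norm_neg (Complex.exp z - 1 - z), neg_sub]
      exact this
    nlinarith [norm_nonneg z]
  have hEp : 0 < ‖Complex.exp z - 1‖ := norm_pos_iff.mpr hE
  have h1 : G n w - F0 w = -((Complex.exp z - 1 - z) / (T w * (Complex.exp z - 1))) := by
    unfold G F0
    rw [← hz]
    field_simp
    rw [hz]; ring
  rw [h1, norm_neg, norm_div, norm_mul, div_le_iff₀ (by positivity)]
  have hm := mu_norm' n
  calc ‖Complex.exp z - 1 - z‖ ≤ ‖z‖ ^ 2 := hb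
    _ = ‖mu n‖ * ‖T w‖ * ‖z‖ := by rw [sq]; nth_rewrite 1 [hz0]; ring
    _ ≤ (9 / 10) * ‖T w‖ * ‖z‖ := by gcongr; linarith
    _ = ‖T w‖ * (‖z‖ * (9 / 10)) := by ring
    _ ≤ ‖T w‖ * ‖Complex.exp z - 1‖ := by gcongr
    _ = 1 * (‖T w‖ * ‖Complex.exp z - 1‖) := by ring

theorem weight_nonneg {w : ℂ} (hw : 1 < ‖w‖) : 0 ≤ ‖w‖ ^ 2 - 1 := by nlinarith

/-! ### The Schwarzian difference -/

theorem schwarzian_diff (n : ℕ) {w : ℂ} (hw : 1 < ‖w‖) :
    (deriv (fun w => deriv (deriv (G n)) w / deriv (G n) w) w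
        - (1 / 2 : ℂ) * (deriv (deriv (G n)) w / deriv (G n) w) ^ 2)
      - (deriv (fun w => deriv (deriv F0) w / deriv F0 w) w
        - (1 / 2 : ℂ) * (deriv (deriv F0) w / deriv F0 w) ^ 2)
      = -(mu n ^ 2 / 2) * V w ^ 2 := by
  have hE := exp_sub_one_ne (n := n) hw
  have hT := T_ne_zero hw
  have ha : ∀ w, 1 < ‖w‖ → -(mu n ^ 2 * V w * Complex.exp (mu n * T w)) /
      (Complex.exp (mu n * T w) - 1) ^ 2 ≠ 0 := by
    intro w hw
    refine div_ne_zero (neg_ne_zero.mpr ?_) (pow_ne_zero 2 (exp_sub_one_ne hw))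
    exact mul_ne_zero (mul_ne_zero (pow_ne_zero 2 (mu_ne n)) (V_ne_zero hw)) (Complex.exp_ne_zero _)
  have hb : ∀ w, 1 < ‖w‖ → -V w / T w ^ 2 ≠ 0 := by
    intro w hw
    exact div_ne_zero (neg_ne_zero.mpr (V_ne_zero hw)) (pow_ne_zero 2 (T_ne_zero hw))
  rw [pre_deriv_eq (g := G n) (fun w hw => hasDerivAt_g hw (exp_sub_one_ne hw))
      (fun w hw => hasDerivAt_g1 hw (exp_sub_one_ne hw)) ha
      (fun w hw => hasDerivAt_Pg hw (exp_sub_one_ne hw)) hw,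
    pre_eq (g := G n) (fun w hw => hasDerivAt_g hw (exp_sub_one_ne hw))
      (fun w hw => hasDerivAt_g1 hw (exp_sub_one_ne hw)) ha hw,
    pre_deriv_eq (g := F0) (fun w hw => hasDerivAt_f hw) (fun w hw => hasDerivAt_f1 hw) hb
      (fun w hw => hasDerivAt_Pf hw) hw,
    pre_eq (g := F0) (fun w hw => hasDerivAt_f hw) (fun w hw => hasDerivAt_f1 hw) hb hw]
  field_simp
  ring

theorem pre_diff (n : ℕ) {w : ℂ} (hw : 1 < ‖w‖) :
    deriv (deriv (G n)) w / deriv (G n) w - deriv (deriv F0) w / deriv F0 w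
      = V w * (2 / T w - mu n * (Complex.exp (mu n * T w) + 1) /
          (Complex.exp (mu n * T w) - 1)) := by
  have hE := exp_sub_one_ne (n := n) hw
  have hT := T_ne_zero hw
  have ha : ∀ w, 1 < ‖w‖ → -(mu n ^ 2 * V w * Complex.exp (mu n * T w)) /
      (Complex.exp (mu n * T w) - 1) ^ 2 ≠ 0 := by
    intro w hw
    refine div_ne_zero (neg_ne_zero.mpr ?_) (pow_ne_zero 2 (exp_sub_one_ne hw))
    exact mul_ne_zero (mul_ne_zero (pow_ne_zero 2 (mu_ne n)) (V_ne_zero hw)) (Complex.exp_ne_zero _)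
  have hb : ∀ w, 1 < ‖w‖ → -V w / T w ^ 2 ≠ 0 := by
    intro w hw
    exact div_ne_zero (neg_ne_zero.mpr (V_ne_zero hw)) (pow_ne_zero 2 (T_ne_zero hw))
  rw [pre_eq (g := G n) (fun w hw => hasDerivAt_g hw (exp_sub_one_ne hw))
      (fun w hw => hasDerivAt_g1 hw (exp_sub_one_ne hw)) ha hw,
    pre_eq (g := F0) (fun w hw => hasDerivAt_f hw) (fun w hw => hasDerivAt_f1 hw) hb hw]
  field_simp
  ring

/-! ### The lower bound for the pre-Schwarzian difference -/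

/-- `t_n = 2 π (n + 10)`. -/
noncomputable def tt (n : ℕ) : ℝ := 2 * Real.pi * ((n : ℝ) + 10)

theorem tt_pos (n : ℕ) : 0 < tt n := by
  unfold tt; have := Real.pi_pos; positivity

theorem tt_ge (n : ℕ) : 60 ≤ tt n := by
  unfold tt
  have h1 := Real.pi_gt_three
  have h2 : (0 : ℝ) ≤ n := Nat.cast_nonneg n
  nlinarith

noncomputable def ww (n : ℕ) : ℝ := 1 / (1 - Real.exp (-tt n))

theorem exp_lt (n : ℕ) : Real.exp (-tt n) < 1 := by
  rw [Real.exp_lt_one_iff]; linarith [tt_pos n]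

theorem ww_gt (n : ℕ) : 1 < ww n := by
  unfold ww
  have h1 := exp_lt n
  have h2 := Real.exp_pos (-tt n)
  rw [lt_div_iff₀ (by linarith)]
  linarith

theorem ww_norm (n : ℕ) : 1 < ‖((ww n : ℝ) : ℂ)‖ := by
  rw [Complex.norm_real, Real.norm_eq_abs, abs_of_pos (by linarith [ww_gt n])]
  exact ww_gt n

theorem T_ww (n : ℕ) : T ((ww n : ℝ) : ℂ) = ((tt n : ℝ) : ℂ) := by
  have h1 := exp_lt n
  have h2 : (1 : ℂ) - 1 / ((ww n : ℝ) : ℂ) = ((Real.exp (-tt n) : ℝ) : ℂ) := by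
    have h3 : (1 : ℝ) - 1 / ww n = Real.exp (-tt n) := by
      unfold ww
      rw [one_div_one_div]; ring
    rw [← h3]; push_cast; ring
  rw [T, h2, ← Complex.ofReal_log (Real.exp_pos _).le, Real.log_exp]
  push_cast; ring

theorem E_ww (n : ℕ) :
    Complex.exp (mu n * T ((ww n : ℝ) : ℂ)) = Complex.exp (-(Real.pi * I * mu n)) := by
  rw [T_ww]
  have h1 : mu n * ((tt n : ℝ) : ℂ) = 2 * Real.pi * I + -(Real.pi * I * mu n) := by
    have h2 : nu n * mu n = 1 := by rw [mu]; field_simp [nu_ne n]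
    have h3 : ((tt n : ℝ) : ℂ) = 2 * Real.pi * I * nu n - Real.pi * I := by
      unfold tt nu
      push_cast
      have : I ^ 2 = -1 := Complex.I_sq
      linear_combination (2 * Real.pi * ((n : ℂ) + 10)) * this
    rw [h3]
    linear_combination (2 * Real.pi * I) * h2
  rw [h1, Complex.exp_add, Complex.exp_two_pi_mul_I, one_mul]

theorem weight_V_ww (n : ℕ) :
    1 ≤ (‖((ww n : ℝ) : ℂ)‖ ^ 2 - 1) * ‖V ((ww n : ℝ) : ℂ)‖ := by
  have h1 := ww_gt n
  have h2 : V ((ww n : ℝ) : ℂ) = ((-1 / (ww n * (ww n - 1)) : ℝ) : ℂ) := by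
    unfold V; push_cast; ring
  rw [h2, Complex.norm_real, Complex.norm_real, Real.norm_eq_abs, Real.norm_eq_abs,
    abs_of_pos (by linarith : (0 : ℝ) < ww n), abs_div, abs_neg, abs_one,
    abs_of_pos (mul_pos (by linarith) (by linarith) : (0 : ℝ) < ww n * (ww n - 1)),
    mul_one_div, le_div_iff₀ (mul_pos (by linarith) (by linarith))]
  nlinarith

theorem bracket_lower (n : ℕ) :
    1 / 10 < ‖2 / T ((ww n : ℝ) : ℂ) - mu n * (Complex.exp (mu n * T ((ww n : ℝ) : ℂ)) + 1) /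
          (Complex.exp (mu n * T ((ww n : ℝ) : ℂ)) - 1)‖ := by
  have hE := exp_sub_one_ne (n := n) (ww_norm n)
  have hEE := E_ww n
  rw [hEE] at hE ⊢
  rw [T_ww]
  set E := Complex.exp (-(Real.pi * I * mu n)) with hEdef
  have hmu := mu_norm' n
  have hmup : 0 < ‖mu n‖ := norm_pos_iff.mpr (mu_ne n)
  have hn : ‖-(Real.pi * I * mu n)‖ = Real.pi * ‖mu n‖ := by
    rw [norm_neg, norm_mul, norm_mul, Complex.norm_real, Complex.norm_I, mul_one,
      Real.norm_eq_abs, abs_of_pos Real.pi_pos]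
  have hpi := Real.pi_pos
  have hpi2 : Real.pi < 3.15 := Real.pi_lt_d2
  have h1 : ‖E - 1‖ ≤ 2 * (Real.pi * ‖mu n‖) := by
    have := Complex.norm_exp_sub_one_le (x := -(Real.pi * I * mu n)) (by rw [hn]; nlinarith)
    rw [hn] at this
    exact this
  have hEp : 0 < ‖E - 1‖ := norm_pos_iff.mpr hE
  have h2 : 2 - ‖E - 1‖ ≤ ‖E + 1‖ := by
    have h3 : (2 : ℂ) = (E + 1) - (E - 1) := by ring
    have h4 := norm_sub_le (E + 1) (E - 1)
    rw [← h3] at h4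
    have h5 : ‖(2 : ℂ)‖ = 2 := by simp
    linarith
  have h6 : 0.2 ≤ ‖mu n * (E + 1) / (E - 1)‖ := by
    rw [norm_div, norm_mul, le_div_iff₀ hEp]
    have h7 : 1.36 ≤ ‖E + 1‖ := by
      have : Real.pi * ‖mu n‖ ≤ 0.315 := by nlinarith
      linarith
    have h8 : ‖E - 1‖ ≤ 6.3 * ‖mu n‖ := by nlinarith
    nlinarith
  have h9 : ‖(2 : ℂ) / ((tt n : ℝ) : ℂ)‖ ≤ 2 / 60 := by
    rw [norm_div, Complex.norm_real, Real.norm_eq_abs, abs_of_pos (tt_pos n)]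
    have h5 : ‖(2 : ℂ)‖ = 2 := by simp
    rw [h5]
    exact div_le_div_of_nonneg_left (by norm_num) (by norm_num) (tt_ge n)
  have h10 := norm_sub_norm_le (mu n * (E + 1) / (E - 1)) ((2 : ℂ) / ((tt n : ℝ) : ℂ))
  rw [← norm_neg, neg_sub]
  linarith

/-- The negation of the preceding statement: For all f, F_n holomorphic and injective on ∣z∣>1 with f(z)-z bounded for ∣z∣>2 (i.e. class Σ), uniform weighted convergence (∣z∣^2-1)^2∣S_{F_n}-S_f∣→0 on ∣z∣>1 implies (∣z∣^2-1)∣F_n''/F_n' - f''/f'∣→0 uniformly on ∣z∣>1. -/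
theorem result :
    ¬ (∀ (f : ℂ → ℂ) (F : ℕ → ℂ → ℂ),
      (DifferentiableOn ℂ f {z : ℂ | 1 < ‖z‖} ∧ Set.InjOn f {z : ℂ | 1 < ‖z‖} ∧
        ∃ C : ℝ, ∀ z : ℂ, 2 < ‖z‖ → ‖f z - z‖ ≤ C) →
      (∀ n : ℕ, DifferentiableOn ℂ (F n) {z : ℂ | 1 < ‖z‖} ∧
        Set.InjOn (F n) {z : ℂ | 1 < ‖z‖} ∧
        ∃ C : ℝ, ∀ z : ℂ, 2 < ‖z‖ → ‖F n z - z‖ ≤ C) →
      (∀ ε : ℝ, 0 < ε → ∃ N : ℕ, ∀ n : ℕ, N ≤ n → ∀ z : ℂ, 1 < ‖z‖ →
        (‖z‖ ^ 2 - 1) ^ 2 *
          ‖(deriv (fun w => deriv (deriv (F n)) w / deriv (F n) w) z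
              - (1 / 2 : ℂ) * (deriv (deriv (F n)) z / deriv (F n) z) ^ 2)
            - (deriv (fun w => deriv (deriv f) w / deriv f w) z
              - (1 / 2 : ℂ) * (deriv (deriv f) z / deriv f z) ^ 2)‖ ≤ ε) →
      (∀ ε : ℝ, 0 < ε → ∃ N : ℕ, ∀ n : ℕ, N ≤ n → ∀ z : ℂ, 1 < ‖z‖ →
        (‖z‖ ^ 2 - 1) *
          ‖deriv (deriv (F n)) z / deriv (F n) z - deriv (deriv f) z / deriv f z‖ ≤ ε)) := by
  intro hall
  have hF0 : DifferentiableOn ℂ F0 {z : ℂ | 1 < ‖z‖} ∧ Set.InjOn F0 {z : ℂ | 1 < ‖z‖} ∧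
        ∃ C : ℝ, ∀ z : ℂ, 2 < ‖z‖ → ‖F0 z - z‖ ≤ C :=
    ⟨fun z hz => (hasDerivAt_f hz).differentiableAt.differentiableWithinAt, F0_inj,
      2, fun z hz => F0_near hz⟩
  have hG : ∀ n : ℕ, DifferentiableOn ℂ (G n) {z : ℂ | 1 < ‖z‖} ∧
        Set.InjOn (G n) {z : ℂ | 1 < ‖z‖} ∧
        ∃ C : ℝ, ∀ z : ℂ, 2 < ‖z‖ → ‖G n z - z‖ ≤ C := by
    intro n
    refine ⟨fun z hz => (hasDerivAt_g hz (exp_sub_one_ne hz)).differentiableAt.differentiableWithinAt,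
      G_inj n, 3, fun z hz => ?_⟩
    have h1 := G_near n hz
    have h2 := F0_near hz
    calc ‖G n z - z‖ = ‖(G n z - F0 z) + (F0 z - z)‖ := by ring_nf
      _ ≤ ‖G n z - F0 z‖ + ‖F0 z - z‖ := norm_add_le _ _
      _ ≤ 3 := by linarith
  have hS : ∀ ε : ℝ, 0 < ε → ∃ N : ℕ, ∀ n : ℕ, N ≤ n → ∀ z : ℂ, 1 < ‖z‖ →
        (‖z‖ ^ 2 - 1) ^ 2 *
          ‖(deriv (fun w => deriv (deriv (G n)) w / deriv (G n) w) z
              - (1 / 2 : ℂ) * (deriv (deriv (G n)) z / deriv (G n) z) ^ 2)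
            - (deriv (fun w => deriv (deriv F0) w / deriv F0 w) z
              - (1 / 2 : ℂ) * (deriv (deriv F0) z / deriv F0 z) ^ 2)‖ ≤ ε := by
    intro ε hε
    obtain ⟨N, hN⟩ := exists_nat_gt (2 / ε)
    refine ⟨N, fun n hn z hz => ?_⟩
    rw [schwarzian_diff n hz]
    have h1 : ‖-(mu n ^ 2 / 2) * V z ^ 2‖ = ‖mu n‖ ^ 2 / 2 * ‖V z‖ ^ 2 := by
      rw [norm_mul, norm_neg, norm_div, norm_pow, norm_pow]; simp
    rw [h1]
    have h2 := weight_V hz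
    have h3 := mul_nonneg (weight_nonneg hz) (norm_nonneg (V z))
    have h4 : ((‖z‖ ^ 2 - 1) * ‖V z‖) ^ 2 ≤ 2 ^ 2 := pow_le_pow_left₀ h3 h2 2
    have h5 := mu_norm n
    have h6 : (N : ℝ) ≤ n := by exact_mod_cast hn
    have h7 : 0 < 2 / ε := by positivity
    have h8 : ‖mu n‖ ≤ ε / 2 := by
      refine h5.trans ?_
      rw [div_le_iff₀ (by linarith)]
      have : 2 / ε < (n : ℝ) + 10 := by linarith
      rw [div_lt_iff₀ hε] at this
      linarith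
    have h9 := mu_norm' n
    have h10 : ‖mu n‖ ^ 2 ≤ ε / 2 := by
      have := norm_nonneg (mu n)
      nlinarith
    calc (‖z‖ ^ 2 - 1) ^ 2 * (‖mu n‖ ^ 2 / 2 * ‖V z‖ ^ 2)
        = ((‖z‖ ^ 2 - 1) * ‖V z‖) ^ 2 * (‖mu n‖ ^ 2 / 2) := by ring
      _ ≤ 2 ^ 2 * (‖mu n‖ ^ 2 / 2) := by gcongr
      _ = 2 * ‖mu n‖ ^ 2 := by ring
      _ ≤ ε := by linarith
  obtain ⟨N, hN⟩ := hall F0 G hF0 hG hS (1 / 10) (by norm_num)
  have h1 := hN N le_rfl _ (ww_norm N)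
  rw [pre_diff N (ww_norm N), norm_mul] at h1
  have h2 := weight_V_ww N
  have h3 := bracket_lower N
  rw [← mul_assoc] at h1
  have h4 := norm_nonneg (2 / T ((ww N : ℝ) : ℂ) -
    mu N * (Complex.exp (mu N * T ((ww N : ℝ) : ℂ)) + 1) /
          (Complex.exp (mu N * T ((ww N : ℝ) : ℂ)) - 1))
  nlinarith

end Pool.Agent.S06302
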