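-- Disproof of the Rigler-Trimble-Varga formula at d = 1/2, k = 1 (so n = 3, rho = 1):
-- f(z) = (1+z)^4 (z^2 - 4 z + 5) = 5 + 16 z + 15 z^2 - 5 z^4 + z^6.
import Pool.Statements.S06546

set_option autoImplicit false
open Pool Pool.MP_e9d911_an

namespace Pool.Agent.S06546

open Polynomial in
/-- The counterexample polynomial. -/
noncomputable def cexPoly : ℂ[X] :=
  (X + C 1) * (X + C 1) * ((X + C 1) * (X + C 1)) *
    ((X - C (2 + Complex.I)) * (X - C (2 - Complex.I)))

/-- Its coefficient sequence. -/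
noncomputable def cexCoeff : ℕ → ℂ := fun j =>
  if j = 0 then 5 else if j = 1 then 16 else if j = 2 then 15 else if j = 4 then -5
  else if j = 6 then 1 else 0

lemma cexCoeff_zero_of_not_mem (j : ℕ) (hj : j ∉ Finset.range 7) : cexCoeff j = 0 := by
  have h7 : 7 ≤ j := by simpa using hj
  unfold cexCoeff
  rw [if_neg (by omega), if_neg (by omega), if_neg (by omega), if_neg (by omega),
    if_neg (by omega)]

lemma tsum_norm_cexCoeff : ∑' j, ‖cexCoeff j‖ = 42 := by
  rw [tsum_eq_sum (s := Finset.range 7)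
    (fun j hj => by rw [cexCoeff_zero_of_not_mem j hj, norm_zero])]
  simp [Finset.sum_range_succ, cexCoeff]
  norm_num

lemma tsum_cexCoeff_mul_pow (z : ℂ) : ∑' j, cexCoeff j * z ^ j = cexPoly.eval z := by
  rw [tsum_eq_sum (s := Finset.range 7)
    (fun j hj => by rw [cexCoeff_zero_of_not_mem j hj, zero_mul])]
  simp only [Finset.sum_range_succ, cexCoeff, cexPoly, Polynomial.eval_mul, Polynomial.eval_add,
    Polynomial.eval_sub, Polynomial.eval_X, Polynomial.eval_C, Finset.range_zero,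
    Finset.sum_empty]
  have hI : Complex.I ^ 2 = -1 := Complex.I_sq
  norm_num
  linear_combination (z + 1) * (z + 1) * ((z + 1) * (z + 1)) * hI

lemma logMahlerMeasure_cexPoly : cexPoly.logMahlerMeasure = Real.log 5 := by
  have h1 : (Polynomial.X + Polynomial.C (1 : ℂ)) ≠ 0 := Polynomial.X_add_C_ne_zero 1
  have h2 : (Polynomial.X - Polynomial.C (2 + Complex.I)) ≠ 0 := Polynomial.X_sub_C_ne_zero _
  have h3 : (Polynomial.X - Polynomial.C (2 - Complex.I)) ≠ 0 := Polynomial.X_sub_C_ne_zero _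
  have n2 : ‖(2 + Complex.I : ℂ)‖ = Real.sqrt 5 := by
    rw [Complex.norm_def]
    congr 1
    simp [Complex.normSq_apply]
    norm_num
  have n3 : ‖(2 - Complex.I : ℂ)‖ = Real.sqrt 5 := by
    rw [Complex.norm_def]
    congr 1
    simp [Complex.normSq_apply]
    norm_num
  have s5 : (1 : ℝ) ≤ Real.sqrt 5 := by
    rw [show (1 : ℝ) = Real.sqrt 1 by simp]
    exact Real.sqrt_le_sqrt (by norm_num)
  have l5 : Real.posLog (Real.sqrt 5) = Real.log (Real.sqrt 5) := by
    apply Real.posLog_eq_log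
    rw [abs_of_nonneg (Real.sqrt_nonneg 5)]
    exact s5
  unfold cexPoly
  rw [Polynomial.logMahlerMeasure_mul_eq_add_logMahlerMeasure
        (mul_ne_zero (mul_ne_zero (mul_ne_zero h1 h1) (mul_ne_zero h1 h1)) (mul_ne_zero h2 h3)),
    Polynomial.logMahlerMeasure_mul_eq_add_logMahlerMeasure
        (mul_ne_zero (mul_ne_zero h1 h1) (mul_ne_zero h1 h1)),
    Polynomial.logMahlerMeasure_mul_eq_add_logMahlerMeasure (mul_ne_zero h1 h1),
    Polynomial.logMahlerMeasure_mul_eq_add_logMahlerMeasure (mul_ne_zero h2 h3),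
    Polynomial.logMahlerMeasure_X_add_C, Polynomial.logMahlerMeasure_X_sub_C,
    Polynomial.logMahlerMeasure_X_sub_C, n2, n3, l5]
  have : Real.posLog ‖(1 : ℂ)‖ = 0 := by simp
  rw [this]
  rw [← Real.log_mul (by positivity) (by positivity), Real.mul_self_sqrt (by norm_num)]
  ring

lemma integral_cex :
    (1 / (2 * Real.pi)) *
      (∫ θ in (0:ℝ)..(2 * Real.pi),
        Real.log ‖∑' j, cexCoeff j * Complex.exp ((θ : ℂ) * Complex.I) ^ j‖) = Real.log 5 := by
  rw [← logMahlerMeasure_cexPoly, Polynomial.logMahlerMeasure_def, Real.circleAverage_def]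
  simp only [tsum_cexCoeff_mul_pow]
  rw [one_div, smul_eq_mul]
  congr 1
  apply intervalIntegral.integral_congr
  intro θ _
  simp [circleMap]

/-- The negation of the preceding statement: For 0<d<1, k≥0 and the n with ∑_{j≤k}C(n,j)/2^n ≤ d < ∑_{j≤k}C(n-1,j)/2^{n-1}, the infimum of J(f) over nonzero f with ∑_{j≤k}∣a_j∣ ≥ d∑∣a_j∣ equals log(ρ/((ρ+1)2^{n-1})), with ρ as defined. -/
theorem result :
    ¬ (∀ (d : ℝ) (k n : ℕ), 0 < d → d < 1 → 0 < n →
    (∑ j ∈ Finset.range (k+1), (n.choose j : ℝ)) / 2 ^ n ≤ d →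
    d < (∑ j ∈ Finset.range (k+1), ((n-1).choose j : ℝ)) / 2 ^ (n-1) →
    IsGLB {x : ℝ | ∃ a : ℕ → ℂ, Summable (fun j => ‖a j‖) ∧ a ≠ 0 ∧
        d * (∑' j, ‖a j‖) ≤ ∑ j ∈ Finset.range (k+1), ‖a j‖ ∧
        x = (1 / (2 * Real.pi)) *
              (∫ θ in (0:ℝ)..(2 * Real.pi),
                Real.log ‖∑' j, a j * Complex.exp ((θ : ℂ) * Complex.I) ^ j‖)
            - Real.log (∑' j, ‖a j‖)}
      (Real.log
        ((((n-1).choose k : ℝ) /
            ((∑ j ∈ Finset.range (k+1), ((n-1).choose j : ℝ)) - d * 2 ^ (n-1)) - 1) /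
          (((((n-1).choose k : ℝ) /
            ((∑ j ∈ Finset.range (k+1), ((n-1).choose j : ℝ)) - d * 2 ^ (n-1)) - 1) + 1)
            * 2 ^ (n-1))))) := by
  intro h
  have h0 := h (1/2) 1 3 (by norm_num) (by norm_num) (by norm_num)
    (by norm_num [Finset.sum_range_succ]) (by norm_num [Finset.sum_range_succ])
  have hx := h0.1
  rw [mem_lowerBounds] at hx
  have hmem := hx (Real.log 5 - Real.log 42) ⟨cexCoeff, ?_, ?_, ?_, ?_⟩
  · rw [← Real.log_div (by norm_num) (by norm_num)] at hmem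
    have hval : ((((3-1).choose 1 : ℕ) : ℝ) /
            ((∑ j ∈ Finset.range (1+1), ((3-1).choose j : ℝ)) - (1/2) * 2 ^ (3-1)) - 1) /
          ((((((3-1).choose 1 : ℕ) : ℝ) /
            ((∑ j ∈ Finset.range (1+1), ((3-1).choose j : ℝ)) - (1/2) * 2 ^ (3-1)) - 1) + 1)
            * 2 ^ (3-1)) = 1 / 8 := by
      norm_num [Finset.sum_range_succ]
    rw [hval] at hmem
    have hlt : Real.log (5 / 42) < Real.log (1 / 8) :=
      Real.log_lt_log (by norm_num) (by norm_num)
    exact absurd hmem (not_le.mpr hlt)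
  · apply summable_of_ne_finset_zero (s := Finset.range 7)
    intro j hj
    rw [cexCoeff_zero_of_not_mem j hj, norm_zero]
  · intro h00
    have := congrFun h00 0
    simp [cexCoeff] at this
  · rw [tsum_norm_cexCoeff]
    simp [Finset.sum_range_succ, cexCoeff]
    norm_num
  · rw [integral_cex, tsum_norm_cexCoeff]

end Pool.Agent.S06546
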