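-- Copy of Pool/Templates/S06565.lean.txt with the proof.
import Pool.Statements.S06565
import Pool.Agent.Lib.MP_eb7570_an.Top

set_option autoImplicit false
open Pool Pool.MP_eb7570_an

namespace Pool.Agent.S06565

/-- With λ_k the Dirichlet Laplacian eigenvalues defined by min-max over smooth compactly supported functions, every bounded connected open plane set Ω has (λ₂+λ₃)/λ₁ no larger than the unit disk's value. -/
theorem result :
    ∀ lam : ℕ → Set (EuclideanSpace ℝ (Fin 2)) → ℝ,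
      (∀ (k : ℕ) (Ω : Set (EuclideanSpace ℝ (Fin 2))),
        lam k Ω = sInf {t : ℝ | ∃ V : Submodule ℝ (EuclideanSpace ℝ (Fin 2) → ℝ),
          Module.finrank ℝ V = k ∧
          (∀ u ∈ V, ContDiff ℝ ((⊤ : ℕ∞) : WithTop ℕ∞) u ∧ HasCompactSupport u ∧
            tsupport u ⊆ Ω) ∧
          ∀ u ∈ V, (∫ x, ‖fderiv ℝ u x‖ ^ 2) ≤ t * ∫ x, (u x) ^ 2}) →
      ∀ Ω : Set (EuclideanSpace ℝ (Fin 2)),
        IsOpen Ω → IsConnected Ω → Bornology.IsBounded Ω →
          (lam 2 Ω + lam 3 Ω) / lam 1 Ω ≤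
            (lam 2 (Metric.ball 0 1) + lam 3 (Metric.ball 0 1)) / lam 1 (Metric.ball 0 1) := by
  intro lam hlam Ω h1 h2 h3
  have e : ∀ (k : ℕ) (S : Set (EuclideanSpace ℝ (Fin 2))),
      lam k S = Pool.Agent.PPW.lamk k S := fun k S => hlam k S
  rw [e, e, e, e, e, e]
  exact Pool.Agent.PPW.ppw ⟨h1, h3, h2.nonempty⟩

end Pool.Agent.S06565
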