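import Pool.Statements.S06804
import Pool.Agent.Lib.MP_fc0bf6_an.Final

set_option autoImplicit false
open Pool Pool.MP_fc0bf6_an

namespace Pool.Agent.S06804

open Pool.Agent.Lib.MP_fc0bf6_an Filter

/-- the exponent -/
noncomputable def lam0 : ℝ := 99999 / 100000

/-- the ratio -/
noncomputable def q0 : ℝ := (2 : ℝ) ^ (2 / lam0)

theorem q0_gt : 4 < q0 := by
  have h : (2 : ℝ) ^ (2 : ℝ) < (2 : ℝ) ^ (2 / lam0) := by
    apply Real.rpow_lt_rpow_of_exponent_lt (by norm_num)
    unfold lam0; norm_num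
  have h2 : (2 : ℝ) ^ (2 : ℝ) = 4 := by
    rw [show (2 : ℝ) = ((2 : ℕ) : ℝ) by norm_num, Real.rpow_natCast]; norm_num
  rw [h2] at h
  exact h

theorem q0_le : q0 ≤ 22 / 5 := by
  have h1 : (2 : ℝ) ^ (2 / lam0) ≤ (2 : ℝ) ^ (2 + 2 / 15 : ℝ) := by
    apply Real.rpow_le_rpow_of_exponent_le (by norm_num)
    unfold lam0; norm_num
  refine h1.trans ?_
  rw [Real.rpow_add (by norm_num)]
  have h2 : (2 : ℝ) ^ (2 : ℝ) = 4 := by
    rw [show (2 : ℝ) = ((2 : ℕ) : ℝ) by norm_num, Real.rpow_natCast]; norm_num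
  have h3 : (2 : ℝ) ^ (2 / 15 : ℝ) ≤ 11 / 10 := by
    have h4 : ((2 : ℝ) ^ (2 / 15 : ℝ)) ^ 15 ≤ (11 / 10 : ℝ) ^ 15 := by
      rw [← Real.rpow_natCast, ← Real.rpow_mul (by norm_num)]
      rw [show (2 / 15 : ℝ) * ((15 : ℕ) : ℝ) = ((2 : ℕ) : ℝ) by norm_num, Real.rpow_natCast]
      norm_num
    exact le_of_pow_le_pow_left₀ (by norm_num) (by norm_num) h4
  rw [h2]
  linarith

/-- The negation of the preceding statement: Every meromorphic f on ℂ of lower order λ in [1/2,1) with log r = o(log M(r,f)) satisfies limsup log m0/log M + πλ sin(πλ) limsup N(r,f)/log M ≥ cos(πλ), with r over circles free of zeros and poles. -/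
theorem result :
    ¬ (∀ (f : ℂ → ℂ) (lam : ℝ), MeromorphicOn f Set.univ → 1 / 2 ≤ lam → lam < 1 →
      (∀ ε : ℝ, 0 < ε →
        (∀ᶠ r in Filter.atTop,
            (lam - ε) * Real.log r ≤ Real.log (ValueDistribution.characteristic f ⊤ r)) ∧
        (∃ᶠ r in Filter.atTop,
            Real.log (ValueDistribution.characteristic f ⊤ r) ≤ (lam + ε) * Real.log r)) →
      (∀ ε : ℝ, 0 < ε → ∀ᶠ r in Filter.atTop,
        (∀ z : ℂ, ‖z‖ = r → AnalyticAt ℂ f z ∧ f z ≠ 0) →
          Real.log r ≤ ε * Real.log (sSup ((fun z => ‖f z‖) '' Metric.sphere (0 : ℂ) r))) →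
      ∀ a b : ℝ,
        a + Real.pi * lam * Real.sin (Real.pi * lam) * b < Real.cos (Real.pi * lam) →
        ∃ᶠ r in Filter.atTop,
          (∀ z : ℂ, ‖z‖ = r → AnalyticAt ℂ f z ∧ f z ≠ 0) ∧
          (a < Real.log (sInf ((fun z => ‖f z‖) '' Metric.sphere (0 : ℂ) r)) /
                Real.log (sSup ((fun z => ‖f z‖) '' Metric.sphere (0 : ℂ) r)) ∨
           b < ValueDistribution.logCounting f ⊤ r /
                Real.log (sSup ((fun z => ‖f z‖) '' Metric.sphere (0 : ℂ) r)))) := by
  intro H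
  have hq := q0_gt
  have hq2 := q0_le
  have hlam : (0 : ℝ) < lam0 := by unfold lam0; norm_num
  have hlam1 : lam0 < 1 := by unfold lam0; norm_num
  have hlog : ∀ ε : ℝ, 0 < ε → ∀ C : ℝ, ∀ᶠ r : ℝ in atTop, C ≤ ε * Real.log r := by
    intro ε hε C
    filter_upwards [Real.tendsto_log_atTop.eventually_ge_atTop (C / ε)] with r hr
    rw [div_le_iff₀ hε] at hr
    linarith
  have h1 := H (FF q0) lam0 (fun z _ => meromorphic_FF hq z) (by unfold lam0; norm_num) hlam1
    (by
      intro ε hε
      constructor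
      · filter_upwards [eventually_ge_atTop 2, hlog ε hε (-Real.log (7 / 800))] with r hr hr2
        have h2 := char_FF_ge hq hq2 hlam hlam1 rfl hr
        have h3 : 0 < r ^ lam0 := Real.rpow_pos_of_pos (by linarith) _
        have h4 := Real.log_le_log (by positivity) h2
        rw [Real.log_mul (by norm_num) h3.ne', Real.log_rpow (by linarith)] at h4
        linarith
      · apply Eventually.frequently
        filter_upwards [eventually_ge_atTop 2, hlog ε hε (Real.log 48)] with r hr hr2
        obtain ⟨n, h5, h6⟩ := exists_nat_pow_near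
          (one_le_pow₀ (by linarith : 1 ≤ r) (n := 2)) (by linarith : 1 < q0)
        have h2 := char_FF_le hq hq2 (by linarith : 1 ≤ r) h6
        have h7 := two_pow_le hlam hq rfl (by linarith : 0 ≤ r) h5
        have h8 := char_FF_ge hq hq2 hlam hlam1 rfl hr
        have h3 : 0 < r ^ lam0 := Real.rpow_pos_of_pos (by linarith) _
        have h9 : ValueDistribution.characteristic (FF q0) ⊤ r ≤ 48 * r ^ lam0 := by linarith
        have h4 := Real.log_le_log (by linarith) h9
        rw [Real.log_mul (by norm_num) h3.ne', Real.log_rpow (by linarith)] at h4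
        linarith)
    (by
      intro ε hε
      have h2 : ∀ᶠ r : ℝ in atTop, Real.log r ≤ (ε * (7 / 200)) * r ^ lam0 := by
        have := (isLittleO_log_rpow_atTop hlam).bound (show (0 : ℝ) < ε * (7 / 200) by positivity)
        filter_upwards [this, eventually_ge_atTop 1] with r hr hr1
        rw [Real.norm_of_nonneg (Real.log_nonneg hr1),
          Real.norm_of_nonneg (Real.rpow_nonneg (by linarith) _)] at hr
        exact hr
      filter_upwards [h2, eventually_ge_atTop 1] with r hr hr1 hcirc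
      obtain ⟨n, h5, h6⟩ := exists_nat_pow_near
        (one_le_pow₀ hr1 (n := 2)) (by linarith : 1 < q0)
      have h7 := (core hq hq2 hr1 hcirc h5 h6).1
      have h8 := le_two_pow hlam rfl (by linarith : (0 : ℝ) ≤ r) h6
      have h9 : 7 / 200 * r ^ lam0 ≤
          Real.log (sSup ((fun z => ‖FF q0 z‖) '' Metric.sphere (0 : ℂ) r)) := by linarith
      calc Real.log r ≤ (ε * (7 / 200)) * r ^ lam0 := hr
        _ = ε * (7 / 200 * r ^ lam0) := by ring
        _ ≤ _ := mul_le_mul_of_nonneg_left h9 hε.le)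
    (-(6 / 5)) 343
    (by
      have h2 : Real.sin (Real.pi * lam0) ≤ Real.pi * (1 / 100000) := by
        have h3 : Real.sin (Real.pi * lam0) = Real.sin (Real.pi * (1 / 100000)) := by
          rw [← Real.sin_pi_sub]
          congr 1
          unfold lam0; ring
        rw [h3]
        exact Real.sin_le (by have := Real.pi_pos; positivity)
      have h4 := Real.neg_one_le_cos (Real.pi * lam0)
      have h5 : Real.pi < 4 := by have := Real.pi_lt_d2; linarith
      have h6 := Real.pi_pos
      have h7 : Real.pi * lam0 * Real.sin (Real.pi * lam0) * 343 ≤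
          Real.pi * lam0 * (Real.pi * (1 / 100000)) * 343 := by gcongr
      have h8 : Real.pi * lam0 * (Real.pi * (1 / 100000)) * 343 ≤
          4 * 1 * (4 * (1 / 100000)) * 343 := by gcongr
      norm_num at h8
      linarith)
  apply h1
  filter_upwards [eventually_ge_atTop 1] with r hr1 hcon
  obtain ⟨hcirc, hcon⟩ := hcon
  obtain ⟨hA, hB⟩ := ratio_bounds hq hq2 hr1 hcirc
  rcases hcon with h | h
  · exact absurd h (not_lt.2 hA)
  · exact absurd h (not_lt.2 hB)

end Pool.Agent.S06804
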