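import Pool.Statements.S07591
import Pool.Agent.Lib.MP_1ff796_co.Main

set_option autoImplicit false
open Pool Pool.MP_1ff796_co

namespace Pool.Agent.S07591

/-- For every η>0 there is n₀ such that each digraph on n≥n₀ vertices, with 4 dividing n and every in- and out-degree at least (1/2+η)n, has its vertex set partitioned into directed 4-cycles. -/
theorem result :
    ∀ η : ℝ, η > 0 → ∃ n₀ : ℕ, ∀ n : ℕ, n₀ ≤ n → 4 ∣ n →
      ∀ G : Digraph (Fin n),
        (∀ v : Fin n,
          ((1 / 2 + η) * (n : ℝ) ≤ (({w : Fin n | w ≠ v ∧ G.Adj v w}.ncard : ℕ) : ℝ)) ∧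
          ((1 / 2 + η) * (n : ℝ) ≤ (({w : Fin n | w ≠ v ∧ G.Adj w v}.ncard : ℕ) : ℝ))) →
        ∃ f : Fin (n / 4) × Fin 4 → Fin n, Function.Bijective f ∧
          ∀ i : Fin (n / 4), ∀ j : Fin 4, G.Adj (f (i, j)) (f (i, j + 1)) := by
  intro η hη
  obtain ⟨n0, hn0⟩ := Pool.Agent.C4F.perfect η hη
  refine ⟨n0, fun n hn h4 G hG => ?_⟩
  obtain ⟨ι, _, f, hf, hfE, hfr⟩ := hn0 (Fin n) G.Adj (by rw [Fintype.card_fin]; exact hn)
    (by rw [Fintype.card_fin]; exact h4)
    (fun v => by
      rw [Fintype.card_fin, Pool.Agent.C4F.dout_eq_ncard]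
      refine (hG v).1.trans ?_
      have h1 := Set.ncard_le_ncard (s := {w : Fin n | w ≠ v ∧ G.Adj v w})
        (t := {w : Fin n | G.Adj v w}) (fun w hw => hw.2) (Set.toFinite _)
      exact_mod_cast h1)
    (fun v => by
      rw [Fintype.card_fin, Pool.Agent.C4F.din_eq_ncard]
      refine (hG v).2.trans ?_
      have h1 := Set.ncard_le_ncard (s := {w : Fin n | w ≠ v ∧ G.Adj w v})
        (t := {w : Fin n | G.Adj w v}) (fun w hw => hw.2) (Set.toFinite _)
      exact_mod_cast h1)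
  have hbij : Function.Bijective f := ⟨hf, Set.range_eq_univ.1 hfr⟩
  have hcard := Fintype.card_of_bijective hbij
  rw [Fintype.card_prod, Fintype.card_fin, Fintype.card_fin] at hcard
  have e : Fin (n / 4) ≃ ι := by
    apply Fintype.equivOfCardEq
    rw [Fintype.card_fin]
    omega
  refine ⟨fun q => f (e q.1, q.2), ?_, fun i j => hfE (e i) j⟩
  exact hbij.comp (e.prodCongr (Equiv.refl (Fin 4))).bijective

end Pool.Agent.S07591
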