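import Pool.Statements.S07967
import Pool.Agent.Lib.MP_31db24_co.Assembly
import Pool.Agent.Lib.MP_31db24_co.Nt
import Pool.Agent.Lib.MP_31db24_co.Analytic

set_option autoImplicit false
open Pool Pool.MP_31db24_co

namespace Pool.Agent.S07967

/-- For every finite colouring of ℕ there are a strictly increasing sequence b of positive integers, an integer shift t and a colour k such that every b_i + t and every b_i² + b_j + t (i < j) is a natural number coloured k. -/
theorem result :
    ∀ (r : ℕ) (c : ℕ → Fin r),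
      ∃ (b : ℕ → ℕ) (t : ℤ) (k : Fin r),
        StrictMono b ∧ 0 < b 0 ∧
        (∀ i : ℕ, ∃ n : ℕ, (n : ℤ) = (b i : ℤ) + t ∧ c n = k) ∧
        (∀ i j : ℕ, i < j →
          ∃ n : ℕ, (n : ℤ) = (b i : ℤ) ^ 2 + (b j : ℤ) + t ∧ c n = k) := by
  intro r c
  exact Pool.Agent.MP31db24.frozen_of
    (Pool.Agent.MP31db24.analytic_core Pool.Agent.MP31db24.return_zero)
    Pool.Agent.MP31db24.return_zero Pool.Agent.MP31db24.nt_zero Pool.Agent.MP31db24.nt_core r c

end Pool.Agent.S07967
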