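import Pool.Statements.S08151
import Pool.Agent.Lib.MP_392c14_co.Acc.Fin2

set_option autoImplicit false
open Pool Pool.MP_392c14_co

namespace Pool.Agent.S08151

/-- The maximum number of edges in an n-vertex 3-graph with no 4 vertices spanning 3 edges, divided by C(n,3), tends to 2/7 as n grows; that is, the Turán density of K_4^- is 2/7. -/
theorem result :
    Filter.Tendsto
      (fun n : ℕ =>
        ((sSup {m : ℕ | ∃ H : Finset (Finset (Fin n)),
            (∀ e ∈ H, e.card = 3) ∧
            (∀ a b c d : Fin n, a ≠ b → a ≠ c → a ≠ d → b ≠ c → b ≠ d → c ≠ d →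
              ¬ (({a, b, c} : Finset (Fin n)) ∈ H ∧ ({a, b, d} : Finset (Fin n)) ∈ H ∧
                  ({a, c, d} : Finset (Fin n)) ∈ H)) ∧
            H.card = m} : ℕ) : ℝ) / ((n.choose 3 : ℕ) : ℝ))
      Filter.atTop (nhds (2 / 7 : ℝ)) :=
  K4m.tendsto_two_sevenths

end Pool.Agent.S08151
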