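import Pool.Statements.S08587
import Pool.Agent.Lib.S3.Fat.One
import Pool.Agent.Lib.S3.Fat.HD
-- import your own Pool.Agent.* helpers here

set_option autoImplicit false
open MeasureTheory ProbabilityTheory
open Pool Pool.MP_4a5c02_co

namespace Pool.Agent.S08587

/-- There are C, k such that for all m, n, σ>0 and Ā, b̄ of norm at most 1, adding i.i.d. N(0,σ²) noise, the expected vertex-edge graph diameter of {x : Ax ≤ b} given feasibility is at most C(1+m+n+1/σ)^k. -/
theorem result :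
  ∃ C : ℝ, ∃ k : ℕ, ∀ m n : ℕ, ∀ σ : ℝ, 0 < σ →
    ∀ Abar : Fin m → Fin n → ℝ, ∀ bbar : Fin m → ℝ,
      ∑ i, ∑ j, Abar i j ^ 2 ≤ 1 → ∑ i, bbar i ^ 2 ≤ 1 →
      ∫⁻ ω : (Fin m → Fin n → ℝ) × (Fin m → ℝ),
          ENat.toENNReal
            (((SimpleGraph.fromRel (fun u v : Fin n → ℝ =>
                IsExtreme ℝ
                  {x : Fin n → ℝ | ∀ i, ∑ j, (Abar i j + ω.1 i j) * x j ≤ bbar i + ω.2 i}
                  (segment ℝ u v))).induce
              (Set.extremePoints ℝ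
                {x : Fin n → ℝ | ∀ i, ∑ j, (Abar i j + ω.1 i j) * x j ≤ bbar i + ω.2 i})).ediam)
        ∂((Measure.pi fun _ : Fin m => Measure.pi fun _ : Fin n => gaussianReal 0 (σ ^ 2).toNNReal).prod
            (Measure.pi fun _ : Fin m => gaussianReal 0 (σ ^ 2).toNNReal))
      ≤ ENNReal.ofReal (C * (1 + (m : ℝ) + (n : ℝ) + 1 / σ) ^ k) *
        ((Measure.pi fun _ : Fin m => Measure.pi fun _ : Fin n => gaussianReal 0 (σ ^ 2).toNNReal).prod
            (Measure.pi fun _ : Fin m => gaussianReal 0 (σ ^ 2).toNNReal))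
          {ω : (Fin m → Fin n → ℝ) × (Fin m → ℝ) |
            ∃ x : Fin n → ℝ, ∀ i, ∑ j, (Abar i j + ω.1 i j) * x j ≤ bbar i + ω.2 i} := by
  exact Pool.Agent.Lib.S3.PL.final_one _ Pool.Agent.Lib.S3.PL.hd_top

end Pool.Agent.S08587
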