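import Pool.Statements.S08943
import Pool.Agent.Lib.MP_5ae207_co.Cycle

set_option autoImplicit false
open Classical
open Pool Pool.MP_5ae207_co

namespace Pool.Agent.S08943

/-- For every cycle C_n (n at least 3) and every path P_n, any inclusion-antichain of independent sets is no larger than the number of independent sets of some single size r. So the largest antichain equals the largest level. -/
theorem result :
    (∀ n : ℕ, 3 ≤ n →
      ∀ A : Finset (Finset (Fin n)),
        (∀ s ∈ A, (SimpleGraph.cycleGraph n).IsIndepSet (s : Set (Fin n))) →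
        IsAntichain (· ⊆ ·) (A : Set (Finset (Fin n))) →
        ∃ r : ℕ, A.card ≤
          (Finset.univ.filter (fun s : Finset (Fin n) =>
            s.card = r ∧ (SimpleGraph.cycleGraph n).IsIndepSet (s : Set (Fin n)))).card) ∧
    (∀ n : ℕ,
      ∀ A : Finset (Finset (Fin n)),
        (∀ s ∈ A, (SimpleGraph.pathGraph n).IsIndepSet (s : Set (Fin n))) →
        IsAntichain (· ⊆ ·) (A : Set (Finset (Fin n))) →
        ∃ r : ℕ, A.card ≤
          (Finset.univ.filter (fun s : Finset (Fin n) =>
            s.card = r ∧ (SimpleGraph.pathGraph n).IsIndepSet (s : Set (Fin n)))).card) := by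
  constructor
  · intro n hn A hA hanti
    obtain ⟨k, rfl⟩ : ∃ k, n = k + 3 := ⟨n - 3, by omega⟩
    obtain ⟨r, hr⟩ := Pool.Agent.Lib.MP5ae207.cycle_sperner k A
      (fun s hs => by
        unfold Pool.Agent.Lib.MP5ae207.Qc
        exact Finset.mem_filter.mpr ⟨Finset.mem_univ _, hA s hs⟩) hanti
    refine ⟨r, hr.trans (Finset.card_le_card fun s hs => ?_)⟩
    obtain ⟨h1, h2⟩ := Pool.Agent.Lib.MP5ae207.mem_lev.mp hs
    unfold Pool.Agent.Lib.MP5ae207.Qc at h1
    exact Finset.mem_filter.mpr ⟨Finset.mem_univ _, h2, (Finset.mem_filter.mp h1).2⟩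
  · intro n A hA hanti
    obtain ⟨r, hr⟩ := Pool.Agent.Lib.MP5ae207.path_sperner n A
      (fun s hs => by
        unfold Pool.Agent.Lib.MP5ae207.Qp
        exact Finset.mem_filter.mpr ⟨Finset.mem_univ _, hA s hs⟩) hanti
    refine ⟨r, hr.trans (Finset.card_le_card fun s hs => ?_)⟩
    obtain ⟨h1, h2⟩ := Pool.Agent.Lib.MP5ae207.mem_lev.mp hs
    unfold Pool.Agent.Lib.MP5ae207.Qp at h1
    exact Finset.mem_filter.mpr ⟨Finset.mem_univ _, h2, (Finset.mem_filter.mp h1).2⟩

end Pool.Agent.S08943
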