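import Pool.Statements.S09186
import Pool.Agent.Lib.ThinS.Comb
import Pool.Agent.Lib.ThinS.Topo

set_option autoImplicit false
open Pool Pool.MP_634482_co

namespace Pool.Agent.S09186

/-- The negation of the preceding statement: For k≥2, n>k: every k-graph on n vertices with no isolated vertex, where each (k-1)-set lying in some edge lies in at least n/2 edges, has a sub-family of edges covering all vertices whose realized complex is homeomorphic to the (k-1)-sphere. -/
theorem result :
    ¬ (∀ (k n : ℕ), 2 ≤ k → k < n →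
      ∀ G : Finset (Finset (Fin n)),
        (∀ e ∈ G, e.card = k) →
        (∀ v : Fin n, ∃ e ∈ G, v ∈ e) →
        (∀ S : Finset (Fin n), S.card = k - 1 → (∃ e ∈ G, S ⊆ e) →
            n ≤ 2 * (G.filter (fun e => S ⊆ e)).card) →
        ∃ H : Finset (Finset (Fin n)), H ⊆ G ∧
          (∀ v : Fin n, ∃ e ∈ H, v ∈ e) ∧
          Nonempty
            (↥(⋃ e ∈ H, convexHull ℝ
                ((fun v : Fin n => EuclideanSpace.single v (1 : ℝ)) '' (↑e : Set (Fin n))))
              ≃ₜ ↥(Metric.sphere (0 : EuclideanSpace ℝ (Fin k)) 1))) := by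
  intro hcon
  obtain ⟨k, n, hk, hkn, G, hG, hcod, hthin⟩ := ThinS.exists_family
  obtain ⟨H, hHG, hcov, ⟨φ⟩⟩ := hcon k n hk hkn G hG (by
    intro v
    obtain ⟨S, hvS, hSc⟩ : ∃ S : Finset (Fin n), v ∈ S ∧ S.card + 1 = k := by
      obtain ⟨S, hvS, _, hSc⟩ := Finset.exists_subsuperset_card_eq
        (Finset.subset_univ ({v} : Finset (Fin n))) (n := k - 1)
        (by rw [Finset.card_singleton]; omega)
        (by rw [Finset.card_univ, Fintype.card_fin]; omega)
      exact ⟨S, hvS (Finset.mem_singleton_self v), by omega⟩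
    have h1 := hcod S hSc
    have h2 : 0 < (ThinS.st G S).card := by omega
    obtain ⟨e, he⟩ := Finset.card_pos.1 h2
    rw [ThinS.st, Finset.mem_filter] at he
    exact ⟨e, he.1, he.2 hvS⟩) (by
    intro S hS _
    exact hcod S (by omega))
  have hn : 0 < n := by omega
  obtain ⟨e, he, _⟩ := hcov ⟨0, hn⟩
  exact hthin H hHG ⟨e, he⟩ (ThinS.thin_of_homeo hk H (fun e he => hG e (hHG he)) φ)

end Pool.Agent.S09186
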