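import Pool.Statements.S09443
import Pool.Agent.Lib.MP_71775e_co.H15Final

set_option autoImplicit false
open Matroid
open Pool Pool.MP_71775e_co

namespace Pool.Agent.S09443

/-- For each finite field F and n ≥ 1 there is an integer c such that every cosimple F-representable matroid of rank at least 2 with no M(K_n)-dual minor has a circuit of size at most c times the log of its rank. -/
theorem result :
  ∀ (F : Type) [Field F] [Fintype F] (n : ℕ), 0 < n →
    ∃ c : ℕ, ∀ (α : Type) [Fintype α] (M : Matroid α),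
      (∃ (m : ℕ) (v : α → (Fin m → F)), ∀ I : Set α,
          M.Indep I ↔ (I ⊆ M.E ∧ LinearIndependent F (fun x : I => v x))) →
      (∀ I : Set α, I ⊆ M.E → I.ncard ≤ 2 → M✶.Indep I) →
      (¬ ∃ (C D : Set α) (f : Fin n × Fin n → α),
          Set.InjOn f {p : Fin n × Fin n | p.1 < p.2} ∧
          f '' {p : Fin n × Fin n | p.1 < p.2} = (M✶ ／ C ＼ D).E ∧
          ∀ I : Set (Fin n × Fin n), I ⊆ {p : Fin n × Fin n | p.1 < p.2} →
            ((M✶ ／ C ＼ D).Indep (f '' I) ↔
              LinearIndependent ℚ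
                (fun p : I => ((Pi.single p.1.1 (1:ℚ) : Fin n → ℚ) - (Pi.single p.1.2 (1:ℚ) : Fin n → ℚ))))) →
      ∀ B : Set α, M.IsBase B → 2 ≤ B.ncard →
        ∃ C : Set α, M.IsCircuit C ∧ (C.ncard : ℝ) ≤ (c : ℝ) * Real.log (B.ncard : ℝ) := by
  intro F _ _ n _
  exact Pool.Agent.Lib.MP_71775e_co.main_theorem F n

end Pool.Agent.S09443
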