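import Pool.Statements.S09645

set_option autoImplicit false
open Pool Pool.MP_7aa778_co

namespace Pool.Agent.S09645

/-!
The cyclic word is the zigzag `0, 1, …, L, L - 1, …, 1` reduced modulo `n`, with `L = ⌊n² / 4⌋`.

Let `t : ℕ → ℕ` be the `n`-periodic sequence of the values of the permutation.  Let `D k = 1` if
`t (k + 1) < t k` and `D k = 0` otherwise, let `P` be the number of cyclic descents, and
`Q = n - P`.  For a start `i`, let `c i` be the number of descents among the `Q` steps after `i`.
Then the sum of the `c i` is `P * Q`, the values `t (i + Q)` are the residues modulo `n`, each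
exactly once, and so some `i` has `n * c i + t (i + Q) ≤ P * Q ≤ L`.  Starting at this `i`, the
first `Q + 1` letters are read in the ascending part, the others in the descending part.
-/

section

variable {n : ℕ} {t : ℕ → ℕ}

/-- The descent indicator. -/
def desc (t : ℕ → ℕ) (k : ℕ) : ℕ := if t (k + 1) < t k then 1 else 0

/-- The number of descents among the steps `i, …, i + j - 1`. -/
def cnt (t : ℕ → ℕ) (i j : ℕ) : ℕ := ∑ x ∈ Finset.range j, desc t (i + x)

/-- The lifted height. -/
def hgt (n : ℕ) (t : ℕ → ℕ) (i j : ℕ) : ℕ := n * cnt t i j + t (i + j)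

lemma sum_periodic {f : ℕ → ℕ} (hf : ∀ k, f (k + n) = f k) (x : ℕ) :
    ∑ i ∈ Finset.range n, f (i + x) = ∑ i ∈ Finset.range n, f i := by
  induction x with
  | zero => simp
  | succ x ih =>
    have h1 := Finset.sum_range_succ (fun i => f (i + x)) n
    have h2 := Finset.sum_range_succ' (fun i => f (i + x)) n
    have h3 : f (n + x) = f (0 + x) := by rw [add_comm n x, hf x, Nat.zero_add]
    have h4 : ∑ i ∈ Finset.range n, f (i + (x + 1)) = ∑ i ∈ Finset.range n, f (i + 1 + x) :=
      Finset.sum_congr rfl fun i _ => by congr 1; omega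
    rw [h4]
    omega

lemma desc_periodic (ht : ∀ k, t (k + n) = t k) (k : ℕ) : desc t (k + n) = desc t k := by
  unfold desc
  rw [ht k, show k + n + 1 = (k + 1) + n by omega, ht (k + 1)]

lemma cnt_full (ht : ∀ k, t (k + n) = t k) (i : ℕ) :
    cnt t i n = ∑ k ∈ Finset.range n, desc t k := by
  unfold cnt
  rw [← sum_periodic (desc_periodic ht) i]
  exact Finset.sum_congr rfl fun x _ => by rw [add_comm]

lemma hgt_succ (hlt : ∀ k, t k < n) (hne : ∀ k, t (k + 1) ≠ t k) (i j : ℕ) :
    hgt n t i j + 1 ≤ hgt n t i (j + 1) ∧ hgt n t i (j + 1) + 1 ≤ hgt n t i j + n := by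
  have h1 := hlt (i + j)
  have h2 := hlt (i + j + 1)
  have h3 := hne (i + j)
  unfold hgt cnt
  rw [Finset.sum_range_succ, mul_add, ← add_assoc i j 1]
  unfold desc
  split_ifs with h
  · omega
  · omega

lemma exists_start (hlt : ∀ k, t k < n) (hper : ∀ k, t (k + n) = t k)
    (hinj : ∀ i j, t i = t j → i % n = j % n) (P Q : ℕ)
    (hP : P = ∑ k ∈ Finset.range n, desc t k) :
    ∃ i, i < n ∧ hgt n t i Q ≤ P * Q := by
  by_contra hcon
  push Not at hcon
  set b := (P * Q + 1) % n with hb
  set a := (P * Q + 1) / n with ha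
  have hab : n * a + b = P * Q + 1 := Nat.div_add_mod _ _
  have hn : 0 < n := lt_of_le_of_lt (Nat.zero_le _) (hlt 0)
  have hbn : b < n := Nat.mod_lt _ hn
  -- the sum of the counts
  have hsum : ∑ i ∈ Finset.range n, cnt t i Q = Q * P := by
    unfold cnt
    rw [Finset.sum_comm]
    have : ∀ x ∈ Finset.range Q, ∑ i ∈ Finset.range n, desc t (i + x) = P := by
      intro x _
      rw [sum_periodic (desc_periodic hper) x, hP]
    rw [Finset.sum_congr rfl this]
    simp
  -- the image of the final letters
  have himg : (Finset.range n).image (fun i => t (i + Q)) = Finset.range n := by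
    apply Finset.eq_of_subset_of_card_le
    · intro y hy
      obtain ⟨x, _, rfl⟩ := Finset.mem_image.mp hy
      exact Finset.mem_range.mpr (hlt _)
    · rw [Finset.card_image_of_injOn]
      intro x hx y hy hxy
      have hx' : x < n := by simpa using hx
      have hy' : y < n := by simpa using hy
      have h1 : (x + Q) % n = (y + Q) % n := hinj _ _ hxy
      have h2 : x ≡ y [MOD n] := Nat.ModEq.add_right_cancel' Q h1
      have h3 : x % n = y % n := h2
      rwa [Nat.mod_eq_of_lt hx', Nat.mod_eq_of_lt hy'] at h3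
  have hinjOn : Set.InjOn (fun i => t (i + Q)) (Finset.range n : Set ℕ) := by
    intro x hx y hy hxy
    have hx' : x < n := by simpa using hx
    have hy' : y < n := by simpa using hy
    have h1 : (x + Q) % n = (y + Q) % n := hinj _ _ hxy
    have h2 : x ≡ y [MOD n] := Nat.ModEq.add_right_cancel' Q h1
    have h3 : x % n = y % n := h2
    rwa [Nat.mod_eq_of_lt hx', Nat.mod_eq_of_lt hy'] at h3
  have hcard : ∑ i ∈ Finset.range n, (if t (i + Q) < b then 1 else 0) = b := by
    have h1 : ∑ y ∈ (Finset.range n).image (fun i => t (i + Q)), (if y < b then 1 else 0) =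
        ∑ i ∈ Finset.range n, (if t (i + Q) < b then 1 else 0) :=
      Finset.sum_image hinjOn
    rw [← h1, himg, ← Finset.card_filter]
    have h2 : (Finset.range n).filter (fun y => y < b) = Finset.range b := by
      ext y
      simp only [Finset.mem_filter, Finset.mem_range]
      omega
    rw [h2, Finset.card_range]
  have hle : ∑ i ∈ Finset.range n, (a + if t (i + Q) < b then 1 else 0) ≤
      ∑ i ∈ Finset.range n, cnt t i Q := by
    apply Finset.sum_le_sum
    intro i hi
    have h1 := hcon i (Finset.mem_range.mp hi)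
    have h2 := hlt (i + Q)
    unfold hgt at h1
    -- n * c + t ≥ n * a + b
    have h3 : n * a + b ≤ n * cnt t i Q + t (i + Q) := by omega
    split_ifs with h
    · by_contra hc
      push Not at hc
      have h4 : cnt t i Q ≤ a := by omega
      have h5 : n * cnt t i Q ≤ n * a := Nat.mul_le_mul_left n h4
      omega
    · by_contra hc
      push Not at hc
      have h4 : cnt t i Q + 1 ≤ a := by omega
      have h5 : n * (cnt t i Q + 1) ≤ n * a := Nat.mul_le_mul_left n h4
      rw [mul_add, mul_one] at h5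
      omega
  rw [Finset.sum_add_distrib, hcard, hsum] at hle
  simp only [Finset.sum_const, Finset.card_range, smul_eq_mul] at hle
  rw [mul_comm Q P] at hle
  omega

/-- The position of the `j`-th letter in the zigzag. -/
def pos (n L Q : ℕ) (t : ℕ → ℕ) (i j : ℕ) : ℕ :=
  if j ≤ Q then hgt n t i j else 2 * L + n * (j - Q) - hgt n t i j

lemma hgt_le_of_le (hlt : ∀ k, t k < n) (hne : ∀ k, t (k + 1) ≠ t k) (i L Q : ℕ)
    (hL : hgt n t i Q ≤ L) (d : ℕ) : hgt n t i (Q + d) ≤ L + n * d := by
  induction d with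
  | zero => simpa using hL
  | succ d ih =>
    have h := (hgt_succ hlt hne i (Q + d)).2
    rw [mul_add, mul_one, ← add_assoc Q d 1]
    omega

lemma pos_strictMono (hlt : ∀ k, t k < n) (hne : ∀ k, t (k + 1) ≠ t k) (i L Q : ℕ)
    (hL : hgt n t i Q ≤ L) : StrictMono (pos n L Q t i) := by
  apply strictMono_nat_of_lt_succ
  intro j
  have h := hgt_succ hlt hne i j
  unfold pos
  rcases lt_trichotomy j Q with hj | hj | hj
  · rw [if_pos hj.le, if_pos (Nat.succ_le_of_lt hj)]
    omega
  · subst hj
    rw [if_pos le_rfl, if_neg (by omega), show j + 1 - j = 1 by omega, mul_one]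
    omega
  · obtain ⟨d, rfl⟩ := Nat.exists_eq_add_of_le hj.le
    have h2 := hgt_le_of_le hlt hne i L Q hL d
    rw [if_neg (by omega), if_neg (by omega), show Q + d + 1 - Q = d + 1 by omega,
      show Q + d - Q = d by omega, mul_add, mul_one]
    omega

end

theorem sublist_zigzag {n : ℕ} (hn : 2 ≤ n) (t : ℕ → ℕ) (hlt : ∀ k, t k < n)
    (hper : ∀ k, t (k + n) = t k) (hinj : ∀ i j, t i = t j → i % n = j % n) :
    ∃ i, i < n ∧ ∃ f : ℕ → ℕ, StrictMono f ∧ ∀ j, j < n →
      f j < 2 * (n ^ 2 / 4) ∧ (min (f j) (2 * (n ^ 2 / 4) - f j)) % n = t (i + j) := by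
  set L := n ^ 2 / 4 with hLdef
  have hL1 : 1 ≤ L := by
    rw [hLdef, Nat.le_div_iff_mul_le (by norm_num)]
    nlinarith
  have hne : ∀ k, t (k + 1) ≠ t k := by
    intro k h
    have h1 : k + 1 ≡ k + 0 [MOD n] := hinj _ _ h
    have h2 : 1 ≡ 0 [MOD n] := Nat.ModEq.add_left_cancel' k h1
    have h3 : 1 % n = 0 % n := h2
    rw [Nat.mod_eq_of_lt (by omega), Nat.zero_mod] at h3
    omega
  set P := ∑ k ∈ Finset.range n, desc t k with hP
  have hPn : P ≤ n := by
    have : P ≤ ∑ k ∈ Finset.range n, 1 := by
      apply Finset.sum_le_sum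
      intro k _
      unfold desc
      split_ifs <;> omega
    simpa using this
  obtain ⟨Q, hQ⟩ := Nat.exists_eq_add_of_le hPn
  obtain ⟨i, hi, hiQ⟩ := exists_start hlt hper hinj P Q hP
  have hPQ : P * Q ≤ L := by
    rw [hLdef, Nat.le_div_iff_mul_le (by norm_num)]
    have : (P * Q) * 4 ≤ (P + Q) ^ 2 := by
      nlinarith [sq_nonneg ((P : ℤ) - Q), four_mul_le_pow_two_add P Q]
    rwa [← hQ] at this
  have hL : hgt n t i Q ≤ L := hiQ.trans hPQ
  have hmono := pos_strictMono hlt hne i L Q hL
  have hmod : ∀ j, hgt n t i j % n = t (i + j) := by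
    intro j
    unfold hgt
    rw [Nat.mul_add_mod, Nat.mod_eq_of_lt (hlt _)]
  refine ⟨i, hi, pos n L Q t i, hmono, ?_⟩
  intro j hj
  by_cases hjQ : j ≤ Q
  · have h1 : pos n L Q t i j = hgt n t i j := if_pos hjQ
    have h2 : pos n L Q t i j ≤ pos n L Q t i Q := hmono.monotone hjQ
    have h3 : pos n L Q t i Q = hgt n t i Q := if_pos le_rfl
    rw [h1] at h2 ⊢
    rw [h3] at h2
    refine ⟨by omega, ?_⟩
    rw [min_eq_left (by omega)]
    exact hmod j
  · -- the descending part
    have hjn : j ≤ n - 1 := by omega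
    have hnQ : Q < n - 1 ∨ n - 1 ≤ Q := lt_or_ge _ _
    have h2 : pos n L Q t i j ≤ pos n L Q t i (n - 1) := hmono.monotone hjn
    have h3 : pos n L Q t i (n - 1) =
        2 * L + n * (n - 1 - Q) - hgt n t i (n - 1) := if_neg (by omega)
    have h4 : n * P ≤ hgt n t i n := by
      unfold hgt
      rw [cnt_full hper i, ← hP]
      omega
    have h5 := (hgt_succ hlt hne i (n - 1)).2
    rw [show n - 1 + 1 = n by omega] at h5
    have h6 : n * (n - 1 - Q) + n = n * P := by
      have : P = (n - 1 - Q) + 1 := by omega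
      rw [this, mul_add, mul_one]
    have h7 : pos n L Q t i (n - 1) < 2 * L := by
      rw [h3]
      omega
    refine ⟨by omega, ?_⟩
    have h8 : pos n L Q t i j = 2 * L + n * (j - Q) - hgt n t i j := if_neg hjQ
    obtain ⟨d, rfl⟩ := Nat.exists_eq_add_of_le (le_of_not_ge hjQ)
    have h9 := hgt_le_of_le hlt hne i L Q hL d
    rw [show Q + d - Q = d by omega] at h8
    have h10 : n * d < hgt n t i (Q + d) := by omega
    have h11 : 2 * L - pos n L Q t i (Q + d) = hgt n t i (Q + d) - n * d := by omega
    rw [min_eq_right (by omega), h11, Nat.sub_mul_mod h10.le]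
    exact hmod _

/-- Rotating a covered word. -/
lemma exists_rotate {α : Type*} {l w : List α} {i : ℕ} (hi : i ≤ l.length)
    (h : List.Sublist (l.rotate i) w) : ∃ k : ℕ, List.Sublist l (w.rotate k) := by
  rw [List.rotate_eq_drop_append_take hi, List.append_sublist_iff] at h
  obtain ⟨w1, w2, rfl, h1, h2⟩ := h
  refine ⟨w1.length, ?_⟩
  rw [List.rotate_append_length_eq]
  have h3 := h2.append h1
  rwa [List.take_append_drop] at h3

/-- For every n ≥ 2 there is a cyclic word of length at most floor(n²/2) over n symbols such that every permutation of the n symbols is a subsequence of some rotation of the word. -/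
theorem result :
    ∀ n : ℕ, 2 ≤ n →
      ∃ l : List (Fin n), l.length ≤ n ^ 2 / 2 ∧
        ∀ σ : Equiv.Perm (Fin n), ∃ k : ℕ,
          List.Sublist (List.ofFn (⇑σ)) (l.rotate k) := by
  intro n hn
  have hn0 : 0 < n := by omega
  set L := n ^ 2 / 4 with hL
  refine ⟨List.ofFn (fun s : Fin (2 * L) =>
    (⟨min s.val (2 * L - s.val) % n, Nat.mod_lt _ hn0⟩ : Fin n)), ?_, ?_⟩
  · rw [List.length_ofFn]
    omega
  · intro σ
    let t : ℕ → ℕ := fun k => (σ ⟨k % n, Nat.mod_lt _ hn0⟩ : Fin n).val
    obtain ⟨i, hi, f, hf, hfj⟩ := sublist_zigzag hn t (fun k => (σ _).isLt)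
      (fun k => by simp [t])
      (fun i j hij => by
        have h1 := σ.injective (Fin.ext hij)
        exact congrArg Fin.val h1)
    apply exists_rotate (i := i)
    · rw [List.length_ofFn]
      exact hi.le
    · have hlen1 : ((List.ofFn ⇑σ).rotate i).length = n := by simp
      have hlen2 : (List.ofFn (fun s : Fin (2 * L) =>
        (⟨min s.val (2 * L - s.val) % n, Nat.mod_lt _ hn0⟩ : Fin n))).length = 2 * L := by simp
      have hmono : StrictMono (fun ix : Fin ((List.ofFn ⇑σ).rotate i).length =>
          (⟨f ix.val, lt_of_lt_of_eq (hfj ix.val (lt_of_lt_of_eq ix.isLt hlen1)).1 hlen2.symm⟩ :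
            Fin (List.ofFn (fun s : Fin (2 * L) =>
              (⟨min s.val (2 * L - s.val) % n, Nat.mod_lt _ hn0⟩ : Fin n))).length)) := by
        intro x y hxy
        exact hf hxy
      refine List.sublist_iff_exists_fin_orderEmbedding_get_eq.mpr
        ⟨OrderEmbedding.ofStrictMono _ hmono, ?_⟩
      intro ix
      have hix : ix.val < n := lt_of_lt_of_eq ix.isLt hlen1
      have h2 := (hfj ix.val hix).2
      rw [OrderEmbedding.coe_ofStrictMono]
      simp only [List.get_eq_getElem, List.getElem_rotate, List.getElem_ofFn, List.length_ofFn]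
      apply Fin.ext
      change (σ ⟨(ix.val + i) % n, _⟩ : Fin n).val = min (f ix.val) (2 * L - f ix.val) % n
      rw [hL, h2]
      simp only [t]
      congr 3
      rw [add_comm]

end Pool.Agent.S09645
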