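import Pool.Statements.S10885
import Pool.Agent.Lib.MP_b24dd2_co.Final

set_option autoImplicit false
open scoped Matrix
open Pool Pool.MP_b24dd2_co

namespace Pool.Agent.S10885

/-- For 2 ≤ k < v, any non-binary equireplicate block design with v treatments, b blocks of size k and replication r that is efficiency balanced with factor e > 0 is beaten by some connected binary design with the same parameters, whose efficiency factor exceeds e. -/
theorem result :
  ∀ (v b k r : ℕ), 2 ≤ k → k < v →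
    ∀ N' : Matrix (Fin v) (Fin b) ℕ,
      (∀ i, ∑ j, N' i j = r) → (∀ j, ∑ i, N' i j = k) → (∃ i j, 2 ≤ N' i j) →
      ∀ e : ℝ, 0 < e →
        (1 : Matrix (Fin v) (Fin v) ℝ)
            - (1 / ((r : ℝ) * (k : ℝ))) •
                (N'.map (Nat.cast : ℕ → ℝ) * (N'.map (Nat.cast : ℕ → ℝ))ᵀ)
          = e • ((1 : Matrix (Fin v) (Fin v) ℝ)
                  - (1 / (v : ℝ)) • Matrix.of (fun _ _ => (1 : ℝ))) →
        ∃ N : Matrix (Fin v) (Fin b) ℕ,
          (∀ i, ∑ j, N i j = r) ∧ (∀ j, ∑ i, N i j = k) ∧ (∀ i j, N i j ≤ 1) ∧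
          ((1 : Matrix (Fin v) (Fin v) ℝ)
              - (1 / ((r : ℝ) * (k : ℝ))) •
                  (N.map (Nat.cast : ℕ → ℝ) * (N.map (Nat.cast : ℕ → ℝ))ᵀ)
              + (1 / (v : ℝ)) • Matrix.of (fun _ _ => (1 : ℝ))).det ≠ 0 ∧
          e < ((v : ℝ) - 1) /
            (Matrix.trace
              (((1 : Matrix (Fin v) (Fin v) ℝ)
                  - (1 / ((r : ℝ) * (k : ℝ))) •
                      (N.map (Nat.cast : ℕ → ℝ) * (N.map (Nat.cast : ℕ → ℝ))ᵀ)
                  + (1 / (v : ℝ)) • Matrix.of (fun _ _ => (1 : ℝ)))⁻¹) - 1) := by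
  intro v b k r hk hkv N' h1 h2 hnb e he heq
  obtain ⟨i0, j0, hij⟩ := hnb
  have hr0 : 0 < r := by
    have : N' i0 j0 ≤ ∑ j, N' i0 j := Finset.single_le_sum (f := fun j => N' i0 j)
      (fun _ _ => Nat.zero_le _) (Finset.mem_univ j0)
    rw [h1 i0] at this
    omega
  have hrR : (0 : ℝ) < r := by exact_mod_cast hr0
  have hkR : (0 : ℝ) < k := by
    have : 0 < k := by omega
    exact_mod_cast this
  have hvR : (0 : ℝ) < v := by
    have : 0 < v := by omega
    exact_mod_cast this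
  have hrk : (0 : ℝ) < (r : ℝ) * k := mul_pos hrR hkR
  -- entries of the hypothesis
  have hent : ∀ a c : Fin v, (1 : Matrix (Fin v) (Fin v) ℝ) a c
      - (1 / ((r : ℝ) * (k : ℝ))) * ∑ j, (N' a j : ℝ) * (N' c j : ℝ)
      = e * ((1 : Matrix (Fin v) (Fin v) ℝ) a c - 1 / (v : ℝ)) := by
    intro a c
    have h := congrFun (congrFun heq a) c
    simpa [Matrix.mul_apply] using h
  let a0 : Fin v := ⟨0, by omega⟩
  let a1 : Fin v := ⟨1, by omega⟩
  have ha01 : a0 ≠ a1 := by simp [a0, a1]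
  have hoff : ∀ a c : Fin v, a ≠ c → (v : ℝ) * ∑ j, (N' a j : ℝ) * (N' c j : ℝ) =
      e * ((r : ℝ) * k) := by
    intro a c hac
    have h := hent a c
    rw [Matrix.one_apply_ne hac] at h
    field_simp at h
    linarith
  have hdiag : ∀ a : Fin v, (v : ℝ) * ∑ j, (N' a j : ℝ) * (N' a j : ℝ) =
      (v : ℝ) * ((r : ℝ) * k) - ((v : ℝ) - 1) * (e * ((r : ℝ) * k)) := by
    intro a
    have h := hent a a
    rw [Matrix.one_apply_eq] at h
    generalize (∑ j, (N' a j : ℝ) * (N' a j : ℝ)) = S at h ⊢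
    field_simp at h
    linarith
  obtain ⟨β, hβdef⟩ : ∃ β : ℕ, β = ∑ j, N' a0 j * N' a1 j := ⟨_, rfl⟩
  have hβR : (v : ℝ) * (β : ℝ) = e * ((r : ℝ) * k) := by
    rw [← hoff a0 a1 ha01, hβdef]
    push_cast
    rfl
  have h3 : ∀ a d, a ≠ d → ∑ j, N' a j * N' d j = β := by
    intro a d had
    have h5 : (v : ℝ) * ((∑ j, N' a j * N' d j : ℕ) : ℝ) = (v : ℝ) * (β : ℝ) := by
      rw [hβR, ← hoff a d had]
      push_cast
      rfl
    have h6 := mul_left_cancel₀ hvR.ne' h5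
    exact_mod_cast h6
  have hβ1 : 1 ≤ β := by
    have h5 : 0 < (v : ℝ) * (β : ℝ) := by rw [hβR]; exact mul_pos he hrk
    have h6 : (0 : ℝ) < β := by
      by_contra hcon
      push Not at hcon
      nlinarith
    exact_mod_cast h6
  have hv1 : ((v - 1 : ℕ) : ℝ) = (v : ℝ) - 1 := by
    rw [Nat.cast_sub (by omega)]; simp
  have hsq : ∀ a, (∑ j, N' a j * N' a j) + (v - 1) * β = r * k := by
    intro a
    have h5 : (v : ℝ) * (((∑ j, N' a j * N' a j) + (v - 1) * β : ℕ) : ℝ) =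
        (v : ℝ) * ((r * k : ℕ) : ℝ) := by
      have h6 := hdiag a
      rw [← hβR] at h6
      push_cast
      rw [hv1]
      linarith
    have h6 := mul_left_cancel₀ hvR.ne' h5
    exact_mod_cast h6
  -- the excess
  obtain ⟨Γ, hΓdef⟩ : ∃ Γ : ℕ, Γ = ∑ j, N' i0 j * (N' i0 j - 1) := ⟨_, rfl⟩
  have hnn : ∀ n : ℕ, n * n = n + n * (n - 1) := by
    intro n
    cases n with
    | zero => rfl
    | succ m => simp; ring
  have hΓ0 : ∑ j, N' i0 j * N' i0 j = r + Γ := by
    rw [hΓdef, ← h1 i0, ← Finset.sum_add_distrib]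
    exact Finset.sum_congr rfl (fun j _ => hnn _)
  have hΓe : Even Γ := by
    rw [hΓdef]
    refine Finset.even_sum _ (fun j _ => ?_)
    exact Nat.even_mul_pred_self _
  have hΓ2 : 2 ≤ Γ := by
    have h5 : N' i0 j0 * (N' i0 j0 - 1) ≤ Γ := by
      rw [hΓdef]
      exact Finset.single_le_sum (f := fun j => N' i0 j * (N' i0 j - 1))
        (fun _ _ => Nat.zero_le _) (Finset.mem_univ j0)
    have h6 : 2 * 1 ≤ N' i0 j0 * (N' i0 j0 - 1) := Nat.mul_le_mul hij (by omega)
    omega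
  have h4 : ∀ a, ∑ j, N' a j * N' a j = r + Γ := by
    intro a
    have h5 := hsq a
    have h6 := hsq i0
    rw [← hΓ0]
    omega
  have hrel : r * k = r + Γ + (v - 1) * β := by
    rw [← hΓ0]
    exact (hsq i0).symm
  have hconcl : Pool.Agent.Lib.MP_b24dd2_co.Concl v b k r e :=
    Pool.Agent.Lib.MP_b24dd2_co.main_comb hk hkv h1 h2 h3 h4 hβ1 hΓ2 hΓe hrel hr0 hβR.symm
  exact hconcl

end Pool.Agent.S10885
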