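-- Proof of frozen statement S11932 (disproof of the Erdos bound g_d(n) >= c n / d):
-- a Kerdock-type (de Caen) equiangular system of 2 q^2 vectors in dimension 3 q.
import Pool.Statements.S11932

set_option autoImplicit false
open Pool Pool.MP_dec67b_co

namespace Pool.Agent.S11932

noncomputable section

open Finset

def chi (a : ZMod 2) : ℝ := if a = 0 then 1 else -1

lemma chi_add (a b : ZMod 2) : chi (a + b) = chi a * chi b := by
  have h : ∀ a : ZMod 2, a = 0 ∨ a = 1 := by decide
  rcases h a with rfl | rfl <;> rcases h b with rfl | rfl <;>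
    simp [chi, show (1 : ZMod 2) + 1 = 0 by decide]

lemma chi_sq (a : ZMod 2) : chi a * chi a = 1 := by
  unfold chi; split_ifs <;> norm_num

lemma chi_zero : chi 0 = 1 := by simp [chi]

lemma chi_ne (a : ZMod 2) (h : a ≠ 0) : chi a = -1 := by simp [chi, h]

lemma sum_chi_additive {V : Type*} [AddCommGroup V] [Fintype V] (h : V → ZMod 2)
    (hadd : ∀ z w, h (z + w) = h z + h w) (w : V) (hw : h w ≠ 0) :
    ∑ z, chi (h z) = 0 := by
  have h1 : ∑ z, chi (h z) = ∑ z, chi (h (z + w)) :=
    (Equiv.sum_comp (Equiv.addRight w) (fun z => chi (h z))).symm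
  have h2 : ∑ z, chi (h (z + w)) = - ∑ z, chi (h z) := by
    rw [← Finset.sum_neg_distrib]
    refine Finset.sum_congr rfl fun z _ => ?_
    rw [hadd, chi_add, chi_ne _ hw]; ring
  linarith

lemma sq_sum {V : Type*} [AddCommGroup V] [Fintype V] (g : V → ZMod 2) (B : V → V → ZMod 2)
    (hg : ∀ z w, g (z + w) = g z + g w + B z w)
    (hB : ∀ z z' u, B (z + z') u = B z u + B z' u)
    (hnd : ∀ u, u ≠ 0 → ∃ z, B z u ≠ 0) :
    (∑ z, chi (g z)) ^ 2 = Fintype.card V := by
  classical
  have hB0 : ∀ u, B 0 u = 0 := by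
    intro u
    have := hB 0 0 u
    simpa using this
  have hg0 : g 0 = 0 := by
    have := hg 0 0
    simpa [hB0] using this
  have hBz : ∀ z, B z 0 = 0 := by
    intro z
    have := hg z 0
    simpa [hg0] using this
  have h1 : (∑ z, chi (g z)) ^ 2 = ∑ z, ∑ u, chi (g u) * chi (B z u) := by
    rw [sq, Finset.sum_mul]
    refine Finset.sum_congr rfl fun z _ => ?_
    have : ∑ w, chi (g w) = ∑ u, chi (g (z + u)) :=
      (Equiv.sum_comp (Equiv.addLeft z) (fun w => chi (g w))).symm
    rw [this, Finset.mul_sum]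
    refine Finset.sum_congr rfl fun u _ => ?_
    rw [hg, chi_add, chi_add]
    have := chi_sq (g z)
    calc chi (g z) * (chi (g z) * chi (g u) * chi (B z u))
        = (chi (g z) * chi (g z)) * (chi (g u) * chi (B z u)) := by ring
      _ = _ := by rw [this, one_mul]
  rw [h1, Finset.sum_comm]
  have h2 : ∀ u : V, ∑ z, chi (g u) * chi (B z u) = if u = 0 then (Fintype.card V : ℝ) else 0 := by
    intro u
    split_ifs with hu
    · subst hu
      simp [hg0, hBz, chi_zero]
    · obtain ⟨w, hw⟩ := hnd u hu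
      rw [← Finset.mul_sum, sum_chi_additive (fun z => B z u) (fun z w => hB z w u) w hw, mul_zero]
  simp [h2]


section field

variable {F : Type} [Field F] [Fintype F] [Algebra (ZMod 2) F]

def tr (x : F) : ZMod 2 := Algebra.trace (ZMod 2) F x

lemma tr_add (x y : F) : tr (x + y) = tr x + tr y := map_add _ _ _

lemma tr_zero : tr (0 : F) = 0 := map_zero _

lemma zmod2_sq (a : ZMod 2) : a * a = a := by revert a; decide

lemma zmod2_add_self (a : ZMod 2) : a + a = 0 := by revert a; decide

lemma char2 (x : F) : x + x = 0 := by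
  have : CharP F 2 := charP_of_injective_algebraMap (algebraMap (ZMod 2) F).injective 2
  exact CharTwo.add_self_eq_zero x

lemma tr_sq (x : F) : tr (x * x) = tr x := by
  have h := Algebra.trace_eq_of_algEquiv (FiniteField.frobeniusAlgEquivOfAlgebraic (ZMod 2) F) x
  have h2 : FiniteField.frobeniusAlgEquivOfAlgebraic (ZMod 2) F x = x * x := by
    rw [FiniteField.coe_frobeniusAlgEquivOfAlgebraic]
    simp [ZMod.card, sq]
  rw [h2] at h
  exact h

lemma tr_one (hk : Odd (Module.finrank (ZMod 2) F)) : tr (1 : F) = 1 := by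
  unfold tr
  rw [← map_one (algebraMap (ZMod 2) F), Algebra.trace_algebraMap]
  rw [nsmul_eq_mul, mul_one]
  obtain ⟨m, hm⟩ := hk
  rw [hm]
  push_cast
  rw [show (2 : ZMod 2) = 0 by decide]
  simp

lemma tr_nondeg (y : F) (h : ∀ x, tr (x * y) = 0) : y = 0 := by
  have : Fact (Nat.Prime 2) := ⟨Nat.prime_two⟩
  have htr := (traceForm_nondegenerate (ZMod 2) F).1 y
  apply htr
  intro x
  rw [Algebra.traceForm_apply]
  have := h x
  rw [mul_comm] at this
  exact this

lemma exists_q : ∃ q : F → ZMod 2, ∀ x y, q (x + y) = q x + q y + (tr (x * y) + tr x * tr y) := by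
  classical
  set b := Module.finBasis (ZMod 2) F with hb
  set B : F → F → ZMod 2 := fun x y => tr (x * y) + tr x * tr y with hBdef
  have hBl : ∀ x x' y, B (x + x') y = B x y + B x' y := by
    intro x x' y; simp only [hBdef, add_mul, tr_add]; ring
  have hBr : ∀ x y y', B x (y + y') = B x y + B x y' := by
    intro x y y'; simp only [hBdef, mul_add, tr_add]; ring
  have hsymm : ∀ x y, B x y = B y x := by
    intro x y; simp only [hBdef, mul_comm]
  have halt : ∀ x, B x x = 0 := by
    intro x; simp only [hBdef, tr_sq, zmod2_sq, zmod2_add_self]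
  have hBsl : ∀ (c : ZMod 2) x y, B (c • x) y = c * B x y := by
    intro c x y
    have h : ∀ a : ZMod 2, a = 0 ∨ a = 1 := by decide
    rcases h c with rfl | rfl <;> simp [hBdef, tr_zero]
  have hBsr : ∀ (c : ZMod 2) x y, B x (c • y) = c * B x y := by
    intro c x y
    rw [hsymm, hBsl, hsymm]
  let Bl : F →+ F →+ ZMod 2 := AddMonoidHom.mk' (fun x => AddMonoidHom.mk' (B x) (hBr x))
    (fun x x' => by ext y; exact hBl x x' y)
  have hexp : ∀ x y, B x y = ∑ i, ∑ j, b.repr x i * b.repr y j * B (b i) (b j) := by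
    intro x y
    have hx : x = ∑ i, b.repr x i • b i := (b.sum_repr x).symm
    have hy : y = ∑ i, b.repr y i • b i := (b.sum_repr y).symm
    have h1 : B x y = Bl x y := rfl
    rw [h1]
    conv_lhs => rw [hx, hy]
    rw [map_sum Bl, AddMonoidHom.finsetSum_apply]
    refine Finset.sum_congr rfl fun i _ => ?_
    rw [map_sum]
    refine Finset.sum_congr rfl fun j _ => ?_
    have : Bl (b.repr x i • b i) (b.repr y j • b j) = B (b.repr x i • b i) (b.repr y j • b j) := rfl
    rw [this, hBsl, hBsr]; ring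
  let B0 : F → F → ZMod 2 := fun x y =>
    ∑ i, ∑ j, if i < j then b.repr x i * b.repr y j * B (b i) (b j) else 0
  have hB0l : ∀ x x' y, B0 (x + x') y = B0 x y + B0 x' y := by
    intro x x' y
    simp only [B0, map_add, Finsupp.add_apply, ← Finset.sum_add_distrib]
    refine Finset.sum_congr rfl fun i _ => Finset.sum_congr rfl fun j _ => ?_
    split_ifs <;> ring
  have hB0r : ∀ x y y', B0 x (y + y') = B0 x y + B0 x y' := by
    intro x x' y
    simp only [B0, map_add, Finsupp.add_apply, ← Finset.sum_add_distrib]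
    refine Finset.sum_congr rfl fun i _ => Finset.sum_congr rfl fun j _ => ?_
    split_ifs <;> ring
  have hsum : ∀ x y, B0 x y + B0 y x = B x y := by
    intro x y
    have h1 : B0 y x = ∑ i, ∑ j, if j < i then b.repr x i * b.repr y j * B (b i) (b j) else 0 := by
      simp only [B0]
      rw [Finset.sum_comm]
      refine Finset.sum_congr rfl fun i _ => Finset.sum_congr rfl fun j _ => ?_
      split_ifs
      · rw [hsymm (b j) (b i)]; ring
      · rfl
    rw [h1, hexp x y]
    simp only [B0, ← Finset.sum_add_distrib]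
    refine Finset.sum_congr rfl fun i _ => Finset.sum_congr rfl fun j _ => ?_
    rcases lt_trichotomy i j with h | h | h
    · rw [if_pos h, if_neg (not_lt.mpr h.le), add_zero]
    · subst h
      rw [if_neg (lt_irrefl _), halt]; simp
    · rw [if_neg (not_lt.mpr h.le), if_pos h, zero_add]
  refine ⟨fun x => B0 x x, fun x y => ?_⟩
  have := hsum x y
  simp only [hB0l, hB0r]
  rw [show tr (x * y) + tr x * tr y = B x y from rfl, ← this]
  ring



/-- The quadratic form attached to `a`. -/
def Qf (q : F → ZMod 2) (a : F) (z : F × ZMod 2) : ZMod 2 := q (a * z.1) + z.2 * tr (a * z.1)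

def ln (b : F) (β : ZMod 2) (z : F × ZMod 2) : ZMod 2 := tr (b * z.1) + β * z.2

def Gf (q : F → ZMod 2) (p : F × F × ZMod 2) (z : F × ZMod 2) : ZMod 2 :=
  Qf q p.1 z + ln p.2.1 p.2.2 z

def Bf (a : F) (z w : F × ZMod 2) : ZMod 2 :=
  tr (a * z.1 * (a * w.1)) + tr (a * z.1) * tr (a * w.1) + z.2 * tr (a * w.1) + w.2 * tr (a * z.1)

lemma Qf_add (q : F → ZMod 2) (hq : ∀ x y, q (x + y) = q x + q y + (tr (x * y) + tr x * tr y))
    (a : F) (z w : F × ZMod 2) : Qf q a (z + w) = Qf q a z + Qf q a w + Bf a z w := by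
  simp only [Qf, Bf, Prod.fst_add, Prod.snd_add, mul_add, hq, tr_add]
  ring

lemma ln_add (b : F) (β : ZMod 2) (z w : F × ZMod 2) : ln b β (z + w) = ln b β z + ln b β w := by
  simp only [ln, Prod.fst_add, Prod.snd_add, mul_add, tr_add]
  ring

lemma Bf_add (a : F) (z z' w : F × ZMod 2) : Bf a (z + z') w = Bf a z w + Bf a z' w := by
  simp only [Bf, Prod.fst_add, Prod.snd_add, mul_add, add_mul, tr_add]
  ring

lemma Bf_nondeg (hk : Odd (Module.finrank (ZMod 2) F)) (a b : F) (hab : a ≠ b)
    (u : F × ZMod 2) (hu : u ≠ 0) : ∃ z, Bf a z u + Bf b z u ≠ 0 := by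
  by_contra hcon
  push Not at hcon
  obtain ⟨y, η⟩ := u
  have h1 := hcon (0, 1)
  simp only [Bf, mul_zero, zero_mul, tr_zero, one_mul, zero_add, add_zero] at h1
  have hs : tr (b * y) = tr (a * y) := by
    have := zmod2_add_self (tr (a * y))
    calc tr (b * y) = (tr (a * y) + tr (a * y)) + tr (b * y) := by rw [this, zero_add]
      _ = tr (a * y) + (tr (a * y) + tr (b * y)) := by ring
      _ = tr (a * y) := by rw [h1, add_zero]
  set s := tr (a * y) with hsdef
  -- trace form condition
  have htr_smul : ∀ (c : ZMod 2) (x : F), c * tr x = tr (algebraMap (ZMod 2) F c * x) := by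
    intro c x
    have h : ∀ a : ZMod 2, a = 0 ∨ a = 1 := by decide
    rcases h c with rfl | rfl <;> simp [tr_zero]
  set c : F := algebraMap (ZMod 2) F (s + η) with hc
  have h2 : ∀ x : F, tr (x * ((a + b) * (a + b) * y + c * (a + b))) = 0 := by
    intro x
    have h3 := hcon (x, 0)
    simp only [Bf, zero_mul, add_zero] at h3
    rw [hs, ← hsdef] at h3
    have hcc : tr (c * (a * x)) + tr (c * (b * x)) = (s + η) * tr (a * x) + (s + η) * tr (b * x) := by
      rw [hc, htr_smul, htr_smul]
    have hab2 : a * b * x * y + a * b * x * y = 0 := char2 _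
    have hexp : x * ((a + b) * (a + b) * y + c * (a + b)) =
        (a * x * (a * y) + b * x * (b * y)) + (a * b * x * y + a * b * x * y) +
          (c * (a * x) + c * (b * x)) := by ring
    rw [hexp, hab2, add_zero, tr_add, tr_add, tr_add, hcc]
    calc tr (a * x * (a * y)) + tr (b * x * (b * y)) + ((s + η) * tr (a * x) + (s + η) * tr (b * x))
        = tr (a * x * (a * y)) + tr (a * x) * s + η * tr (a * x) +
          (tr (b * x * (b * y)) + tr (b * x) * s + η * tr (b * x)) := by ring
      _ = 0 := h3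
  have h4 := tr_nondeg _ h2
  have hab0 : a + b ≠ 0 := by
    intro h
    apply hab
    have := char2 b
    calc a = (a + b) + b := by rw [add_assoc, this, add_zero]
      _ = b := by rw [h, zero_add]
  have h5 : (a + b) * ((a + b) * y + c) = 0 := by rw [← h4]; ring
  have h6 : (a + b) * y + c = 0 := (mul_eq_zero.mp h5).resolve_left hab0
  have h7 : (a + b) * y = c := by
    calc (a + b) * y = ((a + b) * y + c) + c := by rw [add_assoc, char2, add_zero]
      _ = c := by rw [h6, zero_add]
  have h8 : tr ((a + b) * y) = 0 := by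
    rw [add_mul, tr_add, hs, ← hsdef, zmod2_add_self]
  have hz : ∀ a : ZMod 2, a = 0 ∨ a = 1 := by decide
  have h9 : s + η = 0 := by
    rcases hz (s + η) with h | h
    · exact h
    · exfalso
      rw [h7, hc, h, map_one, tr_one hk] at h8
      exact one_ne_zero h8
  have h10 : y = 0 := by
    rw [hc, h9, map_zero] at h7
    exact (mul_eq_zero.mp h7).resolve_left hab0
  have h11 : s = 0 := by rw [hsdef, h10, mul_zero, tr_zero]
  have h12 : η = 0 := by rw [h11, zero_add] at h9; exact h9
  apply hu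
  rw [h10, h12]
  rfl

lemma inner_diff (hk : Odd (Module.finrank (ZMod 2) F)) (q : F → ZMod 2)
    (hq : ∀ x y, q (x + y) = q x + q y + (tr (x * y) + tr x * tr y))
    (p p' : F × F × ZMod 2) (h : p.1 ≠ p'.1) :
    (∑ z, chi (Gf q p z) * chi (Gf q p' z)) ^ 2 = 2 * (Fintype.card F : ℝ) := by
  have h1 := sq_sum (fun z : F × ZMod 2 => Gf q p z + Gf q p' z)
    (fun z u => Bf p.1 z u + Bf p'.1 z u) (by
      intro z w
      simp only [Gf, Qf_add q hq, ln_add]
      ring) (by
      intro z z' u
      simp only [Bf_add]; ring) (by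
      intro u hu
      exact Bf_nondeg hk _ _ h u hu)
  simp only [chi_add] at h1
  rw [h1, Fintype.card_prod, ZMod.card]
  push_cast; ring

lemma inner_same (q : F → ZMod 2) (p p' : F × F × ZMod 2) (h : p.1 = p'.1) (hne : p ≠ p') :
    (∑ z, chi (Gf q p z) * chi (Gf q p' z)) = 0 := by
  obtain ⟨a, b, β⟩ := p
  obtain ⟨a', b', β'⟩ := p'
  simp only at h
  subst h
  have hz : ∀ a : ZMod 2, a = 0 ∨ a = 1 := by decide
  have h1 : ∀ z, chi (Gf q (a, b, β) z) * chi (Gf q (a, b', β') z) = chi (ln (b + b') (β + β') z) := by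
    intro z
    rw [← chi_add]
    congr 1
    simp only [Gf, ln, add_mul, tr_add]
    have := zmod2_add_self (Qf q a z)
    calc Qf q a z + (tr (b * z.1) + β * z.2) + (Qf q a z + (tr (b' * z.1) + β' * z.2))
        = (Qf q a z + Qf q a z) + (tr (b * z.1) + tr (b' * z.1) + (β * z.2 + β' * z.2)) := by ring
      _ = _ := by rw [this, zero_add]
  simp only [h1]
  have hex : ∃ w, ln (b + b') (β + β') w ≠ 0 := by
    by_contra hcon
    push Not at hcon
    apply hne
    have hβ := hcon (0, 1)
    simp only [ln, mul_zero, tr_zero, zero_add, mul_one] at hβ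
    have hβ' : β = β' := by
      have := zmod2_add_self β'
      calc β = (β + β') + β' := by rw [add_assoc, this, add_zero]
        _ = β' := by rw [hβ, zero_add]
    have hb : b + b' = 0 := by
      apply tr_nondeg
      intro x
      have := hcon (x, 0)
      simp only [ln, mul_zero, add_zero] at this
      rw [mul_comm]; exact this
    have hb' : b = b' := by
      calc b = (b + b') + b' := by rw [add_assoc, char2, add_zero]
        _ = b' := by rw [hb, zero_add]
    rw [hβ', hb']
  obtain ⟨w, hw⟩ := hex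
  exact sum_chi_additive _ (ln_add (b + b') (β + β')) w hw



/-- The (unnormalized) vector attached to the index `p`. -/
def vec (q : F → ZMod 2) (r : ℝ) [DecidableEq F] (p : F × F × ZMod 2) :
    EuclideanSpace ℝ ((F × ZMod 2) ⊕ F) :=
  WithLp.toLp 2 (Sum.elim (fun z => chi (Gf q p z)) (fun a => if a = p.1 then Real.sqrt r else 0))

lemma inner_vec (q : F → ZMod 2) (r : ℝ) (hr : 0 ≤ r) [DecidableEq F] (p p' : F × F × ZMod 2) :
    inner ℝ (vec q r p) (vec q r p') =
      (∑ z, chi (Gf q p z) * chi (Gf q p' z)) + if p.1 = p'.1 then r else 0 := by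
  simp only [vec, PiLp.inner_apply, Fintype.sum_sum_type, Sum.elim_inl, Sum.elim_inr]
  congr 1
  · refine Finset.sum_congr rfl fun z _ => ?_
    simp [mul_comm]
  · simp only [RCLike.inner_apply, conj_trivial]
    split_ifs with h
    · rw [Finset.sum_eq_single p.1]
      · simp [h, Real.mul_self_sqrt hr]
      · intro b _ hb
        simp [hb]
      · simp
    · apply Finset.sum_eq_zero
      intro a _
      by_cases ha : a = p.1
      · subst ha
        simp [h]
      · simp [ha]

lemma inner_self_vec (q : F → ZMod 2) (r : ℝ) (hr : 0 ≤ r) [DecidableEq F] (p : F × F × ZMod 2) :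
    inner ℝ (vec q r p) (vec q r p) = 2 * (Fintype.card F : ℝ) + r := by
  rw [inner_vec q r hr, if_pos rfl]
  congr 1
  simp only [chi_sq]
  simp
  ring

lemma inner_ne_vec (hk : Odd (Module.finrank (ZMod 2) F)) (q : F → ZMod 2)
    (hq : ∀ x y, q (x + y) = q x + q y + (tr (x * y) + tr x * tr y))
    (r : ℝ) (hr : 0 ≤ r) (hr2 : r ^ 2 = 2 * (Fintype.card F : ℝ)) [DecidableEq F]
    (p p' : F × F × ZMod 2) (hne : p ≠ p') :
    inner ℝ (vec q r p) (vec q r p') = r ∨ inner ℝ (vec q r p) (vec q r p') = -r := by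
  rw [inner_vec q r hr]
  by_cases h : p.1 = p'.1
  · rw [if_pos h, inner_same q p p' h hne, zero_add]
    exact Or.inl rfl
  · rw [if_neg h, add_zero]
    have := inner_diff hk q hq p p' h
    rw [← hr2] at this
    exact sq_eq_sq_iff_eq_or_eq_neg.mp this

end field

/-- The core: for `F` of odd degree over `ZMod 2` with `2 |F| = r^2` there is a bad point set. -/
lemma core (F : Type) [Field F] [Fintype F] [Algebra (ZMod 2) F]
    (hk : Odd (Module.finrank (ZMod 2) F)) (r : ℝ) (hr : 0 < r)
    (hr2 : r ^ 2 = 2 * (Fintype.card F : ℝ)) :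
    ∃ S : Finset (EuclideanSpace ℝ (Fin (3 * Fintype.card F))),
      S.card = 2 * Fintype.card F ^ 2 ∧ (∀ x ∈ S, ∀ y ∈ S, x ≠ y → 1 ≤ dist x y) ∧
      ∀ T ⊆ S, (∀ x ∈ T, ∀ y ∈ T, x ≠ y → 1 < dist x y) → (T.card : ℝ) ≤ r + 2 := by
  classical
  obtain ⟨q, hq⟩ := exists_q (F := F)
  set n : ℝ := 2 * (Fintype.card F : ℝ) with hn
  have hnpos : 0 < n := by
    have : 0 < Fintype.card F := Fintype.card_pos
    positivity
  have hcard : Fintype.card ((F × ZMod 2) ⊕ F) = 3 * Fintype.card F := by
    rw [Fintype.card_sum, Fintype.card_prod, ZMod.card]; ring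
  let e : ((F × ZMod 2) ⊕ F) ≃ Fin (3 * Fintype.card F) := Fintype.equivFinOfCardEq hcard
  let L := LinearIsometryEquiv.piLpCongrLeft 2 ℝ ℝ e
  let f : F × F × ZMod 2 → EuclideanSpace ℝ (Fin (3 * Fintype.card F)) :=
    fun p => L ((Real.sqrt (2 * n))⁻¹ • vec q r p)
  have hs : (0 : ℝ) < Real.sqrt (2 * n) := Real.sqrt_pos.mpr (by positivity)
  have hs2 : (Real.sqrt (2 * n)) ^ 2 = 2 * n := Real.sq_sqrt (by positivity)
  have hinner : ∀ p p', inner ℝ (f p) (f p') = (2 * n)⁻¹ * inner ℝ (vec q r p) (vec q r p') := by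
    intro p p'
    simp only [f]
    rw [L.inner_map_map, inner_smul_left, inner_smul_right]
    simp only [conj_trivial]
    rw [← mul_assoc, ← mul_inv, ← sq, hs2]
  have hnorm : ∀ p, ‖f p‖ ^ 2 = (2 * n)⁻¹ * (n + r) := by
    intro p
    rw [← real_inner_self_eq_norm_sq, hinner, inner_self_vec q r hr.le]
  have hdist : ∀ p p', dist (f p) (f p') ^ 2 =
      (2 * n)⁻¹ * (2 * (n + r) - 2 * inner ℝ (vec q r p) (vec q r p')) := by
    intro p p'
    rw [dist_eq_norm, norm_sub_sq_real, hnorm, hnorm, hinner]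
    ring
  have hdist1 : ∀ p p', p ≠ p' → (dist (f p) (f p') = 1 ∧ inner ℝ (vec q r p) (vec q r p') = r) ∨
      (1 < dist (f p) (f p') ∧ inner ℝ (vec q r p) (vec q r p') = -r) := by
    intro p p' hne
    rcases inner_ne_vec hk q hq r hr.le hr2 p p' hne with h | h
    · left
      refine ⟨?_, h⟩
      have h1 := hdist p p'
      rw [h] at h1
      have h2 : dist (f p) (f p') ^ 2 = 1 := by
        rw [h1]; field_simp; ring
      have h3 : 0 ≤ dist (f p) (f p') := dist_nonneg
      nlinarith
    · right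
      refine ⟨?_, h⟩
      have h1 := hdist p p'
      rw [h] at h1
      have h2 : 1 < dist (f p) (f p') ^ 2 := by
        rw [h1, inv_mul_eq_div, lt_div_iff₀ (by positivity)]
        nlinarith
      have h3 : 0 ≤ dist (f p) (f p') := dist_nonneg
      nlinarith
  have hinj : Function.Injective f := by
    intro p p' h
    by_contra hne
    rcases hdist1 p p' hne with ⟨h1, _⟩ | ⟨h1, _⟩
    · rw [h, dist_self] at h1; exact zero_ne_one h1
    · rw [h, dist_self] at h1; linarith
  refine ⟨Finset.univ.image f, ?_, ?_, ?_⟩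
  · rw [Finset.card_image_of_injective _ hinj, Finset.card_univ, Fintype.card_prod,
      Fintype.card_prod, ZMod.card]
    ring
  · intro x hx y hy hxy
    obtain ⟨p, -, rfl⟩ := Finset.mem_image.mp hx
    obtain ⟨p', -, rfl⟩ := Finset.mem_image.mp hy
    have hne : p ≠ p' := fun h => hxy (by rw [h])
    rcases hdist1 p p' hne with ⟨h1, _⟩ | ⟨h1, _⟩
    · rw [h1]
    · exact h1.le
  · intro T hT hsep
    -- pull back
    set P : Finset (F × F × ZMod 2) := Finset.univ.filter (fun p => f p ∈ T) with hP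
    have hTP : T = P.image f := by
      ext x
      constructor
      · intro hx
        obtain ⟨p, -, rfl⟩ := Finset.mem_image.mp (hT hx)
        exact Finset.mem_image.mpr ⟨p, by simp [hP, hx], rfl⟩
      · intro hx
        obtain ⟨p, hp, rfl⟩ := Finset.mem_image.mp hx
        simpa [hP] using hp
    have hTc : T.card = P.card := by
      rw [hTP, Finset.card_image_of_injective _ hinj]
    rw [hTc]
    have hin : ∀ p ∈ P, ∀ p' ∈ P, p ≠ p' → inner ℝ (vec q r p) (vec q r p') = -r := by
      intro p hp p' hp' hne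
      rcases hdist1 p p' hne with ⟨h1, _⟩ | ⟨_, h2⟩
      · exfalso
        have := hsep (f p) (by simpa [hP] using hp) (f p') (by simpa [hP] using hp')
          (fun h => hne (hinj h))
        rw [h1] at this
        exact lt_irrefl _ this
      · exact h2
    have hnonneg : 0 ≤ inner ℝ (∑ p ∈ P, vec q r p) (∑ p ∈ P, vec q r p) := real_inner_self_nonneg
    have hsum : inner ℝ (∑ p ∈ P, vec q r p) (∑ p ∈ P, vec q r p) =
        (P.card : ℝ) * (n + r - ((P.card : ℝ) - 1) * r) := by
      rw [sum_inner]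
      have : ∀ p ∈ P, inner ℝ (vec q r p) (∑ p ∈ P, vec q r p) =
          n + r - ((P.card : ℝ) - 1) * r := by
        intro p hp
        rw [inner_sum, ← Finset.add_sum_erase _ _ hp, inner_self_vec q r hr.le]
        rw [Finset.sum_congr rfl (fun p' hp' => hin p hp p' (Finset.mem_of_mem_erase hp')
          (Finset.ne_of_mem_erase hp').symm)]
        rw [Finset.sum_const, Finset.card_erase_of_mem hp, nsmul_eq_mul,
          Nat.cast_sub (Finset.card_pos.mpr ⟨p, hp⟩)]
        push_cast; ring
      rw [Finset.sum_congr rfl this, Finset.sum_const, nsmul_eq_mul]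
    rw [hsum] at hnonneg
    by_contra hcon
    push Not at hcon
    have hP0 : 0 < (P.card : ℝ) := by linarith
    have h5 : 0 ≤ n + r - ((P.card : ℝ) - 1) * r := by
      by_contra hneg
      push Not at hneg
      have := mul_neg_of_pos_of_neg hP0 hneg
      linarith
    rw [← hr2] at h5
    have h6 : ((P.card : ℝ) - 1) * r > (r + 1) * r := by
      apply mul_lt_mul_of_pos_right _ hr
      linarith
    nlinarith

end

/-- The negation of the preceding statement: There is c>0 such that for every d≥1, every finite set of points in Euclidean d-space with pairwise distances at least 1 contains a subset of size at least c·(number of points)/d whose pairwise distances all exceed 1. -/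
theorem result :
    ¬ (∃ c : ℝ, 0 < c ∧ ∀ d : ℕ, 1 ≤ d →
      ∀ S : Finset (EuclideanSpace ℝ (Fin d)),
        (∀ x ∈ S, ∀ y ∈ S, x ≠ y → 1 ≤ dist x y) →
        ∃ T ⊆ S, c * (S.card : ℝ) / (d : ℝ) ≤ (T.card : ℝ) ∧
          ∀ x ∈ T, ∀ y ∈ T, x ≠ y → 1 < dist x y) := by
  rintro ⟨c, hc, h⟩
  obtain ⟨j, hj⟩ := pow_unbounded_of_one_lt (6 / c) (one_lt_two (α := ℝ))
  have hp : Fact (Nat.Prime 2) := ⟨Nat.prime_two⟩
  let F := GaloisField 2 (2 * j + 1)
  haveI : Fintype F := Fintype.ofFinite F
  have hfin : Module.finrank (ZMod 2) F = 2 * j + 1 := GaloisField.finrank 2 (by omega)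
  have hcardF : Fintype.card F = 2 ^ (2 * j + 1) := by
    rw [← Nat.card_eq_fintype_card]
    exact GaloisField.card 2 (2 * j + 1) (by omega)
  have hodd : Odd (Module.finrank (ZMod 2) F) := by rw [hfin]; exact ⟨j, rfl⟩
  set r : ℝ := 2 ^ (j + 1) with hr
  have hrpos : 0 < r := by positivity
  have hr2 : r ^ 2 = 2 * (Fintype.card F : ℝ) := by
    rw [hcardF, hr]; push_cast; ring
  obtain ⟨S, hScard, hSsep, hSbad⟩ := core F hodd r hrpos hr2
  have hcpos : 0 < Fintype.card F := Fintype.card_pos
  obtain ⟨T, hTS, hTc, hTsep⟩ := h (3 * Fintype.card F) (by omega) S hSsep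
  have hT := hSbad T hTS hTsep
  rw [hScard] at hTc
  have hq : (0 : ℝ) < (Fintype.card F : ℝ) := by exact_mod_cast hcpos
  have h1 : c * ((2 * Fintype.card F ^ 2 : ℕ) : ℝ) / ((3 * Fintype.card F : ℕ) : ℝ) = c * r ^ 2 / 3 := by
    rw [hr2]; push_cast; field_simp
  rw [h1] at hTc
  have h2 : (2 : ℝ) ≤ r := by
    rw [hr, pow_succ]
    have : (1 : ℝ) ≤ 2 ^ j := one_le_pow₀ (by norm_num)
    linarith
  have h3 : c * r ^ 2 / 3 ≤ 2 * r := by linarith
  have h4 : c * r ≤ 6 := by
    have : c * r * r ≤ 6 * r := by nlinarith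
    exact le_of_mul_le_mul_right this hrpos
  have h5 : 6 < c * 2 ^ j := by
    rw [div_lt_iff₀ hc] at hj
    linarith
  have h6 : c * r = 2 * (c * 2 ^ j) := by rw [hr, pow_succ]; ring
  linarith

end Pool.Agent.S11932
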