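import Pool.Statements.S12061
import Pool.Agent.Lib.MP_e3ee1c_co.ShiftChain

set_option autoImplicit false
open Pool Pool.MP_e3ee1c_co

namespace Pool.Agent.S12061

/-- There is K such that for all k ≥ K and all n, every family of k-subsets of {0..n-1} whose members are pairwise comparable coordinatewise (i-th smallest elements) admits a 2-colouring with no monochromatic member. -/
theorem result :
    ∃ K : ℕ, ∀ k ≥ K, ∀ n : ℕ, ∀ H : Finset (Finset ℕ),
      H ⊆ (Finset.range n).powersetCard k →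
      (∀ A ∈ H, ∀ B ∈ H, ∀ (hA : A.card = k) (hB : B.card = k),
        (∀ i : Fin k, A.orderEmbOfFin hA i ≤ B.orderEmbOfFin hB i) ∨
        (∀ i : Fin k, B.orderEmbOfFin hB i ≤ A.orderEmbOfFin hA i)) →
      ∃ c : ℕ → Bool, ∀ A ∈ H, ∃ x ∈ A, ∃ y ∈ A, c x ≠ c y := by
  refine ⟨4, fun k hk n H hH hch => ?_⟩
  exact Pool.Agent.ShiftChain.main k hk H
    (fun A hA => (Finset.mem_powersetCard.mp (hH hA)).2) hch

end Pool.Agent.S12061
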