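import Pool.Statements.S12180

set_option autoImplicit false
open Pool Pool.MP_e962e1_co

namespace Pool.Agent.S12180

/-! The counterexample: a rank 6 binary geometry with 21 points, given by codes in 1..63
(bit `i` of the code is the `i`-th coordinate).  Its characteristic polynomial is
`(x-1)(x-2)...(x-6)`, but it has no modular copoint at all. -/

abbrev V := Fin 6 → ZMod 2

/-- the vector with code `n` -/
def vec (n : ℕ) : V := fun i => if n.testBit i then 1 else 0

/-- contraction of the code `t` by the code `s` (pivot at the top bit of `s`) -/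
def con (s t : ℕ) : ℕ := if t.testBit s.log2 then t ^^^ s else t

/-- deletion-contraction evaluator -/
def ev : ℕ → List ℤ → List ℕ → ℤ
  | 0, ws, _ => ws.headD 0
  | _+1, ws, [] => ws.headD 0
  | n+1, ws, s :: L =>
     ev n ws L - (if (L.map (con s)).contains 0 then 0 else ev n ws.tail (L.map (con s)))

/-- the codes of the 21 points -/
def Sl : List ℕ := [17, 7, 21, 3, 5, 23, 1, 19, 28, 10, 2, 18, 4, 9, 8, 40, 22, 16, 32, 6, 52]

lemma vec_zero : vec 0 = 0 := by
  funext i; simp [vec]

lemma vec_xor (a b : ℕ) : vec (a ^^^ b) = vec a + vec b := by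
  funext i
  simp only [vec, Pi.add_apply, Nat.testBit_xor]
  cases a.testBit i <;> cases b.testBit i <;> decide

/-- projection along `vec s` -/
noncomputable def pr (s : ℕ) (p : Fin 6) : V →ₗ[ZMod 2] V :=
  LinearMap.id + (LinearMap.proj p : V →ₗ[ZMod 2] ZMod 2).smulRight (vec s)

lemma pr_apply (s : ℕ) (p : Fin 6) (x : V) : pr s p x = x + x p • vec s := by
  simp [pr]

lemma pr_vec (s t : ℕ) (p : Fin 6) (hp : s.log2 = p) : pr s p (vec t) = vec (con s t) := by
  rw [pr_apply, con, hp]
  by_cases h : t.testBit p
  · rw [if_pos h, vec_xor]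
    have : vec t p = 1 := by simp [vec, h]
    rw [this, one_smul]
  · rw [if_neg h]
    have : vec t p = 0 := by simp [vec, h]
    rw [this, zero_smul, add_zero]

lemma add_self_zero (x : V) : x + x = 0 := by
  funext i
  have : ∀ z : ZMod 2, z + z = 0 := by decide
  exact this _

lemma ker_pr (s : ℕ) (p : Fin 6) (h1 : s.testBit p = true) :
    LinearMap.ker (pr s p) = Submodule.span (ZMod 2) {vec s} := by
  ext x
  rw [LinearMap.mem_ker, Submodule.mem_span_singleton, pr_apply]
  constructor
  · intro h
    refine ⟨x p, ?_⟩
    have h2 := add_self_zero (x p • vec s)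
    have : x + x p • vec s = x p • vec s + x p • vec s := by rw [h, h2]
    exact (add_right_cancel this).symm
  · rintro ⟨a, rfl⟩
    have : vec s p = 1 := by simp [vec, h1]
    simp only [Pi.smul_apply, this, smul_eq_mul, mul_one]
    exact add_self_zero _

/-- rank of a set of vectors -/
noncomputable def rk (X : Set V) : ℕ := Module.finrank (ZMod 2) (Submodule.span (ZMod 2) X)

lemma rk_empty : rk ∅ = 0 := by
  unfold rk; rw [Submodule.span_empty]; exact finrank_bot _ _

lemma rk_insert_zero (X : Set V) : rk (insert 0 X) = rk X := by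
  unfold rk; rw [Submodule.span_insert_zero]

lemma list_sum_neg {α : Type} (f : α → ℤ) (L : List α) :
    (L.map (fun x => - f x)).sum = - (L.map f).sum := by
  induction L with
  | nil => simp
  | cons a L ih => simp only [List.map_cons, List.sum_cons, ih]; ring

lemma rank_insert (s : V) (X : Set V) (π : V →ₗ[ZMod 2] V) (hs : s ≠ 0)
    (hk : LinearMap.ker π = Submodule.span (ZMod 2) {s}) :
    rk (insert s X) = 1 + rk (π '' X) := by
  unfold rk
  set A := Submodule.span (ZMod 2) (insert s X) with hA
  have hle : LinearMap.ker π ≤ A := by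
    rw [hk]; exact Submodule.span_mono (by simp)
  have h := LinearMap.finrank_range_add_finrank_ker (π.domRestrict A)
  have hr : LinearMap.range (π.domRestrict A) = Submodule.span (ZMod 2) (π '' X) := by
    rw [LinearMap.range_domRestrict, hA, Submodule.map_span, Set.image_insert_eq]
    have : π s = 0 := by
      have : s ∈ LinearMap.ker π := by rw [hk]; exact Submodule.mem_span_singleton_self s
      simpa using this
    rw [this]
    simp
  have hker : Module.finrank (ZMod 2) (LinearMap.ker (π.domRestrict A)) = 1 := by
    rw [LinearMap.ker_domRestrict]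
    rw [LinearEquiv.finrank_eq (Submodule.comapSubtypeEquivOfLe hle), hk]
    exact finrank_span_singleton hs
  rw [hr, hker] at h
  omega

/-- signed sum over the sublists -/
noncomputable def PS (M : ℤ) (d : ℕ) (L : List V) : ℤ :=
  ((L.sublists').map (fun X => (-1 : ℤ) ^ X.length * M ^ (d - rk {x | x ∈ X}))).sum

lemma PS_nil (M : ℤ) (d : ℕ) : PS M d [] = M ^ d := by
  have h : ({x | x ∈ ([] : List V)} : Set V) = ∅ := by ext x; simp
  simp only [PS, List.sublists'_nil, List.map_cons, List.map_nil, List.sum_cons, List.sum_nil,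
    List.length_nil, h, rk_empty]
  simp

lemma PS_cons_zero (M : ℤ) (d : ℕ) (L : List V) : PS M d (0 :: L) = 0 := by
  unfold PS
  rw [List.sublists'_cons, List.map_append, List.sum_append, List.map_map]
  have : (List.map ((fun X : List V => (-1 : ℤ) ^ X.length *
      M ^ (d - rk {x | x ∈ X})) ∘ (List.cons 0))
      L.sublists') = List.map (fun X : List V => - ((-1 : ℤ) ^ X.length *
      M ^ (d - rk {x | x ∈ X}))) L.sublists' := by
    apply List.map_congr_left
    intro X _
    have h1 : ({x | x ∈ (0 : V) :: X} : Set V) = insert 0 {x | x ∈ X} := by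
      ext x; simp
    simp only [Function.comp, List.length_cons, h1, rk_insert_zero]
    ring
  rw [this, list_sum_neg]
  ring

lemma PS_cons (M : ℤ) (d : ℕ) (s : V) (L : List V) (π : V →ₗ[ZMod 2] V) (hs : s ≠ 0)
    (hk : LinearMap.ker π = Submodule.span (ZMod 2) {s}) :
    PS M d (s :: L) = PS M d L - PS M (d - 1) (L.map π) := by
  unfold PS
  rw [List.sublists'_cons, List.map_append, List.sum_append, List.map_map, List.sublists'_map,
    List.map_map, sub_eq_add_neg, ← list_sum_neg]
  congr 1
  congr 1
  apply List.map_congr_left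
  intro X _
  have h1 : ({x | x ∈ s :: X} : Set V) = insert s {x | x ∈ X} := by
    ext x; simp
  have h2 : ({x | x ∈ List.map π X} : Set V) = π '' {x | x ∈ X} := by
    ext x; simp
  simp only [Function.comp, List.length_cons, List.length_map, h1, h2]
  rw [rank_insert s _ π hs hk, Nat.sub_add_eq]
  ring

lemma log2_lt {s : ℕ} (h : s < 64) (h0 : s ≠ 0) : s.log2 < 6 := by
  rw [Nat.log2_lt h0]; exact h

lemma testBit_log2 {s : ℕ} (h0 : s ≠ 0) : s.testBit s.log2 = true := by
  exact Nat.testBit_log2 h0

lemma vec_ne_zero {s : ℕ} (h : s < 64) (h0 : s ≠ 0) : vec s ≠ 0 := by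
  intro hv
  have := congrFun hv ⟨s.log2, log2_lt h h0⟩
  simp [vec, testBit_log2 h0] at this

lemma con_lt {s t : ℕ} (hs : s < 64) (ht : t < 64) : con s t < 64 := by
  unfold con
  split_ifs
  · exact Nat.xor_lt_two_pow (n := 6) ht hs
  · exact ht

lemma PS_contains (M : ℤ) : ∀ (n d : ℕ) (L : List ℕ), L.length ≤ n → (∀ t ∈ L, t < 64) → 0 ∈ L →
    PS M d (L.map vec) = 0 := by
  intro n
  induction n with
  | zero =>
    intro d L hL _ h0
    have : L = [] := List.length_eq_zero_iff.mp (by omega)
    simp [this] at h0
  | succ n ih =>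
    intro d L hL hlt h0
    cases L with
    | nil => simp at h0
    | cons s L =>
      by_cases hs : s = 0
      · subst hs
        rw [List.map_cons, vec_zero, PS_cons_zero]
      · have hs64 : s < 64 := hlt s (by simp)
        have h0' : 0 ∈ L := by
          rcases List.mem_cons.mp h0 with h | h
          · exact absurd h.symm hs
          · exact h
        have hlen : L.length ≤ n := by simpa using hL
        have hk := ker_pr s ⟨s.log2, log2_lt hs64 hs⟩ (testBit_log2 hs)
        rw [List.map_cons, PS_cons M d (vec s) (L.map vec) _ (vec_ne_zero hs64 hs) hk]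
        have e1 : PS M d (L.map vec) = 0 := ih d L hlen (fun t ht => hlt t (by simp [ht])) h0'
        have e2 : (L.map vec).map (pr s ⟨s.log2, log2_lt hs64 hs⟩) = (L.map (con s)).map vec := by
          rw [List.map_map, List.map_map]
          apply List.map_congr_left
          intro t _
          exact pr_vec s t _ rfl
        have e3 : PS M (d - 1) ((L.map (con s)).map vec) = 0 := by
          apply ih (d - 1) (L.map (con s)) (by simpa using hlen)
          · intro t ht
            obtain ⟨u, hu, rfl⟩ := List.mem_map.mp ht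
            exact con_lt hs64 (hlt u (by simp [hu]))
          · exact List.mem_map.mpr ⟨0, h0', by simp [con]⟩
        rw [e1, e2, e3, sub_zero]

/-- the list of powers `M^d, ..., M, 1` -/
def pows (M : ℤ) : ℕ → List ℤ
  | 0 => [1]
  | d+1 => M ^ (d+1) :: pows M d

lemma pows_head (M : ℤ) (d : ℕ) : (pows M d).headD 0 = M ^ d := by
  cases d <;> simp [pows]

lemma ev_nil (M : ℤ) (n d : ℕ) : ev n (pows M d) [] = M ^ d := by
  cases n <;> simp only [ev] <;> exact pows_head M d

/-- rank bound needed so that the power list does not run out: we simply carry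
    the hypothesis that `d` is at least the rank -/
lemma PS_eval (M : ℤ) : ∀ (n d : ℕ) (L : List ℕ), L.length ≤ n → (∀ t ∈ L, t < 64) →
    rk {x | x ∈ L.map vec} ≤ d → 0 ∉ L →
    ev n (pows M d) L = PS M d (L.map vec) := by
  intro n
  induction n with
  | zero =>
    intro d L hL _ _ _
    have : L = [] := List.length_eq_zero_iff.mp (by omega)
    subst this
    rw [ev_nil, List.map_nil, PS_nil]
  | succ n ih =>
    intro d L hL hlt hr h0
    cases L with
    | nil => rw [ev_nil, List.map_nil, PS_nil]
    | cons s L =>
      have hs : s ≠ 0 := by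
        rintro rfl; exact h0 (by simp)
      have hs64 : s < 64 := hlt s (by simp)
      have hlen : L.length ≤ n := by simpa using hL
      have hk := ker_pr s ⟨s.log2, log2_lt hs64 hs⟩ (testBit_log2 hs)
      have e2 : (L.map vec).map (pr s ⟨s.log2, log2_lt hs64 hs⟩) = (L.map (con s)).map vec := by
        rw [List.map_map, List.map_map]
        apply List.map_congr_left
        intro t _
        exact pr_vec s t _ rfl
      have hset : ({x | x ∈ (s :: L).map vec} : Set V) = insert (vec s) {x | x ∈ L.map vec} := by
        ext x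
        simp only [List.map_cons, List.mem_cons, Set.mem_ofPred_eq, Set.mem_insert_iff]
      have hr2 := rank_insert (vec s) {x | x ∈ L.map vec} _ (vec_ne_zero hs64 hs) hk
      have himg : (pr s ⟨s.log2, log2_lt hs64 hs⟩) '' {x | x ∈ L.map vec} =
          {x | x ∈ (L.map (con s)).map vec} := by
        rw [← e2]
        ext x
        simp only [Set.mem_image, Set.mem_ofPred_eq, List.mem_map (l := L.map vec)]
      rw [himg] at hr2
      have hr3 := hr
      rw [hset, hr2] at hr3
      have hd : ∃ e, d = e + 1 := ⟨d - 1, by omega⟩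
      obtain ⟨e, rfl⟩ := hd
      have hrL : rk {x | x ∈ L.map vec} ≤ e + 1 := by
        have hmono : Submodule.span (ZMod 2) {x | x ∈ L.map vec} ≤
            Submodule.span (ZMod 2) (insert (vec s) {x | x ∈ L.map vec}) :=
          Submodule.span_mono (Set.subset_insert _ _)
        have := Submodule.finrank_mono hmono
        rw [hset] at hr
        unfold rk at hr ⊢
        omega
      rw [List.map_cons, PS_cons M _ (vec s) (L.map vec) _ (vec_ne_zero hs64 hs) hk, e2]
      have a1 : ev n (pows M (e+1)) L = PS M (e+1) (L.map vec) :=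
        ih (e+1) L hlen (fun t ht => hlt t (by simp [ht])) hrL (fun h => h0 (by simp [h]))
      have hlt' : ∀ t ∈ L.map (con s), t < 64 := by
        intro t ht
        obtain ⟨u, hu, rfl⟩ := List.mem_map.mp ht
        exact con_lt hs64 (hlt u (by simp [hu]))
      have a2 : (if (L.map (con s)).contains 0 then 0 else ev n (pows M (e+1)).tail (L.map (con s)))
          = PS M (e + 1 - 1) ((L.map (con s)).map vec) := by
        by_cases hc : (L.map (con s)).contains 0
        · rw [if_pos hc]
          exact (PS_contains M n _ _ (by simpa using hlen) hlt' (by simpa using hc)).symm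
        · rw [if_neg hc]
          have : (pows M (e+1)).tail = pows M e := by simp [pows]
          rw [this]
          exact ih e _ (by simpa using hlen) hlt' (by omega) (by simpa using hc)
      rw [← a1, ← a2]
      rfl

lemma sum_powerset_list {β : Type} [AddCommMonoid β] (f : Finset V → β) :
    ∀ L : List V, L.Nodup → ∑ X ∈ L.toFinset.powerset, f X =
      ((L.sublists').map (fun X => f X.toFinset)).sum := by
  intro L
  induction L generalizing f with
  | nil => intro _; simp
  | cons a L ih =>
    intro h
    rw [List.nodup_cons] at h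
    have ha : a ∉ L.toFinset := by simpa using h.1
    rw [List.toFinset_cons, Finset.sum_powerset_insert ha, ih f h.2,
      ih (fun X => f (insert a X)) h.2, List.sublists'_cons, List.map_append, List.sum_append,
      List.map_map]
    congr 1
    congr 1
    apply List.map_congr_left
    intro X _
    simp

def SV : List V := Sl.map vec

lemma SV_nodup : SV.Nodup := by decide +kernel

lemma span_top : Submodule.span (ZMod 2) ((SV.toFinset : Finset V) : Set V) = ⊤ := by
  rw [eq_top_iff, ← (Pi.basisFun (ZMod 2) (Fin 6)).span_eq]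
  apply Submodule.span_mono
  rintro _ ⟨i, rfl⟩
  rw [Pi.basisFun_apply]
  have : ∀ i : Fin 6, (Pi.single i 1 : V) ∈ SV.toFinset := by decide +kernel
  exact_mod_cast this i

lemma eval_pt (M : ℤ) :
    ((∑ X ∈ SV.toFinset.powerset, (-1 : Polynomial ℤ) ^ X.card *
          Polynomial.X ^ (Module.finrank (ZMod 2)
              ↥(Submodule.span (ZMod 2) ((SV.toFinset : Finset V) : Set V)) -
            Module.finrank (ZMod 2)
              ↥(Submodule.span (ZMod 2) (X : Set V))))).eval M = ev 21 (pows M 6) Sl := by
  have hfr : Module.finrank (ZMod 2)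
      ↥(Submodule.span (ZMod 2) ((SV.toFinset : Finset V) : Set V)) = 6 := by
    rw [span_top, finrank_top]; simp
  rw [hfr, PS_eval M 21 6 Sl (by decide) (by decide) ?_ (by decide)]
  · rw [Polynomial.eval_finsetSum, sum_powerset_list _ SV SV_nodup]
    unfold PS
    apply congrArg
    apply List.map_congr_left
    intro X hX
    have hsub : X.Sublist SV := by
      have := List.mem_sublists'.mp hX
      exact this
    have hnd : X.Nodup := hsub.nodup SV_nodup
    have hc : X.toFinset.card = X.length := List.toFinset_card_of_nodup hnd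
    have hs : ((X.toFinset : Finset V) : Set V) = {x | x ∈ X} := by
      ext x; simp
    rw [hc, hs]
    simp [rk]
  · unfold rk
    refine le_trans (Submodule.finrank_le _) ?_
    simp

set_option maxRecDepth 100000 in
lemma ev_vals : (ev 21 (pows 0 6) Sl = 720 ∧ ev 21 (pows 1 6) Sl = 0 ∧ ev 21 (pows 2 6) Sl = 0 ∧
    ev 21 (pows 3 6) Sl = 0) ∧ (ev 21 (pows 4 6) Sl = 0 ∧ ev 21 (pows 5 6) Sl = 0) ∧
    ev 21 (pows 6 6) Sl = 0 := by decide +kernel

lemma charpoly :
    (∑ X ∈ SV.toFinset.powerset, (-1 : Polynomial ℤ) ^ X.card *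
          Polynomial.X ^ (Module.finrank (ZMod 2)
              ↥(Submodule.span (ZMod 2) ((SV.toFinset : Finset V) : Set V)) -
            Module.finrank (ZMod 2)
              ↥(Submodule.span (ZMod 2) (X : Set V)))) =
    ∏ i ∈ Finset.range 6, (Polynomial.X - Polynomial.C ((i : ℤ) + 1)) := by
  have hfr : Module.finrank (ZMod 2)
      ↥(Submodule.span (ZMod 2) ((SV.toFinset : Finset V) : Set V)) = 6 := by
    rw [span_top, finrank_top]; simp
  apply Polynomial.eq_of_degrees_lt_of_eval_finset_eq ({0, 1, 2, 3, 4, 5, 6} : Finset ℤ)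
  · have : ((({0, 1, 2, 3, 4, 5, 6} : Finset ℤ).card : ℕ) : WithBot ℕ) = 7 := by
      have : ({0, 1, 2, 3, 4, 5, 6} : Finset ℤ).card = 7 := by decide
      rw [this]; rfl
    rw [this]
    refine lt_of_le_of_lt (Polynomial.degree_sum_le _ _) ?_
    rw [Finset.sup_lt_iff (by exact WithBot.bot_lt_coe 7)]
    intro X _
    have h1 : ((-1 : Polynomial ℤ) ^ X.card) = Polynomial.C ((-1) ^ X.card) := by simp
    rw [h1, hfr]
    refine lt_of_le_of_lt (Polynomial.degree_C_mul_X_pow_le _ _) ?_
    have : 6 - Module.finrank (ZMod 2) ↥(Submodule.span (ZMod 2) (X : Set V)) < 7 := by omega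
    exact_mod_cast this
  · have : ((({0, 1, 2, 3, 4, 5, 6} : Finset ℤ).card : ℕ) : WithBot ℕ) = 7 := by
      have : ({0, 1, 2, 3, 4, 5, 6} : Finset ℤ).card = 7 := by decide
      rw [this]; rfl
    rw [this]
    have h2 : (∏ i ∈ Finset.range 6, (Polynomial.X - Polynomial.C ((i : ℤ) + 1))).natDegree ≤ 6 := by
      refine le_trans (Polynomial.natDegree_prod_le _ _) ?_
      refine le_trans (Finset.sum_le_sum (g := fun _ => 1) ?_) (by simp)
      intro i _
      exact Polynomial.natDegree_X_sub_C_le _
    refine lt_of_le_of_lt (Polynomial.degree_le_natDegree) ?_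
    exact_mod_cast Nat.lt_succ_of_le h2
  · intro M hM
    rw [eval_pt, Polynomial.eval_prod]
    obtain ⟨⟨v0, v1, v2, v3⟩, ⟨v4, v5⟩, v6⟩ := ev_vals
    simp only [Finset.mem_insert, Finset.mem_singleton] at hM
    rcases hM with rfl | rfl | rfl | rfl | rfl | rfl | rfl
    · rw [v0]; simp [Finset.prod_range_succ]
    · rw [v1]; simp [Finset.prod_range_succ]
    · rw [v2]; simp [Finset.prod_range_succ]
    · rw [v3]; simp [Finset.prod_range_succ]
    · rw [v4]; simp [Finset.prod_range_succ]
    · rw [v5]; simp [Finset.prod_range_succ]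
    · rw [v6]; simp [Finset.prod_range_succ]

/-- no hyperplane is modular: combinatorial form -/
lemma no_modular : ∀ h : Fin 6 → ZMod 2, h ≠ 0 → ∃ a ∈ SV, ∃ b ∈ SV,
    (∑ i, h i * a i = 1) ∧ (∑ i, h i * b i = 1) ∧ a ≠ b ∧ a + b ∉ SV := by
  decide +kernel

/-- The negation of the preceding statement: For any finite set S of nonzero vectors over GF(2), if its matroid's characteristic polynomial equals (x−1)(x−2)⋯(x−n), then there is a maximal chain of flats of ranks 0,1,…,n, each modular, ending at span S; that is, the matroid is supersolvable. -/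
theorem result :
    ¬ (∀ (m : ℕ) (S : Finset (Fin m → ZMod 2)), (0 : Fin m → ZMod 2) ∉ S →
    ∀ n : ℕ,
      (∑ X ∈ S.powerset, (-1 : Polynomial ℤ) ^ X.card *
          Polynomial.X ^ (Module.finrank (ZMod 2)
              ↥(Submodule.span (ZMod 2) (S : Set (Fin m → ZMod 2))) -
            Module.finrank (ZMod 2)
              ↥(Submodule.span (ZMod 2) (X : Set (Fin m → ZMod 2)))))
        = ∏ i ∈ Finset.range n, (Polynomial.X - Polynomial.C ((i : ℤ) + 1)) →
      ∃ W : ℕ → Submodule (ZMod 2) (Fin m → ZMod 2),
        (∀ i, i ≤ n → Module.finrank (ZMod 2) ↥(W i) = i) ∧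
        (∀ i, i < n → W i ≤ W (i + 1)) ∧
        W n = Submodule.span (ZMod 2) (S : Set (Fin m → ZMod 2)) ∧
        (∀ i, i ≤ n →
          Submodule.span (ZMod 2)
            ((S : Set (Fin m → ZMod 2)) ∩ (W i : Set (Fin m → ZMod 2))) = W i) ∧
        (∀ i, i ≤ n → ∀ U : Submodule (ZMod 2) (Fin m → ZMod 2),
          Submodule.span (ZMod 2)
            ((S : Set (Fin m → ZMod 2)) ∩ (U : Set (Fin m → ZMod 2))) = U →
          Module.finrank (ZMod 2) ↥(W i) + Module.finrank (ZMod 2) ↥U =
            Module.finrank (ZMod 2) ↥(W i ⊔ U) +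
            Module.finrank (ZMod 2)
              ↥(Submodule.span (ZMod 2)
                ((S : Set (Fin m → ZMod 2)) ∩ (W i : Set (Fin m → ZMod 2)) ∩
                  (U : Set (Fin m → ZMod 2)))))) := by
  intro H
  have h0 : (0 : V) ∉ SV.toFinset := by decide +kernel
  obtain ⟨W, hW1, -, -, -, hW5⟩ := H 6 SV.toFinset h0 6 charpoly
  have hfin : Module.finrank (ZMod 2) (W 5) = 5 := hW1 5 (by norm_num)
  have hlt : W 5 < ⊤ := by
    rw [lt_top_iff_ne_top]
    intro htop
    rw [htop, finrank_top] at hfin
    simp at hfin
  obtain ⟨f, hf0, hf⟩ := Submodule.exists_le_ker_of_lt_top (W 5) hlt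
  -- coordinates of f
  set h : Fin 6 → ZMod 2 := fun i => f (Pi.single i 1) with hh
  have hfx : ∀ x : V, f x = ∑ i, h i * x i := by
    intro x
    conv_lhs => rw [← Finset.univ_sum_single x]
    rw [map_sum]
    apply Finset.sum_congr rfl
    intro i _
    have : (Pi.single i (x i) : V) = x i • Pi.single i 1 := by
      rw [← Pi.single_smul, smul_eq_mul, mul_one]
    rw [this, map_smul, smul_eq_mul, mul_comm]
  have hne : h ≠ 0 := by
    intro hz
    apply hf0
    ext1 i
    ext
    have := congrFun hz i
    simpa [hh] using this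
  obtain ⟨a, ha, b, hb, fa, fb, hab, habS⟩ := no_modular h hne
  rw [← hfx] at fa fb
  have haS : a ∈ (SV.toFinset : Set V) := by simpa using ha
  have hbS : b ∈ (SV.toFinset : Set V) := by simpa using hb
  have hUflat : Submodule.span (ZMod 2) ((SV.toFinset : Set V) ∩
      (Submodule.span (ZMod 2) {a, b} : Set V)) = Submodule.span (ZMod 2) {a, b} := by
    apply le_antisymm
    · rw [Submodule.span_le]
      exact Set.inter_subset_right
    · apply Submodule.span_mono
      rintro x hx
      refine ⟨?_, Submodule.subset_span hx⟩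
      rcases hx with rfl | rfl
      · exact haS
      · exact hbS
  have key := hW5 5 (by norm_num) (Submodule.span (ZMod 2) {a, b}) hUflat
  have hU2 : Module.finrank (ZMod 2) ↥(Submodule.span (ZMod 2) ({a, b} : Set V)) = 2 := by
    have hli : LinearIndependent (ZMod 2) ![a, b] := by
      rw [LinearIndependent.pair_iff]
      intro s t hst
      have hcase : ∀ z : ZMod 2, z = 0 ∨ z = 1 := by decide
      have hane : a ≠ 0 := by
        rintro rfl
        exact h0 (by simpa using ha)
      have hbne : b ≠ 0 := by
        rintro rfl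
        exact h0 (by simpa using hb)
      rcases hcase s with rfl | rfl <;> rcases hcase t with rfl | rfl
      · exact ⟨rfl, rfl⟩
      · exfalso; apply hbne; simpa using hst
      · exfalso; apply hane; simpa using hst
      · exfalso
        apply hab
        have h1 : a + b = 0 := by simpa using hst
        have h2 : a + b = b + b := by rw [h1, add_self_zero]
        exact add_right_cancel h2
    have hfs := finrank_span_eq_card hli
    have hrange : Set.range ![a, b] = ({a, b} : Set V) := by
      ext x
      simp only [Set.mem_range, Fin.exists_fin_two, Matrix.cons_val_zero, Matrix.cons_val_one,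
        Set.mem_insert_iff, Set.mem_singleton_iff]
      constructor
      · rintro (h | h)
        · exact Or.inl h.symm
        · exact Or.inr h.symm
      · rintro (h | h)
        · exact Or.inl h.symm
        · exact Or.inr h.symm
    rw [hrange] at hfs
    rw [hfs, Fintype.card_fin]
  have hempty : ((SV.toFinset : Finset V) : Set V) ∩ (W 5 : Set V) ∩
      (Submodule.span (ZMod 2) {a, b} : Set V) = ∅ := by
    ext x
    simp only [Set.mem_inter_iff, Set.mem_empty_iff_false, iff_false]
    rintro ⟨⟨hxS, hxW⟩, hxU⟩
    have hfx0 : f x = 0 := by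
      have := hf hxW
      simpa using this
    obtain ⟨s, t, rfl⟩ := Submodule.mem_span_pair.mp hxU
    have hcase : ∀ z : ZMod 2, z = 0 ∨ z = 1 := by decide
    rcases hcase s with rfl | rfl <;> rcases hcase t with rfl | rfl
    · apply h0
      have : (0 : ZMod 2) • a + (0 : ZMod 2) • b = 0 := by simp
      rw [this] at hxS
      exact_mod_cast hxS
    · have : (0 : ZMod 2) • a + (1 : ZMod 2) • b = b := by simp
      rw [this, fb] at hfx0
      exact one_ne_zero hfx0
    · have : (1 : ZMod 2) • a + (0 : ZMod 2) • b = a := by simp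
      rw [this, fa] at hfx0
      exact one_ne_zero hfx0
    · have : (1 : ZMod 2) • a + (1 : ZMod 2) • b = a + b := by simp
      rw [this] at hxS
      apply habS
      have : a + b ∈ SV.toFinset := by exact_mod_cast hxS
      simpa using this
  rw [hempty, hfin, hU2, Submodule.span_empty, finrank_bot] at key
  have hle : Module.finrank (ZMod 2) ↥(W 5 ⊔ Submodule.span (ZMod 2) ({a, b} : Set V)) ≤ 6 := by
    refine le_trans (Submodule.finrank_le _) ?_
    simp
  omega

end Pool.Agent.S12180
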