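import Pool.Statements.S12226

set_option autoImplicit false
open Classical
open Pool Pool.MP_eb5675_co

namespace Pool.Agent.S12226

/-- Sum over the 15 edges of the complete graph on six vertices. -/
lemma sum_edges (inst : Fintype (⊤ : SimpleGraph (Fin 6)).edgeSet) (f : Sym2 (Fin 6) → ℝ) :
    ∑ e ∈ @SimpleGraph.edgeFinset (Fin 6) ⊤ inst, f e =
      f s(0,1) + (f s(0,2) + (f s(0,3) + (f s(0,4) + (f s(0,5) +
      (f s(1,2) + (f s(1,3) + (f s(1,4) + (f s(1,5) +
      (f s(2,3) + (f s(2,4) + (f s(2,5) + (f s(3,4) + (f s(3,5) + f s(4,5)))))))))))))) := by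
  have h : @SimpleGraph.edgeFinset (Fin 6) ⊤ inst =
      ({s(0,1), s(0,2), s(0,3), s(0,4), s(0,5), s(1,2), s(1,3), s(1,4), s(1,5),
        s(2,3), s(2,4), s(2,5), s(3,4), s(3,5), s(4,5)} : Finset (Sym2 (Fin 6))) := by
    ext e
    rw [SimpleGraph.mem_edgeFinset]
    induction e using Sym2.ind with
    | _ a b =>
      rw [SimpleGraph.mem_edgeSet, SimpleGraph.top_adj]
      revert a b
      decide
  rw [h]
  rw [Finset.sum_insert (by decide), Finset.sum_insert (by decide), Finset.sum_insert (by decide),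
    Finset.sum_insert (by decide), Finset.sum_insert (by decide), Finset.sum_insert (by decide),
    Finset.sum_insert (by decide), Finset.sum_insert (by decide), Finset.sum_insert (by decide),
    Finset.sum_insert (by decide), Finset.sum_insert (by decide), Finset.sum_insert (by decide),
    Finset.sum_insert (by decide), Finset.sum_insert (by decide), Finset.sum_singleton]

/-- The coefficient of the edge `ab` in the inequality of `(V', H)`. -/
noncomputable def co (V' : Finset (Fin 6)) (H : SimpleGraph (Fin 6)) (a b : Fin 6) : ℝ :=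
  if H.Adj a b then -1 else if a ∈ V' ∧ b ∈ V' then 2 else if a ∈ V' ∨ b ∈ V' then 1 / 2 else 0

/-- The configurations in which a triangle has total coefficient zero. -/
def Z (V' : Finset (Fin 6)) (H : SimpleGraph (Fin 6)) (a b c : Fin 6) : Prop :=
  (a ∉ V' ∧ b ∉ V' ∧ c ∉ V') ∨
  (H.Adj a b ∧ c ∉ V') ∨ (H.Adj a c ∧ b ∉ V') ∨ (H.Adj b c ∧ a ∉ V') ∨
  (H.Adj a b ∧ H.Adj a c ∧ ¬ H.Adj b c) ∨
  (H.Adj a b ∧ H.Adj b c ∧ ¬ H.Adj a c) ∨
  (H.Adj a c ∧ H.Adj b c ∧ ¬ H.Adj a b)

variable {V' : Finset (Fin 6)} {H : SimpleGraph (Fin 6)}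

/-- Each triangle has total coefficient zero or at least one; and it is zero only in the
listed configurations. -/
lemma tri (hV : ∀ u v, H.Adj u v → u ∈ V' ∧ v ∈ V') (hT : H.CliqueFree 3) (a b c : Fin 6) :
    1 ≤ co V' H a b + co V' H a c + co V' H b c ∨
    (co V' H a b + co V' H a c + co V' H b c = 0 ∧ Z V' H a b c) := by
  have h3 : ¬ (H.Adj a b ∧ H.Adj a c ∧ H.Adj b c) := by
    rintro ⟨h1, h2, h3⟩
    exact hT {a, b, c} (SimpleGraph.is3Clique_triple_iff.2 ⟨h1, h2, h3⟩)
  have h1 := hV a b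
  have h2 := hV a c
  have h4 := hV b c
  unfold co Z
  by_cases pa : a ∈ V' <;> by_cases pb : b ∈ V' <;> by_cases pc : c ∈ V' <;>
  by_cases qab : H.Adj a b <;> by_cases qac : H.Adj a c <;> by_cases qbc : H.Adj b c <;>
  simp_all <;> norm_num

/-- Pure logic: the triangles on `{0,1,2,3,4}` cannot all be in a zero configuration. -/
lemma noZ (hV : ∀ u v, H.Adj u v → u ∈ V' ∧ v ∈ V') (h0 : (0 : Fin 6) ∈ V')
    (h012 : Z V' H 0 1 2) (h013 : Z V' H 0 1 3) (h014 : Z V' H 0 1 4) (h023 : Z V' H 0 2 3)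
    (h024 : Z V' H 0 2 4) (h034 : Z V' H 0 3 4) (h123 : Z V' H 1 2 3) (h124 : Z V' H 1 2 4)
    (h134 : Z V' H 1 3 4) (h234 : Z V' H 2 3 4) : False := by
  have e01 := hV 0 1
  have e02 := hV 0 2
  have e03 := hV 0 3
  have e04 := hV 0 4
  have e12 := hV 1 2
  have e13 := hV 1 3
  have e14 := hV 1 4
  have e23 := hV 2 3
  have e24 := hV 2 4
  have e34 := hV 3 4
  clear hV
  unfold Z at *
  by_cases p1 : (1 : Fin 6) ∈ V' <;> by_cases p2 : (2 : Fin 6) ∈ V' <;>
  by_cases p3 : (3 : Fin 6) ∈ V' <;> by_cases p4 : (4 : Fin 6) ∈ V' <;>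
  simp [h0, p1, p2, p3, p4] at * <;>
  grind


/-- The weights on the edges of the complete graph on six vertices. -/
noncomputable def wt (e : Sym2 (Fin 6)) : ℝ :=
  if e = s(0,5) then 5 else if (5 : Fin 6) ∈ e then 1 else if (0 : Fin 6) ∈ e then 4 else 3

/-- The coefficient appearing in the frozen statement, on an edge `s(a,b)`. -/
lemma co_eq (V' : Finset (Fin 6)) (H : SimpleGraph (Fin 6)) (a b : Fin 6)
    (i1 : Decidable (s(a,b) ∈ H.edgeSet)) (i2 : Decidable (∀ v ∈ s(a,b), v ∈ V'))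
    (i3 : Decidable (∃ v ∈ s(a,b), v ∈ V')) :
    (@ite ℝ (s(a,b) ∈ H.edgeSet) i1 (-1 : ℝ)
      (@ite ℝ (∀ v ∈ s(a,b), v ∈ V') i2 2
      (@ite ℝ (∃ v ∈ s(a,b), v ∈ V') i3 (1 / 2) 0))) = co V' H a b := by
  unfold co
  have e1 : (s(a,b) ∈ H.edgeSet) ↔ H.Adj a b := SimpleGraph.mem_edgeSet H
  have e2 : (∀ v ∈ s(a,b), v ∈ V') ↔ (a ∈ V' ∧ b ∈ V') := by simp
  have e3 : (∃ v ∈ s(a,b), v ∈ V') ↔ (a ∈ V' ∨ b ∈ V') := by simp
  by_cases h1 : H.Adj a b
  · rw [if_pos h1, if_pos (e1.2 h1)]
  · rw [if_neg h1, if_neg (fun h => h1 (e1.1 h))]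
    by_cases h2 : a ∈ V' ∧ b ∈ V'
    · rw [if_pos h2, if_pos (e2.2 h2)]
    · rw [if_neg h2, if_neg (fun h => h2 (e2.1 h))]
      by_cases h3 : a ∈ V' ∨ b ∈ V'
      · rw [if_pos h3, if_pos (e3.2 h3)]
      · rw [if_neg h3, if_neg (fun h => h3 (e3.1 h))]

/-- Every inequality of the proposed description holds for the weights. -/
lemma mem_P (hV : ∀ u v, H.Adj u v → u ∈ V' ∧ v ∈ V') (hT : H.CliqueFree 3) :
    0 ≤ co V' H 0 1 * 4 + (co V' H 0 2 * 4 + (co V' H 0 3 * 4 + (co V' H 0 4 * 4 +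
      (co V' H 0 5 * 5 +
      (co V' H 1 2 * 3 + (co V' H 1 3 * 3 + (co V' H 1 4 * 3 + (co V' H 1 5 * 1 +
      (co V' H 2 3 * 3 + (co V' H 2 4 * 3 + (co V' H 2 5 * 1 + (co V' H 3 4 * 3 +
      (co V' H 3 5 * 1 + co V' H 4 5 * 1))))))))))))) := by
  have t012 := tri hV hT 0 1 2
  have t013 := tri hV hT 0 1 3
  have t014 := tri hV hT 0 1 4
  have t023 := tri hV hT 0 2 3
  have t024 := tri hV hT 0 2 4
  have t034 := tri hV hT 0 3 4
  have t123 := tri hV hT 1 2 3
  have t124 := tri hV hT 1 2 4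
  have t134 := tri hV hT 1 3 4
  have t234 := tri hV hT 2 3 4
  have nn : ∀ a b c : Fin 6, 0 ≤ co V' H a b + co V' H a c + co V' H b c := by
    intro a b c
    rcases tri hV hT a b c with h | h
    · linarith
    · exact h.1.ge
  have n012 := nn 0 1 2
  have n013 := nn 0 1 3
  have n014 := nn 0 1 4
  have n023 := nn 0 2 3
  have n024 := nn 0 2 4
  have n034 := nn 0 3 4
  have n123 := nn 1 2 3
  have n124 := nn 1 2 4
  have n134 := nn 1 3 4
  have n234 := nn 2 3 4
  have n1 := nn 0 1 5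
  have n2 := nn 0 2 5
  have n3 := nn 0 3 5
  have n4 := nn 0 4 5
  by_cases h05 : H.Adj 0 5
  · have h0 : (0 : Fin 6) ∈ V' := (hV 0 5 h05).1
    have hc : co V' H 0 5 = -1 := by unfold co; rw [if_pos h05]
    by_contra hneg
    push Not at hneg
    refine noZ (V' := V') (H := H) hV h0 ?_ ?_ ?_ ?_ ?_ ?_ ?_ ?_ ?_ ?_
    · rcases t012 with h | h
      · exfalso; linarith
      · exact h.2
    · rcases t013 with h | h
      · exfalso; linarith
      · exact h.2
    · rcases t014 with h | h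
      · exfalso; linarith
      · exact h.2
    · rcases t023 with h | h
      · exfalso; linarith
      · exact h.2
    · rcases t024 with h | h
      · exfalso; linarith
      · exact h.2
    · rcases t034 with h | h
      · exfalso; linarith
      · exact h.2
    · rcases t123 with h | h
      · exfalso; linarith
      · exact h.2
    · rcases t124 with h | h
      · exfalso; linarith
      · exact h.2
    · rcases t134 with h | h
      · exfalso; linarith
      · exact h.2
    · rcases t234 with h | h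
      · exfalso; linarith
      · exact h.2
  · have hc : 0 ≤ co V' H 0 5 := by
      unfold co; rw [if_neg h05]; split_ifs <;> norm_num
    linarith

/-- The weights are not a nonnegative combination of triangles. -/
lemma not_mem_C (s : Finset (Finset (Fin 6))) (hs : ∀ t ∈ s, t.card = 3)
    (c : Finset (Fin 6) → ℝ) (hc : ∀ t, 0 ≤ c t)
    (h : ∀ a b : Fin 6, a ≠ b →
      wt s(a,b) = ∑ t ∈ s, (if a ∈ t ∧ b ∈ t then c t else 0)) : False := by
  have h05 := h 0 5 (by decide)
  have h1 := h 5 1 (by decide)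
  have h2 := h 5 2 (by decide)
  have h3 := h 5 3 (by decide)
  have h4 := h 5 4 (by decide)
  have w05 : wt s(0,5) = 5 := by simp [wt]
  have w1 : wt s(5,1) = 1 := by
    unfold wt; rw [if_neg (by decide), if_pos (by simp)]
  have w2 : wt s(5,2) = 1 := by
    unfold wt; rw [if_neg (by decide), if_pos (by simp)]
  have w3 : wt s(5,3) = 1 := by
    unfold wt; rw [if_neg (by decide), if_pos (by simp)]
  have w4 : wt s(5,4) = 1 := by
    unfold wt; rw [if_neg (by decide), if_pos (by simp)]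
  have key : ∑ t ∈ s, (if (0 : Fin 6) ∈ t ∧ (5 : Fin 6) ∈ t then c t else 0) ≤
      ∑ t ∈ s, ((if (5 : Fin 6) ∈ t ∧ (1 : Fin 6) ∈ t then c t else 0) +
        (if (5 : Fin 6) ∈ t ∧ (2 : Fin 6) ∈ t then c t else 0) +
        (if (5 : Fin 6) ∈ t ∧ (3 : Fin 6) ∈ t then c t else 0) +
        (if (5 : Fin 6) ∈ t ∧ (4 : Fin 6) ∈ t then c t else 0)) := by
    apply Finset.sum_le_sum
    intro t ht
    have hct := hc t
    have nn : ∀ (a b : Fin 6), 0 ≤ (if a ∈ t ∧ b ∈ t then c t else 0) := by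
      intro a b; split_ifs <;> simp [hct]
    have g1 := nn 5 1
    have g2 := nn 5 2
    have g3 := nn 5 3
    have g4 := nn 5 4
    by_cases h0 : (0 : Fin 6) ∈ t ∧ (5 : Fin 6) ∈ t
    · rw [if_pos h0]
      have m5 : (5 : Fin 6) ∈ t := h0.2
      have : ∃ i ∈ t, i ≠ 0 ∧ i ≠ 5 := by
        by_contra hno
        push Not at hno
        have hsub : t ⊆ {0, 5} := by
          intro i hi
          by_cases hi0 : i = 0
          · simp [hi0]
          · simp [hno i hi hi0]
        have := Finset.card_le_card hsub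
        rw [hs t ht] at this
        have h2 : ({0, 5} : Finset (Fin 6)).card = 2 := by decide
        omega
      obtain ⟨i, hi, hi0, hi5⟩ := this
      have hi' : i = 1 ∨ i = 2 ∨ i = 3 ∨ i = 4 := by
        revert hi0 hi5; clear hi; revert i; decide
      rcases hi' with rfl | rfl | rfl | rfl
      · have hh : (5 : Fin 6) ∈ t ∧ (1 : Fin 6) ∈ t := ⟨m5, hi⟩
        rw [if_pos hh]; linarith
      · have hh : (5 : Fin 6) ∈ t ∧ (2 : Fin 6) ∈ t := ⟨m5, hi⟩
        rw [if_pos hh]; linarith
      · have hh : (5 : Fin 6) ∈ t ∧ (3 : Fin 6) ∈ t := ⟨m5, hi⟩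
        rw [if_pos hh]; linarith
      · have hh : (5 : Fin 6) ∈ t ∧ (4 : Fin 6) ∈ t := ⟨m5, hi⟩
        rw [if_pos hh]; linarith
    · rw [if_neg h0]; linarith
  rw [Finset.sum_add_distrib, Finset.sum_add_distrib, Finset.sum_add_distrib,
    ← h05, ← h1, ← h2, ← h3, ← h4, w05, w1, w2, w3, w4] at key
  norm_num at key

/-- The negation of the preceding statement: For every finite graph G and real edge vector x: x is a nonnegative combination of triangle edge-indicator vectors iff the sum of v_H(e)·x(e) is at least 0 for every triangle-free subgraph H, with v_H equal to -1 on H-edges, 2 inside V', 1/2 on edges with exactly one end in V', 0 otherwise. -/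
theorem result :
    ¬ (∀ (V : Type) [Fintype V] (G : SimpleGraph V) (x : Sym2 V → ℝ),
      (∃ c : Finset V → ℝ, (∀ t, 0 ≤ c t) ∧
          ∀ e ∈ G.edgeFinset,
            x e = ∑ t ∈ G.cliqueFinset 3, (if (∀ v ∈ e, v ∈ t) then c t else 0)) ↔
      (∀ (V' : Finset V) (H : SimpleGraph V), H ≤ G →
          (∀ u v, H.Adj u v → u ∈ V' ∧ v ∈ V') → H.CliqueFree 3 →
          0 ≤ ∑ e ∈ G.edgeFinset,
            (if e ∈ H.edgeSet then (-1 : ℝ)
              else if (∀ v ∈ e, v ∈ V') then 2
              else if (∃ v ∈ e, v ∈ V') then 1 / 2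
              else 0) * x e)) := by
  intro hall
  have hP := (hall (Fin 6) ⊤ wt).2 (by
    intro V' H _ hV hT
    rw [sum_edges]
    have h := mem_P hV hT
    have w01 : wt s(0,1) = 4 := by
      unfold wt; rw [if_neg (by decide), if_neg (by decide), if_pos (by simp)]
    have w02 : wt s(0,2) = 4 := by
      unfold wt; rw [if_neg (by decide), if_neg (by decide), if_pos (by simp)]
    have w03 : wt s(0,3) = 4 := by
      unfold wt; rw [if_neg (by decide), if_neg (by decide), if_pos (by simp)]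
    have w04 : wt s(0,4) = 4 := by
      unfold wt; rw [if_neg (by decide), if_neg (by decide), if_pos (by simp)]
    have w05 : wt s(0,5) = 5 := by
      unfold wt; rw [if_pos rfl]
    have w12 : wt s(1,2) = 3 := by
      unfold wt; rw [if_neg (by decide), if_neg (by decide), if_neg (by decide)]
    have w13 : wt s(1,3) = 3 := by
      unfold wt; rw [if_neg (by decide), if_neg (by decide), if_neg (by decide)]
    have w14 : wt s(1,4) = 3 := by
      unfold wt; rw [if_neg (by decide), if_neg (by decide), if_neg (by decide)]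
    have w23 : wt s(2,3) = 3 := by
      unfold wt; rw [if_neg (by decide), if_neg (by decide), if_neg (by decide)]
    have w24 : wt s(2,4) = 3 := by
      unfold wt; rw [if_neg (by decide), if_neg (by decide), if_neg (by decide)]
    have w34 : wt s(3,4) = 3 := by
      unfold wt; rw [if_neg (by decide), if_neg (by decide), if_neg (by decide)]
    have w15 : wt s(1,5) = 1 := by
      unfold wt; rw [if_neg (by decide), if_pos (by simp)]
    have w25 : wt s(2,5) = 1 := by
      unfold wt; rw [if_neg (by decide), if_pos (by simp)]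
    have w35 : wt s(3,5) = 1 := by
      unfold wt; rw [if_neg (by decide), if_pos (by simp)]
    have w45 : wt s(4,5) = 1 := by
      unfold wt; rw [if_neg (by decide), if_pos (by simp)]
    rw [w01, w02, w03, w04, w05, w12, w13, w14, w15, w23, w24, w25, w34, w35, w45]
    rw [co_eq, co_eq, co_eq, co_eq, co_eq, co_eq, co_eq, co_eq, co_eq, co_eq, co_eq, co_eq,
      co_eq, co_eq, co_eq]
    exact h)
  obtain ⟨c, hc, hx⟩ := hP
  have hm : ∀ (a b : Fin 6) (_ : a ≠ b) (inst : Fintype (⊤ : SimpleGraph (Fin 6)).edgeSet),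
      s(a,b) ∈ @SimpleGraph.edgeFinset (Fin 6) ⊤ inst := by
    intro a b hab inst
    rw [SimpleGraph.mem_edgeFinset]
    exact hab
  refine not_mem_C _ ?h1 c hc (fun a b hab => (hx s(a,b) (hm a b hab _)).trans
    (Finset.sum_congr rfl (fun t _ => ?h2)))
  case h1 =>
    intro t ht
    exact (((@SimpleGraph.mem_cliqueFinset_iff _ _ _ (_) (_) _ _).1 ht).card_eq)
  case h2 =>
    have e2 : (∀ v ∈ s(a,b), v ∈ t) ↔ (a ∈ t ∧ b ∈ t) := by simp
    by_cases h2 : a ∈ t ∧ b ∈ t
    · rw [if_pos h2, if_pos (e2.2 h2)]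
    · rw [if_neg h2, if_neg (fun h => h2 (e2.1 h))]

end Pool.Agent.S12226
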