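import Pool.Statements.S12972
import Pool.Agent.Lib.MP_2fc951_gt.NoEmbed

set_option autoImplicit false
open Pool Pool.MP_2fc951_gt

namespace Pool.Agent.S12972

/-- The negation of the preceding statement: There is a metric space X of bounded geometry (closed r-balls have uniformly bounded finite size) such that every bounded-geometry metric space Y admits a coarse embedding into X. -/
theorem result :
    ¬ (∃ (X : Type) (_ : MetricSpace X),
    (∀ r : ℝ, 0 < r → ∃ N : ℕ, ∀ x : X, ∀ s : Finset X,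
        (↑s : Set X) ⊆ Metric.closedBall x r → s.card ≤ N) ∧
    ∀ (Y : Type) [MetricSpace Y],
      (∀ r : ℝ, 0 < r → ∃ N : ℕ, ∀ y : Y, ∀ s : Finset Y,
          (↑s : Set Y) ⊆ Metric.closedBall y r → s.card ≤ N) →
      ∃ f : Y → X, ∃ ρm ρp : ℝ → ℝ,
        MonotoneOn ρm (Set.Ici 0) ∧ MonotoneOn ρp (Set.Ici 0) ∧
        (∀ t : ℝ, 0 ≤ t → 0 ≤ ρm t ∧ 0 ≤ ρp t) ∧
        Filter.Tendsto ρm Filter.atTop Filter.atTop ∧
        ∀ y y' : Y, ρm (dist y y') ≤ dist (f y) (f y') ∧
          dist (f y) (f y') ≤ ρp (dist y y')) := by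
  rintro ⟨X, hX, hgeom, huniv⟩
  rcases isEmpty_or_nonempty X with hE | hne
  · obtain ⟨f, _⟩ := huniv PUnit (by
      intro r _
      refine ⟨1, fun y s _ => ?_⟩
      exact (Finset.card_le_univ s).trans (by simp))
    exact hE.elim (f PUnit.unit)
  · obtain ⟨D, hD⟩ := Pool.Agent.Lib.MP_2fc951_gt.no_coarse hgeom
    exact hD (huniv (Pool.Agent.Lib.MP_2fc951_gt.V D)
      (Pool.Agent.Lib.MP_2fc951_gt.bddGeom D))

end Pool.Agent.S12972
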