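import Pool.Statements.S13200
import Pool.Agent.Lib.MP_582a01_gt.Exists
import Pool.Agent.Lib.MP_582a01_gt.Bracket
import Pool.Agent.Lib.MP_582a01_gt.Killing

set_option autoImplicit false
open scoped ContDiff
open Pool Pool.MP_582a01_gt

namespace Pool.Agent.S13200

/-- The negation of the preceding statement: For odd d, any smooth periodic metric on the plane (a metric on the 2-torus) whose geodesic flow has a momentum-polynomial integral of exact degree d, not a polynomial in H, admits a nonzero periodic Killing vector field. -/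
theorem result :
    ¬ (∀ d : ℕ, Odd d →
  ∀ g : (Fin 2 → ℝ) → Fin 2 → Fin 2 → ℝ,
    (∀ i j, ContDiff ℝ ∞ (fun x => g x i j)) →
    (∀ x, (Matrix.of (g x)).PosDef) →
    (∀ (x : Fin 2 → ℝ) (v : Fin 2 → ℤ), g (x + (fun k => (v k : ℝ))) = g x) →
  ∀ H : (Fin 2 → ℝ) → (Fin 2 → ℝ) → ℝ,
    (∀ x p, H x p = (1 / 2 : ℝ) * dotProduct p ((Matrix.of (g x))⁻¹.mulVec p)) →
    (∃ (a : ℕ → ℕ → (Fin 2 → ℝ) → ℝ) (F : (Fin 2 → ℝ) → (Fin 2 → ℝ) → ℝ),
      (∀ x p, F x p = ∑ i ∈ Finset.range (d + 1), ∑ j ∈ Finset.range (d + 1 - i),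
          a i j x * p 0 ^ i * p 1 ^ j) ∧
      (∀ i j, ContDiff ℝ ∞ (a i j)) ∧
      (∀ i j (x : Fin 2 → ℝ) (v : Fin 2 → ℤ), a i j (x + (fun k => (v k : ℝ))) = a i j x) ∧
      (∃ i j x, i + j = d ∧ a i j x ≠ 0) ∧
      (∀ x p : Fin 2 → ℝ,
        ∑ k : Fin 2,
          (fderiv ℝ (fun y => F y p) x (Pi.single k (1 : ℝ))
              * fderiv ℝ (fun q => H x q) p (Pi.single k (1 : ℝ))
            - fderiv ℝ (fun q => F x q) p (Pi.single k (1 : ℝ))
              * fderiv ℝ (fun y => H y p) x (Pi.single k (1 : ℝ))) = 0) ∧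
      ¬ ∃ q : Polynomial ℝ, ∀ x p, F x p = q.eval (H x p)) →
    ∃ V : (Fin 2 → ℝ) → Fin 2 → ℝ,
      (∀ k, ContDiff ℝ ∞ (fun x => V x k)) ∧
      (∀ (x : Fin 2 → ℝ) (v : Fin 2 → ℤ), V (x + (fun k => (v k : ℝ))) = V x) ∧
      (∃ x, V x ≠ 0) ∧
      (∀ x (i j : Fin 2),
        ∑ k : Fin 2,
          (V x k * fderiv ℝ (fun y => g y i j) x (Pi.single k (1 : ℝ))
            + g x k j * fderiv ℝ (fun y => V y k) x (Pi.single i (1 : ℝ))
            + g x i k * fderiv ℝ (fun y => V y k) x (Pi.single j (1 : ℝ))) = 0)) := by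
  intro hmain
  obtain ⟨Lam, A, B, hG⟩ := Cub.exists_global
  have hper : ∀ (x : Fin 2 → ℝ) (v : Fin 2 → ℤ),
      Lam ((x + fun k => (v k : ℝ)) 0, (x + fun k => (v k : ℝ)) 1) = Lam (x 0, x 1) ∧
      A ((x + fun k => (v k : ℝ)) 0, (x + fun k => (v k : ℝ)) 1) = A (x 0, x 1) ∧
      B ((x + fun k => (v k : ℝ)) 0, (x + fun k => (v k : ℝ)) 1) = B (x 0, x 1) := by
    intro x v
    exact Cub.per_int hG (x 0) (x 1) (v 0) (v 1)
  have hsm : ∀ f : ℝ × ℝ → ℝ, ContDiff ℝ ∞ f →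
      ContDiff ℝ ∞ (fun x : Fin 2 → ℝ => f (x 0, x 1)) := by
    intro f hf
    exact hf.comp ((contDiff_apply ℝ ℝ (0 : Fin 2)).prodMk (contDiff_apply ℝ ℝ (1 : Fin 2)))
  have hne : ∀ x : Fin 2 → ℝ, Lam (x 0, x 1) ≠ 0 := fun x => (hG.pos _).ne'
  have hmain3 := hmain 3 (by decide) (Cub.gM Lam)
    (fun i j => (hsm Lam hG.smoothL).mul contDiff_const)
    (fun x => Cub.gM_posDef hG.pos x)
    (by
      intro x v
      funext i j
      unfold Cub.gM
      rw [(hper x v).1])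
    (fun x p => (1 / 2 : ℝ) * dotProduct p ((Matrix.of (Cub.gM Lam x))⁻¹.mulVec p))
    (fun x p => rfl)
  refine absurd (hmain3 ⟨Cub.cf Lam A B, Cub.FM Lam A B, fun x p => Cub.F_eq hG.pos x p,
    ?_, ?_, ?_, ?_, ?_⟩) ?_
  · intro i j
    unfold Cub.cf
    have h1 := hsm Lam hG.smoothL
    have h2 := hsm A hG.smoothA
    have h3 := hsm B hG.smoothB
    split_ifs
    · exact h2.div h1 hne
    · exact contDiff_const.add ((h3.sub h2).div h1 hne)
    · exact contDiff_const.add ((h2.sub h3).div h1 hne)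
    · exact h3.div h1 hne
    · exact contDiff_const
  · intro i j x v
    unfold Cub.cf
    rw [(hper x v).1, (hper x v).2.1, (hper x v).2.2]
  · obtain ⟨z, hA, hB⟩ := hG.flat
    refine ⟨2, 1, ![z.1, z.2], rfl, ?_⟩
    simp [Cub.cf, hA, hB]
  · intro x p
    have e1 : ∀ y q : Fin 2 → ℝ, (1 / 2 : ℝ) * dotProduct q ((Matrix.of (Cub.gM Lam y))⁻¹.mulVec q)
        = Cub.N2 q / (2 * Lam (y 0, y 1)) := fun y q => Cub.H_eq hG.pos y q
    simp only [e1]
    exact Cub.bracket hG x p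
  · rintro ⟨q, hq⟩
    obtain ⟨z, hA, hB⟩ := hG.flat
    have e1 : ∀ y q : Fin 2 → ℝ, (1 / 2 : ℝ) * dotProduct q ((Matrix.of (Cub.gM Lam y))⁻¹.mulVec q)
        = Cub.N2 q / (2 * Lam (y 0, y 1)) := fun y q => Cub.H_eq hG.pos y q
    have h1 := hq ![z.1, z.2] ![2, 1]
    have h2 := hq ![z.1, z.2] ![-2, -1]
    rw [e1] at h1 h2
    simp [Cub.FM, Cub.N2, hA, hB] at h1 h2
    norm_num at h1 h2
    linarith
  · rintro ⟨V, hV, hVper, hVne, hK⟩
    exact Cub.no_killing hG V hV hVper hVne hK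

end Pool.Agent.S13200
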