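import Pool.Statements.S13574
-- import your own Pool.Agent.* helpers here

set_option autoImplicit false
open Pool Pool.MP_916210_gt

namespace Pool.Agent.S13574

open Filter Topology

/-- The topology of pointwise convergence on `C(X, ℝ)`. -/
abbrev tp (X : Type) [TopologicalSpace X] : TopologicalSpace C(X, ℝ) :=
  TopologicalSpace.induced (fun f : C(X, ℝ) => (f : X → ℝ)) inferInstance

theorem tendsto_tp {X : Type} [TopologicalSpace X] (u : ℕ → C(X, ℝ)) (a : C(X, ℝ)) :
    Tendsto u atTop (@nhds _ (tp X) a) ↔ ∀ x, Tendsto (fun k => u k x) atTop (𝓝 (a x)) := by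
  rw [nhds_induced, tendsto_comap_iff, tendsto_pi_nhds]
  rfl

theorem seq_cont {X Y : Type} [TopologicalSpace X] [TopologicalSpace Y]
    (e : C(X, ℝ) → C(Y, ℝ)) (he : @Continuous _ _ (tp X) (tp Y) e)
    (u : ℕ → C(X, ℝ)) (a : C(X, ℝ))
    (h : ∀ x, Tendsto (fun k => u k x) atTop (𝓝 (a x))) (y : Y) :
    Tendsto (fun k => e (u k) y) atTop (𝓝 (e a y)) := by
  have h1 := (tendsto_tp u a).2 h
  have h2 : Tendsto (fun k => e (u k)) atTop (@nhds _ (tp Y) (e a)) :=
    (@Continuous.tendsto _ _ (tp X) (tp Y) e he a).comp h1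
  exact (tendsto_tp _ _).1 h2 y

/-- The set `ℕ × {k}` inside `ℕ × (ω+1)`. -/
def slice (k : ℕ) : Set (ℕ × OnePoint ℕ) := Prod.snd ⁻¹' {(k : OnePoint ℕ)}

theorem slice_clopen (k : ℕ) : IsClopen (slice k) := by
  apply IsClopen.preimage _ continuous_snd
  constructor
  · exact isClosed_singleton
  · have := OnePoint.isOpenEmbedding_coe.isOpenMap (U := ({k} : Set ℕ)) (isOpen_discrete _)
    simpa using this

/-- The characteristic function of `ℕ × {k}`. -/
noncomputable def d (k : ℕ) : C(ℕ × OnePoint ℕ, ℝ) where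
  toFun := (slice k).indicator (fun _ => 1)
  continuous_toFun := (slice_clopen k).continuous_indicator continuous_const

theorem d_coe (k n m : ℕ) : d k (n, (m : OnePoint ℕ)) = if m = k then 1 else 0 := by
  simp only [d, ContinuousMap.coe_mk, Set.indicator, slice, Set.mem_preimage,
    Set.mem_singleton_iff, OnePoint.coe_eq_coe]

theorem d_infty (k n : ℕ) : d k (n, OnePoint.infty) = 0 := by
  simp [d, Set.indicator, slice]

theorem d_eventually (x : ℕ × OnePoint ℕ) : ∀ᶠ k in atTop, d k x = 0 := by
  obtain ⟨n, m⟩ := x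
  induction m using OnePoint.rec with
  | infty => exact Eventually.of_forall fun k => d_infty k n
  | coe m =>
    filter_upwards [eventually_gt_atTop m] with k hk
    rw [d_coe, if_neg hk.ne]

theorem sum_d (K n m : ℕ) :
    (∑ i ∈ Finset.range K, d i) (n, (m : OnePoint ℕ)) = if m < K then 1 else 0 := by
  rw [ContinuousMap.sum_apply]
  simp only [d_coe, Finset.sum_ite_eq, Finset.mem_range]

theorem sum_d_infty (K n : ℕ) :
    (∑ i ∈ Finset.range K, d i) (n, OnePoint.infty) = 0 := by
  rw [ContinuousMap.sum_apply]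
  simp only [d_infty, Finset.sum_const_zero]

theorem no_iso (e : C(ℕ × OnePoint ℕ, ℝ) ≃ₗ[ℝ] C(ℕ, ℝ))
    (he : @Continuous _ _ (tp (ℕ × OnePoint ℕ)) (tp ℕ) (⇑e))
    (he' : @Continuous _ _ (tp ℕ) (tp (ℕ × OnePoint ℕ)) (⇑e.symm)) : False := by
  -- the images of the functions `d k` vanish eventually at every point
  have h0 : ∀ j : ℕ, ∀ᶠ k in atTop, e (d k) j = 0 := by
    intro j
    let c : ℕ → ℝ := fun k => (e (d k) j)⁻¹
    have hlim : Tendsto (fun k => e (c k • d k) j) atTop (𝓝 (e 0 j)) := by
      apply seq_cont e he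
      intro x
      apply tendsto_const_nhds.congr'
      filter_upwards [d_eventually x] with k hk
      simp [hk]
    simp only [map_smul, map_zero, ContinuousMap.smul_apply, ContinuousMap.zero_apply,
      smul_eq_mul] at hlim
    have h1 : ∀ᶠ k in atTop, |c k * e (d k) j| < 1 := by
      have := hlim.abs
      simp only [abs_zero] at this
      exact this.eventually_lt_const one_pos
    filter_upwards [h1] with k hk
    by_contra hne
    simp only [c, inv_mul_cancel₀ hne, abs_one, lt_irrefl] at hk
  -- the partial sums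
  have h1 : ∀ j : ℕ, ∃ g : ℝ, Tendsto (fun K => e (∑ i ∈ Finset.range K, d i) j) atTop (𝓝 g) := by
    intro j
    obtain ⟨N, hN⟩ := eventually_atTop.1 (h0 j)
    refine ⟨e (∑ i ∈ Finset.range N, d i) j, ?_⟩
    apply tendsto_const_nhds.congr'
    filter_upwards [eventually_ge_atTop N] with K hK
    induction K, hK using Nat.le_induction with
    | base => rfl
    | succ K hK ih =>
      rw [Finset.sum_range_succ, map_add, ContinuousMap.add_apply, ← ih, hN K hK, add_zero]
  choose g hg using h1
  let G : C(ℕ, ℝ) := ⟨g, continuous_of_discreteTopology⟩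
  have h2 : ∀ x, Tendsto (fun K => (∑ i ∈ Finset.range K, d i) x) atTop (𝓝 (e.symm G x)) := by
    intro x
    have := seq_cont e.symm he' (fun K => e (∑ i ∈ Finset.range K, d i)) G hg x
    simpa only [LinearEquiv.symm_apply_apply] using this
  have h3 : ∀ m : ℕ, e.symm G (0, (m : OnePoint ℕ)) = 1 := by
    intro m
    refine tendsto_nhds_unique (h2 _) ?_
    apply tendsto_const_nhds.congr'
    filter_upwards [eventually_gt_atTop m] with K hK
    rw [sum_d, if_pos hK]
  have h4 : e.symm G (0, OnePoint.infty) = 0 := by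
    refine tendsto_nhds_unique (h2 _) ?_
    simp only [sum_d_infty]
    exact tendsto_const_nhds
  have h5 : Tendsto (fun m : ℕ => e.symm G (0, (m : OnePoint ℕ))) (coclosedCompact ℕ)
      (𝓝 (e.symm G (0, OnePoint.infty))) := by
    have hc : Continuous fun y : OnePoint ℕ => e.symm G (0, y) :=
      (e.symm G).continuous.comp (Continuous.prodMk_right 0)
    exact (hc.tendsto _).comp OnePoint.tendsto_coe_infty
  rw [h4] at h5
  simp only [h3] at h5
  have : (1 : ℝ) = 0 := tendsto_nhds_unique tendsto_const_nhds h5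
  exact one_ne_zero this

/-- Pull-back along a homeomorphism is a linear homeomorphism for pointwise convergence. -/
theorem homeo_iso {X Y : Type} [TopologicalSpace X] [TopologicalSpace Y] (h : X ≃ₜ Y) :
    ∃ e : C(X, ℝ) ≃ₗ[ℝ] C(Y, ℝ),
      @Continuous _ _ (tp X) (tp Y) (⇑e) ∧ @Continuous _ _ (tp Y) (tp X) (⇑e.symm) := by
  refine ⟨{ toFun := fun f => f.comp ⟨h.symm, h.symm.continuous⟩
            invFun := fun f => f.comp ⟨h, h.continuous⟩
            map_add' := fun _ _ => rfl
            map_smul' := fun _ _ => rfl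
            left_inv := fun f => by ext x; simp
            right_inv := fun f => by ext x; simp }, ?_, ?_⟩
  · refine (@continuous_induced_rng _ _ _ _ _ _ (tp X)).2 ?_
    refine @continuous_pi _ _ _ (tp X) _ _ fun y => ?_
    exact @Continuous.comp _ _ _ (tp X) _ _ _ _ (continuous_apply (h.symm y))
      (@continuous_induced_dom _ _ (fun f : C(X, ℝ) => (f : X → ℝ)) _)
  · refine (@continuous_induced_rng _ _ _ _ _ _ (tp Y)).2 ?_
    refine @continuous_pi _ _ _ (tp Y) _ _ fun y => ?_
    exact @Continuous.comp _ _ _ (tp Y) _ _ _ _ (continuous_apply (h y))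
      (@continuous_induced_dom _ _ (fun f : C(Y, ℝ) => (f : Y → ℝ)) _)


/-- The negation of the preceding statement: For every infinite Tychonoff space X: if C_p(X) is linearly homeomorphic to C_p(X ⊕ A) for each subspace A with a continuous linear extender, then C_p(X × convergent sequence) is linearly homeomorphic to C_p(X). -/
theorem result :
    ¬ (∀ (X : Type) [TopologicalSpace X] [T35Space X] [Infinite X],
      (∀ A : Set X,
        (∃ φ : C(A, ℝ) →ₗ[ℝ] C(X, ℝ),
          @Continuous _ _
            (TopologicalSpace.induced (fun f : C(A, ℝ) => (f : A → ℝ)) inferInstance)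
            (TopologicalSpace.induced (fun f : C(X, ℝ) => (f : X → ℝ)) inferInstance)
            (⇑φ) ∧
          ∀ f : C(A, ℝ), ∀ a : A, φ f a = f a) →
        ∃ e : C(X, ℝ) ≃ₗ[ℝ] C(X ⊕ A, ℝ),
          @Continuous _ _
            (TopologicalSpace.induced (fun f : C(X, ℝ) => (f : X → ℝ)) inferInstance)
            (TopologicalSpace.induced (fun f : C(X ⊕ A, ℝ) => (f : X ⊕ A → ℝ)) inferInstance)
            (⇑e) ∧
          @Continuous _ _
            (TopologicalSpace.induced (fun f : C(X ⊕ A, ℝ) => (f : X ⊕ A → ℝ)) inferInstance)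
            (TopologicalSpace.induced (fun f : C(X, ℝ) => (f : X → ℝ)) inferInstance)
            (⇑e.symm)) →
      ∃ e : C(X × OnePoint ℕ, ℝ) ≃ₗ[ℝ] C(X, ℝ),
        @Continuous _ _
          (TopologicalSpace.induced (fun f : C(X × OnePoint ℕ, ℝ) => (f : X × OnePoint ℕ → ℝ)) inferInstance)
          (TopologicalSpace.induced (fun f : C(X, ℝ) => (f : X → ℝ)) inferInstance)
          (⇑e) ∧
        @Continuous _ _
          (TopologicalSpace.induced (fun f : C(X, ℝ) => (f : X → ℝ)) inferInstance)
          (TopologicalSpace.induced (fun f : C(X × OnePoint ℕ, ℝ) => (f : X × OnePoint ℕ → ℝ)) inferInstance)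
          (⇑e.symm)) := by
  intro H
  obtain ⟨e, he, he'⟩ := H ℕ (by
    intro A _
    have : Infinite (ℕ ⊕ A) := inferInstance
    obtain ⟨f⟩ := nonempty_equiv_of_countable (α := ℕ) (β := ℕ ⊕ A)
    exact homeo_iso (Homeomorph.mk f continuous_of_discreteTopology
      continuous_of_discreteTopology))
  exact no_iso e he he'


end Pool.Agent.S13574
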