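import Pool.Statements.S14209
import Pool.Agent.Lib.MP_f30071_gt.FinG
import Pool.Agent.Lib.MP_f30071_gt.ProfMain

set_option autoImplicit false
open scoped InnerProductSpace Pointwise
open MeasureTheory
open Pool Pool.MP_f30071_gt

namespace Pool.Agent.S14209

/-- For n≥3, a continuous translation invariant SO(n)-equivariant Minkowski valuation mapping some full-dimensional body to a polytope is c1·(projection body) + c2·(K minus Steiner point) + c3·(its reflection), with c1,c2,c3≥0. -/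
theorem result :
  ∀ n : ℕ, 3 ≤ n →
  ∀ h : Set (EuclideanSpace ℝ (Fin n)) → EuclideanSpace ℝ (Fin n) → ℝ,
    h = (fun S u => sSup ((fun y => ⟪u, y⟫_ℝ) '' S)) →
  ∀ s : Set (EuclideanSpace ℝ (Fin n)) → EuclideanSpace ℝ (Fin n),
    s = (fun K => (((n : ℝ) + 2) /
        (MeasureTheory.volume (Metric.ball (0 : EuclideanSpace ℝ (Fin n)) 1)).toReal) •
        ∫ x in Metric.ball (0 : EuclideanSpace ℝ (Fin n)) 1, h K x • x) →
  ∀ Φ : Set (EuclideanSpace ℝ (Fin n)) → Set (EuclideanSpace ℝ (Fin n)),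
  (∀ K : Set (EuclideanSpace ℝ (Fin n)), K.Nonempty → IsCompact K → Convex ℝ K →
     (Φ K).Nonempty ∧ IsCompact (Φ K) ∧ Convex ℝ (Φ K)) →
  (∀ K : Set (EuclideanSpace ℝ (Fin n)), K.Nonempty → IsCompact K → Convex ℝ K →
     ∀ ε : ℝ, 0 < ε → ∃ δ : ℝ, 0 < δ ∧ ∀ L : Set (EuclideanSpace ℝ (Fin n)),
       L.Nonempty → IsCompact L → Convex ℝ L →
       Metric.hausdorffDist L K < δ → Metric.hausdorffDist (Φ L) (Φ K) < ε) →
  (∀ K L : Set (EuclideanSpace ℝ (Fin n)),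
     K.Nonempty → IsCompact K → Convex ℝ K →
     L.Nonempty → IsCompact L → Convex ℝ L →
     Convex ℝ (K ∪ L) → Φ (K ∪ L) + Φ (K ∩ L) = Φ K + Φ L) →
  (∀ K : Set (EuclideanSpace ℝ (Fin n)), K.Nonempty → IsCompact K → Convex ℝ K →
     ∀ t : EuclideanSpace ℝ (Fin n), Φ ((fun x => x + t) '' K) = Φ K) →
  (∀ K : Set (EuclideanSpace ℝ (Fin n)), K.Nonempty → IsCompact K → Convex ℝ K →
     ∀ ϑ : EuclideanSpace ℝ (Fin n) ≃ₗᵢ[ℝ] EuclideanSpace ℝ (Fin n),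
       LinearMap.det (ϑ.toLinearEquiv : EuclideanSpace ℝ (Fin n) →ₗ[ℝ] EuclideanSpace ℝ (Fin n)) = 1 →
       Φ (ϑ '' K) = ϑ '' (Φ K)) →
  (∃ K : Set (EuclideanSpace ℝ (Fin n)), IsCompact K ∧ Convex ℝ K ∧ (interior K).Nonempty ∧
     ∃ P : Finset (EuclideanSpace ℝ (Fin n)), Φ K = convexHull ℝ (P : Set (EuclideanSpace ℝ (Fin n)))) →
  ∃ c₁ c₂ c₃ : ℝ, 0 ≤ c₁ ∧ 0 ≤ c₂ ∧ 0 ≤ c₃ ∧
    ∀ K : Set (EuclideanSpace ℝ (Fin n)), K.Nonempty → IsCompact K → Convex ℝ K →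
    ∀ u : EuclideanSpace ℝ (Fin n), ‖u‖ = 1 →
      h (Φ K) u =
        c₁ * (MeasureTheory.Measure.hausdorffMeasure ((n : ℝ) - 1)
                ((fun x => x - ⟪u, x⟫_ℝ • u) '' K)).toReal
        + c₂ * (h K u - ⟪s K, u⟫_ℝ)
        + c₃ * (h K (-u) + ⟪s K, u⟫_ℝ) := by
  intro n hn h hh s hs' Φ h1 h2 h3 h4 h5 h6
  have hfr : Module.finrank ℝ (EuclideanSpace ℝ (Fin n)) = n := finrank_euclideanSpace_fin
  exact MV.frozen_of_body
    (fun Ψ hΨ K0 hK0 P hP hPK => MV.frozen_core hn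
      (fun Ψ' hΨ' => MV.crease_formula (by rw [hfr]; exact hn) hΨ') Ψ hΨ K0 hK0 P hP hPK)
    h hh s hs' Φ h1 h2 h3 h4 h5 h6

end Pool.Agent.S14209
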