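import Pool.Statements.S14509

set_option autoImplicit false
open Pool Pool.MP_287fcc_lc

namespace Pool.Agent.S14509

/-- The table of a Cayley colouring of `ZMod 41` with four colours. The colour classes are
`±{1,3,7,12,18}`, `±{2,5,8,9,20}`, `±{4,10,11,13,16}`, `±{6,14,15,17,19}`. -/
def tab : List ℕ :=
  [0, 0, 1, 0, 2, 1, 3, 0, 1, 1, 2, 2, 0, 2, 3, 3, 2, 3, 0, 3, 1,
      1, 3, 0, 3, 2, 3, 3, 2, 0, 2, 2, 1, 1, 0, 3, 1, 2, 0, 1, 0]

/-- The colour of a difference. -/
def fc (a : ZMod 41) : Fin 4 := Fin.ofNat 4 (tab.getD a.val 0)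

/-- The colouring of pairs. -/
def cc (x y : ZMod 41) : Fin 4 := fc (x - y)

lemma fc_neg : ∀ a : ZMod 41, fc (-a) = fc a := by decide +kernel

lemma fc_surj : ∀ i : Fin 4, ∃ a : ZMod 41, a ≠ 0 ∧ fc a = i := by decide +kernel

lemma fc_triangle : ∀ a b : ZMod 41, a ≠ 0 → b ≠ 0 → a + b ≠ 0 →
    ¬ (fc a = fc b ∧ fc b = fc (a + b)) := by decide +kernel

lemma fc_path : ∀ a : ZMod 41, a ≠ 0 → ∀ j k : Fin 4, ¬ (j = fc a ∧ k = fc a) →
    ∃ h : ZMod 41, h ≠ 0 ∧ h ≠ a ∧ fc h = j ∧ fc (a - h) = k := by decide +kernel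

/-- the points joined to `x` in colour `j` and to `y` in colour `k` -/
def nb (x y : ZMod 41) (j k : Fin 4) : Finset (ZMod 41) :=
  Finset.univ.filter (fun z : ZMod 41 => z ≠ x ∧ z ≠ y ∧ cc x z = j ∧ cc z y = k)

lemma card_nb_one : (nb 0 1 0 1).card = 3 := by decide +kernel

lemma card_nb_seven : (nb 0 7 0 1).card = 2 := by decide +kernel

lemma cc_eq : cc 0 7 = cc 0 1 := by decide +kernel

lemma cc_symm (x y : ZMod 41) : cc x y = cc y x := by
  unfold cc
  rw [← fc_neg (x - y), neg_sub]

/-- Some n>4 admits a coloring of pairs with n−1 colors, all used, no monochromatic triangle, every non-(i,i) color path realized over each i-edge, that no bijection onto a finite field matches with the index-(n−1) coset coloring of differences. -/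
theorem result :
  ∃ n : ℕ, 4 < n ∧ ∃ (U : Type) (c : U → U → Fin (n - 1)),
    (∀ x y, c x y = c y x) ∧
    (∀ i : Fin (n - 1), ∃ x y, x ≠ y ∧ c x y = i) ∧
    (∀ x y z, x ≠ y → y ≠ z → x ≠ z → ¬ (c x y = c y z ∧ c y z = c x z)) ∧
    (∀ x y, x ≠ y → ∀ j k : Fin (n - 1), ¬ (j = c x y ∧ k = c x y) →
        ∃ z, z ≠ x ∧ z ≠ y ∧ c x z = j ∧ c z y = k) ∧
    ¬ ∃ (F : Type) (_ : Field F) (_ : Fintype F) (e : U ≃ F) (H : Subgroup Fˣ),
        H.index = n - 1 ∧
        ∀ x y x' y', x ≠ y → x' ≠ y' →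
          (c x y = c x' y' ↔ ∃ h ∈ H, e x - e y = (h : F) * (e x' - e y')) := by
  refine ⟨5, by norm_num, ZMod 41, cc, cc_symm, ?_, ?_, ?_, ?_⟩
  · intro i
    obtain ⟨a, ha, hi⟩ := fc_surj i
    exact ⟨a, 0, ha, by unfold cc; rwa [sub_zero]⟩
  · intro x y z hxy hyz hxz h
    have := fc_triangle (x - y) (y - z) (sub_ne_zero.mpr hxy) (sub_ne_zero.mpr hyz)
      (by rw [sub_add_sub_cancel]; exact sub_ne_zero.mpr hxz)
    rw [sub_add_sub_cancel] at this
    exact this h
  · intro x y hxy j k hjk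
    obtain ⟨h, h0, h1, h2, h3⟩ := fc_path (x - y) (sub_ne_zero.mpr hxy) j k hjk
    refine ⟨x - h, ?_, ?_, ?_, ?_⟩
    · intro hx
      exact h0 (by simpa using hx)
    · intro hx
      apply h1
      rw [← hx]
      ring
    · unfold cc
      rw [sub_sub_cancel]
      exact h2
    · unfold cc
      rw [sub_right_comm]
      exact h3
  · rintro ⟨F, _, _, e, H, -, hH⟩
    obtain ⟨h, hmem, hh⟩ := (hH 0 7 0 1 (by decide) (by decide)).mp cc_eq
    have hne : (h : F) ≠ 0 := h.ne_zero
    -- the automorphism sending `0, 1` to `0, 7`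
    let φ : ZMod 41 → ZMod 41 := fun z => e.symm (e 0 + (h : F) * (e z - e 0))
    have hφe : ∀ z, e (φ z) = e 0 + (h : F) * (e z - e 0) := fun z => by
      simp [φ]
    have hφinj : Function.Injective φ := by
      intro z w hzw
      have h1 := hφe z
      rw [hzw, hφe w] at h1
      have h2 : (h : F) * (e w - e 0) = (h : F) * (e z - e 0) := add_left_cancel h1
      have h3 := mul_left_cancel₀ hne h2
      exact e.injective (sub_left_injective h3.symm)
    have hφ0 : φ 0 = 0 := by
      apply e.injective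
      rw [hφe]
      ring
    have hφ1 : φ 1 = 7 := by
      apply e.injective
      rw [hφe]
      linear_combination hh
    have hφc : ∀ z w, z ≠ w → cc (φ z) (φ w) = cc z w := by
      intro z w hzw
      rw [hH (φ z) (φ w) z w (fun h => hzw (hφinj h)) hzw]
      refine ⟨h, hmem, ?_⟩
      rw [hφe, hφe]
      ring
    have hle : (nb 0 1 0 1).card ≤ (nb 0 7 0 1).card := by
      apply Finset.card_le_card_of_injOn φ
      · intro z hz
        simp only [nb, Finset.coe_filter, Finset.mem_univ, true_and, Set.mem_ofPred_eq] at hz ⊢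
        obtain ⟨hz0, hz1, hz2, hz3⟩ := hz
        refine ⟨?_, ?_, ?_, ?_⟩
        · intro h'
          apply hz0
          apply hφinj
          rw [h', hφ0]
        · intro h'
          apply hz1
          apply hφinj
          rw [h', hφ1]
        · have := hφc 0 z (Ne.symm hz0)
          rw [hφ0] at this
          rw [this, hz2]
        · have := hφc z 1 hz1
          rw [hφ1] at this
          rw [this, hz3]
      · exact hφinj.injOn
    rw [card_nb_one, card_nb_seven] at hle
    omega

end Pool.Agent.S14509
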