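import Pool.Statements.S14515
import Pool.Agent.Lib.MP_2900b9_lc.C.Final

set_option autoImplicit false
open Pool Pool.MP_2900b9_lc

namespace Pool.Agent.S14515

/-- If any two non-Borel analytic subsets of Baire space are comparable under continuous reductions, then every analytic game on ω of length ω is determined: player I or player II has a winning strategy. -/
theorem result :
    (∀ A B : Set (ℕ → ℕ),
      MeasureTheory.AnalyticSet A → ¬ @MeasurableSet (ℕ → ℕ) (borel (ℕ → ℕ)) A →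
      MeasureTheory.AnalyticSet B → ¬ @MeasurableSet (ℕ → ℕ) (borel (ℕ → ℕ)) B →
      (∃ f : (ℕ → ℕ) → (ℕ → ℕ), Continuous f ∧ ∀ x, x ∈ B ↔ f x ∈ A) ∨
      (∃ f : (ℕ → ℕ) → (ℕ → ℕ), Continuous f ∧ ∀ x, x ∈ A ↔ f x ∈ B)) →
    ∀ A : Set (ℕ → ℕ), MeasureTheory.AnalyticSet A →
      (∃ σ : List ℕ → ℕ, ∀ z : ℕ → ℕ,
          (∀ n : ℕ, z (2 * n) = σ (List.ofFn fun i : Fin (2 * n) => z i.val)) → z ∈ A) ∨
      (∃ τ : List ℕ → ℕ, ∀ z : ℕ → ℕ,
          (∀ n : ℕ, z (2 * n + 1) = τ (List.ofFn fun i : Fin (2 * n + 1) => z i.val)) → z ∉ A) := by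
  intro hcomp A hA
  exact MP2900.analytic_determined hcomp A hA

end Pool.Agent.S14515
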