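-- Proof of frozen statement S14559 (MP_349b57_lc): the Gamma value 0 is attained below X.
import Pool.Statements.S14559
import Pool.Agent.Lib.MP_349b57_lc.Decode

set_option autoImplicit false
open Pool Pool.MP_349b57_lc

namespace Pool.Agent.S14559

/-- For every set X: if for every ε>0 some Y Turing-below X agrees with every computable set on lower density at most ε, then some Y Turing-below X agrees with every computable set on lower density exactly 0. -/
theorem result :
    ∀ X : ℕ → Bool,
      (∀ ε : ℝ, 0 < ε → ∃ Y : ℕ → Bool,
        TuringReducible (fun n => Part.some (if Y n then 1 else 0))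
          (fun n => Part.some (if X n then 1 else 0)) ∧
        ∀ C : ℕ → Bool, Computable C →
          Filter.liminf
            (fun n : ℕ => ((((Finset.range n).filter (fun k => Y k = C k)).card : ℝ) / (n : ℝ)))
            Filter.atTop ≤ ε) →
      ∃ Y : ℕ → Bool,
        TuringReducible (fun n => Part.some (if Y n then 1 else 0))
          (fun n => Part.some (if X n then 1 else 0)) ∧
        ∀ C : ℕ → Bool, Computable C →
          Filter.liminf
            (fun n : ℕ => ((((Finset.range n).filter (fun k => Y k = C k)).card : ℝ) / (n : ℝ)))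
            Filter.atTop = 0 := by
  intro X hX
  obtain ⟨Z, hZX, hZ⟩ := hX (1 / 512) (by norm_num)
  obtain ⟨cd, hcd, hcode⟩ := GammaZero.exists_computable_code
  have hZ1 : GammaZero.CI {(fun n => Part.some (if X n then 1 else 0) : ℕ →. ℕ)} (GammaZero.zb Z) :=
    ⟨GammaZero.zb Z, RecursiveIn.iff_nat.1 hZX, fun _ => rfl⟩
  have hf := GammaZero.ci_dec hZ1 (GammaZero.CI.of_computable hcd)
  have hioe := GammaZero.exists_ioe hcd hcode (Z := Z) hZ
  obtain ⟨Y, ⟨F, hF, hFe⟩, hY⟩ := GammaZero.exists_of_ioe hf (fun g hg hlt N => hioe g hg hlt N)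
  refine ⟨Y, ?_, hY⟩
  have h1 : F = fun n => if Y n then 1 else 0 := funext fun n => hFe n
  rw [h1] at hF
  exact RecursiveIn.iff_nat.2 hF

end Pool.Agent.S14559
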