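import Pool.Statements.S15577
import Pool.Agent.Lib.MP_ed4bd1_lc.Final

set_option autoImplicit false
open Pool Pool.MP_ed4bd1_lc

namespace Pool.Agent.S15577

/-- Some randomized exploration rule, seeing only the vertices visited and their incident edge lengths, has expected walk length until all vertices are visited at most c times the shortest covering walk from s, on every finite connected positively weighted graph. -/
theorem result :
  ∃ A : List (ℕ × (ℕ → ℝ)) → PMF ℕ, ∃ c : ℝ,
    ∀ (V : Finset ℕ) (w : ℕ → ℕ → ℝ) (s : ℕ),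
      (∀ u v, w u v = w v u) →
      (∀ u v, 0 ≤ w u v) →
      (∀ u v, 0 < w u v → u ∈ V ∧ v ∈ V) →
      (∀ v, w v v = 0) →
      s ∈ V →
      (∀ u ∈ V, ∀ v ∈ V, (SimpleGraph.fromRel (fun a b => 0 < w a b)).Reachable u v) →
      ∀ l : List ℕ, l.head? = some s → l.Chain' (fun a b => 0 < w a b) → (∀ v ∈ V, v ∈ l) →
      ∀ n : ℕ,
        (∑' p : List ℕ,
          ((fun d : PMF (List ℕ) =>
              d.bind (fun p =>
                if (∀ v ∈ V, v ∈ p) then PMF.pure p
                else PMF.map (fun v => p ++ [v]) (A (p.map (fun v => (v, w v))))))^[n]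
            (PMF.pure [s])) p *
          ((p.zip p.tail).map
            (fun e => if 0 < w e.1 e.2 then ENNReal.ofReal (w e.1 e.2) else (⊤ : ENNReal))).sum)
        ≤ ENNReal.ofReal (c * ((l.zip l.tail).map (fun e => w e.1 e.2)).sum) :=
  Pool.Agent.Lib.MP_ed4bd1_lc.final

end Pool.Agent.S15577
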