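import Pool.Statements.S16050
import Pool.Agent.Lib.MP_0f64a9_nt.Final
import Pool.Agent.Lib.MP_0f64a9_nt.Norm
import Pool.Agent.Lib.MP_0f64a9_nt.Reduce

set_option autoImplicit false
open Pool Pool.MP_0f64a9_nt

namespace Pool.Agent.S16050

/-- The negation of the preceding statement: For every positive integer n there is a coloring of the positive integers with n colors such that for every positive a, the numbers a, 2a, ..., na have pairwise distinct colors. -/
theorem result :
    ¬ (∀ n : ℕ, 0 < n →
      ∃ c : ℕ → Fin n, ∀ a : ℕ, 0 < a →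
        Set.InjOn (fun i : ℕ => c (i * a)) (Set.Icc 1 n)) := by
  intro H
  obtain ⟨c, hc⟩ := H 211 (by norm_num)
  haveI : Fact (Nat.Prime 211) := ⟨by norm_num⟩
  obtain ⟨g, h1, h2, h3⟩ := Pool.Agent.Lib.MP_0f64a9_nt.exists_additive hc
  obtain ⟨f, hf⟩ := Pool.Agent.Lib.MP_0f64a9_nt.good_of_additive g h1 h2 h3
  exact Pool.Agent.Lib.MP_0f64a9_nt.no_good f hf

end Pool.Agent.S16050
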