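import Pool.Statements.S19375
import Pool.Agent.Lib.MP_65c995_pr.Kern

set_option autoImplicit false
open MeasureTheory ProbabilityTheory
open Pool Pool.MP_65c995_pr

namespace Pool.Agent.S19375

/-- There exist a compact metric space S, a stationary Markov process (X_i) indexed by the integers with values in S, an integer k>0 and ε>0 such that X_0 and X_k are independent and dist(X_0,X_1) ≥ ε almost surely. -/
theorem result :
    ∃ (S : Type) (_ : MetricSpace S) (_ : CompactSpace S) (_ : MeasurableSpace S)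
      (_ : BorelSpace S) (Ω : Type) (_ : MeasurableSpace Ω) (μ : MeasureTheory.Measure Ω)
      (X : ℤ → Ω → S) (k : ℤ) (ε : ℝ),
      MeasureTheory.IsProbabilityMeasure μ ∧
      (∀ i, Measurable (X i)) ∧
      (∀ n : ℤ, μ.map (fun ω (i : ℤ) => X (i + n) ω) = μ.map (fun ω (i : ℤ) => X i ω)) ∧
      (∀ (n : ℤ) (A : Set S), MeasurableSet A →
        MeasureTheory.condExp (⨆ (m : ℤ) (_ : m ≤ n), MeasurableSpace.comap (X m) inferInstance) μ
          (Set.indicator (X (n + 1) ⁻¹' A) (fun _ => (1 : ℝ)))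
        =ᵐ[μ] MeasureTheory.condExp (MeasurableSpace.comap (X n) inferInstance) μ
          (Set.indicator (X (n + 1) ⁻¹' A) (fun _ => (1 : ℝ)))) ∧
      0 < k ∧ 0 < ε ∧
      ProbabilityTheory.IndepFun (X 0) (X k) μ ∧
      ∀ᵐ ω ∂μ, ε ≤ dist (X 0 ω) (X 1 ω) := by
  obtain ⟨Ω, mΩ, μ, X, h1, h2, h3, h4, h5, h6⟩ :=
    Pool.Agent.Lib.MP_65c995_pr.exists_process Pool.Agent.Lib.MP_65c995_pr.piS
      Pool.Agent.Lib.MP_65c995_pr.kap Pool.Agent.Lib.MP_65c995_pr.kap'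
      Pool.Agent.Lib.MP_65c995_pr.kap_rev Pool.Agent.Lib.MP_65c995_pr.kap_kap
      _ Pool.Agent.Lib.MP_65c995_pr.measSet_same Pool.Agent.Lib.MP_65c995_pr.kap_same
  let _ : MetricSpace Pool.Agent.Lib.MP_65c995_pr.St :=
    TopologicalSpace.metrizableSpaceMetric Pool.Agent.Lib.MP_65c995_pr.St
  -- the colour map is uniformly continuous
  have hc : Continuous (fun x : Pool.Agent.Lib.MP_65c995_pr.St => (x.1.1.toNat + 2 * x.1.2.1 : ℕ)) := by
    have h1 : Continuous (fun p : Pool.Agent.Lib.MP_65c995_pr.Col => (p.1.toNat + 2 * p.2.1 : ℕ)) :=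
      continuous_of_discreteTopology
    exact h1.comp continuous_fst
  have hu := CompactSpace.uniformContinuous_of_continuous hc
  rw [Metric.uniformContinuous_iff] at hu
  obtain ⟨ε, hε, hd⟩ := hu 1 one_pos
  refine ⟨Pool.Agent.Lib.MP_65c995_pr.St, inferInstance, inferInstance, inferInstance,
    inferInstance, Ω, mΩ, μ, X, 2, ε, h1, h2, h3, h4, by norm_num, hε, h5, ?_⟩
  filter_upwards [h6] with ω hω
  by_contra hlt
  rw [not_le] at hlt
  have h := hd hlt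
  rw [Nat.dist_eq] at h
  apply hω
  change (X 0 ω).1 = (X 1 ω).1
  have h' : ((X 0 ω).1.1.toNat + 2 * (X 0 ω).1.2.1 : ℤ) =
      ((X 1 ω).1.1.toNat + 2 * (X 1 ω).1.2.1 : ℤ) := by
    have h0 : |(((X 0 ω).1.1.toNat + 2 * (X 0 ω).1.2.1 : ℕ) : ℝ) -
      (((X 1 ω).1.1.toNat + 2 * (X 1 ω).1.2.1 : ℕ) : ℝ)| < 1 := h
    have h0' : |(((X 0 ω).1.1.toNat + 2 * (X 0 ω).1.2.1 : ℤ)) -
      (((X 1 ω).1.1.toNat + 2 * (X 1 ω).1.2.1 : ℤ))| < 1 := by
      exact_mod_cast h0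
    rw [Int.abs_lt_one_iff] at h0'
    linarith
  have e1 : (X 0 ω).1.1.toNat < 2 := by cases (X 0 ω).1.1 <;> decide
  have e2 : (X 1 ω).1.1.toNat < 2 := by cases (X 1 ω).1.1 <;> decide
  have e3 : (X 0 ω).1.1.toNat = (X 1 ω).1.1.toNat := by omega
  have e4 : (X 0 ω).1.2.1 = (X 1 ω).1.2.1 := by omega
  refine Prod.ext ?_ (Fin.ext e4)
  revert e3
  cases (X 0 ω).1.1 <;> cases (X 1 ω).1.1 <;> simp

end Pool.Agent.S19375
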